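import Pool.Agent.PLN.DehA

/-!
# PLN: a smooth curve of degree at least 2 is not a union of lines through `(0, 0, 1)`

`not_unit`: `SmoothCurve d`, `d` homogeneous of degree `n ≥ 2`, `d ≠ 0`: `aff d` is not a unit of
`R0`. PROOF.  If `aff d` is a unit then its derivative with respect to `t` is `0`, and `derivative
(aff d) = aff (pderiv 2 d)` (derivation of the composition; check on the variables: `Derivation`
extensionality, or induction on `d`: `aff 1`, `C RatFunc.X` have derivative `0`, `X` has
derivative `1`).  By `aff_inj`, `pderiv 2 d = 0` (`d` homogeneous: `IsHomogeneous.pderiv`).  By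
Euler's relation `n d = ∑ x_i ∂_i d` (`MvPolynomial.IsHomogeneous.sum_X_mul_pderiv` or similar)
evaluated at `(0, 0, 1)`: `n d(0, 0, 1) = ∂_2 d (0, 0, 1) = 0`.  `∂_k d` is homogeneous of degree
`n - 1 ≥ 1` and `∂_2 ∂_k d = ∂_k ∂_2 d = 0` (`MvPolynomial.pderiv_pderiv_comm` or a direct check),
so in the same way `(n - 1) ∂_k d (0, 0, 1) = 0`.  So `d` and all `∂_k d` vanish at `(0, 0, 1)`:
contradiction with `SmoothCurve d`.
-/

set_option autoImplicit false

namespace Pool.Agent.PLN

open MvPolynomial

private theorem DegT_der (d : S3) : Polynomial.derivative (aff d) = aff (pderiv 2 d) := by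
  induction d using MvPolynomial.induction_on with
  | C a =>
    rw [pderiv_C, map_zero]
    have h1 : aff (C a : S3) = Polynomial.C (algebraMap ℂ F0 a) := by
      unfold aff
      rw [aeval_C]
      rfl
    rw [h1, Polynomial.derivative_C]
  | add p q hp hq => rw [map_add, map_add, hp, hq, map_add, map_add]
  | mul_X p i hp =>
    rw [map_mul, Polynomial.derivative_mul, hp, pderiv_mul, map_add, map_mul, map_mul]
    congr 1
    congr 1
    fin_cases i
    · change Polynomial.derivative (aff (X 0)) = aff (pderiv 2 (X 0))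
      rw [aff_X0, Polynomial.derivative_one, pderiv_X_of_ne (by decide), map_zero]
    · change Polynomial.derivative (aff (X 1)) = aff (pderiv 2 (X 1))
      rw [aff_X1, Polynomial.derivative_C, pderiv_X_of_ne (by decide), map_zero]
    · change Polynomial.derivative (aff (X 2)) = aff (pderiv 2 (X 2))
      rw [aff_X2, Polynomial.derivative_X, pderiv_X_self, map_one]

private theorem DegT_comm (i j : Fin 3) (d : S3) :
    pderiv i (pderiv j d) = pderiv j (pderiv i d) := by
  have h1 : ⁅(pderiv i : Derivation ℂ S3 S3), (pderiv j : Derivation ℂ S3 S3)⁆ = 0 := by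
    refine MvPolynomial.derivation_ext fun m => ?_
    rw [Derivation.commutator_apply, Derivation.zero_apply]
    classical
    rw [pderiv_X, pderiv_X, Pi.single_apply, Pi.single_apply]
    split_ifs <;> simp
  have h2 := congrArg (fun D : Derivation ℂ S3 S3 => D d) h1
  simp only [Derivation.commutator_apply, Derivation.zero_apply] at h2
  exact sub_eq_zero.1 h2

private theorem DegT_eval {f : S3} {m : ℕ} (hf : f.IsHomogeneous m) (hm : 1 ≤ m)
    (h2 : pderiv 2 f = 0) : eval ![0, 0, 1] f = 0 := by
  have h1 := congrArg (eval ![(0 : ℂ), 0, 1]) hf.sum_X_mul_pderiv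
  rw [map_sum, Fin.sum_univ_three, map_mul, map_mul, map_mul, h2, map_zero, mul_zero, eval_X,
    eval_X, nsmul_eq_mul, map_mul, map_natCast] at h1
  simp only [Matrix.cons_val_zero, Matrix.cons_val_one, zero_mul, add_zero] at h1
  have h3 : (m : ℂ) ≠ 0 := Nat.cast_ne_zero.2 (by omega)
  exact (mul_eq_zero.1 h1.symm).resolve_left h3

theorem not_unit {d : S3} {n : ℕ} (hd : d.IsHomogeneous n) (hn : 2 ≤ n) (h0 : d ≠ 0)
    (hs : SmoothCurve d) : ¬ IsUnit (aff d) := by
  intro hu
  obtain ⟨r, -, hr⟩ := Polynomial.isUnit_iff.1 hu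
  have h1 : aff (pderiv 2 d) = 0 := by
    rw [← DegT_der, ← hr, Polynomial.derivative_C]
  have h2 : pderiv 2 d = 0 := aff_inj hd.pderiv h1
  have h3 : eval ![0, 0, 1] d = 0 := DegT_eval hd (by omega) h2
  obtain ⟨k, hk⟩ := hs ![0, 0, 1] (fun h => one_ne_zero (congrFun h 2)) h3
  refine hk (DegT_eval hd.pderiv (by omega) ?_)
  rw [DegT_comm, h2, map_zero]

end Pool.Agent.PLN
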