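import Pool.Agent.PLN.DehA

/-!
# PLN: the affine chart: divisibility

`dvd_back`: `G, A` homogeneous, `aff G ∣ aff A`: there is a homogeneous `q` with `aff q` a unit and
`G ∣ q * A`.
PROOF.  `aff A = aff G * b`; `clear` for `b`: `aff B = aff q * b`, so
`aff (q * A) = aff (G * B)`, both homogeneous (if `A = 0` take `q = 1`); multiply by powers of `X 0`
(`aff (X 0) = 1`) to make the degrees equal and use `aff_inj`: `X 0 ^ i * q * A = X 0 ^ j * G * B`.

`aff_prime`: `G` irreducible and homogeneous: `aff G` is a unit or a prime of `R0`.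
PROOF.  `aff G ≠ 0` by `aff_inj`.  `G` is prime (`Irreducible.prime`, `S3` is a unique factorization
domain).  Suppose `aff G` is not a unit and `aff G ∣ a * b`.  `clear` for `a` and `b`:
`aff A = aff q * a`, `aff B = aff r * b`, so `aff G ∣ aff (A * B)` and by `dvd_back`
`G ∣ u * (A * B)` with `aff u` a unit.  `G ∣ u` would make `aff G` a unit.  So `G ∣ A` or `G ∣ B`, and
`aff G ∣ aff q * a`, so `aff G ∣ a` (`aff q` is a unit), or in the same way `aff G ∣ b`.

`aff_not_dvd`: `G` irreducible and homogeneous, `aff G` not a unit, `A` homogeneous, `¬ G ∣ A`: then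
`¬ aff G ∣ aff A`.  (`dvd_back`, `G` prime, `G ∣ q` would make `aff G` a unit.)
-/

set_option autoImplicit false

namespace Pool.Agent.PLN

open MvPolynomial

private theorem DehB_X0 : aff (X 0 : S3) = 1 := by
  simp [aff]

theorem dvd_back {G A : S3} {m n : ℕ} (hG : G.IsHomogeneous m) (hA : A.IsHomogeneous n)
    (h : aff G ∣ aff A) : ∃ (q : S3) (k : ℕ), q.IsHomogeneous k ∧ IsUnit (aff q) ∧ G ∣ q * A := by
  obtain ⟨b, hb⟩ := h
  obtain ⟨B, q, i, j, hB, hq, hu, hc⟩ := clear b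
  have hX : (X 0 : S3).IsHomogeneous 1 := isHomogeneous_X ℂ 0
  have h1 : (X 0 ^ (m + i) * q * A - X 0 ^ (j + n) * (G * B) : S3).IsHomogeneous
      ((m + i) + (j + n)) := by
    have e1 : (X 0 ^ (m + i) * q * A : S3).IsHomogeneous ((m + i) + (j + n)) := by
      have := ((hX.pow (m + i)).mul hq).mul hA
      have e : 1 * (m + i) + j + n = (m + i) + (j + n) := by ring
      rwa [e] at this
    have e2 : (X 0 ^ (j + n) * (G * B) : S3).IsHomogeneous ((m + i) + (j + n)) := by
      have := (hX.pow (j + n)).mul (hG.mul hB)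
      have e : 1 * (j + n) + (m + i) = (m + i) + (j + n) := by ring
      rwa [e] at this
    exact e1.sub e2
  have h2 : aff (X 0 ^ (m + i) * q * A - X 0 ^ (j + n) * (G * B) : S3) = 0 := by
    simp only [map_sub, map_mul, map_pow, DehB_X0, one_pow, one_mul, hc, hb]
    ring
  have h3 := aff_inj h1 h2
  refine ⟨X 0 ^ (m + i) * q, 1 * (m + i) + j, (hX.pow (m + i)).mul hq, ?_, ?_⟩
  · simpa only [map_mul, map_pow, DehB_X0, one_pow, one_mul] using hu
  · rw [sub_eq_zero.mp h3]
    exact ⟨X 0 ^ (j + n) * B, by ring⟩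

theorem aff_prime {G : S3} {m : ℕ} (hG : G.IsHomogeneous m) (hi : Irreducible G) :
    IsUnit (aff G) ∨ Prime (aff G) := by
  by_cases hu : IsUnit (aff G)
  · exact Or.inl hu
  refine Or.inr ⟨fun h => hi.ne_zero (aff_inj hG h), hu, fun a b hab => ?_⟩
  obtain ⟨A, q, i, j, hA, hq, huq, hcA⟩ := clear a
  obtain ⟨B, r, k, l, hB, hr, hur, hcB⟩ := clear b
  have h1 : aff G ∣ aff (A * B) := by
    rw [map_mul, hcA, hcB]
    obtain ⟨c, hc⟩ := hab
    exact ⟨aff q * aff r * c, by linear_combination (aff q * aff r) * hc⟩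
  obtain ⟨u, n, hun, huu, hd⟩ := dvd_back hG (hA.mul hB) h1
  have hnd : ∀ v : S3, IsUnit (aff v) → ¬ G ∣ v := by
    rintro v hv ⟨w, rfl⟩
    rw [map_mul] at hv
    exact hu (isUnit_of_mul_isUnit_left hv)
  rcases (hi.prime.dvd_or_dvd hd).resolve_left (hnd u huu) |> hi.prime.dvd_or_dvd with h | h
  · left
    obtain ⟨w, rfl⟩ := h
    rw [map_mul] at hcA
    exact (huq.dvd_mul_left).mp ⟨aff w, hcA.symm⟩
  · right
    obtain ⟨w, rfl⟩ := h
    rw [map_mul] at hcB
    exact (hur.dvd_mul_left).mp ⟨aff w, hcB.symm⟩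

theorem aff_not_dvd {G A : S3} {m n : ℕ} (hG : G.IsHomogeneous m) (hi : Irreducible G)
    (hu : ¬ IsUnit (aff G)) (hA : A.IsHomogeneous n) (h : ¬ G ∣ A) : ¬ aff G ∣ aff A := by
  intro hd
  obtain ⟨q, k, hq, huq, hdq⟩ := dvd_back hG hA hd
  rcases hi.prime.dvd_or_dvd hdq with h1 | h1
  · obtain ⟨w, rfl⟩ := h1
    rw [map_mul] at huq
    exact hu (isUnit_of_mul_isUnit_left huq)
  · exact h h1

end Pool.Agent.PLN
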