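import Pool.Agent.PLN.Defs

/-!
# PLN: determinants and adjugates of graded matrices are homogeneous

`det_hom`: if `P i j` is homogeneous of degree `a i + b j` then `det P` is homogeneous of degree
`∑ a i + ∑ b j` (`Matrix.det_apply`, `IsHomogeneous.sum`, `IsHomogeneous.prod`,
`Finset.sum_add_distrib`, `Equiv.sum_comp`; the sign is a unit of `ℤ`).

`adj_hom`: in the same situation `adj(P) i i` is homogeneous of degree
`∑_{k ≠ i} (a k + b k)` (some degree is enough).
PROOF.  Apply `det_hom` to the submatrix: `adj(P) i i` is the determinant of the matrix with row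
and column `i` deleted (`Matrix.adjugate_fin_succ_eq_det_submatrix` for `Fin (n + 1)`).  Here
only existence of a degree is claimed.

`det_cub`: `IsCub M` implies that `det M` is homogeneous of degree 6; `adj_cub`: `adj(M) j j` is
homogeneous of some degree.  `cubic_hom`: `cubic M` is homogeneous of degree 3.  `net_hom`:
`adj(net N) i i` is homogeneous of some degree.
-/

set_option autoImplicit false

namespace Pool.Agent.PLN

open MvPolynomial Matrix

theorem det_hom {n : ℕ} {P : Matrix (Fin n) (Fin n) S3} {a b : Fin n → ℕ}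
    (h : ∀ i j, (P i j).IsHomogeneous (a i + b j)) :
    P.det.IsHomogeneous (∑ i, a i + ∑ j, b j) := by
  rw [Matrix.det_apply']
  refine IsHomogeneous.sum _ _ _ fun σ _ => ?_
  have h1 : (∏ i, P (σ i) i).IsHomogeneous (∑ i, (a (σ i) + b i)) :=
    IsHomogeneous.prod _ _ _ fun i _ => h (σ i) i
  rw [Finset.sum_add_distrib, Equiv.sum_comp σ a] at h1
  have h2 : (((Equiv.Perm.sign σ : ℤ) : S3)) = C (((Equiv.Perm.sign σ : ℤ) : ℂ)) := by
    rw [map_intCast]
  have h3 := (isHomogeneous_C (Fin 3) (((Equiv.Perm.sign σ : ℤ) : ℂ))).mul h1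
  rw [zero_add] at h3
  rw [h2]
  exact h3

theorem adj_hom {n : ℕ} {P : Matrix (Fin n) (Fin n) S3} {a b : Fin n → ℕ}
    (h : ∀ i j, (P i j).IsHomogeneous (a i + b j)) (i : Fin n) :
    ∃ m : ℕ, (P.adjugate i i).IsHomogeneous m := by
  cases n with
  | zero => exact i.elim0
  | succ n =>
    rw [Matrix.adjugate_fin_succ_eq_det_submatrix]
    have h1 : (P.submatrix i.succAbove i.succAbove).det.IsHomogeneous
        (∑ k, a (i.succAbove k) + ∑ k, b (i.succAbove k)) :=
      det_hom (a := fun k => a (i.succAbove k)) (b := fun k => b (i.succAbove k))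
        fun j k => h (i.succAbove j) (i.succAbove k)
    rw [Even.neg_one_pow ⟨(i : ℕ), rfl⟩, one_mul]
    exact ⟨_, h1⟩

theorem det_cub {M : Matrix (Fin 4) (Fin 4) S3} (hM : IsCub M) : M.det.IsHomogeneous 6 := by
  have h := det_hom (P := M) (a := fun i => 1 + wt i) (b := wt) hM.hom
  have h1 : ∑ i : Fin 4, (1 + wt i) + ∑ j : Fin 4, wt j = 6 := by decide
  rw [h1] at h
  exact h

theorem adj_cub {M : Matrix (Fin 4) (Fin 4) S3} (hM : IsCub M) (j : Fin 4) :
    ∃ m : ℕ, (M.adjugate j j).IsHomogeneous m :=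
  adj_hom (a := fun i => 1 + wt i) (b := wt) hM.hom j

theorem net_hom (N : Fin 3 → Matrix (Fin 6) (Fin 6) ℂ) (i : Fin 6) :
    ∃ m : ℕ, ((net N).adjugate i i).IsHomogeneous m := by
  refine adj_hom (a := fun _ => 1) (b := fun _ => 0) (fun j k => ?_) i
  unfold net
  exact IsHomogeneous.sum _ _ _ fun l _ => isHomogeneous_C_mul_X _ _

theorem cubic_hom {M : Matrix (Fin 4) (Fin 4) S3} (hM : IsCub M) :
    (cubic M).IsHomogeneous 3 := by
  have hz : ∀ i, (zc i).IsHomogeneous (1 - wt i) := by
    intro i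
    fin_cases i
    · exact isHomogeneous_X _ _
    · exact isHomogeneous_X _ _
    · exact isHomogeneous_X _ _
    · exact isHomogeneous_one _ _
  have h3 : ∀ i j : Fin 4, 1 + wt i + wt j + (1 - wt i) + (1 - wt j) = 3 := by decide
  unfold cubic
  refine IsHomogeneous.sum _ _ _ fun i _ => IsHomogeneous.sum _ _ _ fun j _ => ?_
  have h1 : (up (M i j)).IsHomogeneous (1 + wt i + wt j) := (hM.hom i j).rename_isHomogeneous
  have h2 := (h1.mul (hz i)).mul (hz j)
  rw [h3] at h2
  exact h2

end Pool.Agent.PLN
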