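import Pool.Agent.P28.RDefs

/-!
# PLN: rational cubic fourfolds containing a plane (`MP_4d0966_ag`): definitions

`M` is a symmetric 4x4 matrix over `ℂ[x0, x1, x2]` with entries of degrees `1` (the block of the
first three rows and columns), `2` and `3`: the matrix of the cubic form
`cubic M = ∑ a_ij(x) y_i y_j + 2 ∑ b_i(x) y_i + c(x)` in `x0, x1, x2, y0 = X 3, y1 = X 4, y2 = X 5`,
which contains the plane `x = 0`.  `det M = 0` is the discriminant sextic `D`.
`net N = x0 N0 + x1 N1 + x2 N2` is a net of quadrics.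

Affine chart `x0 = 1`, `s = x1`, `t = x2`: `F0 = ℂ(s)`, `R0 = F0[t]`, `K0 = Frac R0`.
`aff : ℂ[x0, x1, x2] → R0`, `affK : ℂ[x0, x1, x2] → K0`.
-/

set_option autoImplicit false

namespace Pool.Agent.PLN

open MvPolynomial Matrix

/-- Polynomials on the base. -/
abbrev S3 : Type := MvPolynomial (Fin 3) ℂ

/-- Polynomials on the space of the cubic. -/
abbrev S6 : Type := MvPolynomial (Fin 6) ℂ

/-- The coordinates on the fibres of the projection from the plane. -/
noncomputable def zc : Fin 4 → S6 := ![X 3, X 4, X 5, 1]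

/-- A polynomial in `x0, x1, x2` as a polynomial in six variables. -/
noncomputable def up : S3 →ₐ[ℂ] S6 := rename (Fin.castLE (by norm_num : 3 ≤ 6))

/-- The cubic form with the matrix `M`. -/
noncomputable def cubic (M : Matrix (Fin 4) (Fin 4) S3) : S6 :=
  ∑ i, ∑ j, up (M i j) * zc i * zc j

/-- `0, 0, 0, 1`. -/
def wt : Fin 4 → ℕ := ![0, 0, 0, 1]

/-- `M` is symmetric, its entries are homogeneous of degrees `1, 2, 3`. -/
structure IsCub (M : Matrix (Fin 4) (Fin 4) S3) : Prop where
  symm : M.IsSymm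
  hom : ∀ i j, (M i j).IsHomogeneous (1 + wt i + wt j)

/-- The plane curve `d = 0` is smooth. -/
def SmoothCurve (d : S3) : Prop :=
  ∀ s : Fin 3 → ℂ, s ≠ 0 → eval s d = 0 → ∃ k, eval s (pderiv k d) ≠ 0

/-- The net of quadrics `x0 N0 + x1 N1 + x2 N2`. -/
noncomputable def net {n : Type} (N : Fin 3 → Matrix n n ℂ) : Matrix n n S3 :=
  fun i j => ∑ k, C (N k i j) * X k

/-- `ℂ(s)`. -/
abbrev F0 : Type := @RatFunc ℂ Field.toCommRing

/-- `ℂ(s)[t]`. -/
abbrev R0 : Type := Polynomial F0

/-- `ℂ(s, t)`: a copy of `RatFunc F0` with a single path of instances. -/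
def K0 : Type := RatFunc F0

noncomputable instance : Field K0 := inferInstanceAs (Field (RatFunc F0))

noncomputable instance : Algebra R0 K0 := inferInstanceAs (Algebra R0 (RatFunc F0))

instance : IsFractionRing R0 K0 := inferInstanceAs (IsFractionRing R0 (RatFunc F0))

instance : CharZero K0 := inferInstanceAs (CharZero (RatFunc F0))

/-- The affine chart `x0 = 1`. -/
noncomputable def aff : S3 →ₐ[ℂ] R0 := aeval ![1, Polynomial.C RatFunc.X, Polynomial.X]

/-- The affine chart, with values in the field. -/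
noncomputable def affK : S3 →+* K0 := (algebraMap R0 K0).comp (aff : S3 →+* R0)

/-- The fibre coordinates of the generic point `x`. -/
def zz {L : Type} [Field L] (x : Fin 6 → L) : Fin 4 → L := ![x 3, x 4, x 5, 1]

/-- `L` contains the function field of the hypersurface `cubic M = 0`: `x` is the generic point
with `x 0 = 1`, and `σ` is the embedding of `ℂ(s, t)` with `s ↦ x 1`, `t ↦ x 2`. -/
structure Model (M : Matrix (Fin 4) (Fin 4) S3) (L : Type) [Field L] [Algebra ℂ L]
    (x : Fin 6 → L) (σ : K0 →+* L) : Prop where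
  x0 : x 0 = 1
  ker : ∀ (G : S6) (m : ℕ), G.IsHomogeneous m → (aeval x G = 0 ↔ cubic M ∣ G)
  com : ∀ a : ℂ, σ (algebraMap R0 K0 (Polynomial.C (algebraMap ℂ F0 a))) = algebraMap ℂ L a
  map_s : σ (algebraMap R0 K0 (Polynomial.C RatFunc.X)) = x 1
  map_t : σ (algebraMap R0 K0 Polynomial.X) = x 2
  lin : ∀ l : Fin 4 → K0, ∑ i, σ (l i) * zz x i = 0 → l = 0

/-- The data on the net: `det (net N) = c det M`, and `p` is a point of the base locus. -/
structure NetData (M : Matrix (Fin 4) (Fin 4) S3) (N : Fin 3 → Matrix (Fin 6) (Fin 6) ℂ) (c : ℂ)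
    (p : Fin 6 → ℂ) : Prop where
  symm : ∀ k, (N k).IsSymm
  c_ne : c ≠ 0
  det : (net N).det = C c * M.det
  p_ne : p ≠ 0
  base : ∀ k, p ⬝ᵥ (N k *ᵥ p) = 0

end Pool.Agent.PLN
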