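import Pool.Agent.P28.HomFac
import Pool.Agent.PLN.Defs
import Pool.Agent.ZIso.Krull

/-!
# PLN: a smooth plane curve is irreducible

`hom_factor`: if `A * B` is homogeneous and not `0` then `A` and `B` are homogeneous.
PROOF.  Let `a0, a1` be the lowest and highest degrees of nonzero homogeneous components of `A`, and
`b0, b1` those of `B`; the components of `A * B` of degrees `a0 + b0` and `a1 + b1` are
`A_{a0} B_{b0} ≠ 0` and `A_{a1} B_{b1} ≠ 0`, so `a0 + b0 = a1 + b1`, `a0 = a1`, `b0 = b1`.
(There are similar lemmas in the library, private ones in Pool/Agent/Kim/DivLine.lean, and perhaps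
others; `totalDegree_mul_of_isDomain`; an elegant way: substitute `X i ↦ T X i` into
`S3[T]`, `A(T x) B(T x) = T^n A(x) B(x)`, and a divisor of `T^n c` in `S3[T]` ... is a monomial
in `T`.)

`smooth_irr`: `d` homogeneous of degree `n ≥ 1`, `d ≠ 0`, `SmoothCurve d`: `d` is irreducible.
PROOF.  `d` is not a unit (degree `≥ 1`).  If `d = A * B` with `A, B` not units: both are
homogeneous
(`hom_factor`) of positive degree (a homogeneous polynomial of degree `0` which is not `0` is a
constant,
a unit), so they have a common zero `s ≠ 0` in `ℂ^3` (`Pool.Agent.ZIso.exists_ne_zero`: two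
polynomials
without constant term in three unknowns), and `d` and `∂_k d = A ∂_k B + B ∂_k A` vanish at `s`:
contradiction.
-/

set_option autoImplicit false

namespace Pool.Agent.PLN

open MvPolynomial

theorem hom_factor {A B : S3} {n : ℕ} (h : (A * B).IsHomogeneous n) (h0 : A * B ≠ 0) :
    ∃ a b : ℕ, A.IsHomogeneous a ∧ B.IsHomogeneous b := by
  obtain ⟨a, b, -, ha, hb⟩ := Pool.Agent.P28.hom_factor h h0
  exact ⟨a, b, ha, hb⟩

theorem smooth_irr {d : S3} {n : ℕ} (hd : d.IsHomogeneous n) (hn : 1 ≤ n) (h0 : d ≠ 0)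
    (hs : SmoothCurve d) : Irreducible d := by
  have hunit : ∀ A : S3, A ≠ 0 → A.IsHomogeneous 0 → IsUnit A := by
    intro A hA hA0
    have h1 : A = C (coeff 0 A) :=
      totalDegree_eq_zero_iff_eq_C.1 ((totalDegree_zero_iff_isHomogeneous _).2 hA0)
    have h2 : coeff 0 A ≠ 0 := by
      intro h3
      rw [h3, map_zero] at h1
      exact hA h1
    rw [h1]
    exact (isUnit_iff_ne_zero.2 h2).map C
  have hconst : ∀ (A : S3) (a : ℕ), A ≠ 0 → A.IsHomogeneous a → ¬ IsUnit A →
      eval (0 : Fin 3 → ℂ) A = 0 := by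
    intro A a hA ha hu
    have ha0 : a ≠ 0 := by
      rintro rfl
      exact hu (hunit A hA ha)
    rw [eval_zero, constantCoeff_eq]
    refine ha.coeff_eq_zero ?_
    rw [map_zero]
    exact ha0.symm
  refine ⟨?_, ?_⟩
  · intro hu
    obtain ⟨u, hu⟩ := hu
    have h1 : d * (↑u⁻¹ : S3) = 1 := by
      rw [← hu]
      exact u.mul_inv
    have h2 : (d * (↑u⁻¹ : S3)).IsHomogeneous 0 := by
      rw [h1]
      exact isHomogeneous_one _ _
    obtain ⟨a, b, hab, ha, -⟩ := Pool.Agent.P28.hom_factor h2 (by rw [h1]; exact one_ne_zero)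
    have h3 := ha.inj_right hd h0
    omega
  · intro A B hAB
    by_contra hcon
    push Not at hcon
    obtain ⟨hA, hB⟩ := hcon
    have hA0 : A ≠ 0 := by
      rintro rfl
      exact h0 (by rw [hAB, zero_mul])
    have hB0 : B ≠ 0 := by
      rintro rfl
      exact h0 (by rw [hAB, mul_zero])
    obtain ⟨a, b, -, ha, hb⟩ := Pool.Agent.P28.hom_factor (hAB ▸ hd) (hAB ▸ h0)
    obtain ⟨s, hs0, hs1⟩ := Pool.Agent.ZIso.exists_ne_zero (K := ℂ) (ι := Fin 3) (κ := Fin 2)
      (by simp) ![A, B] (by
        intro i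
        fin_cases i
        · exact hconst A a hA0 ha hA
        · exact hconst B b hB0 hb hB)
    have hsA : eval s A = 0 := hs1 0
    have hsB : eval s B = 0 := hs1 1
    obtain ⟨k, hk⟩ := hs s hs0 (by rw [hAB, map_mul, hsA, zero_mul])
    apply hk
    rw [hAB, pderiv_mul, map_add, map_mul, map_mul, hsA, hsB, mul_zero, zero_mul, add_zero]

end Pool.Agent.PLN
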