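import Mathlib

/-!
# PLN: quaternary forms with square determinant

`E` is a field of characteristic not `2` such that every ternary quadratic form has a nontrivial
zero (hypothesis `hT`).

`lagr`: a symmetric 4x4 matrix `M` over `E` with `det M = r² ≠ 0` has two linearly independent
vectors `u1, u2` with `u_a^T M u_b = 0`.
PROOF.  There is an isotropic vector `u1 ≠ 0` (restrict to the first three coordinates).  Its
orthogonal complement has dimension 3 and contains `u1`; let `u1, w1, w2` be a basis.  The form on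
`<w1, w2>` is nondegenerate and isotropic: `M` is isometric to `H ⊥ <w1, w2>` (choose `v` with
`u1^T M v = 1`; the Gram matrix of `v, u1, w1, w2` has determinant `- D` times a square, where
`D` is the Gram determinant of `w1, w2`; expand along the row of `u1`, which is `(1, 0, 0, 0)`), so
`- D` is a square, and a binary form with `- D` a square is isotropic: if its matrix is
`[[p, q], [q, e]]`, `q² - p e = k²`: `p = 0`: take `w1`; otherwise `(- q + k) w1 + p w2` has norm
`p (k - q)² + 2 q p (k - q) + e p² = p (k² - q² + p e) = 0`.  `u2` is this vector.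
ALTERNATIVE (coordinates): choose an invertible matrix `P` with columns `v, u1, w1, w2`, so that
`P^T M P = [[α, 1, β1, β2], [1, 0, 0, 0], [β1, 0, p, q], [β2, 0, q, e]]` and take determinants.
-/

set_option autoImplicit false

namespace Pool.Agent.PLN

open Matrix

private theorem Lagr_core {E : Type} [Field E] {M : Matrix (Fin 4) (Fin 4) E} (hM : M.IsSymm)
    (r : E) (hr : r ≠ 0) (hd : M.det = r ^ 2) {x : Fin 4 → E} (hx : x ⬝ᵥ (M *ᵥ x) = 0)
    (hx1 : x 1 ≠ 0) (hm : (M *ᵥ x) 0 ≠ 0) :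
    ∃ y : Fin 4 → E, (∀ a b : E, a • x + b • y = 0 → a = 0 ∧ b = 0) ∧
      x ⬝ᵥ (M *ᵥ y) = 0 ∧ y ⬝ᵥ (M *ᵥ y) = 0 := by
  set m : Fin 4 → E := M *ᵥ x with hmdef
  have hsym : ∀ a b : Fin 4 → E, a ⬝ᵥ (M *ᵥ b) = b ⬝ᵥ (M *ᵥ a) := by
    intro a b
    rw [dotProduct_mulVec, ← mulVec_transpose, hM.eq, dotProduct_comm]
  have hBx : ∀ w : Fin 4 → E, x ⬝ᵥ (M *ᵥ w) = w ⬝ᵥ m := fun w => hsym x w
  set v : Fin 4 → E := ![1, 0, 0, 0] with hv
  set w1 : Fin 4 → E := ![-(m 2), 0, m 0, 0] with hw1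
  set w2 : Fin 4 → E := ![-(m 3), 0, 0, m 0] with hw2
  have hvm : v ⬝ᵥ m = m 0 := by
    simp [hv, dotProduct, Fin.sum_univ_four]
  have hw1m : w1 ⬝ᵥ m = 0 := by
    simp only [hw1, dotProduct, Fin.sum_univ_four]
    simp
    ring
  have hw2m : w2 ⬝ᵥ m = 0 := by
    simp only [hw2, dotProduct, Fin.sum_univ_four]
    simp
    ring
  set p := w1 ⬝ᵥ (M *ᵥ w1) with hp
  set q := w1 ⬝ᵥ (M *ᵥ w2) with hq
  set e := w2 ⬝ᵥ (M *ᵥ w2) with he
  have hkey : q ^ 2 - p * e = (x 1 * m 0 * r) ^ 2 := by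
    set R : Matrix (Fin 4) (Fin 4) E := Matrix.of ![v, x, w1, w2] with hR
    have hdet : (R * M * Rᵀ).det = R.det * M.det * R.det := by
      rw [det_mul, det_mul, det_transpose]
    have hRdet : R.det = x 1 * m 0 ^ 2 := by
      rw [det_succ_row_zero]
      simp only [Fin.sum_univ_four, det_fin_three, hR, hv, hw1, hw2, Matrix.of_apply,
        submatrix_apply]
      simp [Fin.succAbove]
      ring
    have hG : R * M * Rᵀ = !![v ⬝ᵥ (M *ᵥ v), m 0, v ⬝ᵥ (M *ᵥ w1), v ⬝ᵥ (M *ᵥ w2);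
        m 0, 0, 0, 0; v ⬝ᵥ (M *ᵥ w1), 0, p, q; v ⬝ᵥ (M *ᵥ w2), 0, q, e] := by
      have h1 : ∀ i j, (R * M * Rᵀ) i j = R i ⬝ᵥ (M *ᵥ R j) := by
        intro i j
        rw [mul_mul_apply, transpose_transpose]
      ext i j
      rw [h1]
      fin_cases i <;> fin_cases j
      · rfl
      · exact hvm
      · rfl
      · rfl
      · exact (hBx v).trans hvm
      · exact hx
      · exact (hBx w1).trans hw1m
      · exact (hBx w2).trans hw2m
      · exact hsym w1 v
      · exact hw1m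
      · rfl
      · rfl
      · exact hsym w2 v
      · exact hw2m
      · exact hsym w2 w1
      · rfl
    have hGdet : (R * M * Rᵀ).det = m 0 ^ 2 * (q ^ 2 - p * e) := by
      rw [hG, det_succ_row_zero]
      simp only [Fin.sum_univ_four, det_fin_three, submatrix_apply]
      simp [Fin.succAbove]
      ring
    rw [hGdet, hRdet, hd] at hdet
    have hm2 : m 0 ^ 2 ≠ 0 := pow_ne_zero 2 hm
    apply mul_left_cancel₀ hm2
    rw [hdet]
    ring
  by_cases hp0 : p = 0
  · refine ⟨w1, ?_, (hBx w1).trans hw1m, hp0⟩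
    intro a b hab
    have h1 := congrFun hab 1
    have h2 := congrFun hab 2
    simp [hw1] at h1 h2
    have ha : a = 0 := by
      rcases h1 with h1 | h1
      · exact h1
      · exact absurd h1 hx1
    refine ⟨ha, ?_⟩
    rw [ha, zero_mul, zero_add] at h2
    rcases mul_eq_zero.1 h2 with h2 | h2
    · exact h2
    · exact absurd h2 hm
  · set k := x 1 * m 0 * r with hk
    refine ⟨(k - q) • w1 + p • w2, ?_, ?_, ?_⟩
    · intro a b hab
      have h1 := congrFun hab 1
      have h2 := congrFun hab 3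
      simp [hw1, hw2] at h1 h2
      have ha : a = 0 := by
        rcases h1 with h1 | h1
        · exact h1
        · exact absurd h1 hx1
      refine ⟨ha, ?_⟩
      rw [ha, zero_mul, zero_add] at h2
      rcases mul_eq_zero.1 h2 with h2 | h2
      · exact h2
      · rcases mul_eq_zero.1 h2 with h2 | h2
        · exact absurd h2 hp0
        · exact absurd h2 hm
    · rw [hBx, add_dotProduct, smul_dotProduct, smul_dotProduct, hw1m, hw2m]
      simp
    · have h3 : w2 ⬝ᵥ (M *ᵥ w1) = q := hsym w2 w1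
      rw [mulVec_add, mulVec_smul, mulVec_smul, add_dotProduct, dotProduct_add, dotProduct_add,
        smul_dotProduct, smul_dotProduct, smul_dotProduct, smul_dotProduct, dotProduct_smul,
        dotProduct_smul, dotProduct_smul, dotProduct_smul, h3, ← hp, ← hq, ← he]
      simp only [smul_eq_mul]
      linear_combination (-p) * hkey

theorem lagr {E : Type} [Field E] (h2 : (2 : E) ≠ 0)
    (hT : ∀ A : Matrix (Fin 3) (Fin 3) E, ∃ x : Fin 3 → E, x ≠ 0 ∧ x ⬝ᵥ (A *ᵥ x) = 0)
    {M : Matrix (Fin 4) (Fin 4) E} (hM : M.IsSymm) (r : E) (hr : r ≠ 0) (hd : M.det = r ^ 2) :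
    ∃ u1 u2 : Fin 4 → E, (∀ a b : E, a • u1 + b • u2 = 0 → a = 0 ∧ b = 0) ∧
      u1 ⬝ᵥ (M *ᵥ u1) = 0 ∧ u1 ⬝ᵥ (M *ᵥ u2) = 0 ∧ u2 ⬝ᵥ (M *ᵥ u2) = 0 := by
  -- an isotropic vector
  obtain ⟨x₀, hx₀, hxq⟩ := hT (M.submatrix Fin.castSucc Fin.castSucc)
  set x : Fin 4 → E := Fin.snoc x₀ 0 with hx
  have hxc : ∀ i : Fin 3, x i.castSucc = x₀ i := fun i => by
    rw [hx]
    exact Fin.snoc_castSucc (α := fun _ => E) (0 : E) x₀ i
  have hxl : x (Fin.last 3) = 0 := by
    rw [hx]
    exact Fin.snoc_last (α := fun _ => E) (0 : E) x₀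
  have hx0 : x ≠ 0 := by
    intro h
    apply hx₀
    funext i
    rw [← hxc i, h]
    rfl
  have hxx : x ⬝ᵥ (M *ᵥ x) = 0 := by
    rw [← hxq]
    simp only [dotProduct, mulVec]
    rw [Fin.sum_univ_castSucc, hxl, zero_mul, add_zero]
    refine Finset.sum_congr rfl fun i _ => ?_
    rw [hxc i, Fin.sum_univ_castSucc, hxl, mul_zero, add_zero]
    congr 1
  have hMx : M *ᵥ x ≠ 0 := by
    intro h
    apply hx0
    have h1 : IsUnit M.det := by
      rw [hd]
      exact (pow_ne_zero 2 hr).isUnit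
    exact Matrix.eq_zero_of_mulVec_eq_zero h1.ne_zero h
  obtain ⟨i, hi⟩ := Function.ne_iff.1 hMx
  have hj : ∃ j, j ≠ i ∧ x j ≠ 0 := by
    by_contra hcon
    push Not at hcon
    have h1 : x ⬝ᵥ (M *ᵥ x) = x i * (M *ᵥ x) i := by
      rw [dotProduct]
      refine Finset.sum_eq_single i (fun j _ hj => ?_) (fun h => absurd (Finset.mem_univ i) h)
      rw [hcon j hj, zero_mul]
    rw [hxx] at h1
    apply hx0
    funext j
    by_cases hji : j = i
    · rw [hji]
      rcases mul_eq_zero.1 h1.symm with h2 | h2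
      · exact h2
      · exact absurd h2 hi
    · exact hcon j hji
  obtain ⟨j, hji, hxj⟩ := hj
  obtain ⟨σ, hσ0, hσ1⟩ : ∃ σ : Equiv.Perm (Fin 4), σ 0 = i ∧ σ 1 = j := by
    have h1 : ∀ i j : Fin 4, j ≠ i → ∃ σ : Equiv.Perm (Fin 4), σ 0 = i ∧ σ 1 = j := by
      decide
    exact h1 i j hji
  have hmv : ∀ w : Fin 4 → E, (M.submatrix σ σ) *ᵥ (w ∘ σ) = (M *ᵥ w) ∘ σ := by
    intro w
    funext l
    simp only [mulVec, dotProduct, submatrix_apply, Function.comp_apply]
    exact Equiv.sum_comp σ fun t => M (σ l) t * w t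
  have hdp : ∀ a b : Fin 4 → E, (a ∘ σ) ⬝ᵥ (b ∘ σ) = a ⬝ᵥ b := by
    intro a b
    simp only [dotProduct, Function.comp_apply]
    exact Equiv.sum_comp σ fun t => a t * b t
  obtain ⟨y, hy1, hy2, hy3⟩ := Lagr_core (M := M.submatrix σ σ) (x := x ∘ σ) (hM.submatrix σ) r hr
    (by rw [det_submatrix_equiv_self, hd]) (by rw [hmv, hdp, hxx])
    (by rw [Function.comp_apply, hσ1]; exact hxj)
    (by rw [hmv, Function.comp_apply, hσ0]; exact hi)
  have hyσ : (y ∘ σ.symm) ∘ σ = y := by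
    funext l
    simp
  refine ⟨x, y ∘ σ.symm, ?_, hxx, ?_, ?_⟩
  · intro a b hab
    apply hy1 a b
    funext l
    have h3 := congrFun hab (σ l)
    simpa using h3
  · rw [← hdp, ← hmv, hyσ]
    exact hy2
  · rw [← hdp, ← hmv, hyσ]
    exact hy3

end Pool.Agent.PLN
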