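import Pool.Agent.PLN.PrimCol

/-!
# PLN: a totally isotropic plane modulo a prime

`R` is a principal ideal domain, `γ` a prime.  `Ruled M γ`: the symmetric 4x4 matrix `M` has a totally
isotropic plane modulo `γ`, spanned by `u1, u2` (independent modulo `γ`).

`exists_gl2`: there are an invertible `U` over `R` and `a c d` with `γ ∤ a`, `γ ∤ d` such that
`u1 = a U e_0` and `u2 = c U e_0 + d U e_1`.
PROOF.  `u1 ≠ 0`, `u1 = a x1` with `x1` primitive (`exists_content`), `γ` does not divide `a`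
(otherwise `γ ∣ 1 * u1 i + 0 * u2 i`, and independence gives `γ ∣ 1`).  `U1` invertible with column
`0` equal to `x1` (`exists_gl`).  `U1⁻¹ u2 = (c, β)`, `β : Fin 3 → R` is not divisible by `γ`:
otherwise `u2 = c x1` modulo `γ`, and `a u2 - c u1 = 0` modulo `γ`, so `γ ∣ a`.  `β = d β'` with `β'`
primitive, `γ ∤ d`; `U2` an invertible 3x3 matrix with first column `β'`; `U = U1 * (1 ⊕ U2)`
(`Matrix.fromBlocks` and `reindex` along `Fin 1 ⊕ Fin 3 ≃ Fin 4`, or
`Matrix.vecCons` / `Matrix.of` with `Fin.cons`).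
-/

set_option autoImplicit false

namespace Pool.Agent.PLN

open Matrix

/-- `M` has a totally isotropic plane modulo `γ`. -/
def Ruled {R : Type} [CommRing R] (M : Matrix (Fin 4) (Fin 4) R) (γ : R) : Prop :=
  ∃ u1 u2 : Fin 4 → R, (∀ a b : R, (∀ i, γ ∣ a * u1 i + b * u2 i) → γ ∣ a ∧ γ ∣ b) ∧
    γ ∣ u1 ⬝ᵥ (M *ᵥ u1) ∧ γ ∣ u1 ⬝ᵥ (M *ᵥ u2) ∧ γ ∣ u2 ⬝ᵥ (M *ᵥ u2)

variable {R : Type} [CommRing R] [IsDomain R] [IsPrincipalIdealRing R]

theorem exists_gl2 {γ : R} (hγ : Prime γ) {u1 u2 : Fin 4 → R}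
    (hi : ∀ a b : R, (∀ i, γ ∣ a * u1 i + b * u2 i) → γ ∣ a ∧ γ ∣ b) :
    ∃ (U : Matrix (Fin 4) (Fin 4) R) (a c d : R), IsUnit U.det ∧ ¬ γ ∣ a ∧ ¬ γ ∣ d ∧
      (∀ i, u1 i = a * U i 0) ∧ ∀ i, u2 i = c * U i 0 + d * U i 1 := by
  have hu1 : u1 ≠ 0 := by
    intro h
    have h1 := (hi 1 0 (fun i => by rw [h]; simp)).1
    exact hγ.not_isUnit (isUnit_of_dvd_one h1)
  obtain ⟨a, x1, hx1, -, hw1⟩ := exists_content hu1
  have hx1' : ∀ i, u1 i = a * x1 i := fun i => by rw [hx1]; simp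
  have ha : ¬ γ ∣ a := by
    intro h
    have h1 := (hi 1 0 (fun i => by
      rw [hx1' i, one_mul, zero_mul, add_zero]
      exact h.mul_right _)).1
    exact hγ.not_isUnit (isUnit_of_dvd_one h1)
  obtain ⟨U1, hU1, hc⟩ := exists_gl hw1 (0 : Fin 4)
  obtain ⟨y, hy⟩ : ∃ y : Fin 4 → R, U1 *ᵥ y = u2 := by
    refine ⟨U1⁻¹ *ᵥ u2, ?_⟩
    rw [Matrix.mulVec_mulVec, Matrix.mul_nonsing_inv _ hU1, Matrix.one_mulVec]
  have hu2 : ∀ i, u2 i = U1 i 0 * y 0 + ∑ j : Fin 3, U1 i j.succ * y j.succ := by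
    intro i
    rw [← hy]
    exact Fin.sum_univ_succ (fun j => U1 i j * y j)
  have hβ : ¬ ∀ j : Fin 3, γ ∣ y j.succ := by
    intro h
    refine ha (hi (-y 0) a (fun i => ?_)).2
    have h1 : -y 0 * u1 i + a * u2 i = a * ∑ j : Fin 3, U1 i j.succ * y j.succ := by
      rw [hx1' i, hu2 i, hc i]
      ring
    rw [h1]
    exact (Finset.dvd_sum fun j _ => (h j).mul_left _).mul_left _
  have hβ0 : (fun j : Fin 3 => y j.succ) ≠ 0 := by
    intro h
    refine hβ fun j => ?_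
    have h1 := congrFun h j
    simp only [Pi.zero_apply] at h1
    rw [h1]
    exact dvd_zero γ
  obtain ⟨d, b, hb, -, hw2⟩ := exists_content hβ0
  have hb' : ∀ j : Fin 3, y j.succ = d * b j := fun j => by
    have h1 := congrFun hb j
    simpa using h1
  have hd : ¬ γ ∣ d := by
    intro h
    refine hβ fun j => ?_
    rw [hb' j]
    exact h.mul_right _
  obtain ⟨U2, hU2, hc2⟩ := exists_gl hw2 (0 : Fin 3)
  let W : Matrix (Fin 4) (Fin 4) R :=
    Matrix.of (Fin.cons (Fin.cons 1 (fun _ => 0)) (fun i => Fin.cons 0 (U2 i)))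
  have hW00 : W 0 0 = 1 := rfl
  have hW0s : ∀ j : Fin 3, W 0 j.succ = 0 := fun j => rfl
  have hWs0 : ∀ i : Fin 3, W i.succ 0 = 0 := fun i => rfl
  have hWss : ∀ i j : Fin 3, W i.succ j.succ = U2 i j := fun i j => rfl
  have hWdet : W.det = U2.det := by
    rw [Matrix.det_succ_row_zero, Fin.sum_univ_succ, Finset.sum_eq_zero, add_zero]
    · rw [hW00]
      simp only [Fin.val_zero, pow_zero, one_mul]
      congr 1
    · intro j _
      rw [hW0s j]
      ring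
  refine ⟨U1 * W, a, y 0, d, ?_, ha, hd, ?_, ?_⟩
  · rw [Matrix.det_mul, hWdet]
    exact hU1.mul hU2
  · intro i
    have h1 : (U1 * W) i 0 = x1 i := by
      rw [Matrix.mul_apply, Fin.sum_univ_succ, hW00, hc i]
      simp [hWs0]
    rw [h1, hx1' i]
  · intro i
    have h1 : (U1 * W) i 0 = x1 i := by
      rw [Matrix.mul_apply, Fin.sum_univ_succ, hW00, hc i]
      simp [hWs0]
    have h2 : (U1 * W) i 1 = ∑ j : Fin 3, U1 i j.succ * b j := by
      have h3 : (1 : Fin 4) = (0 : Fin 3).succ := rfl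
      rw [h3, Matrix.mul_apply, Fin.sum_univ_succ, hW0s 0, mul_zero, zero_add]
      refine Finset.sum_congr rfl fun j _ => ?_
      rw [hWss j 0, hc2 j]
    rw [h1, h2, hu2 i, hc i, Finset.mul_sum, mul_comm (x1 i)]
    congr 1
    refine Finset.sum_congr rfl fun j _ => ?_
    rw [hb' j]
    ring

end Pool.Agent.PLN
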