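import Pool.Agent.DCIG.CommonZero
import Mathlib.FieldTheory.RatFunc.Basic

/-!
# PLN: Tsen's theorem for quadratic forms

`tsen`: `E` is a finite extension of `ℂ(s)`; every ternary quadratic form over `E` (given by a
symmetric or any matrix `A`) has a nontrivial zero.
PROOF.  Let `e_1, ..., e_k` be a basis of `E` over `ℂ(s)` (`k ≥ 1`), and let
`e_a e_b A_ij = ∑_c (p_{abijc} / q) e_c` with polynomials `p`, `q ≠ 0` in `ℂ[s]` (common denominator),
all `p` of degree `≤ d`.  For `m` a natural number consider
`x_i = ∑_{a, l ≤ m} c_{i a l} s^l e_a` with unknown `c_{i a l} ∈ ℂ`: `3 k (m + 1)` unknowns.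
`q ∑ A_ij x_i x_j = ∑_c P_c(s) e_c`, where `P_c` is a polynomial in `s` of degree `≤ 2 m + d` whose
coefficients are quadratic forms in the unknowns: `k (2 m + d + 1)` equations without constant term.
For `m ≥ d` there are more unknowns than equations (`3 m + 3 > 2 m + d + 1`), and
`DCIG.exists_common_zero` gives a nontrivial common zero, so `x ≠ 0` (the `s^l e_a` are linearly
independent over `ℂ`) and `∑ A_ij x_i x_j = 0`.
(The equations are elements of `MvPolynomial (Fin 3 × Fin k × Fin (m + 1)) ℂ`.)
-/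

set_option autoImplicit false

namespace Pool.Agent.PLN

open Matrix

open Polynomial in
/-- The polynomial with the coefficients `x l`. -/
private noncomputable def tsenY {R : Type} [CommRing R] {m : ℕ} (x : Fin (m + 1) → R) : R[X] :=
  ∑ l : Fin (m + 1), C (x l) * X ^ (l : ℕ)

open Polynomial in
private theorem tsenY_natDegree {R : Type} [CommRing R] {m : ℕ} (x : Fin (m + 1) → R) :
    (tsenY x).natDegree ≤ m := by
  unfold tsenY
  refine natDegree_sum_le_of_forall_le _ _ fun l _ => ?_
  exact (natDegree_C_mul_X_pow_le _ _).trans (Nat.lt_succ_iff.1 l.2)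

open Polynomial in
private theorem tsenY_map {R S : Type} [CommRing R] [CommRing S] (f : R →+* S) {m : ℕ}
    (x : Fin (m + 1) → R) : (tsenY x).map f = tsenY fun l => f (x l) := by
  unfold tsenY
  rw [Polynomial.map_sum]
  refine Finset.sum_congr rfl fun l _ => ?_
  rw [Polynomial.map_mul, Polynomial.map_pow, map_C, map_X]

open Polynomial in
private theorem tsenY_coeff {R : Type} [CommRing R] {m : ℕ} (x : Fin (m + 1) → R)
    (l : Fin (m + 1)) : (tsenY x).coeff l = x l := by
  unfold tsenY
  rw [finsetSum_coeff, Finset.sum_eq_single l]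
  · rw [coeff_C_mul, coeff_X_pow, if_pos rfl, mul_one]
  · intro l' _ hl
    rw [coeff_C_mul, coeff_X_pow, if_neg, mul_zero]
    exact fun h => hl (Fin.ext h.symm)
  · exact fun h => absurd (Finset.mem_univ l) h

open Polynomial in
/-- The quadratic expression in polynomials. -/
private noncomputable def tsenP {R : Type} [CommRing R] {k : ℕ}
    (p : Fin k × Fin k × Fin 3 × Fin 3 × Fin k → R[X]) (y : Fin 3 → Fin k → R[X]) (c : Fin k) :
    R[X] :=
  ∑ i, ∑ j, ∑ a, ∑ b, y i a * y j b * p (a, b, i, j, c)

open Polynomial in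
private theorem tsenP_natDegree {R : Type} [CommRing R] {k m d : ℕ}
    (p : Fin k × Fin k × Fin 3 × Fin 3 × Fin k → R[X]) (y : Fin 3 → Fin k → R[X]) (c : Fin k)
    (hy : ∀ i a, (y i a).natDegree ≤ m) (hp : ∀ w, (p w).natDegree ≤ d) :
    (tsenP p y c).natDegree ≤ m + m + d := by
  unfold tsenP
  refine natDegree_sum_le_of_forall_le _ _ fun i _ => ?_
  refine natDegree_sum_le_of_forall_le _ _ fun j _ => ?_
  refine natDegree_sum_le_of_forall_le _ _ fun a _ => ?_
  refine natDegree_sum_le_of_forall_le _ _ fun b _ => ?_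
  exact natDegree_mul_le_of_le (natDegree_mul_le_of_le (hy i a) (hy j b)) (hp _)

open Polynomial in
private theorem tsenP_map {R S : Type} [CommRing R] [CommRing S] (f : R →+* S) {k : ℕ}
    (p : Fin k × Fin k × Fin 3 × Fin 3 × Fin k → R[X]) (y : Fin 3 → Fin k → R[X]) (c : Fin k) :
    (tsenP p y c).map f = tsenP (fun w => (p w).map f) (fun i a => (y i a).map f) c := by
  unfold tsenP
  simp only [Polynomial.map_sum, Polynomial.map_mul]

open Polynomial in
/-- Polynomials `y i a`, not all zero, with all quadratic expressions zero. -/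
private theorem tsen_exists {k : ℕ} (hk : 0 < k)
    (p : Fin k × Fin k × Fin 3 × Fin 3 × Fin k → ℂ[X]) :
    ∃ y : Fin 3 → Fin k → ℂ[X], (∃ i a, y i a ≠ 0) ∧ ∀ c, tsenP p y c = 0 := by
  classical
  obtain ⟨d, hd⟩ : ∃ d, ∀ w, (p w).natDegree ≤ d :=
    ⟨Finset.univ.sup fun w => (p w).natDegree,
      fun w => Finset.le_sup (f := fun w => (p w).natDegree) (Finset.mem_univ w)⟩
  let ι : Type := Fin 3 × Fin k × Fin (d + 1)
  let σ : Type := Fin k × Fin (d + d + d + 1)
  let gy : Fin 3 → Fin k → (MvPolynomial ι ℂ)[X] :=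
    fun i a => tsenY fun l => MvPolynomial.X (i, a, l)
  let gP : Fin k → (MvPolynomial ι ℂ)[X] :=
    tsenP (fun w => (p w).map MvPolynomial.C) gy
  let F : σ → MvPolynomial ι ℂ := fun s => (gP s.1).coeff (s.2 : ℕ)
  have hev : ∀ (x : ι → ℂ) (c : Fin k), (gP c).map (MvPolynomial.eval x) =
      tsenP p (fun i a => tsenY fun l => x (i, a, l)) c := by
    intro x c
    change (tsenP _ gy c).map _ = _
    rw [tsenP_map]
    congr 1
    · funext w
      rw [Polynomial.map_map]
      have : (MvPolynomial.eval x).comp MvPolynomial.C = RingHom.id ℂ := by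
        ext z
        · simp
      rw [this, Polynomial.map_id]
    · funext i a
      change (tsenY _).map _ = _
      rw [tsenY_map]
      congr 1
      funext l
      exact MvPolynomial.eval_X _
  have hF : ∀ (x : ι → ℂ) (s : σ), MvPolynomial.eval x (F s) =
      (tsenP p (fun i a => tsenY fun l => x (i, a, l)) s.1).coeff (s.2 : ℕ) := by
    intro x s
    rw [← hev, Polynomial.coeff_map]
  have hcard : Fintype.card σ < Fintype.card ι := by
    simp only [σ, ι, Fintype.card_prod, Fintype.card_fin]
    nlinarith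
  obtain ⟨x, hx0, hx⟩ := DCIG.exists_common_zero F hcard (by
    intro s
    rw [hF]
    have h0 : tsenP p (fun (i : Fin 3) (a : Fin k) => tsenY fun l : Fin (d + 1) =>
        (0 : ι → ℂ) (i, a, l)) s.1 = 0 := by
      unfold tsenP tsenY
      simp
    rw [h0, Polynomial.coeff_zero])
  refine ⟨fun i a => tsenY fun l => x (i, a, l), ?_, fun c => ?_⟩
  · by_contra hcon
    push Not at hcon
    apply hx0
    funext w
    obtain ⟨i, a, l⟩ := w
    have h1 := congrArg (fun f : ℂ[X] => f.coeff l) (hcon i a)
    simp only [tsenY_coeff, Polynomial.coeff_zero] at h1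
    exact h1
  · ext t
    rw [Polynomial.coeff_zero]
    by_cases ht : t < d + d + d + 1
    · have h1 := hx (c, ⟨t, ht⟩)
      rw [hF] at h1
      exact h1
    · refine Polynomial.coeff_eq_zero_of_natDegree_lt ?_
      have h1 := tsenP_natDegree (m := d) (d := d) p
        (fun i a => tsenY fun l : Fin (d + 1) => x (i, a, l)) c
        (fun i a => tsenY_natDegree _) hd
      omega

theorem tsen {E : Type} [Field E] [Algebra (RatFunc ℂ) E] [FiniteDimensional (RatFunc ℂ) E]
    (A : Matrix (Fin 3) (Fin 3) E) : ∃ x : Fin 3 → E, x ≠ 0 ∧ x ⬝ᵥ (A *ᵥ x) = 0 := by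
  classical
  let b := Module.finBasis (RatFunc ℂ) E
  have hkpos : 0 < Module.finrank (RatFunc ℂ) E := Module.finrank_pos
  let K := Module.finrank (RatFunc ℂ) E
  let u : Fin K × Fin K × Fin 3 × Fin 3 × Fin K → RatFunc ℂ :=
    fun w => b.repr (b w.1 * b w.2.1 * A w.2.2.1 w.2.2.2.1) w.2.2.2.2
  obtain ⟨q, hq⟩ := IsLocalization.exist_integer_multiples_of_finite
    (nonZeroDivisors (Polynomial ℂ)) u
  choose p hp using hq
  obtain ⟨y, ⟨i0, a0, hy0⟩, hy⟩ := tsen_exists hkpos p
  let f : Polynomial ℂ →+* RatFunc ℂ := algebraMap (Polynomial ℂ) (RatFunc ℂ)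
  have hfinj : Function.Injective f := IsFractionRing.injective (Polynomial ℂ) (RatFunc ℂ)
  have hq0 : f (q : Polynomial ℂ) ≠ 0 := by
    intro h
    have h1 : (q : Polynomial ℂ) = 0 := hfinj (h.trans (map_zero f).symm)
    exact nonZeroDivisors.ne_zero q.2 h1
  have hp' : ∀ w, f (p w) = f (q : Polynomial ℂ) * u w := by
    intro w
    have h1 := hp w
    rw [Algebra.smul_def] at h1
    exact h1
  let v : Fin 3 → E := fun i => ∑ a, f (y i a) • b a
  refine ⟨v, ?_, ?_⟩
  · intro hv
    have h1 : v i0 = 0 := by rw [hv]; rfl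
    have h2 := (Fintype.linearIndependent_iff.1 b.linearIndependent) (fun a => f (y i0 a)) h1 a0
    exact hy0 (hfinj (h2.trans (map_zero f).symm))
  · have hexp : v ⬝ᵥ (A *ᵥ v) = ∑ i, ∑ j, ∑ a, ∑ a',
        (f (y i a) * f (y j a')) • (b a * b a' * A i j) := by
      simp only [dotProduct, mulVec, v, Finset.mul_sum, Finset.sum_mul]
      refine Finset.sum_congr rfl fun i _ => Finset.sum_congr rfl fun j _ => ?_
      rw [Finset.sum_comm]
      refine Finset.sum_congr rfl fun a _ => Finset.sum_congr rfl fun a' _ => ?_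
      simp only [Algebra.smul_def, map_mul]
      ring
    have hz : f (q : Polynomial ℂ) • (v ⬝ᵥ (A *ᵥ v)) = 0 := by
      apply b.repr.injective
      rw [map_zero]
      ext c
      rw [Finsupp.zero_apply, map_smul, Finsupp.smul_apply, hexp]
      simp only [map_sum, map_smul, Finsupp.coe_finsetSum, Finset.sum_apply, Finsupp.smul_apply,
        smul_eq_mul, Finset.mul_sum]
      have h3 := congrArg f (hy c)
      rw [map_zero] at h3
      rw [← h3]
      unfold tsenP
      simp only [map_sum, map_mul]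
      refine Finset.sum_congr rfl fun i _ => Finset.sum_congr rfl fun j _ =>
        Finset.sum_congr rfl fun a _ => Finset.sum_congr rfl fun a' _ => ?_
      rw [hp' (a, a', i, j, c)]
      ring
    exact (smul_eq_zero.1 hz).resolve_left hq0

end Pool.Agent.PLN
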