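import Pool.Agent.PLN.Defs
import Pool.Agent.PLN.Ruled
import Pool.Agent.PLN.Tsen
import Pool.Agent.PLN.Lagr

/-!
# PLN: a curve over which the discriminant is a square

`ruled_of_split`: `γ` is a prime of `R0 = ℂ(s)[t]`, `M` symmetric 4x4 over `R0`, `γ` does not divide
`det M`, and `det M` is a square modulo `γ` (`γ ∣ b² det M - a²`, `γ ∤ b`).  Then `M` has a totally
isotropic plane modulo `γ`.
PROOF.  `E = AdjoinRoot γ` is a field (`Fact (Irreducible γ)`), finite over `F0 = ℂ(s)`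
(`AdjoinRoot.powerBasis`).  Over `E`, `det M = (a / b)²` is not `0`.  Apply `lagr` with `tsen`,
lift `u1`, `u2` to vectors over `R0` (`AdjoinRoot.mk_surjective`; `AdjoinRoot.mk_eq_zero`).
-/

set_option autoImplicit false

namespace Pool.Agent.PLN

open Matrix

theorem ruled_of_split {M : Matrix (Fin 4) (Fin 4) R0} (hM : M.IsSymm) {γ : R0} (hγ : Prime γ)
    (hn : ¬ γ ∣ M.det) (a b : R0) (hb : ¬ γ ∣ b) (hab : γ ∣ b ^ 2 * M.det - a ^ 2) :
    Ruled M γ := by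
  have hfact : Fact (Irreducible γ) := ⟨hγ.irreducible⟩
  have hfin : FiniteDimensional F0 (AdjoinRoot γ) := (AdjoinRoot.powerBasis hγ.ne_zero).finite
  have h2 : (2 : AdjoinRoot γ) ≠ 0 := by
    intro h
    have h1 : algebraMap F0 (AdjoinRoot γ) (algebraMap ℂ F0 2) = 0 := by
      rw [map_ofNat, map_ofNat]
      exact h
    have h3 : (algebraMap ℂ F0 2) = 0 :=
      (algebraMap F0 (AdjoinRoot γ)).injective (by rw [h1, map_zero])
    have h4 : (2 : ℂ) = 0 := (algebraMap ℂ F0).injective (by rw [h3, map_zero])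
    exact two_ne_zero h4
  obtain ⟨f, hf⟩ : ∃ f : R0 →+* AdjoinRoot γ, f = AdjoinRoot.mk γ := ⟨_, rfl⟩
  have hf0 : ∀ x, f x = 0 ↔ γ ∣ x := fun x => by rw [hf, AdjoinRoot.mk_eq_zero]
  have hfs : Function.Surjective f := by
    rw [hf]
    exact AdjoinRoot.mk_surjective
  have hMs : (M.map f).IsSymm := hM.map f
  have hdet : (M.map f).det = f M.det := by
    rw [RingHom.map_det, RingHom.mapMatrix_apply]
  have hb0 : f b ≠ 0 := fun h => hb ((hf0 b).1 h)
  have hd0 : f M.det ≠ 0 := fun h => hn ((hf0 _).1 h)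
  have hab' : f b ^ 2 * f M.det = f a ^ 2 := by
    have h := (hf0 _).2 hab
    rw [map_sub, map_mul, map_pow, map_pow, sub_eq_zero] at h
    exact h
  have hr2 : (M.map f).det = (f a / f b) ^ 2 := by
    rw [hdet, div_pow, ← hab']
    field_simp
  have hr : f a / f b ≠ 0 := by
    intro h
    rw [h, hdet] at hr2
    apply hd0
    rw [hr2]
    norm_num
  obtain ⟨u1, u2, hi, h11, h12, h22⟩ := lagr h2 tsen hMs _ hr hr2
  obtain ⟨U1, hU1⟩ : ∃ U1 : Fin 4 → R0, ∀ i, f (U1 i) = u1 i := by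
    choose U1 hU1 using fun i => hfs (u1 i)
    exact ⟨U1, hU1⟩
  obtain ⟨U2, hU2⟩ : ∃ U2 : Fin 4 → R0, ∀ i, f (U2 i) = u2 i := by
    choose U2 hU2 using fun i => hfs (u2 i)
    exact ⟨U2, hU2⟩
  have hq : ∀ (V W : Fin 4 → R0) (v w : Fin 4 → AdjoinRoot γ), (∀ i, f (V i) = v i) →
      (∀ i, f (W i) = w i) → f (V ⬝ᵥ (M *ᵥ W)) = v ⬝ᵥ (M.map f *ᵥ w) := by
    intro V W v w hV hW
    simp only [dotProduct, mulVec, map_sum, map_mul, Matrix.map_apply, hV, hW]
  refine ⟨U1, U2, fun x y h => ?_, ?_, ?_, ?_⟩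
  · have h1 : f x • u1 + f y • u2 = 0 := by
      funext i
      have h3 := (hf0 _).2 (h i)
      rw [map_add, map_mul, map_mul, hU1, hU2] at h3
      simpa using h3
    obtain ⟨h3, h4⟩ := hi _ _ h1
    exact ⟨(hf0 _).1 h3, (hf0 _).1 h4⟩
  · rw [← hf0, hq U1 U1 u1 u1 hU1 hU1, h11]
  · rw [← hf0, hq U1 U2 u1 u2 hU1 hU2, h12]
  · rw [← hf0, hq U2 U2 u2 u2 hU2 hU2, h22]

end Pool.Agent.PLN
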