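import Pool.Agent.PLN.Hyp
import Pool.Agent.PLN.Split
import Pool.Agent.PLN.DehB
import Pool.Agent.PLN.DegT
import Pool.Agent.PLN.SmoothIrr
import Pool.Agent.PLN.DetHom

/-!
# PLN: from the homogeneous data to a maximal totally isotropic subspace

`SqMod d f`: `f` is a nonzero square in the function field of the curve `d = 0`.
-/

set_option autoImplicit false

namespace Pool.Agent.PLN

open MvPolynomial Matrix

/-- The form `f` is a nonzero square in the function field of the irreducible curve `d = 0`: there are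
polynomials `a, b`, `b` homogeneous, such that `d` divides `b ^ 2 * f - a ^ 2` and divides neither `b`
nor `f`. -/
def SqMod (d f : S3) : Prop :=
  ∃ (a b : S3) (n : ℕ), b.IsHomogeneous n ∧ ¬ d ∣ b ∧ ¬ d ∣ f ∧ d ∣ b ^ 2 * f - a ^ 2

theorem smooth_ne {d : S3} (h : SmoothCurve d) : d ≠ 0 := by
  rintro rfl
  obtain ⟨k, hk⟩ := h ![1, 0, 0] (by
    intro h0
    have := congrFun h0 0
    simp at this) (map_zero _)
  exact hk (by simp)

theorem det_irr {M : Matrix (Fin 4) (Fin 4) S3} (hM : IsCub M) (hS : SmoothCurve M.det) :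
    Irreducible M.det :=
  smooth_irr (det_cub hM) (by norm_num) (smooth_ne hS) hS

theorem det_prime {M : Matrix (Fin 4) (Fin 4) S3} (hM : IsCub M) (hS : SmoothCurve M.det) :
    Prime (aff M.det) := by
  rcases aff_prime (det_cub hM) (det_irr hM hS) with h | h
  · exact absurd h (not_unit (det_cub hM) (by norm_num) (smooth_ne hS) hS)
  · exact h

theorem map_det_aff {n : Type} [Fintype n] [DecidableEq n] (P : Matrix n n S3) :
    (P.map aff).det = aff P.det := by
  rw [← AlgHom.coe_toRingHom, RingHom.map_det]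
  rfl

theorem map_adj_aff {n : Type} [Fintype n] [DecidableEq n] (P : Matrix n n S3) (i : n) :
    (P.map aff).adjugate i i = aff (P.adjugate i i) := by
  have h := RingHom.map_adjugate (aff : S3 →+* R0) P
  have h1 := congrFun (congrFun h i) i
  rw [RingHom.mapMatrix_apply, RingHom.mapMatrix_apply, Matrix.map_apply] at h1
  exact h1.symm

theorem core {ι : Type} [Fintype ι] [DecidableEq ι] {M : Matrix (Fin 4) (Fin 4) S3}
    (hM : IsCub M) (hS : SmoothCurve M.det) {N : Matrix ι ι S3} (hN : N.IsSymm) {c : ℂ}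
    (hc : c ≠ 0) (hd : N.det = C c * M.det) {γ : S3} {m : ℕ} (hγ : γ.IsHomogeneous m)
    (hγi : Irreducible γ) (h1 : SqMod γ M.det) (i : ι) (j : Fin 4) {k : ℕ}
    (hk : (N.adjugate i i).IsHomogeneous k)
    (h2 : SqMod M.det (γ * M.adjugate j j * N.adjugate i i)) (r : ℕ)
    (hr : Fintype.card ι + 4 = 2 * r) :
    ∃ W : Submodule K0 (ι ⊕ Fin 4 → K0), Module.finrank K0 W = r ∧ ∀ x ∈ W, ∀ y ∈ W,
      x ⬝ᵥ (fromBlocks (N.map affK) 0 0 (-(affK γ • M.map affK)) *ᵥ y) = 0 := by
  classical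
  obtain ⟨a, b, n, hb, hγb, hγD, hab⟩ := h1
  obtain ⟨g, u, l, hu, hDu, hne, hsq⟩ := h2
  obtain ⟨mj, hj⟩ := adj_cub hM j
  have hirr := det_irr hM hS
  have hp := det_prime hM hS
  have hnu : ¬ IsUnit (aff M.det) := hp.not_isUnit
  obtain ⟨c', hc'⟩ : ∃ c' : ℂ, c' ^ 2 = c := IsAlgClosed.exists_pow_nat_eq c (by norm_num)
  have hdet : (M.map aff).det = aff M.det := map_det_aff M
  have hMs : (M.map aff).IsSymm := by
    ext p q
    rw [transpose_apply, Matrix.map_apply, Matrix.map_apply, hM.symm.apply]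
  have hNs : (N.map aff).IsSymm := by
    ext p q
    rw [transpose_apply, Matrix.map_apply, Matrix.map_apply, hN.apply]
  have hCc : aff (C c) = Polynomial.C (algebraMap ℂ F0 c) := by
    rw [← MvPolynomial.algebraMap_eq, AlgHom.commutes]
    rfl
  have hCc' : aff (C c') = Polynomial.C (algebraMap ℂ F0 c') := by
    rw [← MvPolynomial.algebraMap_eq, AlgHom.commutes]
    rfl
  have hγ' : IsUnit (aff γ) ∨ (Prime (aff γ) ∧ ¬ aff γ ∣ (M.map aff).det ∧
      Ruled (M.map aff) (aff γ)) := by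
    by_cases hun : IsUnit (aff γ)
    · exact Or.inl hun
    · right
      have hpr : Prime (aff γ) := (aff_prime hγ hγi).resolve_left hun
      have hnd : ¬ aff γ ∣ (M.map aff).det := by
        rw [hdet]
        exact aff_not_dvd hγ hγi hun (det_cub hM) hγD
      refine ⟨hpr, hnd, ruled_of_split hMs hpr hnd (aff a) (aff b)
        (aff_not_dvd hγ hγi hun hb hγb) ?_⟩
      rw [hdet]
      obtain ⟨q, hq⟩ := hab
      exact ⟨aff q, by rw [← map_pow, ← map_pow, ← map_mul, ← map_sub, hq, map_mul]⟩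
  have hhom : ∃ t : ℕ, (γ * M.adjugate j j * N.adjugate i i).IsHomogeneous t :=
    ⟨_, (hγ.mul hj).mul hk⟩
  obtain ⟨t, ht⟩ := hhom
  have h3 : ¬ (M.map aff).det ∣ aff u := by
    rw [hdet]
    exact aff_not_dvd (det_cub hM) hirr hnu hu hDu
  have h4 : ¬ (M.map aff).det ∣ aff γ * (M.map aff).adjugate j j * (N.map aff).adjugate i i := by
    rw [hdet, map_adj_aff, map_adj_aff, ← map_mul, ← map_mul]
    exact aff_not_dvd (det_cub hM) hirr hnu ht hne
  have h5 : (M.map aff).det ∣ aff u ^ 2 * (Polynomial.C (algebraMap ℂ F0 c) *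
      (aff γ * (M.map aff).adjugate j j * (N.map aff).adjugate i i)) - (aff (C c' * g)) ^ 2 := by
    rw [hdet, map_adj_aff, map_adj_aff, ← hCc, ← hc']
    obtain ⟨q, hq⟩ := hsq
    refine ⟨aff (C (c' ^ 2) * q), ?_⟩
    rw [← map_pow, ← map_pow, ← map_mul, ← map_mul, ← map_mul, ← map_mul, ← map_sub, ← map_mul]
    congr 1
    have e1 : (C (c' ^ 2) : S3) = C c' ^ 2 := map_pow _ _ _
    rw [e1]
    linear_combination (C c' ^ 2 : S3) * hq
  have h6 : (N.map aff).det = Polynomial.C (algebraMap ℂ F0 c) * (M.map aff).det := by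
    rw [map_det_aff, hdet, hd, map_mul, hCc]
  obtain ⟨W, hW, hWi⟩ := hyp hNs hMs (by rw [hdet]; exact hp) hc h6 hγ' i j (aff u)
    (aff (C c' * g)) h3 h4 h5 r hr
  refine ⟨W, hW, fun x hx y hy => ?_⟩
  have h7 : (fromBlocks (N.map aff) 0 0 (-(aff γ • M.map aff))).map (algebraMap R0 K0) =
      fromBlocks (N.map affK) 0 0 (-(affK γ • M.map affK)) := by
    ext p q
    rcases p with p | p <;> rcases q with q | q
    · rfl
    · exact map_zero (algebraMap R0 K0)
    · exact map_zero (algebraMap R0 K0)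
    · simp only [Matrix.map_apply, fromBlocks_apply₂₂, Matrix.neg_apply, Matrix.smul_apply,
        smul_eq_mul, map_neg, map_mul]
      rfl
  rw [← h7]
  exact hWi x hx y hy

end Pool.Agent.PLN
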