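import Pool.Agent.PLN.Defs

/-!
# PLN: double coverings of `ℙ² × ℙ²` with a section

`t` is a form `∑ t k l i j s_k s_l y_i y_j` of bidegree `(2, 2)`. The double covering
`w ^ 2 = t(s; y)` of `ℙ² × ℙ²` is a family of quadric surfaces over the plane of `s`, with the
discriminant `det (vA t)`, and also over the plane of `y`, with the discriminant `det (vB t)`.
-/

set_option autoImplicit false

namespace Pool.Agent.PLN

open MvPolynomial Matrix

/-- The form of bidegree `(2, 2)` as a quadratic form in `y`. -/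
noncomputable def vA (t : Fin 3 → Fin 3 → Fin 3 → Fin 3 → ℂ) : Matrix (Fin 3) (Fin 3) S3 :=
  fun i j => ∑ k, ∑ l, C (t k l i j) * X k * X l

/-- The form of bidegree `(2, 2)` as a quadratic form in `s`. -/
noncomputable def vB (t : Fin 3 → Fin 3 → Fin 3 → Fin 3 → ℂ) : Matrix (Fin 3) (Fin 3) S3 :=
  fun k l => ∑ i, ∑ j, C (t k l i j) * X i * X j

/-- The quadratic form `- w ^ 2 + t(s; y)` in `(w, y)`. -/
noncomputable def vN (t : Fin 3 → Fin 3 → Fin 3 → Fin 3 → ℂ) :
    Matrix (Fin 1 ⊕ Fin 3) (Fin 1 ⊕ Fin 3) S3 := fromBlocks (-1) 0 0 (vA t)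

/-- The data on the form of bidegree `(2, 2)`: `det (vA t) = c det M`, and `(sg, w)` is a rational
section of the double covering over the plane of `y`: `w(y) ^ 2 = t(sg(y); y)`. -/
structure VerraData (M : Matrix (Fin 4) (Fin 4) S3) (t : Fin 3 → Fin 3 → Fin 3 → Fin 3 → ℂ)
    (c : ℂ) (sg : Fin 3 → S3) (w : S3) : Prop where
  symm₁ : ∀ k l i j, t k l i j = t l k i j
  symm₂ : ∀ k l i j, t k l i j = t k l j i
  c_ne : c ≠ 0
  det : (vA t).det = C c * M.det
  det_ne : (vB t).det ≠ 0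
  sg_ne : sg ≠ 0
  hom : ∃ d, ∀ k, (sg k).IsHomogeneous d
  sec : w ^ 2 = ∑ k, ∑ l, vB t k l * sg k * sg l

end Pool.Agent.PLN
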