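import Pool.Agent.PLN.Core
import Pool.Agent.PLN.ExSmooth

/-!
# PLN: an explicit example
-/

set_option autoImplicit false

namespace Pool.Agent.PLN

open MvPolynomial Matrix

/-- the matrix of the cubic -/
noncomputable def exM : Matrix (Fin 4) (Fin 4) S3 :=
  !![-X 2, 0, 0, -X 1 ^ 2;
     0, X 0, X 2, 0;
     0, X 2, -(2 * X 1), X 0 ^ 2;
     -X 1 ^ 2, 0, X 0 ^ 2, X 2 * (X 0 * X 2 - X 1 ^ 2)]

/-- the conic -/
noncomputable def exG : S3 := X 0 * X 2 - X 1 ^ 2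

/-- the sextic -/
noncomputable def exD : S3 :=
  X 0 ^ 5 * X 2 + 2 * X 0 ^ 2 * X 1 * X 2 ^ 3 + 2 * X 0 * X 1 ^ 5 - 2 * X 0 * X 1 ^ 3 * X 2 ^ 2 +
    X 0 * X 2 ^ 5 + X 1 ^ 4 * X 2 ^ 2 - X 1 ^ 2 * X 2 ^ 4

/-- the net of quadrics -/
def exN : Fin 3 → Matrix (Fin 6) (Fin 6) ℂ :=
  ![!![-1, -1, 0, -1, 0, 0; -1, 0, 0, 0, 0, 0; 0, 0, 0, 0, -1, 1; -1, 0, 0, -1, 0, 0;
      0, 0, -1, 0, 0, 0; 0, 0, 1, 0, 0, 0],
    !![0, 0, 0, 0, 0, 0; 0, 0, 0, 0, -1, 0; 0, 0, 2, 0, 0, 0; 0, 0, 0, 0, -1, 1;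
      0, -1, 0, -1, 0, 0; 0, 0, 0, 1, 0, 0],
    !![0, 0, -1, 0, 0, 0; 0, 1, 0, 0, 0, 0; -1, 0, 0, 0, 0, 0; 0, 0, 0, 0, 0, 0;
      0, 0, 0, 0, -1, 1; 0, 0, 0, 0, 1, 0]]

theorem exM_det : exM.det = exD := by
  simp [exM, exD, Matrix.det_succ_row_zero, Fin.sum_univ_succ, Fin.succAbove]
  ring

theorem exN_net : net exN =
    !![-X 0, -X 0, -X 2, -X 0, 0, 0;
       -X 0, X 2, 0, 0, -X 1, 0;
       -X 2, 0, 2 * X 1, 0, -X 0, X 0;
       -X 0, 0, 0, -X 0, -X 1, X 1;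
       0, -X 1, -X 0, -X 1, -X 2, X 2;
       0, 0, X 0, X 1, X 2, 0] := by
  ext i j : 2
  fin_cases i <;> fin_cases j <;>
    simp [net, exN, Fin.sum_univ_three, map_ofNat]

theorem exN_det : (net exN).det = -exD := by
  rw [exN_net]
  simp [exD, Matrix.det_succ_row_zero, Fin.sum_univ_succ, Fin.succAbove]
  ring

theorem exM_adj : exM.adjugate 3 3 = X 2 * (2 * X 0 * X 1 + X 2 ^ 2) := by
  rw [Matrix.adjugate_fin_succ_eq_det_submatrix]
  simp [exM, Matrix.det_succ_row_zero, Fin.sum_univ_succ, Fin.succAbove]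
  ring

theorem exN_adj : (net exN).adjugate 1 1 = -(exG * exM.adjugate 3 3) := by
  rw [exM_adj, exN_net, Matrix.adjugate_fin_succ_eq_det_submatrix]
  simp [exG, Matrix.det_succ_row_zero, Fin.sum_univ_succ, Fin.succAbove]
  ring

theorem exN_symm : ∀ k, (exN k).IsSymm := by
  intro k
  refine Matrix.IsSymm.ext fun i j => ?_
  fin_cases k <;> fin_cases i <;> fin_cases j <;> simp [exN]

private theorem exHX (i : Fin 3) : (X i : S3).IsHomogeneous 1 := isHomogeneous_X _ _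

private theorem exHXp (i : Fin 3) (n : ℕ) : ((X i : S3) ^ n).IsHomogeneous n :=
  isHomogeneous_X_pow _ _

theorem exG_hom : exG.IsHomogeneous 2 :=
  ((exHX 0).mul (exHX 2)).sub (exHXp 1 2)

theorem exM_cub : IsCub exM where
  symm := by
    refine Matrix.IsSymm.ext fun i j => ?_
    fin_cases i <;> fin_cases j <;> simp [exM]
  hom := by
    have h2 : (2 * X 1 : S3).IsHomogeneous 1 := by
      have h := (isHomogeneous_C (Fin 3) (2 : ℂ)).mul (exHX 1)
      rw [zero_add] at h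
      rwa [map_ofNat] at h
    have h3 : (X 2 * (X 0 * X 2 - X 1 ^ 2) : S3).IsHomogeneous 3 := (exHX 2).mul exG_hom
    intro i j
    fin_cases i <;> fin_cases j <;>
      first
      | exact (exHX _).neg
      | exact exHX _
      | exact h2.neg
      | exact (exHXp _ _).neg
      | exact exHXp _ _
      | exact h3
      | exact isHomogeneous_zero _ _ _

theorem exM_smooth : SmoothCurve exM.det := by
  rw [exM_det]
  intro s hs _
  by_contra hcon
  push Not at hcon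
  have h0 := hcon 0
  have h1 := hcon 1
  have h2 := hcon 2
  apply hs
  have hn : ∀ i : Fin 3, pderiv i (2 : S3) = 0 := by
    intro i
    rw [show (2 : S3) = C 2 from (map_ofNat C 2).symm, pderiv_C]
  have e := ex_smooth (s 0) (s 1) (s 2)
    (by
      rw [← h0]
      simp [exD, hn, pderiv_X]
      ring)
    (by
      rw [← h1]
      simp [exD, hn, pderiv_X]
      ring)
    (by
      rw [← h2]
      simp [exD, hn, pderiv_X]
      ring)
  funext i
  fin_cases i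
  · exact e.1
  · exact e.2.1
  · exact e.2.2

theorem exG_irr : Irreducible exG := by
  have h0 : exG ≠ 0 := by
    intro h
    have h1 : eval (![1, 0, 1] : Fin 3 → ℂ) exG = 0 := by rw [h, map_zero]
    simp [exG] at h1
  refine smooth_irr exG_hom (by norm_num) h0 fun s hs _ => ?_
  by_contra hcon
  push Not at hcon
  have e0 : s 2 = 0 := by
    have h := hcon 0
    simpa [exG, pderiv_X] using h
  have e1 : s 1 = 0 := by
    have h := hcon 1
    simpa [exG, pderiv_X] using h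
  have e2 : s 0 = 0 := by
    have h := hcon 2
    simpa [exG, pderiv_X] using h
  apply hs
  funext i
  fin_cases i
  · exact e2
  · exact e1
  · exact e0

private theorem ex_not_dvd {d f : S3} (s : Fin 3 → ℂ) (hd : eval s d = 0) (hf : eval s f ≠ 0) :
    ¬ d ∣ f := by
  rintro ⟨q, hq⟩
  apply hf
  rw [hq, map_mul, hd, zero_mul]

theorem ex_split : SqMod exG exM.det := by
  rw [exM_det]
  refine ⟨X 1 * (X 0 ^ 2 + X 1 * X 2), 1, 0, isHomogeneous_one _ _, ?_, ?_, ?_⟩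
  · exact ex_not_dvd ![1, 1, 1] (by simp [exG]) (by simp)
  · refine ex_not_dvd ![1, 1, 1] (by simp [exG]) ?_
    simp [exD]
    norm_num
  · refine ⟨X 0 ^ 4 + X 2 ^ 4 + 2 * X 0 * X 1 * (X 2 ^ 2 - X 1 ^ 2), ?_⟩
    unfold exD exG
    ring

theorem ex_square : SqMod exM.det (exG * exM.adjugate 3 3 * (net exN).adjugate 1 1) := by
  have hI : (C Complex.I : S3) ^ 2 = -1 := by
    rw [← map_pow, Complex.I_sq, map_neg, map_one]
  have hD : eval (![0, 1, 1] : Fin 3 → ℂ) exM.det = 0 := by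
    rw [exM_det]
    simp [exD]
  refine ⟨C Complex.I * (exG * exM.adjugate 3 3), 1, 0, isHomogeneous_one _ _, ?_, ?_, ?_⟩
  · exact ex_not_dvd ![0, 1, 1] hD (by simp)
  · refine ex_not_dvd ![0, 1, 1] hD ?_
    rw [exN_adj, exM_adj]
    simp [exG]
  · refine ⟨0, ?_⟩
    rw [exN_adj]
    linear_combination (-(exG * exM.adjugate 3 3) ^ 2) * hI

/-- **Example.** -/
theorem ex_data : ∃ (M : Matrix (Fin 4) (Fin 4) S3) (γ : S3) (N : Fin 3 → Matrix (Fin 6) (Fin 6) ℂ)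
    (c : ℂ) (i : Fin 6) (j : Fin 4), IsCub M ∧ SmoothCurve M.det ∧ γ.IsHomogeneous 2 ∧
      Irreducible γ ∧ SqMod γ M.det ∧ (∀ k, (N k).IsSymm) ∧ c ≠ 0 ∧ (net N).det = C c * M.det ∧
      SqMod M.det (γ * M.adjugate j j * (net N).adjugate i i) :=
  ⟨exM, exG, exN, -1, 1, 3, exM_cub, exM_smooth, exG_hom, exG_irr, ex_split, exN_symm,
    by norm_num, by rw [exN_det, exM_det, map_neg, map_one, neg_one_mul], ex_square⟩

end Pool.Agent.PLN
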