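import Pool.Agent.ZIso.Krull
import Mathlib.LinearAlgebra.Matrix.Symmetric
import Mathlib.Analysis.Complex.Polynomial.Basic

/-!
# PLN: three quadratic forms in six variables have a common zero

`exists_base`: immediate from `Pool.Agent.ZIso.exists_ne_zero` (Pool/Agent/ZIso/Krull.lean: fewer
polynomials without constant term than unknowns have a common zero other than `0`; see also
`Pool.Agent.DCIG.exists_common_zero` in Pool/Agent/DCIG/CommonZero.lean), applied to
`∑ i j, C (N k i j) * X i * X j`.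
-/

set_option autoImplicit false

namespace Pool.Agent.PLN

open Matrix

theorem exists_base (N : Fin 3 → Matrix (Fin 6) (Fin 6) ℂ) :
    ∃ p : Fin 6 → ℂ, p ≠ 0 ∧ ∀ k, p ⬝ᵥ (N k *ᵥ p) = 0 := by
  obtain ⟨f, hf⟩ : ∃ f : Fin 3 → MvPolynomial (Fin 6) ℂ, ∀ k, f k = ∑ i, ∑ j,
      MvPolynomial.X i * (MvPolynomial.C (N k i j) * MvPolynomial.X j) := ⟨_, fun _ => rfl⟩
  have hev : ∀ k x, MvPolynomial.eval x (f k) = x ⬝ᵥ (N k *ᵥ x) := by
    intro k x
    rw [hf]
    simp only [map_sum, map_mul, MvPolynomial.eval_X, MvPolynomial.eval_C, dotProduct, mulVec,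
      Finset.mul_sum]
  obtain ⟨p, hp, h⟩ := Pool.Agent.ZIso.exists_ne_zero (K := ℂ) (ι := Fin 6) (κ := Fin 3)
    (by simp) f (by
      intro k
      rw [hev]
      exact zero_dotProduct _)
  exact ⟨p, hp, fun k => by rw [← hev]; exact h k⟩

end Pool.Agent.PLN
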