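import Mathlib

/-!
# PLN: from a maximal totally isotropic subspace of `N ⊥ (- M)` to a similarity

`K` is a field, `2 ≠ 0`; `N` and `M` (size 4) are symmetric; `W` is a totally isotropic subspace of
`K ^ (ι ⊕ Fin 4)` for `fromBlocks N 0 0 (- M)`; `M` is anisotropic.

`dich6`: `N` has size 6, `det N ≠ 0`, `dim W = 5`, `p ≠ 0` is isotropic for `N`: there is a `6 x 4`
matrix `A` with `A^T N A = M` and `p^T N A = 0`.
PROOF.  `(0, y) ∈ W` implies `M(y, y) = 0`, so `y = 0`: the projection `W → K^6` is injective.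
The projection `π : W → K^4` is onto: otherwise there is `x ≠ 0` in `K^4` which is `M`-orthogonal to
its image (`M` is nondegenerate because it is anisotropic), so `(0, x)` is orthogonal to `W`; `W + K (0, x)`
... is in `W^⊥ = W` (dimension: `fromBlocks N 0 0 (-M)` is nondegenerate of size 10, `dim W = 5`, so
`dim W^⊥ = 5` and `W ≤ W^⊥`), and `M(x, x) = 0`, contradiction.  So the kernel of `π` has dimension 1,
it is spanned by `(e, 0)`, `e ≠ 0`, `N(e, e) = 0`.  Choose a linear section `x ↦ (φ0 x, x)` of `π`: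
`N(φ0 x, φ0 y) = M(x, y)`, `N(φ0 x, e) = 0`.
If `N(e, p) ≠ 0` put `φ x = φ0 x - (N(φ0 x, p) / N(e, p)) e`: it has the same properties and
`N(φ x, p) = 0`.
If `N(e, p) = 0`: `e^⊥` (dimension 5) is the image of `W` in `K^6` (dimension 5, contained in `e^⊥`),
so `p = c e + φ0 x0`; `0 = N(p, p) = M(x0, x0)`, so `x0 = 0` and `p = c e`, and `φ0` works.

`dich4`: `N` has size 4 (index type `ι`), `dim W = 4`: there is a matrix `A` with `A^T N A = M`.
PROOF.  As above `π : W → K^4` is onto (if `x ≠ 0` is `M`-orthogonal to the image then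
`(0, x) ∈ W^⊥ = W`, `M(x, x) = 0`), hence an isomorphism, and its inverse is `x ↦ (A x, x)`.
(`det N ≠ 0` is used for `W^⊥ = W`.)
-/

set_option autoImplicit false

namespace Pool.Agent.PLN

open Matrix

variable {K : Type} [Field K]

private theorem dich_symm {ι : Type} [Fintype ι] {N : Matrix ι ι K} (hN : N.IsSymm)
    (x y : ι → K) : x ⬝ᵥ (N *ᵥ y) = y ⬝ᵥ (N *ᵥ x) := by
  rw [dotProduct_mulVec, ← mulVec_transpose, hN.eq, dotProduct_comm]

private theorem dich_form {ι : Type} [Fintype ι] (N : Matrix ι ι K)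
    (M : Matrix (Fin 4) (Fin 4) K) (x y : ι ⊕ Fin 4 → K) :
    x ⬝ᵥ (fromBlocks N 0 0 (-M) *ᵥ y) =
      (x ∘ Sum.inl) ⬝ᵥ (N *ᵥ (y ∘ Sum.inl)) - (x ∘ Sum.inr) ⬝ᵥ (M *ᵥ (y ∘ Sum.inr)) := by
  have h1 : x = Sum.elim (x ∘ Sum.inl) (x ∘ Sum.inr) := (Sum.elim_comp_inl_inr x).symm
  rw [fromBlocks_mulVec]
  conv_lhs => rw [h1]
  rw [sumElim_dotProduct_sumElim]
  simp only [zero_mulVec, add_zero, zero_add, neg_mulVec, dotProduct_neg]
  ring

/-- The projection to the second component is onto. -/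
private theorem dich_onto {ι : Type} [Fintype ι] [DecidableEq ι] {N : Matrix ι ι K}
    {M : Matrix (Fin 4) (Fin 4) K} (hM : M.IsSymm) (hd : N.det ≠ 0)
    (W : Submodule K (ι ⊕ Fin 4 → K)) (hW : 2 * Module.finrank K W = Fintype.card ι + 4)
    (hiso : ∀ x ∈ W, ∀ y ∈ W, x ⬝ᵥ (fromBlocks N 0 0 (-M) *ᵥ y) = 0)
    (hani : ∀ v : Fin 4 → K, v ⬝ᵥ (M *ᵥ v) = 0 → v = 0) :
    LinearMap.range ((LinearMap.funLeft K K (Sum.inr : Fin 4 → ι ⊕ Fin 4)).comp W.subtype) =
      ⊤ := by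
  have hMd : M.det ≠ 0 := by
    intro h
    obtain ⟨v, hv0, hv⟩ := exists_mulVec_eq_zero_iff.mpr h
    refine hv0 (hani v ?_)
    rw [hv, dotProduct_zero]
  by_contra hne
  obtain ⟨f, hf0, hf⟩ := Submodule.exists_le_ker_of_lt_top _ (lt_top_iff_ne_top.mpr hne)
  -- the vector `x`
  obtain ⟨x, hx⟩ : ∃ x : Fin 4 → K, ∀ y, f y = y ⬝ᵥ (M *ᵥ x) := by
    refine ⟨M⁻¹ *ᵥ (fun i => f (Pi.single i 1)), fun y => ?_⟩
    rw [mulVec_mulVec, mul_nonsing_inv _ (isUnit_iff_ne_zero.mpr hMd), one_mulVec]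
    conv_lhs => rw [pi_eq_sum_univ' y]
    rw [map_sum, dotProduct]
    refine Finset.sum_congr rfl fun i _ => ?_
    rw [map_smul, smul_eq_mul]
  have hx0 : x ≠ 0 := by
    rintro rfl
    apply hf0
    ext y
    simp [hx]
  -- `(0, x)` is in `W`
  let B : LinearMap.BilinForm K (ι ⊕ Fin 4 → K) := Matrix.toBilin' (fromBlocks N 0 0 (-M))
  have hB : ∀ u v, B u v = u ⬝ᵥ (fromBlocks N 0 0 (-M) *ᵥ v) := fun u v =>
    Matrix.toBilin'_apply' _ _ _
  have hdet : (fromBlocks N 0 0 (-M)).det ≠ 0 := by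
    rw [det_fromBlocks_zero₂₁, det_neg]
    exact mul_ne_zero hd (mul_ne_zero (by simp) hMd)
  have hBn : B.Nondegenerate := LinearMap.BilinForm.nondegenerate_toBilin'_of_det_ne_zero' _ hdet
  have hle : W ≤ B.orthogonal W := by
    intro y hy
    rw [LinearMap.BilinForm.mem_orthogonal_iff]
    intro u hu
    rw [hB]
    exact hiso u hu y hy
  have hcard : Module.finrank K (ι ⊕ Fin 4 → K) = Fintype.card ι + 4 := by
    rw [Module.finrank_fintype_fun_eq_card, Fintype.card_sum, Fintype.card_fin]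
  have heq : W = B.orthogonal W := by
    refine Submodule.eq_of_le_of_finrank_eq hle ?_
    rw [LinearMap.BilinForm.finrank_orthogonal hBn, hcard]
    omega
  have hmem : Sum.elim (0 : ι → K) x ∈ W := by
    rw [heq, LinearMap.BilinForm.mem_orthogonal_iff]
    intro u hu
    rw [hB, dich_form, Sum.elim_comp_inl, Sum.elim_comp_inr, mulVec_zero, dotProduct_zero,
      zero_sub, neg_eq_zero, ← hx]
    exact hf ⟨⟨u, hu⟩, rfl⟩
  have h1 := hiso _ hmem _ hmem
  rw [dich_form, Sum.elim_comp_inl, Sum.elim_comp_inr, mulVec_zero, dotProduct_zero,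
    zero_sub, neg_eq_zero] at h1
  exact hx0 (hani x h1)

private theorem dich_ker {W : Submodule K (Fin 6 ⊕ Fin 4 → K)} (π2 : W →ₗ[K] (Fin 4 → K))
    (hker : Module.finrank K (LinearMap.ker π2) = 1) :
    ∃ e0 : W, e0 ≠ 0 ∧ π2 e0 = 0 ∧ ∀ y : W, π2 y = 0 → ∃ c : K, c • e0 = y := by
  obtain ⟨e0, he0, he1⟩ := (Submodule.ne_bot_iff (LinearMap.ker π2)).mp
    (by rintro h; rw [h, finrank_bot] at hker; omega)
  have h1 : Submodule.span K {e0} ≤ LinearMap.ker π2 := by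
    rw [Submodule.span_singleton_le_iff_mem]
    exact he0
  have h2 : Submodule.span K {e0} = LinearMap.ker π2 := by
    refine Submodule.eq_of_le_of_finrank_eq h1 ?_
    rw [hker]
    exact finrank_span_singleton he1
  refine ⟨e0, he1, he0, fun y hy => ?_⟩
  have h3 : y ∈ Submodule.span K {e0} := by rw [h2]; exact hy
  exact Submodule.mem_span_singleton.mp h3

/-- From a linear map to a matrix. -/
private theorem dich_mat {ι : Type} [Fintype ι] [DecidableEq ι] {N : Matrix ι ι K}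
    {M : Matrix (Fin 4) (Fin 4) K} (φ : (Fin 4 → K) →ₗ[K] (ι → K))
    (h : ∀ x y, φ x ⬝ᵥ (N *ᵥ φ y) = x ⬝ᵥ (M *ᵥ y)) :
    (LinearMap.toMatrix' φ)ᵀ * N * LinearMap.toMatrix' φ = M := by
  have hA : ∀ w, LinearMap.toMatrix' φ *ᵥ w = φ w := fun w => LinearMap.toMatrix'_mulVec φ w
  ext i j
  have h1 : ∀ (X : Matrix (Fin 4) (Fin 4) K), X i j =
      Pi.single i 1 ⬝ᵥ (X *ᵥ (Pi.single j 1 : Fin 4 → K)) := by
    intro X
    rw [mulVec_single_one, single_one_dotProduct]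
    rfl
  rw [h1 ((LinearMap.toMatrix' φ)ᵀ * N * LinearMap.toMatrix' φ), h1 M, ← h, ← hA, ← hA,
    ← mulVec_mulVec, ← mulVec_mulVec, dotProduct_mulVec, vecMul_transpose]

theorem dich6 (h2 : (2 : K) ≠ 0) {N : Matrix (Fin 6) (Fin 6) K}
    {M : Matrix (Fin 4) (Fin 4) K} (hN : N.IsSymm) (hM : M.IsSymm) (hd : N.det ≠ 0)
    (W : Submodule K (Fin 6 ⊕ Fin 4 → K)) (hW : Module.finrank K W = 5)
    (hiso : ∀ x ∈ W, ∀ y ∈ W, x ⬝ᵥ (fromBlocks N 0 0 (-M) *ᵥ y) = 0)
    (hani : ∀ v : Fin 4 → K, v ⬝ᵥ (M *ᵥ v) = 0 → v = 0) {p : Fin 6 → K} (hp0 : p ≠ 0)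
    (hp : p ⬝ᵥ (N *ᵥ p) = 0) :
    ∃ A : Matrix (Fin 6) (Fin 4) K, Aᵀ * N * A = M ∧ ∀ w, p ⬝ᵥ (N *ᵥ (A *ᵥ w)) = 0 := by
  have honto := dich_onto hM hd W (by rw [hW]; rfl) hiso hani
  set π2 : W →ₗ[K] (Fin 4 → K) :=
    (LinearMap.funLeft K K (Sum.inr : Fin 4 → Fin 6 ⊕ Fin 4)).comp W.subtype with hπ2
  let π1 : W →ₗ[K] (Fin 6 → K) :=
    (LinearMap.funLeft K K (Sum.inl : Fin 6 → Fin 6 ⊕ Fin 4)).comp W.subtype
  have hform : ∀ x y : W, π1 x ⬝ᵥ (N *ᵥ π1 y) = π2 x ⬝ᵥ (M *ᵥ π2 y) := by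
    intro x y
    have h1 := hiso x.1 x.2 y.1 y.2
    rw [dich_form] at h1
    exact sub_eq_zero.mp h1
  have hinj : ∀ x : W, π1 x = 0 → x = 0 := by
    intro x hx
    have h1 := hform x x
    rw [hx, mulVec_zero, dotProduct_zero] at h1
    have h3 : π2 x = 0 := hani _ h1.symm
    apply Subtype.ext
    funext i
    rcases i with i | i
    · exact congrFun hx i
    · exact congrFun h3 i
  obtain ⟨σ, hσ⟩ := LinearMap.exists_rightInverse_of_surjective π2 honto
  have hσ' : ∀ w, π2 (σ w) = w := fun w => LinearMap.congr_fun hσ w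
  -- the kernel
  have hker : Module.finrank K (LinearMap.ker π2) = 1 := by
    have h1 := LinearMap.finrank_range_add_finrank_ker π2
    rw [honto, finrank_top, hW, Module.finrank_fintype_fun_eq_card, Fintype.card_fin] at h1
    omega
  obtain ⟨e0, he0, he0', hspan⟩ := dich_ker π2 hker
  set e : Fin 6 → K := π1 e0 with he
  have hNe : ∀ x : W, π1 x ⬝ᵥ (N *ᵥ e) = 0 := by
    intro x
    rw [he, hform, he0', mulVec_zero, dotProduct_zero]
  have hφφ : ∀ x y, π1 (σ x) ⬝ᵥ (N *ᵥ π1 (σ y)) = x ⬝ᵥ (M *ᵥ y) := by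
    intro x y
    rw [hform, hσ', hσ']
  by_cases hep : e ⬝ᵥ (N *ᵥ p) = 0
  · -- `p` is a multiple of `e`
    have hpW : ∃ y : W, π1 y = p := by
      have hf : ∃ f : (Fin 6 → K) →ₗ[K] K, ∀ v, f v = v ⬝ᵥ (N *ᵥ e) :=
        ⟨{ toFun := fun v => v ⬝ᵥ (N *ᵥ e)
           map_add' := fun u v => add_dotProduct _ _ _
           map_smul' := fun c v => smul_dotProduct _ _ _ }, fun v => rfl⟩
      obtain ⟨f, hf⟩ := hf
      have hene : e ≠ 0 := by
        intro h1
        exact he0 (hinj _ h1)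
      have hNe0 : N *ᵥ e ≠ 0 := by
        intro h1
        exact hd (exists_mulVec_eq_zero_iff.mp ⟨e, hene, h1⟩)
      have hf0 : f ≠ 0 := by
        rintro rfl
        apply hNe0
        funext i
        have h1 := hf (Pi.single i 1)
        rw [single_one_dotProduct] at h1
        simpa using h1.symm
      have hk := Module.Dual.finrank_ker_add_one_of_ne_zero (f := f) hf0
      rw [Module.finrank_fintype_fun_eq_card, Fintype.card_fin] at hk
      have hle : LinearMap.range π1 ≤ LinearMap.ker f := by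
        rintro _ ⟨x, rfl⟩
        rw [LinearMap.mem_ker, hf]
        exact hNe x
      have hr : Module.finrank K (LinearMap.range π1) = 5 := by
        rw [LinearMap.finrank_range_of_inj, hW]
        rw [← LinearMap.ker_eq_bot, LinearMap.ker_eq_bot']
        exact hinj
      have heq := Submodule.eq_of_le_of_finrank_eq hle (by omega)
      have hp' : p ∈ LinearMap.ker f := by
        rw [LinearMap.mem_ker, hf, dich_symm hN]
        exact hep
      rw [← heq] at hp'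
      exact hp'
    obtain ⟨y, hy⟩ := hpW
    have hy2 : π2 y = 0 := by
      apply hani
      rw [← hform, hy]
      exact hp
    obtain ⟨c, hc⟩ := hspan y hy2
    have hpc : p = c • e := by
      rw [← hy, he, ← map_smul, hc]
    refine ⟨LinearMap.toMatrix' (π1.comp σ), dich_mat _ hφφ, fun w => ?_⟩
    rw [LinearMap.toMatrix'_mulVec, dich_symm hN, hpc, mulVec_smul, dotProduct_smul]
    change c • (π1 (σ w) ⬝ᵥ (N *ᵥ e)) = 0
    rw [hNe, smul_zero]
  · -- correction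
    let g : (Fin 4 → K) →ₗ[K] K :=
      { toFun := fun w => π1 (σ w) ⬝ᵥ (N *ᵥ p) / (e ⬝ᵥ (N *ᵥ p))
        map_add' := fun u v => by rw [map_add, map_add, add_dotProduct, add_div]
        map_smul' := fun c v => by
          rw [map_smul, map_smul, smul_dotProduct, smul_eq_mul, mul_div_assoc]
          rfl }
    let φ : (Fin 4 → K) →ₗ[K] (Fin 6 → K) := π1.comp σ - g.smulRight e
    have hφ : ∀ w, φ w = π1 (σ w) - g w • e := fun w => rfl
    refine ⟨LinearMap.toMatrix' φ, dich_mat _ ?_, fun w => ?_⟩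
    · intro x y
      have h1 : e ⬝ᵥ (N *ᵥ π1 (σ y)) = 0 := by
        rw [dich_symm hN]
        exact hNe _
      have h3 : e ⬝ᵥ (N *ᵥ e) = 0 := hNe _
      rw [hφ, hφ, mulVec_sub, mulVec_smul, dotProduct_sub, sub_dotProduct, sub_dotProduct,
        smul_dotProduct, smul_dotProduct, dotProduct_smul, dotProduct_smul, hφφ, h1, hNe, h3]
      simp
    · rw [LinearMap.toMatrix'_mulVec, dich_symm hN, hφ, sub_dotProduct, smul_dotProduct]
      change _ - (π1 (σ w) ⬝ᵥ (N *ᵥ p) / (e ⬝ᵥ (N *ᵥ p))) * (e ⬝ᵥ (N *ᵥ p)) = 0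
      rw [div_mul_cancel₀ _ hep, sub_self]

theorem dich4 (h2 : (2 : K) ≠ 0) {ι : Type} [Fintype ι] [DecidableEq ι]
    (hι : Fintype.card ι = 4) {N : Matrix ι ι K}
    {M : Matrix (Fin 4) (Fin 4) K} (hN : N.IsSymm) (hM : M.IsSymm) (hd : N.det ≠ 0)
    (W : Submodule K (ι ⊕ Fin 4 → K)) (hW : Module.finrank K W = 4)
    (hiso : ∀ x ∈ W, ∀ y ∈ W, x ⬝ᵥ (fromBlocks N 0 0 (-M) *ᵥ y) = 0)
    (hani : ∀ v : Fin 4 → K, v ⬝ᵥ (M *ᵥ v) = 0 → v = 0) :
    ∃ A : Matrix ι (Fin 4) K, Aᵀ * N * A = M := by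
  have honto := dich_onto hM hd W (by rw [hW, hι]) hiso hani
  obtain ⟨σ, hσ⟩ := LinearMap.exists_rightInverse_of_surjective _ honto
  refine ⟨LinearMap.toMatrix' (((LinearMap.funLeft K K (Sum.inl : ι → ι ⊕ Fin 4)).comp
    W.subtype).comp σ), dich_mat _ fun x y => ?_⟩
  have h1 := hiso (σ x).1 (σ x).2 (σ y).1 (σ y).2
  rw [dich_form] at h1
  have h3 : ∀ w, (σ w).1 ∘ Sum.inr = w := fun w => LinearMap.congr_fun hσ w
  rw [h3, h3] at h1
  exact sub_eq_zero.mp h1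

end Pool.Agent.PLN
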