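import Pool.Agent.PLN.ModelA

/-!
# PLN: the isotropic case

`iso_end`: if `M` is isotropic over `K0` then the function field is generated by four elements.
PROOF.  Write `m i j = σ (affK (M i j))`, `e i = σ (e0 i)`, `z = zz x`, and let `k` be an
index with `e0 k ≠ 0`.  `w = z - (z k / e k) e`, so `w k = 0`.  For `j ≠ k`, `w j ≠ 0` by
`Model.lin`
(`w j = z j - (e0 j / e0 k) z k` is a nonzero linear combination over `K0`). 
`B = ∑ m i j e i z j ≠ 0` by
`Model.lin` (`M e0 ≠ 0` over `K0` because `det M ≠ 0` there: `hdet`, `RingHom.map_det`,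
`Matrix.exists_mulVec_eq_zero_iff`).  From `m(z, z) = 0` (`quad`), `m(e, e) = 0`,
`z = w + λ e`, `λ = z k / e k`: `m(w, w) + 2 λ m(e, w) = 0` and `m(e, w) = m(e, z) = B`.
Let `j1, j2, j3` be the other three indices (`k.succAbove 0`, `1`, `2`), and
`a = ![x 1, x 2, w j1 / w j3, w j2 / w j3]`.
`a` is in `ℂ(x)`: `e i` and `m i j` are in `ℂ(x 1, x 2)` by `sig_mem`.
Conversely `u j = w j / w j3` is in `ℂ(a)` for all `j`, `λ / w j3 = - m(u, u) / (2 m(e, u))` is in
`ℂ(a)`,
so `z i / w j3 = u i + (λ / w j3) e i` is in `ℂ(a)`; `z 3 = 1`, so `1 / w j3` is in `ℂ(a)` and is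
not zero,
and `z i` is in `ℂ(a)`; `x 0 = 1`, `x 1`, `x 2` are in `ℂ(a)`.
-/

set_option autoImplicit false

namespace Pool.Agent.PLN

open MvPolynomial Matrix

variable {M : Matrix (Fin 4) (Fin 4) S3} {L : Type} [Field L] [Algebra ℂ L] {x : Fin 6 → L}
  {σ : K0 →+* L}

private theorem isoEnd_two (L : Type) [Field L] [Algebra ℂ L] : (2 : L) ≠ 0 := by
  have h := (map_ne_zero (algebraMap ℂ L)).2 (two_ne_zero (α := ℂ))
  rwa [map_ofNat] at h

private theorem isoEnd_core {L : Type} [Field L] (h2 : (2 : L) ≠ 0) (A : Fin 4 → Fin 4 → L)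
    (hs : ∀ i j, A i j = A j i) (E z : Fin 4 → L) (l c : L) (hc : c ≠ 0)
    (hE : ∑ i, ∑ j, A i j * E i * E j = 0) (hz : ∑ i, ∑ j, A i j * z i * z j = 0)
    (hB : ∑ i, ∑ j, A i j * E i * z j ≠ 0) (u : Fin 4 → L)
    (hu : ∀ j, u j = (z j - l * E j) / c) :
    l / c = -(∑ i, ∑ j, A i j * u i * u j) / (2 * ∑ i, ∑ j, A i j * E i * u j) := by
  have hsym : ∑ i, ∑ j, A i j * z i * E j = ∑ i, ∑ j, A i j * E i * z j := by
    rw [Finset.sum_comm]
    refine Finset.sum_congr rfl fun i _ => Finset.sum_congr rfl fun j _ => ?_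
    rw [hs j i]
    ring
  have hEu : ∑ i, ∑ j, A i j * E i * u j = (∑ i, ∑ j, A i j * E i * z j) / c := by
    have h : ∑ i, ∑ j, A i j * E i * u j =
        ((∑ i, ∑ j, A i j * E i * z j) - l * ∑ i, ∑ j, A i j * E i * E j) / c := by
      simp only [hu, Fin.sum_univ_four]
      ring
    rw [h, hE, mul_zero, sub_zero]
  have huu : ∑ i, ∑ j, A i j * u i * u j =
      -(2 * l * ∑ i, ∑ j, A i j * E i * z j) / c ^ 2 := by
    have h : ∑ i, ∑ j, A i j * u i * u j =
        ((∑ i, ∑ j, A i j * z i * z j) - l * (∑ i, ∑ j, A i j * z i * E j) -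
          l * (∑ i, ∑ j, A i j * E i * z j) + l ^ 2 * ∑ i, ∑ j, A i j * E i * E j) /
          c ^ 2 := by
      simp only [hu, Fin.sum_univ_four]
      ring
    rw [h, hz, hE, hsym]
    ring
  rw [huu, hEu]
  field_simp

private theorem isoEnd_gen {K L : Type} [Field K] [Field L] [Algebra ℂ L] (σ : K →+* L)
    (x : Fin 6 → L) (hx0 : x 0 = 1) (N : Matrix (Fin 4) (Fin 4) K)
    (hN : ∀ i j, N i j = N j i) (hdet : N.det ≠ 0)
    (hlin : ∀ l : Fin 4 → K, ∑ i, σ (l i) * zz x i = 0 → l = 0)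
    (hquad : ∑ i, ∑ j, σ (N i j) * zz x i * zz x j = 0)
    (hsig : ∀ c : K, σ c ∈ IntermediateField.adjoin ℂ ({x 1, x 2} : Set L))
    {e0 : Fin 4 → K} (he : e0 ≠ 0) (hiso : e0 ⬝ᵥ (N *ᵥ e0) = 0) :
    ∃ a : Fin 4 → L, (∀ j, a j ∈ IntermediateField.adjoin ℂ (Set.range x)) ∧
      ∀ i, x i ∈ IntermediateField.adjoin ℂ (Set.range a) := by
  have h2 := isoEnd_two L
  obtain ⟨k, hk⟩ := Function.ne_iff.1 he
  have hk0 : e0 k ≠ 0 := hk
  have hEk : σ (e0 k) ≠ 0 := (map_ne_zero σ).2 hk0
  have hs : ∀ i j, σ (N i j) = σ (N j i) := fun i j => by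
    rw [hN i j]
  have hE : ∑ i, ∑ j, σ (N i j) * σ (e0 i) * σ (e0 j) = 0 := by
    have h3 := congrArg σ hiso
    rw [map_zero] at h3
    rw [← h3]
    simp only [dotProduct, mulVec, map_sum, map_mul, Finset.mul_sum]
    refine Finset.sum_congr rfl fun i _ => Finset.sum_congr rfl fun j _ => ?_
    ring
  have hz := hquad
  have hB : ∑ i, ∑ j, σ (N i j) * σ (e0 i) * zz x j ≠ 0 := by
    intro hB
    have h4 : e0 ᵥ* N = 0 := by
      refine hlin _ ?_
      rw [← hB, Finset.sum_comm]
      simp only [vecMul, dotProduct, map_sum, map_mul, Finset.sum_mul]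
      refine Finset.sum_congr rfl fun i _ => Finset.sum_congr rfl fun j _ => ?_
      ring
    exact hdet <| Matrix.exists_vecMul_eq_zero_iff.1 ⟨e0, he, h4⟩
  have hw : ∀ j, j ≠ k → zz x j - zz x k / σ (e0 k) * σ (e0 j) ≠ 0 := by
    intro j hj h0
    have h5 : ∀ (m : Fin 4) (c : K),
        ∑ i, σ ((Pi.single m c : Fin 4 → K) i) * zz x i = σ c * zz x m := by
      intro m c
      rw [Finset.sum_eq_single m]
      · rw [Pi.single_eq_same]
      · intro b _ hb
        rw [Pi.single_eq_of_ne hb, map_zero, zero_mul]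
      · intro hm
        exact absurd (Finset.mem_univ m) hm
    have h6 := hlin (Pi.single j 1 - Pi.single k (e0 j / e0 k)) (by
      simp only [Pi.sub_apply, map_sub, sub_mul, Finset.sum_sub_distrib, h5, map_one, one_mul,
        map_div₀]
      rw [← h0]
      ring)
    have h7 := congrFun h6 j
    rw [Pi.sub_apply, Pi.single_eq_same, Pi.single_eq_of_ne hj, sub_zero] at h7
    exact one_ne_zero h7
  obtain ⟨w, hwd⟩ : ∃ w : Fin 4 → L, ∀ j, w j = zz x j - zz x k / σ (e0 k) * σ (e0 j) :=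
    ⟨_, fun _ => rfl⟩
  have hwk : w k = 0 := by
    rw [hwd, div_mul_cancel₀ _ hEk, sub_self]
  have hw3 : w (k.succAbove 2) ≠ 0 := by
    rw [hwd]
    exact hw _ (Fin.succAbove_ne k 2)
  refine ⟨![x 1, x 2, w (k.succAbove 0) / w (k.succAbove 2),
    w (k.succAbove 1) / w (k.succAbove 2)], ?_, ?_⟩
  · -- the generators are in the function field
    have hx : ∀ i, x i ∈ IntermediateField.adjoin ℂ (Set.range x) := fun i =>
      IntermediateField.subset_adjoin _ _ ⟨i, rfl⟩
    have hsg : ∀ c : K, σ c ∈ IntermediateField.adjoin ℂ (Set.range x) := by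
      intro c
      refine (IntermediateField.adjoin_le_iff.2 ?_ :
        IntermediateField.adjoin ℂ ({x 1, x 2} : Set L) ≤ _) (hsig c)
      rintro y (rfl | rfl)
      · exact hx 1
      · exact hx 2
    have hzm : ∀ i, zz x i ∈ IntermediateField.adjoin ℂ (Set.range x) := by
      intro i
      fin_cases i
      · exact hx 3
      · exact hx 4
      · exact hx 5
      · exact one_mem _
    have hwm : ∀ i, w i ∈ IntermediateField.adjoin ℂ (Set.range x) := by
      intro i
      rw [hwd]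
      exact sub_mem (hzm i) (mul_mem (div_mem (hzm k) (hsg _)) (hsg _))
    intro j
    fin_cases j
    · exact hx 1
    · exact hx 2
    · exact div_mem (hwm _) (hwm _)
    · exact div_mem (hwm _) (hwm _)
  · -- the function field is generated
    obtain ⟨a, ha⟩ : ∃ a : Fin 4 → L, a = ![x 1, x 2, w (k.succAbove 0) / w (k.succAbove 2),
      w (k.succAbove 1) / w (k.succAbove 2)] := ⟨_, rfl⟩
    rw [← ha]
    have hg : ∀ i, a i ∈ IntermediateField.adjoin ℂ (Set.range a) := fun i =>
      IntermediateField.subset_adjoin _ _ ⟨i, rfl⟩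
    have hx1 : x 1 ∈ IntermediateField.adjoin ℂ (Set.range a) := by
      have := hg 0
      rwa [show a 0 = x 1 by rw [ha]; rfl] at this
    have hx2 : x 2 ∈ IntermediateField.adjoin ℂ (Set.range a) := by
      have := hg 1
      rwa [show a 1 = x 2 by rw [ha]; rfl] at this
    have hsg : ∀ c : K, σ c ∈ IntermediateField.adjoin ℂ (Set.range a) := by
      intro c
      refine (IntermediateField.adjoin_le_iff.2 ?_ :
        IntermediateField.adjoin ℂ ({x 1, x 2} : Set L) ≤ _) (hsig c)
      rintro y (rfl | rfl)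
      · exact hx1
      · exact hx2
    obtain ⟨u, hud⟩ : ∃ u : Fin 4 → L, ∀ j, u j = w j / w (k.succAbove 2) :=
      ⟨_, fun _ => rfl⟩
    have hum : ∀ j, u j ∈ IntermediateField.adjoin ℂ (Set.range a) := by
      intro j
      rw [hud]
      rcases Fin.eq_self_or_eq_succAbove k j with hj | ⟨i, hj⟩
      · rw [hj, hwk, zero_div]
        exact zero_mem _
      · rw [hj]
        fin_cases i
        · have := hg 2
          rwa [show a 2 = w (k.succAbove 0) / w (k.succAbove 2) by rw [ha]; rfl] at this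
        · have := hg 3
          rwa [show a 3 = w (k.succAbove 1) / w (k.succAbove 2) by rw [ha]; rfl] at this
        · change w (k.succAbove 2) / w (k.succAbove 2) ∈ _
          rw [div_self hw3]
          exact one_mem _
    have hcore := isoEnd_core h2 (fun i j => σ (N i j)) hs (fun i => σ (e0 i)) (zz x)
      (zz x k / σ (e0 k)) (w (k.succAbove 2)) hw3 hE hz hB u
      (fun j => by rw [hud, hwd])
    have hmu : zz x k / σ (e0 k) / w (k.succAbove 2) ∈
        IntermediateField.adjoin ℂ (Set.range a) := by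
      rw [hcore]
      refine div_mem (neg_mem (sum_mem fun i _ => sum_mem fun j _ =>
        mul_mem (mul_mem (hsg _) (hum i)) (hum j))) (mul_mem ?_ (sum_mem fun i _ =>
        sum_mem fun j _ => mul_mem (mul_mem (hsg _) (hsg _)) (hum j)))
      exact ofNat_mem _ 2
    have hzw : ∀ i, zz x i / w (k.succAbove 2) ∈ IntermediateField.adjoin ℂ (Set.range a) := by
      intro i
      have h8 : zz x i / w (k.succAbove 2) =
          u i + zz x k / σ (e0 k) / w (k.succAbove 2) * σ (e0 i) := by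
        rw [hud, hwd i]
        field_simp
        ring
      rw [h8]
      exact add_mem (hum i) (mul_mem hmu (hsg _))
    have hw3m : w (k.succAbove 2) ∈ IntermediateField.adjoin ℂ (Set.range a) := by
      have h9 := hzw 3
      have h10 : zz x 3 = 1 := rfl
      rw [h10, one_div] at h9
      have h11 := inv_mem h9
      rwa [inv_inv] at h11
    have hzm : ∀ i, zz x i ∈ IntermediateField.adjoin ℂ (Set.range a) := by
      intro i
      have h12 := mul_mem (hzw i) hw3m
      rwa [div_mul_cancel₀ _ hw3] at h12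
    intro i
    fin_cases i
    · change x 0 ∈ _
      rw [hx0]
      exact one_mem _
    · exact hx1
    · exact hx2
    · exact hzm 0
    · exact hzm 1
    · exact hzm 2

theorem iso_end (hM : IsCub M) (h : Model M L x σ) (hdet : affK M.det ≠ 0)
    {e0 : Fin 4 → K0} (he : e0 ≠ 0) (hiso : e0 ⬝ᵥ (M.map affK *ᵥ e0) = 0) :
    ∃ a : Fin 4 → L, (∀ j, a j ∈ IntermediateField.adjoin ℂ (Set.range x)) ∧
      ∀ i, x i ∈ IntermediateField.adjoin ℂ (Set.range a) := by
  refine isoEnd_gen σ x h.x0 (M.map affK) (fun i j => ?_) ?_ h.lin (quad hM h) (sig_mem h) he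
    hiso
  · rw [Matrix.map_apply, Matrix.map_apply, hM.symm.apply j i]
  · rwa [RingHom.map_det] at hdet

end Pool.Agent.PLN
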