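import Pool.Agent.PLN.DetHom
import Pool.Agent.P28.HomFac

set_option autoImplicit false

/-!
# PLN: the cubic form `cubic M` is irreducible if `det M` is

`star`: if `cubic M` divides `∑ g_i(x) z_i` (degree at most `1` in the fibre variables) then all
`g_i` are zero.
-/

namespace Pool.Agent.PLN

open MvPolynomial Matrix

/-- the point with coordinates `x`, `y`. -/
def pt (x y : Fin 3 → ℂ) : Fin 6 → ℂ := ![x 0, x 1, x 2, y 0, y 1, y 2]

theorem eval_up (x y : Fin 3 → ℂ) (g : S3) : eval (pt x y) (up g) = eval x g := by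
  unfold up
  rw [eval_rename]
  congr 2
  funext i
  fin_cases i <;> rfl

theorem eval_zc (x y : Fin 3 → ℂ) (i : Fin 4) :
    eval (pt x y) (zc i) = (![y 0, y 1, y 2, 1] : Fin 4 → ℂ) i := by
  unfold zc
  fin_cases i
  · simp [pt]
  · simp [pt]
  · simp [pt]
  · simp

theorem pt_surj (v : Fin 6 → ℂ) : v = pt ![v 0, v 1, v 2] ![v 3, v 4, v 5] := by
  funext i
  fin_cases i <;> rfl

theorem eval_cubic (M : Matrix (Fin 4) (Fin 4) S3) (x y : Fin 3 → ℂ) :
    eval (pt x y) (cubic M) = ∑ i, ∑ j, eval x (M i j) *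
      (![y 0, y 1, y 2, 1] : Fin 4 → ℂ) i * (![y 0, y 1, y 2, 1] : Fin 4 → ℂ) j := by
  unfold cubic
  rw [map_sum]
  refine Finset.sum_congr rfl fun i _ => ?_
  rw [map_sum]
  refine Finset.sum_congr rfl fun j _ => ?_
  rw [map_mul, map_mul, eval_up, eval_zc, eval_zc]

/-- the grading by the degree in the fibre variables. -/
private noncomputable def yT : S6 →ₐ[ℂ] Polynomial S6 :=
  aeval ![Polynomial.C (X 0), Polynomial.C (X 1), Polynomial.C (X 2),
    Polynomial.C (X 3) * Polynomial.X, Polynomial.C (X 4) * Polynomial.X,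
    Polynomial.C (X 5) * Polynomial.X]

private theorem yT_up (g : S3) : yT (up g) = Polynomial.C (up g) := by
  have h : (yT.comp up : S3 →ₐ[ℂ] Polynomial S6) =
      (Polynomial.CAlgHom : S6 →ₐ[ℂ] Polynomial S6).comp up := by
    refine MvPolynomial.algHom_ext fun i => ?_
    rw [AlgHom.comp_apply, AlgHom.comp_apply]
    unfold up yT
    rw [rename_X, aeval_X]
    fin_cases i <;> rfl
  exact DFunLike.congr_fun h g

private theorem yT_zc (i : Fin 4) : yT (zc i) =
    Polynomial.C (zc i) * Polynomial.X ^ ((![1, 1, 1, 0] : Fin 4 → ℕ) i) := by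
  unfold zc yT
  fin_cases i
  · simp
  · simp
  · simp
  · simp

private theorem yT_one (G : S6) : Polynomial.eval 1 (yT G) = G := by
  have h : ((Polynomial.evalRingHom (1 : S6)).comp (yT : S6 →+* Polynomial S6)) = RingHom.id S6 := by
    refine MvPolynomial.ringHom_ext (fun a => ?_) fun i => ?_
    · rw [RingHom.comp_apply, RingHom.coe_coe, ← algebraMap_eq, AlgHom.commutes]
      rw [Polynomial.algebraMap_apply, Polynomial.coe_evalRingHom, Polynomial.eval_C]
      rfl
    · rw [RingHom.comp_apply, RingHom.coe_coe]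
      unfold yT
      rw [aeval_X]
      fin_cases i <;> simp
  exact RingHom.congr_fun h G

private theorem yT_lin (g : Fin 4 → S3) : (yT (∑ i, up (g i) * zc i)).natDegree ≤ 1 := by
  rw [map_sum]
  refine Polynomial.natDegree_sum_le_of_forall_le _ _ fun i _ => ?_
  rw [map_mul, yT_up, yT_zc, ← mul_assoc, ← Polynomial.C_mul]
  refine (Polynomial.natDegree_C_mul_X_pow_le _ _).trans ?_
  fin_cases i <;> decide

private theorem block_ne {M : Matrix (Fin 4) (Fin 4) S3} (hdet : M.det ≠ 0) :
    ∃ i j : Fin 3, M (Fin.castSucc i) (Fin.castSucc j) ≠ 0 := by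
  by_contra hcon
  push Not at hcon
  apply hdet
  have h00 : M 0 0 = 0 := hcon 0 0
  have h01 : M 0 1 = 0 := hcon 0 1
  have h02 : M 0 2 = 0 := hcon 0 2
  have h10 : M 1 0 = 0 := hcon 1 0
  have h11 : M 1 1 = 0 := hcon 1 1
  have h12 : M 1 2 = 0 := hcon 1 2
  have h20 : M 2 0 = 0 := hcon 2 0
  have h21 : M 2 1 = 0 := hcon 2 1
  have h22 : M 2 2 = 0 := hcon 2 2
  rw [Matrix.det_succ_row_zero]
  simp [Matrix.det_fin_three, Fin.sum_univ_succ, Fin.succAbove, h00, h01, h02, h10, h11, h12, h20,
    h21, h22]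

private theorem quad_zero {A : Fin 3 → Fin 3 → ℂ} (hs : ∀ i j, A i j = A j i)
    (h : ∀ y : Fin 3 → ℂ, ∑ i, ∑ j, A i j * y i * y j = 0) : ∀ i j, A i j = 0 := by
  have e0 := h ![1, 0, 0]
  have e1 := h ![0, 1, 0]
  have e2 := h ![0, 0, 1]
  have e3 := h ![1, 1, 0]
  have e4 := h ![1, 0, 1]
  have e5 := h ![0, 1, 1]
  simp [Fin.sum_univ_three] at e0 e1 e2 e3 e4 e5
  have s1 := hs 1 0
  have s2 := hs 2 0
  have s3 := hs 2 1
  have f3 : A 0 1 = 0 := by
    have : 2 * A 0 1 = 0 := by linear_combination e3 - e0 - e1 - s1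
    simpa using this
  have f4 : A 0 2 = 0 := by
    have : 2 * A 0 2 = 0 := by linear_combination e4 - e0 - e2 - s2
    simpa using this
  have f5 : A 1 2 = 0 := by
    have : 2 * A 1 2 = 0 := by linear_combination e5 - e1 - e2 - s3
    simpa using this
  rw [f3] at s1
  rw [f4] at s2
  rw [f5] at s3
  intro i j
  fin_cases i <;> fin_cases j <;> assumption

private theorem two_le {M : Matrix (Fin 4) (Fin 4) S3} (hs : M.IsSymm) (hdet : M.det ≠ 0) :
    2 ≤ (yT (cubic M)).natDegree := by
  refine Polynomial.le_natDegree_of_ne_zero fun h0 => ?_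
  obtain ⟨i, j, hij⟩ := block_ne hdet
  apply hij
  refine MvPolynomial.funext fun x => ?_
  rw [map_zero]
  refine quad_zero (A := fun i j => eval x (M (Fin.castSucc i) (Fin.castSucc j)))
    (fun i j => ?_) (fun y => ?_) i j
  · exact congrArg (eval x) (hs.apply (Fin.castSucc j) (Fin.castSucc i))
  · have h1 : (yT (cubic M)).coeff 2 =
        ∑ i : Fin 3, ∑ j : Fin 3, up (M (Fin.castSucc i) (Fin.castSucc j)) *
          zc (Fin.castSucc i) * zc (Fin.castSucc j) := by
      have h2 : yT (cubic M) = ∑ i, ∑ j, Polynomial.C (up (M i j) * zc i * zc j) *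
          Polynomial.X ^ ((![1, 1, 1, 0] : Fin 4 → ℕ) i + (![1, 1, 1, 0] : Fin 4 → ℕ) j) := by
        unfold cubic
        rw [map_sum]
        refine Finset.sum_congr rfl fun i _ => ?_
        rw [map_sum]
        refine Finset.sum_congr rfl fun j _ => ?_
        rw [map_mul, map_mul, yT_up, yT_zc, yT_zc, pow_add, Polynomial.C_mul, Polynomial.C_mul]
        ring
      rw [h2]
      simp only [Polynomial.finsetSum_coeff, Polynomial.coeff_C_mul, Polynomial.coeff_X_pow]
      simp [Fin.sum_univ_succ]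
    have h2 := congrArg (eval (pt x y)) h1
    rw [h0, map_zero, map_sum] at h2
    rw [h2]
    refine Finset.sum_congr rfl fun i _ => ?_
    rw [map_sum]
    refine Finset.sum_congr rfl fun j _ => ?_
    rw [map_mul, map_mul, eval_up, eval_zc, eval_zc]
    fin_cases i <;> fin_cases j <;> rfl

/-- A polynomial of degree at most `1` in the fibre variables is not divisible by `cubic M`. -/
theorem star {M : Matrix (Fin 4) (Fin 4) S3} (hs : M.IsSymm) (hdet : M.det ≠ 0)
    {g : Fin 4 → S3} (h : cubic M ∣ ∑ i, up (g i) * zc i) : ∀ i, g i = 0 := by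
  obtain ⟨Q, hQ⟩ := h
  have h0 : ∑ i, up (g i) * zc i = 0 := by
    by_contra h1
    have h2 := yT_lin g
    rw [hQ, map_mul, Polynomial.natDegree_mul] at h2
    · have := two_le hs hdet
      omega
    · intro h3
      apply h1
      rw [hQ, ← yT_one (cubic M), h3, Polynomial.eval_zero, zero_mul]
    · intro h3
      apply h1
      rw [hQ, ← yT_one Q, h3, Polynomial.eval_zero, mul_zero]
  have h1 : ∀ x y : Fin 3 → ℂ, ∑ i, eval x (g i) * (![y 0, y 1, y 2, 1] : Fin 4 → ℂ) i = 0 := by
    intro x y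
    have h2 := congrArg (eval (pt x y)) h0
    rw [map_zero, map_sum] at h2
    rw [← h2]
    refine Finset.sum_congr rfl fun i _ => ?_
    rw [map_mul, eval_up, eval_zc]
  have h2 : ∀ (x : Fin 3 → ℂ) (i : Fin 4), eval x (g i) = 0 := by
    intro x
    have e0 := h1 x ![0, 0, 0]
    have e1 := h1 x ![1, 0, 0]
    have e2 := h1 x ![0, 1, 0]
    have e3 := h1 x ![0, 0, 1]
    simp [Fin.sum_univ_four] at e0 e1 e2 e3
    rw [e0] at e1 e2 e3
    simp at e1 e2 e3
    intro i
    fin_cases i <;> assumption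
  intro i
  exact MvPolynomial.funext fun x => by rw [h2, map_zero]

/-- a totally isotropic hyperplane makes a symmetric form of dimension four degenerate. -/
private theorem det_zero_of_hyperplane {A : Matrix (Fin 4) (Fin 4) ℂ}
    (p : Fin 4 → ℂ) (h : ∀ v w : Fin 4 → ℂ, p ⬝ᵥ v = 0 → p ⬝ᵥ w = 0 → v ⬝ᵥ (A *ᵥ w) = 0) :
    A.det = 0 := by
  by_contra hdet
  have hB : (Matrix.toBilin' A).Nondegenerate :=
    LinearMap.BilinForm.nondegenerate_toBilin'_iff_det_ne_zero.2 hdet
  set f : (Fin 4 → ℂ) →ₗ[ℂ] ℂ := ∑ i, p i • LinearMap.proj i with hf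
  have hfv : ∀ v, f v = p ⬝ᵥ v := by
    intro v
    rw [hf, LinearMap.sum_apply]
    rfl
  have h1 : 3 ≤ Module.finrank ℂ (LinearMap.ker f) := by
    have h3 := LinearMap.finrank_range_add_finrank_ker f
    rw [Module.finrank_fin_fun] at h3
    have h4 : Module.finrank ℂ (LinearMap.range f) ≤ 1 := by
      have := Submodule.finrank_le (LinearMap.range f)
      rwa [Module.finrank_self] at this
    omega
  have h2 := LinearMap.BilinForm.finrank_orthogonal hB (LinearMap.ker f)
  rw [Module.finrank_fin_fun] at h2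
  have h3 : LinearMap.ker f ≤ (Matrix.toBilin' A).orthogonal (LinearMap.ker f) := by
    intro v hv w hw
    rw [LinearMap.mem_ker, hfv] at hv hw
    rw [Matrix.toBilin'_apply']
    exact h w v hw hv
  have h4 := Submodule.finrank_mono h3
  omega

/-- A quadratic polynomial which vanishes on a hyperplane is degenerate. -/
private theorem det_zero_of_affine {A : Matrix (Fin 4) (Fin 4) ℂ} (hA : A.IsSymm)
    (p : Fin 4 → ℂ) {k : Fin 4} (hk3 : k ≠ 3) (hk : p k ≠ 0)
    (h : ∀ v : Fin 4 → ℂ, v 3 = 1 → p ⬝ᵥ v = 0 → v ⬝ᵥ (A *ᵥ v) = 0) : A.det = 0 := by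
  have h1 : ∀ v : Fin 4 → ℂ, v 3 ≠ 0 → p ⬝ᵥ v = 0 → v ⬝ᵥ (A *ᵥ v) = 0 := by
    intro v hv hpv
    have h2 := h ((v 3)⁻¹ • v) (by rw [Pi.smul_apply, smul_eq_mul, inv_mul_cancel₀ hv])
      (by rw [dotProduct_smul, hpv, smul_zero])
    rw [mulVec_smul, dotProduct_smul, smul_dotProduct, smul_eq_mul, smul_eq_mul] at h2
    have h3 : (v 3)⁻¹ ≠ 0 := inv_ne_zero hv
    rcases mul_eq_zero.1 h2 with h4 | h4
    · exact absurd h4 h3
    · rcases mul_eq_zero.1 h4 with h5 | h5
      · exact absurd h5 h3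
      · exact h5
  set u : Fin 4 → ℂ := Pi.single 3 1 - (p 3 / p k) • Pi.single k 1 with hu
  have hu3 : u 3 = 1 := by
    rw [hu, Pi.sub_apply, Pi.smul_apply, Pi.single_eq_same, Pi.single_eq_of_ne hk3.symm, smul_zero,
      sub_zero]
  have hpu : p ⬝ᵥ u = 0 := by
    rw [hu, dotProduct_sub, dotProduct_smul, dotProduct_single, dotProduct_single, smul_eq_mul,
      mul_one, mul_one, div_mul_cancel₀ _ hk, sub_self]
  have hsymm : ∀ v w : Fin 4 → ℂ, v ⬝ᵥ (A *ᵥ w) = w ⬝ᵥ (A *ᵥ v) := by
    intro v w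
    rw [dotProduct_mulVec, ← mulVec_transpose, hA.eq, dotProduct_comm]
  have hexp : ∀ (v w : Fin 4 → ℂ) (t : ℂ), (v + t • w) ⬝ᵥ (A *ᵥ (v + t • w)) =
      v ⬝ᵥ (A *ᵥ v) + 2 * t * (v ⬝ᵥ (A *ᵥ w)) + t ^ 2 * (w ⬝ᵥ (A *ᵥ w)) := by
    intro v w t
    rw [mulVec_add, mulVec_smul, add_dotProduct, dotProduct_add, dotProduct_add, smul_dotProduct,
      smul_dotProduct, dotProduct_smul, dotProduct_smul, hsymm w v]
    simp only [smul_eq_mul]
    ring
  have h2 : ∀ v : Fin 4 → ℂ, p ⬝ᵥ v = 0 → v ⬝ᵥ (A *ᵥ v) = 0 := by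
    intro v hv
    by_cases hv3 : v 3 = 0
    · have e1 := h1 (v + (1 : ℂ) • u) (by
        rw [Pi.add_apply, Pi.smul_apply, hv3, hu3, smul_eq_mul, mul_one, zero_add]
        exact one_ne_zero) (by rw [dotProduct_add, dotProduct_smul, hv, hpu, smul_zero, add_zero])
      have e2 := h1 (v + (-1 : ℂ) • u) (by
        rw [Pi.add_apply, Pi.smul_apply, hv3, hu3, smul_eq_mul, mul_one, zero_add]
        exact neg_ne_zero.2 one_ne_zero) (by
          rw [dotProduct_add, dotProduct_smul, hv, hpu, smul_zero, add_zero])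
      have e3 := h1 u (by rw [hu3]; exact one_ne_zero) hpu
      rw [hexp, e3] at e1 e2
      have : 2 * (v ⬝ᵥ (A *ᵥ v)) = 0 := by linear_combination e1 + e2
      simpa using this
    · exact h1 v hv3 hv
  refine det_zero_of_hyperplane p fun v w hv hw => ?_
  have e1 := h2 (v + (1 : ℂ) • w) (by rw [dotProduct_add, dotProduct_smul, hv, hw, smul_zero,
    add_zero])
  rw [hexp, h2 v hv, h2 w hw] at e1
  have : 2 * (v ⬝ᵥ (A *ᵥ w)) = 0 := by linear_combination e1
  simpa using this

/-- coefficients of a quadratic polynomial over an algebra. -/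
private theorem quad_zero4 {A : Type} [CommRing A] [Algebra ℂ A] {a : Fin 4 → Fin 4 → A}
    (hs : ∀ i j, a i j = a j i)
    (h : ∀ y : Fin 3 → ℂ, ∑ i, ∑ j, a i j * algebraMap ℂ A ((![y 0, y 1, y 2, 1] : Fin 4 → ℂ) i) *
      algebraMap ℂ A ((![y 0, y 1, y 2, 1] : Fin 4 → ℂ) j) = 0) : ∀ i j, a i j = 0 := by
  have e0 := h ![0, 0, 0]
  have e1 := h ![1, 0, 0]
  have e2 := h ![0, 1, 0]
  have e3 := h ![0, 0, 1]
  have f1 := h ![-1, 0, 0]
  have f2 := h ![0, -1, 0]
  have f3 := h ![0, 0, -1]
  have g1 := h ![1, 1, 0]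
  have g2 := h ![1, 0, 1]
  have g3 := h ![0, 1, 1]
  simp [Fin.sum_univ_four] at e0 e1 e2 e3 f1 f2 f3 g1 g2 g3
  have two : ∀ {z : A}, 2 * z = 0 → z = 0 := by
    intro z hz
    have h2 : algebraMap ℂ A (1 / 2) * (2 * z) = z := by
      have h3 : (2 : A) = algebraMap ℂ A 2 := by rw [map_ofNat]
      rw [← mul_assoc, h3, ← map_mul]
      norm_num
    rw [← h2, hz, mul_zero]
  have s10 := hs 1 0
  have s20 := hs 2 0
  have s30 := hs 3 0
  have s21 := hs 2 1
  have s31 := hs 3 1
  have s32 := hs 3 2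
  have a00 : a 0 0 = 0 := two (by linear_combination e1 + f1 - 2 * e0)
  have a11 : a 1 1 = 0 := two (by linear_combination e2 + f2 - 2 * e0)
  have a22 : a 2 2 = 0 := two (by linear_combination e3 + f3 - 2 * e0)
  have a03 : a 0 3 = 0 := two (by linear_combination e1 - a00 - e0 - s30)
  have a13 : a 1 3 = 0 := two (by linear_combination e2 - a11 - e0 - s31)
  have a23 : a 2 3 = 0 := two (by linear_combination e3 - a22 - e0 - s32)
  rw [a03] at s30
  rw [a13] at s31
  rw [a23] at s32
  have a01 : a 0 1 = 0 := two (by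
    linear_combination g1 - a00 - a11 - e0 - s10 - a03 - a13 - s30 - s31)
  have a02 : a 0 2 = 0 := two (by
    linear_combination g2 - a00 - a22 - e0 - s20 - a03 - a23 - s30 - s32)
  have a12 : a 1 2 = 0 := two (by
    linear_combination g3 - a11 - a22 - e0 - s21 - a13 - a23 - s31 - s32)
  rw [a01] at s10
  rw [a02] at s20
  rw [a12] at s21
  intro i j
  fin_cases i <;> fin_cases j <;> assumption

/-- no linear form divides the cubic form. -/
private theorem no_lin {M : Matrix (Fin 4) (Fin 4) S3} (hM : IsCub M) (hi : Irreducible M.det)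
    {P : S6} (hP : P.IsHomogeneous 1) (hdvd : P ∣ cubic M) : False := by
  have h1 : P ∈ Submodule.span ℂ (Set.range (X : Fin 6 → S6)) := by
    rw [← homogeneousSubmodule_one_eq_span_X]
    exact hP
  obtain ⟨c, hc⟩ := (Submodule.mem_span_range_iff_exists_fun ℂ).1 h1
  obtain ⟨Q, hQ⟩ := hdvd
  by_cases hk : c 3 = 0 ∧ c 4 = 0 ∧ c 5 = 0
  · -- the linear form divides the matrix
    obtain ⟨h3, h4, h5⟩ := hk
    set g : S3 := ∑ k : Fin 3, c (Fin.castLE (by norm_num : 3 ≤ 6) k) • X k with hg
    have hPg : P = up g := by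
      rw [← hc, hg, map_sum]
      simp only [Fin.sum_univ_succ, Fin.sum_univ_zero, map_smul]
      unfold up
      simp only [rename_X]
      have e3 : c (Fin.succ (Fin.succ (Fin.succ 0))) = 0 := h3
      have e4 : c (Fin.succ (Fin.succ (Fin.succ (Fin.succ 0)))) = 0 := h4
      have e5 : c (Fin.succ (Fin.succ (Fin.succ (Fin.succ (Fin.succ 0))))) = 0 := h5
      rw [e3, e4, e5]
      simp only [zero_smul, add_zero]
      rfl
    have hdiv : ∀ i j, g ∣ M i j := by
      have hz : ∀ i j, Ideal.Quotient.mk (Ideal.span {g}) (M i j) = 0 := by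
        refine quad_zero4 (a := fun i j => Ideal.Quotient.mk (Ideal.span {g}) (M i j))
          (fun i j => ?_) fun y => ?_
        · exact congrArg _ (hM.symm.apply j i)
        · set φ : S6 →ₐ[ℂ] S3 := aeval ![X 0, X 1, X 2, C (y 0), C (y 1), C (y 2)] with hφ
          have hφup : ∀ g : S3, φ (up g) = g := by
            intro g
            have h6 : φ.comp up = AlgHom.id ℂ S3 := by
              refine MvPolynomial.algHom_ext fun i => ?_
              rw [AlgHom.comp_apply]
              unfold up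
              rw [rename_X, hφ, aeval_X]
              fin_cases i <;> rfl
            exact DFunLike.congr_fun h6 g
          have hφz : ∀ i, φ (zc i) = C ((![y 0, y 1, y 2, 1] : Fin 4 → ℂ) i) := by
            intro i
            unfold zc
            fin_cases i
            · simp [hφ]
            · simp [hφ]
            · simp [hφ]
            · simp
          have h7 : φ (cubic M) = g * φ Q := by rw [hQ, map_mul, hPg, hφup]
          have h8 : Ideal.Quotient.mk (Ideal.span {g}) (φ (cubic M)) = 0 := by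
            rw [Ideal.Quotient.eq_zero_iff_dvd, h7]
            exact dvd_mul_right _ _
          rw [← h8]
          unfold cubic
          rw [map_sum, map_sum]
          refine Finset.sum_congr rfl fun i _ => ?_
          rw [map_sum, map_sum]
          refine Finset.sum_congr rfl fun j _ => ?_
          rw [map_mul φ, map_mul φ, hφup, hφz, hφz, map_mul, map_mul]
          rfl
      intro i j
      exact (Ideal.Quotient.eq_zero_iff_dvd _ _).1 (hz i j)
    choose M' hM' using hdiv
    have h6 : M = g • (Matrix.of M') := by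
      ext1 i j
      rw [Matrix.smul_apply, smul_eq_mul, Matrix.of_apply]
      exact hM' i j
    have h7 : M.det = g * (g ^ 3 * (Matrix.of M').det) := by
      rw [h6, Matrix.det_smul, Fintype.card_fin]
      ring
    have hgu : IsUnit g := by
      rcases hi.isUnit_or_isUnit h7 with h8 | h8
      · exact h8
      · exact isUnit_of_mul_isUnit_left ((pow_succ' g 2) ▸ (isUnit_of_mul_isUnit_left h8))
    have h8 : IsUnit P := by
      rw [hPg]
      exact hgu.map up
    obtain ⟨v, hv⟩ := h8.exists_right_inv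
    have h9 := congrArg (eval (0 : Fin 6 → ℂ)) hv
    have h10 : eval (0 : Fin 6 → ℂ) P = 0 := by
      rw [← hc, map_sum]
      refine Finset.sum_eq_zero fun i _ => ?_
      rw [smul_eval, eval_X]
      simp
    rw [map_mul, h10, zero_mul, map_one] at h9
    exact zero_ne_one h9
  · -- the determinant vanishes
    apply hi.ne_zero
    refine MvPolynomial.funext fun x => ?_
    rw [map_zero]
    have h2 : eval x M.det = (M.map (eval x)).det := by
      rw [RingHom.map_det]
      rfl
    rw [h2]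
    set p : Fin 4 → ℂ := ![c 3, c 4, c 5, c 0 * x 0 + c 1 * x 1 + c 2 * x 2] with hp
    obtain ⟨k, hk3, hk0⟩ : ∃ k : Fin 4, k ≠ 3 ∧ p k ≠ 0 := by
      by_contra hcon
      push Not at hcon
      exact hk ⟨hcon 0 (by decide), hcon 1 (by decide), hcon 2 (by decide)⟩
    refine det_zero_of_affine ?_ p hk3 hk0 fun v hv hpv => ?_
    · ext1 i j
      rw [Matrix.transpose_apply, Matrix.map_apply, Matrix.map_apply, hM.symm.apply]
    · have h3 : eval (pt x ![v 0, v 1, v 2]) P = 0 := by
        rw [← hc, map_sum]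
        simp only [smul_eval, eval_X]
        rw [hp] at hpv
        simp [dotProduct, Fin.sum_univ_four, hv] at hpv
        simp [Fin.sum_univ_succ, pt]
        linear_combination hpv
      have h4 := eval_cubic M x ![v 0, v 1, v 2]
      rw [hQ, map_mul, h3, zero_mul] at h4
      have h5 : (![(![v 0, v 1, v 2] : Fin 3 → ℂ) 0, (![v 0, v 1, v 2] : Fin 3 → ℂ) 1,
          (![v 0, v 1, v 2] : Fin 3 → ℂ) 2, 1] : Fin 4 → ℂ) = v := by
        funext i
        fin_cases i
        · rfl
        · rfl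
        · rfl
        · exact hv.symm
      rw [h5] at h4
      rw [h4]
      simp only [dotProduct, mulVec, Finset.mul_sum, Matrix.map_apply]
      refine Finset.sum_congr rfl fun i _ => Finset.sum_congr rfl fun j _ => ?_
      ring

/-- the cubic form is irreducible. -/
theorem cubic_irr {M : Matrix (Fin 4) (Fin 4) S3} (hM : IsCub M) (hi : Irreducible M.det) :
    Irreducible (cubic M) := by
  have hF := cubic_hom hM
  have hF0 : cubic M ≠ 0 := by
    intro h0
    have h1 := two_le hM.symm hi.ne_zero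
    rw [h0, map_zero, Polynomial.natDegree_zero] at h1
    omega
  have hunit : ∀ A : S6, A ≠ 0 → A.IsHomogeneous 0 → IsUnit A := by
    intro A hA hA0
    have h1 : A = C (coeff 0 A) :=
      totalDegree_eq_zero_iff_eq_C.1 ((totalDegree_zero_iff_isHomogeneous _).2 hA0)
    have h2 : coeff 0 A ≠ 0 := by
      intro h3
      rw [h3, map_zero] at h1
      exact hA h1
    rw [h1]
    exact (isUnit_iff_ne_zero.2 h2).map C
  refine ⟨?_, ?_⟩
  · intro hu
    obtain ⟨v, hv⟩ := hu.exists_right_inv
    have h1 : (cubic M * v).IsHomogeneous 0 := by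
      rw [hv]
      exact isHomogeneous_one _ _
    obtain ⟨a, b, hab, ha, -⟩ := Pool.Agent.P28.hom_factor h1 (by rw [hv]; exact one_ne_zero)
    have h2 := hF.inj_right ha hF0
    omega
  · intro P Q hPQ
    have hPQ0 : P * Q ≠ 0 := by
      rw [← hPQ]
      exact hF0
    obtain ⟨a, b, hab, ha, hb⟩ := Pool.Agent.P28.hom_factor (hPQ ▸ hF) hPQ0
    have hc : a = 0 ∨ b = 0 ∨ a = 1 ∨ b = 1 := by omega
    rcases hc with rfl | rfl | rfl | rfl
    · exact Or.inl (hunit P (left_ne_zero_of_mul hPQ0) ha)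
    · exact Or.inr (hunit Q (right_ne_zero_of_mul hPQ0) hb)
    · exact (no_lin hM hi ha ⟨Q, hPQ⟩).elim
    · exact (no_lin hM hi hb ⟨P, by rw [hPQ, mul_comm]⟩).elim

end Pool.Agent.PLN
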