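import Pool.Agent.PLN.Defs

set_option autoImplicit false

/-!
# PLN: elements of `ℂ(s, t)` as quotients of forms in three variables
-/

namespace Pool.Agent.PLN

open MvPolynomial

instance : NoZeroDivisors K0 := IsDomain.to_noZeroDivisors K0

/-- homogenisation inside the same ring, with the variable `X 0` -/
noncomputable def hz3 (n : ℕ) (P : S3) : S3 :=
  ∑ i ∈ Finset.range (n + 1), X 0 ^ (n - i) * homogeneousComponent i P

theorem hz3_hom (n : ℕ) (P : S3) : (hz3 n P).IsHomogeneous n := by
  refine IsHomogeneous.sum _ _ _ fun i hi => ?_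
  have h1 : ((X 0 : S3) ^ (n - i)).IsHomogeneous (n - i) := isHomogeneous_X_pow _ _
  have h2 := h1.mul (homogeneousComponent_isHomogeneous i P)
  rw [Finset.mem_range] at hi
  rwa [Nat.sub_add_cancel (by omega)] at h2

theorem aff_X0 : aff (X 0) = 1 := by
  unfold aff
  rw [aeval_X]
  rfl

theorem aff_X1 : aff (X 1) = Polynomial.C RatFunc.X := by
  unfold aff
  rw [aeval_X]
  rfl

theorem aff_X2 : aff (X 2) = Polynomial.X := by
  unfold aff
  rw [aeval_X]
  rfl

theorem aff_hz3 {n : ℕ} {P : S3} (h : P.totalDegree ≤ n) : aff (hz3 n P) = aff P := by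
  unfold hz3
  rw [map_sum]
  have h1 : ∀ i ∈ Finset.range (n + 1), aff (X 0 ^ (n - i) * homogeneousComponent i P) =
      aff (homogeneousComponent i P) := by
    intro i _
    rw [map_mul, map_pow, aff_X0, one_pow, one_mul]
  rw [Finset.sum_congr rfl h1, ← map_sum]
  congr 1
  conv_rhs => rw [← sum_homogeneousComponent P]
  symm
  refine Finset.sum_subset (Finset.range_mono (by omega)) fun i _ hi => ?_
  refine homogeneousComponent_eq_zero _ _ ?_
  rw [Finset.mem_range] at hi
  omega

/-- polynomials in `s`, `t` come from forms. -/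
theorem aff_surj (q : Polynomial (Polynomial ℂ)) : ∃ (m : ℕ) (g : S3), g.IsHomogeneous m ∧
    aff g = q.map (algebraMap (Polynomial ℂ) F0) := by
  set f : Polynomial (Polynomial ℂ) →+* S3 :=
    Polynomial.eval₂RingHom ((Polynomial.aeval (X 1 : S3)).toRingHom) (X 2) with hf
  have h1 : (aff : S3 →+* R0).comp f = Polynomial.mapRingHom (algebraMap (Polynomial ℂ) F0) := by
    apply Polynomial.ringHom_ext
    · intro a
      rw [RingHom.comp_apply, hf, Polynomial.coe_eval₂RingHom, Polynomial.eval₂_C]
      simp only [Polynomial.coe_mapRingHom, Polynomial.map_C]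
      induction a using Polynomial.induction_on' with
      | add p q hp hq =>
        rw [map_add, map_add, hp, hq, map_add, map_add]
      | monomial n a =>
        rw [← Polynomial.C_mul_X_pow_eq_monomial]
        simp only [AlgHom.toRingHom_eq_coe, RingHom.coe_coe, map_mul, map_pow,
          Polynomial.aeval_X, aff_X1, Polynomial.aeval_C]
        rw [AlgHom.commutes, RatFunc.algebraMap_X]
        congr 1
    · rw [RingHom.comp_apply, hf, Polynomial.coe_eval₂RingHom, Polynomial.eval₂_X]
      simp only [RingHom.coe_coe, aff_X2, Polynomial.coe_mapRingHom, Polynomial.map_X]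
  refine ⟨(f q).totalDegree, hz3 (f q).totalDegree (f q), hz3_hom _ _, ?_⟩
  rw [aff_hz3 le_rfl]
  exact RingHom.congr_fun h1 q

theorem den_R0 (p : R0) : ∃ (m : ℕ) (g h : S3), g.IsHomogeneous m ∧ h.IsHomogeneous m ∧
    aff h ≠ 0 ∧ aff h * p = aff g := by
  obtain ⟨b, hbm, hb⟩ := IsLocalization.integerNormalization_spec
    (nonZeroDivisors (Polynomial ℂ)) (S := F0) p
  obtain ⟨m, g, hg, hg'⟩ := aff_surj
    (IsLocalization.integerNormalization (nonZeroDivisors (Polynomial ℂ)) p)
  obtain ⟨n, h, hh, hh'⟩ := aff_surj (Polynomial.C b)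
  have hX : ∀ k : ℕ, ((X 0 : S3) ^ k).IsHomogeneous k := isHomogeneous_X_pow _
  refine ⟨n + m, X 0 ^ n * g, X 0 ^ m * h, (hX n).mul hg, by
    have h1 := (hX m).mul hh
    rwa [add_comm m n] at h1, ?_, ?_⟩
  · rw [map_mul, map_pow, aff_X0, one_pow, one_mul, hh', Polynomial.map_C]
    rw [Polynomial.C_ne_zero]
    intro h
    have h1 : b = 0 := (IsFractionRing.injective (Polynomial ℂ) F0) (by rw [h, map_zero])
    exact nonZeroDivisors.ne_zero hbm h1
  · rw [map_mul, map_pow, aff_X0, one_pow, one_mul, map_mul, map_pow, aff_X0, one_pow, one_mul,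
      hg', hh', hb, Polynomial.map_C, ← Polynomial.smul_eq_C_mul, algebraMap_smul]

theorem den_one (l : K0) : ∃ (m : ℕ) (g h : S3), g.IsHomogeneous m ∧ h.IsHomogeneous m ∧
    affK h ≠ 0 ∧ affK h * l = affK g := by
  obtain ⟨r, b, hb, rfl⟩ := IsFractionRing.div_surjective (A := R0) l
  obtain ⟨m, g, h, hg, hh, h0, hgh⟩ := den_R0 r
  obtain ⟨n, g', h', hg', hh', h0', hgh'⟩ := den_R0 b
  have hb0 : b ≠ 0 := nonZeroDivisors.ne_zero hb
  have hinj : ∀ {x : R0}, x ≠ 0 → algebraMap R0 K0 x ≠ 0 := fun hx h1 =>
    hx ((IsFractionRing.injective R0 K0) (by rw [h1, map_zero]))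
  have hg0 : aff g' ≠ 0 := by
    rw [← hgh']
    exact mul_ne_zero h0' hb0
  refine ⟨m + n, g * h', h * g', hg.mul hh', hh.mul hg', ?_, ?_⟩
  · rw [map_mul]
    exact mul_ne_zero (hinj h0) (hinj hg0)
  · have e1 : affK (h * g') = algebraMap R0 K0 (aff h) * algebraMap R0 K0 (aff g') := by
      rw [map_mul]
      rfl
    have e2 : affK (g * h') = algebraMap R0 K0 (aff g) * algebraMap R0 K0 (aff h') := by
      rw [map_mul]
      rfl
    rw [e1, e2, ← hgh, ← hgh', map_mul, map_mul]
    have := hinj hb0
    field_simp

/-- common denominators. -/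
theorem den_K0 {ι : Type} [Fintype ι] (l : ι → K0) : ∃ (w : K0) (m : ℕ) (g : ι → S3), w ≠ 0 ∧
    (∀ i, (g i).IsHomogeneous m) ∧ ∀ i, affK (g i) = w * l i := by
  classical
  choose m g h hg hh h0 hgh using fun i => den_one (l i)
  refine ⟨∏ j, affK (h j), ∑ j, m j, fun i => g i * ∏ j ∈ Finset.univ.erase i, h j,
    Finset.prod_ne_zero_iff.2 fun j _ => h0 j, fun i => ?_, fun i => ?_⟩
  · rw [← Finset.add_sum_erase Finset.univ m (Finset.mem_univ i)]
    exact (hg i).mul (IsHomogeneous.prod _ _ _ fun j _ => hh j)
  · simp only [map_mul]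
    rw [← hgh, map_prod, ← Finset.mul_prod_erase Finset.univ _ (Finset.mem_univ i)]
    ring

theorem eval_smul3 {n : ℕ} {P : S3} (hP : P.IsHomogeneous n) (c : ℂ) (z : Fin 3 → ℂ) :
    eval (fun i => c * z i) P = c ^ n * eval z P := by
  rw [eval_eq, eval_eq, Finset.mul_sum]
  refine Finset.sum_congr rfl fun d hd => ?_
  have h1 : ∑ i ∈ d.support, d i = n := by
    have := hP (mem_support_iff.1 hd)
    rw [Finsupp.weight_apply] at this
    simpa [Finsupp.sum] using this
  have h2 : ∏ i ∈ d.support, (c * z i) ^ d i = c ^ n * ∏ i ∈ d.support, z i ^ d i := by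
    rw [← h1, ← Finset.prod_pow_eq_pow_sum, ← Finset.prod_mul_distrib]
    exact Finset.prod_congr rfl fun i _ => mul_pow _ _ _
  rw [h2]
  ring

/-- `aff` is injective on forms. -/
theorem aff_inj {m : ℕ} {g : S3} (hg : g.IsHomogeneous m) (h : aff g = 0) : g = 0 := by
  -- polynomials in two variables inject
  have h1 : X 0 * g = 0 := by
    refine MvPolynomial.funext fun v => ?_
    rw [map_mul, map_zero, eval_X]
    by_cases hv : v 0 = 0
    · rw [hv, zero_mul]
    · have h8 : eval v g = v 0 ^ m * eval (fun i => v i / v 0) g := by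
        rw [← eval_smul3 hg]
        congr 2
        funext i
        rw [mul_div_cancel₀ _ hv]
      have h9 : eval (fun i => v i / v 0) g = 0 := by
        set j : Polynomial (Polynomial ℂ) →+* R0 :=
          Polynomial.mapRingHom (algebraMap (Polynomial ℂ) F0) with hj
        set f : S3 →ₐ[ℂ] Polynomial (Polynomial ℂ) :=
          aeval ![1, Polynomial.C Polynomial.X, Polynomial.X] with hf
        have h2 : (aff : S3 →+* R0) = j.comp (f : S3 →+* Polynomial (Polynomial ℂ)) := by
          refine MvPolynomial.ringHom_ext (fun a => ?_) fun i => ?_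
          · rw [RingHom.comp_apply, RingHom.coe_coe, RingHom.coe_coe, ← algebraMap_eq,
              AlgHom.commutes, AlgHom.commutes, hj]
            rw [Polynomial.algebraMap_apply, Polynomial.algebraMap_apply,
              Polynomial.coe_mapRingHom, Polynomial.map_C]
            rfl
          · rw [RingHom.comp_apply, RingHom.coe_coe, RingHom.coe_coe, hf, aeval_X]
            unfold aff
            rw [aeval_X, hj]
            fin_cases i
            · simp
            · simp
            · simp
        have h3 : f g = 0 := by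
          have h4 : j (f g) = 0 := by
            have h5 := RingHom.congr_fun h2 g
            rw [RingHom.coe_coe, h] at h5
            exact h5.symm
          have h6 : Function.Injective j :=
            Polynomial.map_injective _ (IsFractionRing.injective (Polynomial ℂ) F0)
          exact h6 (by rw [h4, map_zero])
        have h4 : eval (fun i => v i / v 0) g =
            Polynomial.eval (v 1 / v 0) (Polynomial.eval (Polynomial.C (v 2 / v 0)) (f g)) := by
          have h5 : (eval (fun i => v i / v 0) : S3 →+* ℂ) =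
              (Polynomial.evalRingHom (v 1 / v 0)).comp
                ((Polynomial.evalRingHom (Polynomial.C (v 2 / v 0))).comp
                  (f : S3 →+* Polynomial (Polynomial ℂ))) := by
            refine MvPolynomial.ringHom_ext (fun a => ?_) fun i => ?_
            · simp only [RingHom.comp_apply, RingHom.coe_coe, ← algebraMap_eq,
                AlgHom.commutes, Polynomial.algebraMap_apply, Polynomial.coe_evalRingHom,
                Polynomial.eval_C]
              simp
            · simp only [eval_X, RingHom.comp_apply, RingHom.coe_coe, hf, aeval_X,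
                Polynomial.coe_evalRingHom]
              fin_cases i
              · simp [div_self hv]
              · simp
              · simp
          exact RingHom.congr_fun h5 g
        rw [h4, h3, Polynomial.eval_zero, Polynomial.eval_zero]
      rw [h8, h9, mul_zero, mul_zero]
  rcases mul_eq_zero.1 h1 with h4 | h4
  · exact absurd h4 (X_ne_zero 0)
  · exact h4

/-- `affK` is injective on forms. -/
theorem affK_inj {m : ℕ} {g : S3} (hg : g.IsHomogeneous m) (h : affK g = 0) : g = 0 :=
  aff_inj hg ((IsFractionRing.injective R0 K0) (by rw [map_zero]; exact h))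

end Pool.Agent.PLN
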