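import Pool.Agent.PLN.RatFF
import Pool.Agent.PLN.Den
import Pool.Agent.PLN.CubIrr

set_option autoImplicit false

/-!
# PLN: the function field of the cubic fourfold

`exists_model`: `L = Frac (S6 / (cubic M))`, `x i = X i / X 0`.
`rational_of_gen`: if `ℂ(x)` is generated by four elements, the cubic fourfold is rational.
-/

namespace Pool.Agent.PLN

open MvPolynomial Matrix

/-- the chart `x0 = 1` with values in `ℂ[s][t]`. -/
private noncomputable def aff2 : S3 →ₐ[ℂ] Polynomial (Polynomial ℂ) :=
  aeval ![1, Polynomial.C Polynomial.X, Polynomial.X]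

private theorem aff2_aff (g : S3) :
    (aff2 g).map (algebraMap (Polynomial ℂ) F0) = aff g := by
  have h2 : (aff : S3 →+* R0) = (Polynomial.mapRingHom (algebraMap (Polynomial ℂ) F0)).comp
      (aff2 : S3 →+* Polynomial (Polynomial ℂ)) := by
    refine MvPolynomial.ringHom_ext (fun a => ?_) fun i => ?_
    · rw [RingHom.comp_apply, RingHom.coe_coe, RingHom.coe_coe, ← algebraMap_eq,
        AlgHom.commutes, AlgHom.commutes]
      rw [Polynomial.algebraMap_apply, Polynomial.algebraMap_apply,
        Polynomial.coe_mapRingHom, Polynomial.map_C]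
      rfl
    · rw [RingHom.comp_apply, RingHom.coe_coe, RingHom.coe_coe]
      unfold aff aff2
      rw [aeval_X, aeval_X]
      fin_cases i
      · simp
      · simp
      · simp
  exact (RingHom.congr_fun h2 g).symm

private theorem map_inj : Function.Injective
    (Polynomial.map (algebraMap (Polynomial ℂ) F0) : Polynomial (Polynomial ℂ) → R0) :=
  Polynomial.map_injective _ (IsFractionRing.injective (Polynomial ℂ) F0)

private theorem aff2_surj (q : Polynomial (Polynomial ℂ)) : ∃ (m : ℕ) (g : S3),
    g.IsHomogeneous m ∧ aff2 g = q := by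
  obtain ⟨m, g, hg, hq⟩ := aff_surj q
  exact ⟨m, g, hg, map_inj (by rw [aff2_aff, hq])⟩

theorem exists_model {M : Matrix (Fin 4) (Fin 4) S3} (hM : IsCub M) (hi : Irreducible M.det) :
    ∃ (L : Type) (_ : Field L) (_ : Algebra ℂ L) (x : Fin 6 → L) (σ : K0 →+* L),
      Model M L x σ := by
  have hirr := cubic_irr hM hi
  have hpr : (Ideal.span {cubic M}).IsPrime :=
    (Ideal.span_singleton_prime hirr.ne_zero).2 hirr.prime
  set Q := S6 ⧸ Ideal.span {cubic M} with hQ
  set L := FractionRing Q with hL
  set ι : S6 →ₐ[ℂ] L := (Algebra.ofId Q L).restrictScalars ℂ |>.comp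
    (Ideal.Quotient.mkₐ ℂ (Ideal.span {cubic M})) with hι
  have hι0 : ∀ G : S6, ι G = 0 ↔ cubic M ∣ G := by
    intro G
    rw [← Ideal.Quotient.eq_zero_iff_dvd]
    constructor
    · intro h
      exact (IsFractionRing.injective Q L) (by rw [map_zero]; exact h)
    · intro h
      change algebraMap Q L (Ideal.Quotient.mk _ G) = 0
      rw [h, map_zero]
  have hX0 : ι (X 0) ≠ 0 := by
    intro h
    have h1 : cubic M ∣ ∑ i, up ((![0, 0, 0, X 0] : Fin 4 → S3) i) * zc i := by
      have h2 : ∑ i, up ((![0, 0, 0, X 0] : Fin 4 → S3) i) * zc i = X 0 := by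
        simp [Fin.sum_univ_four, up, zc]
      rw [h2]
      exact (hι0 _).1 h
    have h2 := star hM.symm hi.ne_zero h1 3
    exact X_ne_zero 0 h2
  set x : Fin 6 → L := fun i => ι (X i) / ι (X 0) with hx
  have x0 : x 0 = 1 := div_self hX0
  have hker : ∀ (G : S6) (m : ℕ), G.IsHomogeneous m → (aeval x G = 0 ↔ cubic M ∣ G) := by
    intro G m hG
    rw [← hι0]
    have h1 := aeval_smul_hom hG (ι (X 0)) x
    have h2 : aeval (fun i => ι (X 0) * x i) G = ι G := by
      have h3 : aeval (fun i => ι (X 0) * x i) = ι := by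
        refine MvPolynomial.algHom_ext fun i => ?_
        rw [aeval_X, hx]
        simp only
        rw [mul_div_cancel₀ _ hX0]
      rw [h3]
    rw [h2] at h1
    rw [h1]
    constructor
    · intro h3
      rw [h3, mul_zero]
    · intro h3
      rcases mul_eq_zero.1 h3 with h4 | h4
      · exact absurd h4 (pow_ne_zero _ hX0)
      · exact h4
  -- the embedding
  set e1 : Polynomial ℂ →+* L := (Polynomial.aeval (x 1) : Polynomial ℂ →ₐ[ℂ] L).toRingHom with he1
  set E : Polynomial (Polynomial ℂ) →+* L := Polynomial.eval₂RingHom e1 (x 2) with hE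
  have hEx : ∀ g : S3, E (aff2 g) = aeval x (up g) := by
    intro g
    have h1 : E.comp (aff2 : S3 →+* Polynomial (Polynomial ℂ)) =
        ((aeval x).comp up : S3 →ₐ[ℂ] L).toRingHom := by
      refine MvPolynomial.ringHom_ext (fun a => ?_) fun i => ?_
      · rw [RingHom.comp_apply, RingHom.coe_coe, ← algebraMap_eq, AlgHom.commutes, hE, he1]
        simp
      · rw [RingHom.comp_apply, RingHom.coe_coe]
        unfold aff2 up
        rw [aeval_X]
        fin_cases i
        · simp [x0]
        · simp [hE, he1]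
        · simp [hE]
    exact RingHom.congr_fun h1 g
  have hEinj : Function.Injective E := by
    rw [injective_iff_map_eq_zero]
    intro q hq
    obtain ⟨m, g, hg, rfl⟩ := aff2_surj q
    have hup : (up g).IsHomogeneous m := hg.rename_isHomogeneous
    rw [hEx, hker _ m hup] at hq
    have h1 : cubic M ∣ ∑ i, up ((![0, 0, 0, g] : Fin 4 → S3) i) * zc i := by
      have h2 : ∑ i, up ((![0, 0, 0, g] : Fin 4 → S3) i) * zc i = up g := by
        simp [Fin.sum_univ_four, zc]
      rw [h2]
      exact hq
    have h2 : g = 0 := star hM.symm hi.ne_zero h1 3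
    rw [h2, map_zero]
  have he1inj : Function.Injective e1 := by
    intro a b hab
    have h1 : E (Polynomial.C a) = E (Polynomial.C b) := by
      rw [hE, Polynomial.coe_eval₂RingHom, Polynomial.eval₂_C, Polynomial.eval₂_C, hab]
    exact Polynomial.C_injective (hEinj h1)
  set σ0 : F0 →+* L := IsFractionRing.lift he1inj with hσ0
  have hσ0a : ∀ a, σ0 (algebraMap (Polynomial ℂ) F0 a) = e1 a := fun a =>
    IsFractionRing.lift_algebraMap he1inj a
  set E1 : R0 →+* L := Polynomial.eval₂RingHom σ0 (x 2) with hE1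
  have hE1E : ∀ q, E1 (q.map (algebraMap (Polynomial ℂ) F0)) = E q := by
    intro q
    rw [hE1, hE, Polynomial.coe_eval₂RingHom, Polynomial.coe_eval₂RingHom, Polynomial.eval₂_map]
    congr 1
    exact RingHom.ext hσ0a
  have hE1inj : Function.Injective E1 := by
    rw [injective_iff_map_eq_zero]
    intro p hp
    obtain ⟨m, g, h, hg, hh, h0, hgh⟩ := den_R0 p
    have h1 : E1 (aff g) = 0 := by rw [← hgh, map_mul, hp, mul_zero]
    rw [← aff2_aff, hE1E] at h1
    have h2 : aff2 g = 0 := hEinj (by rw [h1, map_zero])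
    rw [← aff2_aff g, h2, Polynomial.map_zero] at hgh
    rcases mul_eq_zero.1 hgh with h3 | h3
    · exact absurd h3 h0
    · exact h3
  set σ : K0 →+* L := IsFractionRing.lift hE1inj with hσ
  have hσa : ∀ a, σ (algebraMap R0 K0 a) = E1 a := fun a =>
    IsFractionRing.lift_algebraMap hE1inj a
  have hσx : ∀ g : S3, σ (affK g) = aeval x (up g) := by
    intro g
    rw [← hEx, ← hE1E, aff2_aff, ← hσa]
    rfl
  refine ⟨L, inferInstance, inferInstance, x, σ, x0, hker, ?_, ?_, ?_, ?_⟩
  · intro a
    rw [hσa, hE1, Polynomial.coe_eval₂RingHom, Polynomial.eval₂_C]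
    have h1 : algebraMap ℂ F0 a = algebraMap (Polynomial ℂ) F0 (Polynomial.C a) := by
      rw [RatFunc.algebraMap_C, RatFunc.algebraMap_eq_C]
    rw [h1, hσ0a, he1]
    simp
  · rw [hσa, hE1, Polynomial.coe_eval₂RingHom, Polynomial.eval₂_C, ← RatFunc.algebraMap_X, hσ0a, he1]
    simp
  · rw [hσa, hE1, Polynomial.coe_eval₂RingHom, Polynomial.eval₂_X]
  · intro l hl
    obtain ⟨w, m, g, hw, hg, hwg⟩ := den_K0 l
    have h1 : aeval x (∑ i, up (X 0 ^ wt i * g i) * zc i) = 0 := by
      have h2 : ∀ i, aeval x (up (X 0 ^ wt i * g i) * zc i) = σ w * (σ (l i) * zz x i) := by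
        intro i
        have h3 : aeval x (zc i) = zz x i := by
          unfold zc zz
          fin_cases i
          · simp
          · simp
          · simp
          · simp
        have h4 : aeval x (up (X 0)) = 1 := by
          unfold up
          rw [rename_X, aeval_X]
          exact x0
        rw [map_mul, map_mul, map_pow, map_mul, map_pow, h4, one_pow, one_mul, h3, ← hσx, hwg,
          map_mul, mul_assoc]
      rw [map_sum, Finset.sum_congr rfl fun i _ => h2 i, ← Finset.mul_sum, hl, mul_zero]
    have hhom : (∑ i, up (X 0 ^ wt i * g i) * zc i).IsHomogeneous (m + 1) := by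
      refine IsHomogeneous.sum _ _ _ fun i _ => ?_
      have h2 : (X 0 ^ wt i * g i).IsHomogeneous (wt i + m) :=
        (isHomogeneous_X_pow _ _).mul (hg i)
      have h3 : (up (X 0 ^ wt i * g i)).IsHomogeneous (wt i + m) := h2.rename_isHomogeneous
      have h4 : (zc i).IsHomogeneous (1 - wt i) := by
        fin_cases i
        · exact isHomogeneous_X _ _
        · exact isHomogeneous_X _ _
        · exact isHomogeneous_X _ _
        · exact isHomogeneous_one _ _
      have h5 : wt i + m + (1 - wt i) = m + 1 := by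
        have h6 : wt i ≤ 1 := by fin_cases i <;> simp [wt]
        omega
      have h6 := h3.mul h4
      rwa [h5] at h6
    rw [hker _ _ hhom] at h1
    have h2 := star hM.symm hi.ne_zero h1
    funext i
    have h3 : g i = 0 := by
      rcases mul_eq_zero.1 (h2 i) with h4 | h4
      · exact absurd h4 (pow_ne_zero _ (X_ne_zero 0))
      · exact h4
    have h4 := hwg i
    rw [h3, map_zero] at h4
    rcases mul_eq_zero.1 h4.symm with h5 | h5
    · exact absurd h5 hw
    · exact h5

theorem rational_of_gen {M : Matrix (Fin 4) (Fin 4) S3} (hM : IsCub M) (hi : Irreducible M.det)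
    {L : Type} [Field L] [Algebra ℂ L] {x : Fin 6 → L} {σ : K0 →+* L} (h : Model M L x σ)
    (a : Fin 4 → L) (ha : ∀ j, a j ∈ IntermediateField.adjoin ℂ (Set.range x))
    (hx : ∀ i, x i ∈ IntermediateField.adjoin ℂ (Set.range a)) :
    Pool.Agent.P28.Rational (cubic M) :=
  ratFF (cubic_hom hM) (cubic_irr hM hi) x h.x0 h.ker a ha hx

end Pool.Agent.PLN
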