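import Pool.Agent.PLN.CrossC
import Pool.Agent.PLN.Model

set_option autoImplicit false

/-!
# PLN: the end of the net case

`A : K0^4 → K0^6` with `A^T N A = γ M` and `p^T N A = 0`.  The point `w = A z` of the function
field, taken modulo `p` (`w'`), has coordinates whose ratios generate the function field:
the point `x0 : x1 : x2` of the plane is the cross product of `(p^T N_k w')` and `(w'^T N_k w')`,
and `z = E w'` with a matrix `E` over `ℂ(x1, x2)`.
-/

namespace Pool.Agent.PLN

open MvPolynomial Matrix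

theorem net_end {M : Matrix (Fin 4) (Fin 4) S3} (hM : IsCub M) (hS : SmoothCurve M.det)
    (hi : Irreducible M.det) {N : Fin 3 → Matrix (Fin 6) (Fin 6) ℂ} {c : ℂ} {p : Fin 6 → ℂ}
    (hN : NetData M N c p) {γ : K0} (hγ : γ ≠ 0) (A : Matrix (Fin 6) (Fin 4) K0)
    (hA : Aᵀ * (net N).map affK * A = γ • M.map affK)
    (hp : ∀ w, pK p ⬝ᵥ ((net N).map affK *ᵥ (A *ᵥ w)) = 0)
    (hani : ∀ v : Fin 4 → K0, v ⬝ᵥ (M.map affK *ᵥ v) = 0 → v = 0) :
    Pool.Agent.P28.Rational (cubic M) := by
  obtain ⟨L, _, _, x, σ, h⟩ := exists_model hM hi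
  have hcross := cross_ne hM hS hi h hN hγ A hA hp hani
  set φ : ℂ →+* L := algebraMap ℂ L with hφ
  set w : Fin 6 → L := wL σ x A with hw
  obtain ⟨k0, hk0⟩ : ∃ k, p k ≠ 0 := Function.ne_iff.1 hN.p_ne
  have hφ0 : φ (p k0) ≠ 0 := by
    intro h1
    exact hk0 (φ.injective (by rw [h1, map_zero]))
  set τ : L := w k0 / φ (p k0) with hτ
  set w' : Fin 6 → L := fun j => w j - τ * φ (p j) with hw'
  have hw'0 : w' k0 = 0 := by
    rw [hw', hτ]
    simp only
    rw [div_mul_cancel₀ _ hφ0, sub_self]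
  -- symmetry and the base point
  have hbase : ∀ k, ∑ i, ∑ j, φ (p i) * φ (N k i j) * φ (p j) = 0 := by
    intro k
    have h1 := congrArg φ (hN.base k)
    rw [map_zero] at h1
    rw [← h1]
    simp only [dotProduct, mulVec, map_sum, map_mul, Finset.mul_sum, mul_assoc]
  have hlw : ∀ k, lf φ p (N k) w' = lf φ p (N k) w := by
    intro k
    have h1 : lf φ p (N k) w' = lf φ p (N k) w - τ * ∑ i, ∑ j, φ (p i) * φ (N k i j) * φ (p j) := by
      unfold lf
      rw [Finset.mul_sum, ← Finset.sum_sub_distrib]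
      refine Finset.sum_congr rfl fun i _ => ?_
      rw [Finset.mul_sum, ← Finset.sum_sub_distrib]
      refine Finset.sum_congr rfl fun j _ => ?_
      rw [hw']
      ring
    rw [h1, hbase, mul_zero, sub_zero]
  have hlw2 : ∀ k, ∑ i, ∑ j, φ (N k i j) * w i * φ (p j) = lf φ p (N k) w := by
    intro k
    unfold lf
    rw [Finset.sum_comm]
    refine Finset.sum_congr rfl fun i _ => Finset.sum_congr rfl fun j _ => ?_
    rw [(hN.symm k).apply i j]
    ring
  have hqw : ∀ k, qf φ (N k) w' = qf φ (N k) w - 2 * τ * lf φ p (N k) w := by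
    intro k
    have h1 : qf φ (N k) w' = qf φ (N k) w - τ * lf φ p (N k) w -
        τ * ∑ i, ∑ j, φ (N k i j) * w i * φ (p j) +
        τ ^ 2 * ∑ i, ∑ j, φ (p i) * φ (N k i j) * φ (p j) := by
      unfold qf lf
      rw [Finset.mul_sum, Finset.mul_sum, Finset.mul_sum, ← Finset.sum_sub_distrib,
        ← Finset.sum_sub_distrib, ← Finset.sum_add_distrib]
      refine Finset.sum_congr rfl fun i _ => ?_
      rw [Finset.mul_sum, Finset.mul_sum, Finset.mul_sum, ← Finset.sum_sub_distrib,
        ← Finset.sum_sub_distrib, ← Finset.sum_add_distrib]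
      refine Finset.sum_congr rfl fun j _ => ?_
      rw [hw']
      ring
    rw [h1, hbase, hlw2]
    ring
  -- the relations `∑ x_k l_k = 0`, `∑ x_k q_k = 0`
  have haff : ∀ k : Fin 3, σ (affK (X k)) = x (Fin.castLE (by norm_num : 3 ≤ 6) k) := by
    intro k
    rw [affK_aeval h]
    unfold up
    rw [rename_X, aeval_X]
  have hcst : ∀ a : ℂ, σ (affK (C a)) = φ a := by
    intro a
    rw [affK_aeval h, ← algebraMap_eq, AlgHom.commutes, AlgHom.commutes]
  have hnet : ∀ i j, σ (affK (net N i j)) =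
      φ (N 0 i j) + φ (N 1 i j) * x 1 + φ (N 2 i j) * x 2 := by
    intro i j
    unfold net
    rw [map_sum, map_sum, Fin.sum_univ_three]
    simp only [map_mul, hcst, haff]
    have e0 : x (Fin.castLE (by norm_num : 3 ≤ 6) 0) = 1 := h.x0
    have e1 : x (Fin.castLE (by norm_num : 3 ≤ 6) 1) = x 1 := rfl
    have e2 : x (Fin.castLE (by norm_num : 3 ≤ 6) 2) = x 2 := rfl
    rw [e0, e1, e2, mul_one]
  have hwv : w = (A.map σ) *ᵥ (zz x) := by
    funext j
    rfl
  have hLA : (A.map σ)ᵀ * (((net N).map affK).map σ) * (A.map σ) =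
      σ γ • ((M.map affK).map σ) := by
    have h1 := congrArg (fun B : Matrix (Fin 4) (Fin 4) K0 => B.map σ) hA
    rw [Matrix.map_mul, Matrix.map_mul, transpose_map] at h1
    rw [h1]
    ext1 i j
    simp [Matrix.smul_apply]
  have hquad : ∑ k : Fin 3, x (Fin.castLE (by norm_num : 3 ≤ 6) k) * qf φ (N k) w = 0 := by
    have h1 : w ⬝ᵥ ((((net N).map affK).map σ) *ᵥ w) = 0 := by
      have h2 : w ⬝ᵥ ((((net N).map affK).map σ) *ᵥ w) =
          zz x ⬝ᵥ (((A.map σ)ᵀ * (((net N).map affK).map σ) * (A.map σ)) *ᵥ zz x) := by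
        rw [← mulVec_mulVec, ← mulVec_mulVec, dotProduct_mulVec (zz x) (A.map σ)ᵀ,
          vecMul_transpose, ← hwv]
      rw [h2, hLA, smul_mulVec, dotProduct_smul]
      have h3 : zz x ⬝ᵥ (((M.map affK).map σ) *ᵥ zz x) = 0 := by
        rw [← quad hM h]
        simp only [dotProduct, mulVec, Finset.mul_sum, Matrix.map_apply]
        refine Finset.sum_congr rfl fun i _ => Finset.sum_congr rfl fun j _ => ?_
        ring
      rw [h3, smul_zero]
    rw [← h1, Fin.sum_univ_three]
    have e0 : x (Fin.castLE (by norm_num : 3 ≤ 6) 0) = 1 := h.x0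
    have e1 : x (Fin.castLE (by norm_num : 3 ≤ 6) 1) = x 1 := rfl
    have e2 : x (Fin.castLE (by norm_num : 3 ≤ 6) 2) = x 2 := rfl
    rw [e0, e1, e2]
    simp only [dotProduct, mulVec, Finset.mul_sum, Matrix.map_apply, hnet, qf]
    rw [← Finset.sum_add_distrib, ← Finset.sum_add_distrib]
    refine Finset.sum_congr rfl fun i _ => ?_
    rw [← Finset.sum_add_distrib, ← Finset.sum_add_distrib]
    refine Finset.sum_congr rfl fun j _ => ?_
    ring
  have hlin : ∑ k : Fin 3, x (Fin.castLE (by norm_num : 3 ≤ 6) k) * lf φ p (N k) w = 0 := by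
    have hrow : (pK p ᵥ* (net N).map affK) ᵥ* A = 0 := by
      funext a
      have h1 := hp (Pi.single a 1)
      rw [dotProduct_mulVec, dotProduct_mulVec, dotProduct_single_one] at h1
      exact h1
    have hrowL : ((fun i => φ (p i)) ᵥ* ((net N).map affK).map σ) ᵥ* (A.map σ) = 0 := by
      have h1 : (fun i => φ (p i)) = fun i => σ (pK p i) := by
        funext i
        exact (hcst (p i)).symm
      funext a
      have h2 := congrArg σ (congrFun hrow a)
      rw [Pi.zero_apply, map_zero] at h2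
      rw [Pi.zero_apply, ← h2, h1]
      simp only [vecMul, dotProduct, map_sum, map_mul, Matrix.map_apply]
    have h1 : (fun i => φ (p i)) ⬝ᵥ ((((net N).map affK).map σ) *ᵥ w) = 0 := by
      rw [hwv, dotProduct_mulVec, dotProduct_mulVec, hrowL, zero_dotProduct]
    rw [← h1, Fin.sum_univ_three]
    have e0 : x (Fin.castLE (by norm_num : 3 ≤ 6) 0) = 1 := h.x0
    have e1 : x (Fin.castLE (by norm_num : 3 ≤ 6) 1) = x 1 := rfl
    have e2 : x (Fin.castLE (by norm_num : 3 ≤ 6) 2) = x 2 := rfl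
    rw [e0, e1, e2]
    simp only [dotProduct, mulVec, Finset.mul_sum, Matrix.map_apply, hnet, lf]
    rw [← Finset.sum_add_distrib, ← Finset.sum_add_distrib]
    refine Finset.sum_congr rfl fun i _ => ?_
    rw [← Finset.sum_add_distrib, ← Finset.sum_add_distrib]
    refine Finset.sum_congr rfl fun j _ => ?_
    ring
  rw [Fin.sum_univ_three] at hlin hquad
  have e0 : x (Fin.castLE (by norm_num : 3 ≤ 6) 0) = 1 := h.x0
  have e1 : x (Fin.castLE (by norm_num : 3 ≤ 6) 1) = x 1 := rfl
  have e2 : x (Fin.castLE (by norm_num : 3 ≤ 6) 2) = x 2 := rfl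
  rw [e0, e1, e2, one_mul] at hlin hquad
  -- a nonzero coordinate
  obtain ⟨k1, hk1⟩ : ∃ k, w' k ≠ 0 := by
    by_contra hcon
    push Not at hcon
    apply hcross
    have h1 : ∀ k, lf φ p (N k) w = 0 := by
      intro k
      rw [← hlw]
      exact Finset.sum_eq_zero fun i _ => Finset.sum_eq_zero fun j _ => by rw [hcon, mul_zero]
    rw [h1, h1, zero_mul, zero_mul, sub_zero]
  have hk10 : k1 ≠ k0 := by
    rintro rfl
    exact hk1 hw'0
  obtain ⟨k1', rfl⟩ := Fin.exists_succAbove_eq hk10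
  set k1 := k0.succAbove k1' with hk1def
  set a : Fin 4 → L := fun i => w' (k0.succAbove (k1'.succAbove i)) / w' k1 with ha
  set T := IntermediateField.adjoin ℂ (Set.range a) with hT
  set r : Fin 6 → L := fun j => w' j / w' k1 with hr
  have hrT : ∀ j, r j ∈ T := by
    intro j
    by_cases hj0 : j = k0
    · rw [hr, hj0]
      simp only
      rw [hw'0, zero_div]
      exact zero_mem _
    · obtain ⟨j', rfl⟩ := Fin.exists_succAbove_eq hj0
      by_cases hj1 : j' = k1'
      · rw [hr, hj1]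
        simp only
        rw [div_self hk1]
        exact one_mem _
      · obtain ⟨i, rfl⟩ := Fin.exists_succAbove_eq hj1
        exact IntermediateField.subset_adjoin ℂ _ ⟨i, rfl⟩
  have hwr : w' = fun j => w' k1 * r j := by
    funext j
    rw [hr]
    simp only
    rw [mul_div_cancel₀ _ hk1]
  have hφT : ∀ b, φ b ∈ T := fun b => IntermediateField.algebraMap_mem _ b
  have hlT : ∀ k, lf φ p (N k) r ∈ T := by
    intro k
    refine sum_mem fun i _ => sum_mem fun j _ => ?_
    exact mul_mem (mul_mem (hφT _) (hφT _)) (hrT _)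
  have hqT : ∀ k, qf φ (N k) r ∈ T := by
    intro k
    refine sum_mem fun i _ => sum_mem fun j _ => ?_
    exact mul_mem (mul_mem (hφT _) (hrT _)) (hrT _)
  have hlr : ∀ k, lf φ p (N k) w = w' k1 * lf φ p (N k) r := by
    intro k
    rw [← hlw, ← lf_smul, ← hwr]
  have hqr : ∀ k, qf φ (N k) w = w' k1 ^ 2 * qf φ (N k) r + 2 * τ * lf φ p (N k) w := by
    intro k
    rw [← qf_smul, ← hwr, hqw]
    ring
  have l0 := hlr 0
  have l1 := hlr 1
  have l2 := hlr 2
  have q0 := hqr 0
  have q1 := hqr 1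
  have q2 := hqr 2
  -- the cross product of `r`
  set cr : L := lf φ p (N 1) r * qf φ (N 2) r - lf φ p (N 2) r * qf φ (N 1) r with hcr
  have hcr0 : cr ≠ 0 := by
    intro h1
    apply hcross
    rw [q1, q2, l1, l2]
    linear_combination w' k1 ^ 3 * h1
  have hL : lf φ p (N 0) r + x 1 * lf φ p (N 1) r + x 2 * lf φ p (N 2) r = 0 := by
    have h1 : w' k1 * (lf φ p (N 0) r + x 1 * lf φ p (N 1) r + x 2 * lf φ p (N 2) r) = 0 := by
      rw [l0, l1, l2] at hlin
      linear_combination hlin
    exact (mul_eq_zero.1 h1).resolve_left hk1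
  have hQ : qf φ (N 0) r + x 1 * qf φ (N 1) r + x 2 * qf φ (N 2) r = 0 := by
    have h1 : w' k1 ^ 2 * (qf φ (N 0) r + x 1 * qf φ (N 1) r + x 2 * qf φ (N 2) r) = 0 := by
      rw [q0, q1, q2] at hquad
      linear_combination hquad - 2 * τ * hlin
    exact (mul_eq_zero.1 h1).resolve_left (pow_ne_zero _ hk1)
  have hx1 : x 1 ∈ T := by
    have h1 : x 1 = -(lf φ p (N 0) r * qf φ (N 2) r - lf φ p (N 2) r * qf φ (N 0) r) / cr := by
      rw [eq_div_iff hcr0, hcr]
      linear_combination qf φ (N 2) r * hL - lf φ p (N 2) r * hQ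
    rw [h1]
    exact div_mem (neg_mem (sub_mem (mul_mem (hlT _) (hqT _)) (mul_mem (hlT _) (hqT _))))
      (sub_mem (mul_mem (hlT _) (hqT _)) (mul_mem (hlT _) (hqT _)))
  have hx2 : x 2 ∈ T := by
    have h1 : x 2 = (lf φ p (N 0) r * qf φ (N 1) r - lf φ p (N 1) r * qf φ (N 0) r) / cr := by
      rw [eq_div_iff hcr0, hcr]
      linear_combination lf φ p (N 1) r * hQ - qf φ (N 1) r * hL
    rw [h1]
    exact div_mem (sub_mem (mul_mem (hlT _) (hqT _)) (mul_mem (hlT _) (hqT _)))
      (sub_mem (mul_mem (hlT _) (hqT _)) (mul_mem (hlT _) (hqT _)))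
  have hσT : ∀ k : K0, σ k ∈ T := by
    intro k
    have h1 := sig_mem h k
    refine (IntermediateField.adjoin_le_iff.2 ?_) h1
    rintro y (rfl | hy)
    · exact hx1
    · rw [Set.mem_singleton_iff.1 hy]
      exact hx2
  -- the inverse matrix
  have hMdet : IsUnit (M.map affK).det := by
    rw [isUnit_iff_ne_zero]
    intro h1
    obtain ⟨v, hv, hv'⟩ := exists_mulVec_eq_zero_iff.2 h1
    exact hv (hani v (by rw [hv', dotProduct_zero]))
  set E : Matrix (Fin 4) (Fin 6) K0 :=
    γ⁻¹ • ((M.map affK)⁻¹ * (Aᵀ * (net N).map affK)) with hE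
  have hEA : E * A = 1 := by
    rw [hE, Matrix.smul_mul, Matrix.mul_assoc, hA, Matrix.mul_smul, smul_smul,
      inv_mul_cancel₀ hγ, one_smul, nonsing_inv_mul _ hMdet]
  have hNsym : ((net N).map affK)ᵀ = (net N).map affK := by
    ext1 i j
    rw [transpose_apply, map_apply, map_apply]
    congr 1
    unfold net
    refine Finset.sum_congr rfl fun k _ => ?_
    rw [(hN.symm k).apply]
  have hEp : E *ᵥ pK p = 0 := by
    have h1 : (Aᵀ * (net N).map affK) *ᵥ pK p = 0 := by
      funext b
      have h2 := hp (Pi.single b 1)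
      rw [dotProduct_mulVec, dotProduct_mulVec, dotProduct_single_one] at h2
      rw [← mulVec_mulVec, mulVec_transpose, Pi.zero_apply, ← h2]
      congr 1
      rw [← mulVec_transpose, hNsym]
    rw [hE, smul_mulVec, ← mulVec_mulVec, h1, mulVec_zero, smul_zero]
  have hz : ∀ b, zz x b = ∑ j, σ (E b j) * w' j := by
    intro b
    have h1 : (E.map σ) *ᵥ w = zz x := by
      rw [hwv, mulVec_mulVec, ← Matrix.map_mul, hEA]
      have h2 : (1 : Matrix (Fin 4) (Fin 4) K0).map σ = 1 := by
        rw [Matrix.map_one _ (map_zero σ) (map_one σ)]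
      rw [h2, one_mulVec]
    have h2 : ∑ j, σ (E b j) * φ (p j) = 0 := by
      have h3 := congrArg σ (congrFun hEp b)
      rw [Pi.zero_apply, map_zero] at h3
      rw [← h3]
      simp only [mulVec, dotProduct, map_sum, map_mul]
      refine Finset.sum_congr rfl fun j _ => ?_
      rw [← hcst (p j)]
      rfl
    have h3 : ∑ j, σ (E b j) * w' j = ∑ j, σ (E b j) * w j - τ * ∑ j, σ (E b j) * φ (p j) := by
      rw [Finset.mul_sum, ← Finset.sum_sub_distrib]
      refine Finset.sum_congr rfl fun j _ => ?_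
      rw [hw']
      ring
    rw [h3, h2, mul_zero, sub_zero]
    exact (congrFun h1 b).symm
  have hzr : ∀ b, zz x b = w' k1 * ∑ j, σ (E b j) * r j := by
    intro b
    rw [hz, Finset.mul_sum]
    refine Finset.sum_congr rfl fun j _ => ?_
    rw [congrFun hwr j]
    ring
  have hsT : ∀ b, ∑ j, σ (E b j) * r j ∈ T := fun b =>
    sum_mem fun j _ => mul_mem (hσT _) (hrT _)
  have hk1T : w' k1 ∈ T := by
    have h1 : (1 : L) = w' k1 * ∑ j, σ (E 3 j) * r j := hzr 3
    have h2 : ∑ j, σ (E 3 j) * r j ≠ 0 := by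
      intro h3
      rw [h3, mul_zero] at h1
      exact one_ne_zero h1
    rw [show w' k1 = 1 / ∑ j, σ (E 3 j) * r j from by rw [eq_div_iff h2, ← h1]]
    exact div_mem (one_mem _) (hsT 3)
  have hzT : ∀ b, zz x b ∈ T := by
    intro b
    rw [hzr]
    exact mul_mem hk1T (hsT b)
  have hxT : ∀ i, x i ∈ T := by
    intro i
    fin_cases i
    · change x 0 ∈ T
      rw [h.x0]
      exact one_mem _
    · exact hx1
    · exact hx2
    · exact hzT 0
    · exact hzT 1
    · exact hzT 2
  -- the elements `a` are in `ℂ(x)`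
  have haX : ∀ i, a i ∈ IntermediateField.adjoin ℂ (Set.range x) := by
    have hx : ∀ i, x i ∈ IntermediateField.adjoin ℂ (Set.range x) := fun i =>
      IntermediateField.subset_adjoin ℂ _ ⟨i, rfl⟩
    have hσ : ∀ k : K0, σ k ∈ IntermediateField.adjoin ℂ (Set.range x) := by
      intro k
      refine (IntermediateField.adjoin_le_iff.2 ?_) (sig_mem h k)
      rintro y (rfl | hy)
      · exact hx 1
      · rw [Set.mem_singleton_iff.1 hy]
        exact hx 2
    have hzz : ∀ b, zz x b ∈ IntermediateField.adjoin ℂ (Set.range x) := by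
      intro b
      fin_cases b
      · exact hx 3
      · exact hx 4
      · exact hx 5
      · exact one_mem _
    have hww : ∀ j, w j ∈ IntermediateField.adjoin ℂ (Set.range x) := fun j =>
      sum_mem fun b _ => mul_mem (hσ _) (hzz _)
    have hφX : ∀ b, φ b ∈ IntermediateField.adjoin ℂ (Set.range x) := fun b =>
      IntermediateField.algebraMap_mem _ b
    have hw'X : ∀ j, w' j ∈ IntermediateField.adjoin ℂ (Set.range x) := fun j =>
      sub_mem (hww j) (mul_mem (div_mem (hww _) (hφX _)) (hφX _))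
    exact fun i => div_mem (hw'X _) (hw'X _)
  exact rational_of_gen hM hi h a haX hxT

end Pool.Agent.PLN
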