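import Pool.Agent.PLN.Core
import Pool.Agent.PLN.Dich
import Pool.Agent.PLN.BasePt
import Pool.Agent.PLN.IsoEnd
import Pool.Agent.PLN.NetEnd

/-!
# PLN: cubic fourfolds containing a plane which come from nets of quadrics
-/

set_option autoImplicit false

namespace Pool.Agent.PLN

open MvPolynomial Matrix

theorem map_det_affK {n : Type} [Fintype n] [DecidableEq n] (P : Matrix n n S3) :
    (P.map affK).det = affK P.det := by
  rw [RingHom.map_det]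
  rfl

theorem affK_det_ne {M : Matrix (Fin 4) (Fin 4) S3} (hM : IsCub M) (hS : SmoothCurve M.det) :
    affK M.det ≠ 0 := fun h => smooth_ne hS (affK_inj (det_cub hM) h)

/-- the isotropic case -/
theorem rational_of_isotropic {M : Matrix (Fin 4) (Fin 4) S3} (hM : IsCub M)
    (hS : SmoothCurve M.det) (hiso : ¬ ∀ v : Fin 4 → K0, v ⬝ᵥ (M.map affK *ᵥ v) = 0 → v = 0) :
    Pool.Agent.P28.Rational (cubic M) := by
  push Not at hiso
  obtain ⟨v, hv, hv0⟩ := hiso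
  obtain ⟨L, _, _, x, σ, hmod⟩ := exists_model hM (det_irr hM hS)
  obtain ⟨a, ha, hx⟩ := iso_end hM hmod (affK_det_ne hM hS) hv0 hv
  exact rational_of_gen hM (det_irr hM hS) hmod a ha hx

theorem aniso_smul {K : Type} [Field K] {M : Matrix (Fin 4) (Fin 4) K} {g : K} (hg : g ≠ 0)
    (h : ∀ v : Fin 4 → K, v ⬝ᵥ (M *ᵥ v) = 0 → v = 0) (v : Fin 4 → K)
    (hv : v ⬝ᵥ ((g • M) *ᵥ v) = 0) : v = 0 := by
  apply h
  rw [smul_mulVec, dotProduct_smul, smul_eq_mul] at hv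
  exact (mul_eq_zero.1 hv).resolve_left hg

theorem net_symm {n : Type} {N : Fin 3 → Matrix n n ℂ} (h : ∀ k, (N k).IsSymm) :
    (net N).IsSymm := by
  refine Matrix.IsSymm.ext fun i j => ?_
  simp only [net]
  exact Finset.sum_congr rfl fun k _ => by rw [(h k).apply]

theorem map_symm {n : Type} {P : Matrix n n S3} (h : P.IsSymm) : (P.map affK).IsSymm := by
  refine Matrix.IsSymm.ext fun i j => ?_
  rw [Matrix.map_apply, Matrix.map_apply, h.apply]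

theorem pK_ne {n : Type} {p : n → ℂ} (h : p ≠ 0) : pK p ≠ 0 := by
  intro h0
  apply h
  funext i
  have h1 : affK (C (p i)) = 0 := congrFun h0 i
  have h2 := affK_inj (isHomogeneous_C (Fin 3) (p i)) h1
  rwa [C_eq_zero] at h2

theorem pK_iso {N : Fin 3 → Matrix (Fin 6) (Fin 6) ℂ} {p : Fin 6 → ℂ}
    (h : ∀ k, p ⬝ᵥ (N k *ᵥ p) = 0) : pK p ⬝ᵥ ((net N).map affK *ᵥ pK p) = 0 := by
  have h1 : pK p ⬝ᵥ ((net N).map affK *ᵥ pK p) =
      affK (∑ k, C (p ⬝ᵥ (N k *ᵥ p)) * X k) := by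
    simp only [pK, dotProduct, mulVec, net, Matrix.map_apply, map_sum, map_mul, Finset.sum_mul,
      Finset.mul_sum]
    rw [Finset.sum_congr rfl fun i _ => Finset.sum_comm, Finset.sum_comm]
    refine Finset.sum_congr rfl fun k _ => Finset.sum_congr rfl fun i _ =>
      Finset.sum_congr rfl fun j _ => ?_
    ring
  rw [h1]
  simp [h]

/-- a similarity from a maximal isotropic subspace -/
theorem net_sim {M : Matrix (Fin 4) (Fin 4) K0} (hM : M.IsSymm)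
    {N : Matrix (Fin 6) (Fin 6) K0} (hN : N.IsSymm) (hdN : N.det ≠ 0) {g : K0} (hg : g ≠ 0)
    (hani : ∀ v : Fin 4 → K0, v ⬝ᵥ (M *ᵥ v) = 0 → v = 0) {p : Fin 6 → K0} (hp0 : p ≠ 0)
    (hp : p ⬝ᵥ (N *ᵥ p) = 0)
    (hW : ∃ W : Submodule K0 (Fin 6 ⊕ Fin 4 → K0), Module.finrank K0 W = 5 ∧ ∀ x ∈ W, ∀ y ∈ W,
      x ⬝ᵥ (fromBlocks N 0 0 (-(g • M)) *ᵥ y) = 0) :
    ∃ A : Matrix (Fin 6) (Fin 4) K0, Aᵀ * N * A = g • M ∧ ∀ w, p ⬝ᵥ (N *ᵥ (A *ᵥ w)) = 0 := by
  obtain ⟨W, hW, hWi⟩ := hW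
  have hMs : (g • M).IsSymm := by
    refine Matrix.IsSymm.ext fun a b => ?_
    rw [Matrix.smul_apply, Matrix.smul_apply, hM.apply]
  exact dich6 two_ne_zero hN hMs hdN W hW hWi (aniso_smul hg hani) hp0 hp

/-- **Nets of quadrics.** -/
theorem net_rational {M : Matrix (Fin 4) (Fin 4) S3} (hM : IsCub M) (hS : SmoothCurve M.det)
    {N : Fin 3 → Matrix (Fin 6) (Fin 6) ℂ} (hN : ∀ k, (N k).IsSymm) {c : ℂ} (hc : c ≠ 0)
    (hd : (net N).det = C c * M.det) {γ : S3} {m : ℕ} (hγ : γ.IsHomogeneous m)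
    (hγi : Irreducible γ) (h1 : SqMod γ M.det) (i : Fin 6) (j : Fin 4)
    (h2 : SqMod M.det (γ * M.adjugate j j * (net N).adjugate i i)) :
    Pool.Agent.P28.Rational (cubic M) := by
  by_cases hani : ∀ v : Fin 4 → K0, v ⬝ᵥ (M.map affK *ᵥ v) = 0 → v = 0
  swap
  · exact rational_of_isotropic hM hS hani
  obtain ⟨p, hp0, hp⟩ := exists_base N
  obtain ⟨k, hk⟩ := net_hom N i
  obtain ⟨W, hW, hWi⟩ := core hM hS (net_symm hN) hc hd hγ hγi h1 i j hk h2 5 (by simp)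
  have hγ0 : affK γ ≠ 0 := fun h => hγi.ne_zero (affK_inj hγ h)
  have hdN : ((net N).map affK).det ≠ 0 := by
    rw [map_det_affK, hd, map_mul]
    refine mul_ne_zero (fun h => ?_) (affK_det_ne hM hS)
    have h3 := affK_inj (isHomogeneous_C (Fin 3) c) h
    rw [C_eq_zero] at h3
    exact hc h3
  obtain ⟨A, hA, hpA⟩ := net_sim (map_symm hM.symm) (map_symm (net_symm hN)) hdN hγ0 hani
    (pK_ne hp0) (pK_iso hp) ⟨W, hW, hWi⟩
  exact net_end hM hS (det_irr hM hS) ⟨hN, hc, hd, hp0, hp⟩ hγ0 A hA hpA hani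

end Pool.Agent.PLN
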