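import Mathlib

/-!
# Algebraic relations and primitive elements
-/

set_option autoImplicit false

noncomputable section

namespace Pool.Agent.PLN

open MvPolynomial IntermediateField

/-- **Primitive elements**: two elements which are algebraic over `K` can be replaced by one. -/
theorem exists_prim {k L : Type} [Field k] [CharZero k] [Field L] [Algebra k L]
    {K : IntermediateField k L} {α β : L} (hα : IsAlgebraic K α) (hβ : IsAlgebraic K β) :
    ∃ θ : L, ∀ T : IntermediateField k L, K ≤ T → (θ ∈ T ↔ α ∈ T ∧ β ∈ T) := by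
  let E := algebraicClosure K L
  let α' : E := ⟨α, mem_algebraicClosure_iff.2 hα⟩
  let β' : E := ⟨β, mem_algebraicClosure_iff.2 hβ⟩
  have : CharZero K := charZero_of_injective_algebraMap (algebraMap k K).injective
  obtain ⟨γ, hγ⟩ := Field.primitive_element_inf_aux K α' β'
  refine ⟨(γ : L), fun T hT => ?_⟩
  let T' : IntermediateField K E := (extendScalars hT).comap E.val
  have hmem : ∀ z : E, z ∈ T' ↔ (z : L) ∈ T := fun z => Iff.rfl
  constructor
  · intro h
    have h1 : K⟮γ⟯ ≤ T' := adjoin_simple_le_iff.2 ((hmem γ).2 h)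
    rw [← hγ, adjoin_le_iff] at h1
    exact ⟨(hmem α').1 (h1 (by simp)), (hmem β').1 (h1 (by simp))⟩
  · rintro ⟨h1, h2⟩
    have h3 : K⟮α', β'⟯ ≤ T' := by
      rw [adjoin_le_iff]
      rintro z hz
      rcases hz with rfl | hz
      · exact (hmem _).2 h1
      · rw [Set.mem_singleton_iff.1 hz]
        exact (hmem _).2 h2
    rw [hγ] at h3
    exact (hmem γ).1 (h3 (mem_adjoin_simple_self K γ))

/-- an algebraic number over `ℂ` is in `ℂ` -/
theorem mem_of_alg {L : Type} [Field L] [Algebra ℂ L] {a : L} (h : IsAlgebraic ℂ a)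
    (T : IntermediateField ℂ L) : a ∈ T := by
  have h1 : (minpoly ℂ a).degree = 1 :=
    IsAlgClosed.degree_eq_one_of_irreducible ℂ (minpoly.irreducible h.isIntegral)
  obtain ⟨c, rfl⟩ := minpoly.mem_range_of_degree_eq_one ℂ a h1
  exact T.algebraMap_mem c

private theorem VerraC_smul {f : MvPolynomial (Fin 3) ℂ} {d : ℕ} (hf : f.IsHomogeneous d) (c : ℂ)
    (z : Fin 3 → ℂ) : eval (fun i => c * z i) f = c ^ d * eval z f := by
  rw [eval_eq, eval_eq, Finset.mul_sum]
  refine Finset.sum_congr rfl fun s hs => ?_
  have h1 : ∑ i ∈ s.support, s i = d := by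
    have := hf (mem_support_iff.1 hs)
    rw [Finsupp.weight_apply, Finsupp.sum] at this
    simpa using this
  have h2 : ∏ i ∈ s.support, (c * z i) ^ s i = c ^ d * ∏ i ∈ s.support, z i ^ s i := by
    rw [← h1, ← Finset.prod_pow_eq_pow_sum, ← Finset.prod_mul_distrib]
    exact Finset.prod_congr rfl fun i _ => mul_pow _ _ _
  rw [h2]
  ring

/-- **A relation.** If `y` is a zero of a nonzero form with `y j = 1`, then one of the other two
coordinates is algebraic over `ℂ`, or the second is algebraic over the field generated by the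
first. -/
theorem alg_of_rel {L : Type} [Field L] [Algebra ℂ L] {f : MvPolynomial (Fin 3) ℂ} {d : ℕ}
    (hf : f.IsHomogeneous d) (hf0 : f ≠ 0) {y : Fin 3 → L} {j p q : Fin 3} (hj : y j = 1)
    (hjp : j ≠ p) (hjq : j ≠ q) (hpq : p ≠ q) (h : aeval y f = 0) :
    IsAlgebraic ℂ (y p) ∨ IsAlgebraic (adjoin ℂ {y p} : IntermediateField ℂ L) (y q) := by
  classical
  have hall : ∀ i : Fin 3, i = j ∨ i = p ∨ i = q := by
    revert hjp hjq hpq
    clear h hj
    revert j p q
    decide
  let φ : MvPolynomial (Fin 3) ℂ →ₐ[ℂ] Polynomial (Polynomial ℂ) :=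
    aeval fun i => if i = j then 1 else if i = p then Polynomial.C Polynomial.X else Polynomial.X
  have hφ : φ f ≠ 0 := by
    intro h0
    have h1 : f * X j ≠ 0 := mul_ne_zero hf0 (X_ne_zero j)
    obtain ⟨z, hz⟩ : ∃ z : Fin 3 → ℂ, eval z (f * X j) ≠ 0 := by
      by_contra hc
      push Not at hc
      exact h1 (MvPolynomial.funext fun z => by rw [hc z, map_zero])
    rw [map_mul, eval_X] at hz
    have hzj : z j ≠ 0 := right_ne_zero_of_mul hz
    have h2 := VerraC_smul hf (z j)⁻¹ z
    have h3 : eval (fun i => (z j)⁻¹ * z i) f ≠ 0 := by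
      rw [h2]
      exact mul_ne_zero (pow_ne_zero _ (inv_ne_zero hzj)) (left_ne_zero_of_mul hz)
    apply h3
    have h4 : ∀ g : MvPolynomial (Fin 3) ℂ, eval (fun i => (z j)⁻¹ * z i) g =
        ((φ g).eval (Polynomial.C ((z j)⁻¹ * z q))).eval ((z j)⁻¹ * z p) := by
      intro g
      induction g using MvPolynomial.induction_on with
      | C a =>
        rw [eval_C]
        have : φ (C a) = Polynomial.C (Polynomial.C a) := by
          rw [MvPolynomial.algHom_C]
          rfl
        rw [this, Polynomial.eval_C, Polynomial.eval_C]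
      | add p q hp hq => rw [map_add, map_add, Polynomial.eval_add, Polynomial.eval_add, hp, hq]
      | mul_X g i hg =>
        rw [map_mul (eval _), map_mul φ, Polynomial.eval_mul, Polynomial.eval_mul, hg, eval_X]
        congr 1
        rw [show φ (X i) = _ from aeval_X _ i]
        rcases hall i with rfl | rfl | rfl
        · rw [if_pos rfl, Polynomial.eval_one, Polynomial.eval_one, inv_mul_cancel₀ hzj]
        · rw [if_neg hjp.symm, if_pos rfl, Polynomial.eval_C, Polynomial.eval_X]
        · rw [if_neg hjq.symm, if_neg hpq.symm, Polynomial.eval_X, Polynomial.eval_C]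
    rw [h4 f, h0, Polynomial.eval_zero, Polynomial.eval_zero]
  let ψ : Polynomial ℂ →+* (adjoin ℂ {y p} : IntermediateField ℂ L) :=
    (Polynomial.aeval (⟨y p, mem_adjoin_simple_self ℂ (y p)⟩ :
      (adjoin ℂ {y p} : IntermediateField ℂ L)) : Polynomial ℂ →ₐ[ℂ] _)
  by_cases h0 : (φ f).map ψ = 0
  · left
    obtain ⟨n, hn⟩ : ∃ n, (φ f).coeff n ≠ 0 := by
      by_contra hc
      push Not at hc
      exact hφ (Polynomial.ext fun n => by rw [hc n, Polynomial.coeff_zero])
    refine ⟨(φ f).coeff n, hn, ?_⟩
    have h1 : ψ ((φ f).coeff n) = 0 := by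
      rw [← Polynomial.coeff_map, h0, Polynomial.coeff_zero]
    have h2 := congrArg (algebraMap (adjoin ℂ {y p} : IntermediateField ℂ L) L) h1
    rw [map_zero] at h2
    rw [← h2]
    change _ = algebraMap (adjoin ℂ {y p} : IntermediateField ℂ L) L
      (Polynomial.aeval _ ((φ f).coeff n))
    rw [← Polynomial.aeval_algebraMap_apply]
    rfl
  · right
    refine ⟨(φ f).map ψ, h0, ?_⟩
    rw [← h]
    have h4 : ∀ g : MvPolynomial (Fin 3) ℂ, Polynomial.aeval (y q) ((φ g).map ψ) = aeval y g := by
      intro g
      induction g using MvPolynomial.induction_on with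
      | C a =>
        have : φ (C a) = Polynomial.C (Polynomial.C a) := by
          rw [MvPolynomial.algHom_C]
          rfl
        rw [this, Polynomial.map_C, Polynomial.aeval_C, aeval_C]
        change algebraMap (adjoin ℂ {y p} : IntermediateField ℂ L) L
          (Polynomial.aeval _ (Polynomial.C a)) = _
        rw [Polynomial.aeval_C]
        rfl
      | add p q hp hq => rw [map_add, Polynomial.map_add, map_add, map_add, hp, hq]
      | mul_X g i hg =>
        rw [map_mul φ, Polynomial.map_mul, map_mul (Polynomial.aeval _), map_mul (aeval y), hg]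
        congr 1
        rw [show φ (X i) = _ from aeval_X _ i, aeval_X]
        rcases hall i with rfl | rfl | rfl
        · rw [if_pos rfl, Polynomial.map_one, map_one, hj]
        · rw [if_neg hjp.symm, if_pos rfl, Polynomial.map_C, Polynomial.aeval_C]
          change algebraMap (adjoin ℂ {y i} : IntermediateField ℂ L) L
            (Polynomial.aeval _ Polynomial.X) = _
          rw [Polynomial.aeval_X]
          rfl
        · rw [if_neg hjq.symm, if_neg hpq.symm, Polynomial.map_X, Polynomial.aeval_X]
    exact h4 f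

end Pool.Agent.PLN
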