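import Pool.Agent.PLN.VerraA
import Pool.Agent.PLN.VerraDefs

/-!
# PLN: the function field of the double covering

`P = σ(A) z` is the point `(w, y)` of the double covering `w ^ 2 = t(s; y)`, `s = (1, x 1, x 2)`.
-/

set_option autoImplicit false

noncomputable section

namespace Pool.Agent.PLN

open MvPolynomial Matrix

variable {M : Matrix (Fin 4) (Fin 4) S3} {L : Type} [Field L] [Algebra ℂ L]
  {x : Fin 6 → L} {σ : K0 →+* L}

/-- the coordinates of the point in the plane -/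
def sc (x : Fin 6 → L) : Fin 3 → L := ![1, x 1, x 2]

/-- the point of the double covering -/
def vP (x : Fin 6 → L) (σ : K0 →+* L) (A : Matrix (Fin 1 ⊕ Fin 3) (Fin 4) K0) :
    Fin 1 ⊕ Fin 3 → L := A.map σ *ᵥ zz x

omit [Algebra ℂ L] in
private theorem VerraD_dot {N : Matrix (Fin 1 ⊕ Fin 3) (Fin 1 ⊕ Fin 3) K0}
    {A : Matrix (Fin 1 ⊕ Fin 3) (Fin 4) K0} {Q : Matrix (Fin 4) (Fin 4) K0}
    (hA : Aᵀ * N * A = Q) :
    vP x σ A ⬝ᵥ (N.map σ *ᵥ vP x σ A) = zz x ⬝ᵥ (Q.map σ *ᵥ zz x) := by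
  have h1 : Q.map σ = (A.map σ)ᵀ * N.map σ * A.map σ := by
    rw [← hA, Matrix.map_mul, Matrix.map_mul, Matrix.transpose_map]
  rw [h1, vP, ← Matrix.mulVec_mulVec, ← Matrix.mulVec_mulVec, Matrix.dotProduct_mulVec (zz x),
    Matrix.vecMul_transpose]

/-- The point satisfies the equation of the double covering. -/
theorem vP_eq (hM : IsCub M) (h : Model M L x σ) {t : Fin 3 → Fin 3 → Fin 3 → Fin 3 → ℂ}
    {γ : K0} {A : Matrix (Fin 1 ⊕ Fin 3) (Fin 4) K0}
    (hA : Aᵀ * (vN t).map affK * A = γ • M.map affK) :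
    vP x σ A (Sum.inl 0) ^ 2 = ∑ k, ∑ l, aeval (fun i => vP x σ A (Sum.inr i)) (vB t k l) *
      sc x k * sc x l := by
  have h1 := VerraD_dot (x := x) (σ := σ) hA
  have h2 : zz x ⬝ᵥ ((γ • M.map affK).map σ *ᵥ zz x) = 0 := by
    have h3 := quad hM h
    have h4 : zz x ⬝ᵥ ((γ • M.map affK).map σ *ᵥ zz x) =
        σ γ * ∑ i, ∑ j, σ (affK (M i j)) * zz x i * zz x j := by
      simp only [dotProduct, Matrix.mulVec, Matrix.map_apply, Matrix.smul_apply, smul_eq_mul,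
        map_mul, Finset.mul_sum]
      refine Finset.sum_congr rfl fun i _ => Finset.sum_congr rfl fun j _ => ?_
      ring
    rw [h4, h3, mul_zero]
  rw [h2] at h1
  set P := vP x σ A with hP
  have h5 : P ⬝ᵥ (((vN t).map affK).map σ *ᵥ P) =
      -(P (Sum.inl 0) ^ 2) + ∑ i, ∑ j, σ (affK (vA t i j)) * P (Sum.inr i) * P (Sum.inr j) := by
    simp only [vN, dotProduct, Matrix.mulVec, Matrix.map_apply, Fintype.sum_sum_type,
      Fin.sum_univ_one, fromBlocks_apply₁₁, fromBlocks_apply₁₂, fromBlocks_apply₂₁,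
      fromBlocks_apply₂₂, Matrix.zero_apply, map_zero, zero_mul, Finset.sum_const_zero, add_zero,
      zero_add, Finset.mul_sum, Matrix.neg_apply, Matrix.one_apply_eq, map_neg, map_one]
    congr 1
    · ring
    · refine Finset.sum_congr rfl fun i _ => Finset.sum_congr rfl fun j _ => ?_
      ring
  rw [h5, neg_add_eq_zero] at h1
  rw [h1]
  have h6 : ∀ i j, σ (affK (vA t i j)) =
      ∑ k, ∑ l, algebraMap ℂ L (t k l i j) * sc x k * sc x l := by
    intro i j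
    rw [h.sigma_aff, vA, map_sum]
    refine Finset.sum_congr rfl fun k _ => ?_
    rw [map_sum]
    refine Finset.sum_congr rfl fun l _ => ?_
    rw [map_mul, map_mul, aeval_C, aeval_X, aeval_X]
    rfl
  have h7 : ∀ k l, aeval (fun i => P (Sum.inr i)) (vB t k l) =
      ∑ i, ∑ j, algebraMap ℂ L (t k l i j) * P (Sum.inr i) * P (Sum.inr j) := by
    intro k l
    rw [vB, map_sum]
    refine Finset.sum_congr rfl fun i _ => ?_
    rw [map_sum]
    refine Finset.sum_congr rfl fun j _ => ?_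
    rw [map_mul, map_mul, aeval_C, aeval_X, aeval_X]
  simp only [h6, h7, Finset.sum_mul]
  simp only [Fin.sum_univ_three]
  ring

omit [Algebra ℂ L] in
private theorem VerraD_inv (hdet : affK M.det ≠ 0)
    {N : Matrix (Fin 1 ⊕ Fin 3) (Fin 1 ⊕ Fin 3) K0}
    {γ : K0} (hγ : γ ≠ 0) {A : Matrix (Fin 1 ⊕ Fin 3) (Fin 4) K0}
    (hA : Aᵀ * N * A = γ • M.map affK) :
    ∃ A' : Matrix (Fin 4) (Fin 1 ⊕ Fin 3) K0, zz x = A'.map σ *ᵥ vP x σ A := by
  have hM0 : (M.map affK).det ≠ 0 := by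
    rw [← RingHom.mapMatrix_apply, ← RingHom.map_det]
    exact hdet
  refine ⟨(M.map affK)⁻¹ * (γ⁻¹ • (Aᵀ * N)), ?_⟩
  have hA' : (M.map affK)⁻¹ * (γ⁻¹ • (Aᵀ * N)) * A = 1 := by
    rw [Matrix.mul_assoc, Matrix.smul_mul, hA, smul_smul, inv_mul_cancel₀ hγ, one_smul,
      Matrix.nonsing_inv_mul _ (isUnit_iff_ne_zero.2 hM0)]
  rw [vP, Matrix.mulVec_mulVec, ← Matrix.map_mul, hA', Matrix.map_one σ (map_zero σ) (map_one σ),
    Matrix.one_mulVec]

/-- The point determines the generic point of the cubic fourfold. -/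
theorem vP_rec (h : Model M L x σ) (hdet : affK M.det ≠ 0)
    {N : Matrix (Fin 1 ⊕ Fin 3) (Fin 1 ⊕ Fin 3) K0}
    {γ : K0} (hγ : γ ≠ 0) {A : Matrix (Fin 1 ⊕ Fin 3) (Fin 4) K0}
    (hA : Aᵀ * N * A = γ • M.map affK) {T : IntermediateField ℂ L} (h1 : x 1 ∈ T)
    (h2 : x 2 ∈ T) {κ : L} (hκ : κ ≠ 0) (hP : ∀ a, κ * vP x σ A a ∈ T) : ∀ i, x i ∈ T := by
  obtain ⟨A', h3⟩ := VerraD_inv (x := x) (σ := σ) hdet hγ hA
  have h4 : ∀ i, κ * zz x i ∈ T := by
    intro i
    have h5 : κ * zz x i = ∑ a, σ (A' i a) * (κ * vP x σ A a) := by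
      conv_lhs => rw [h3]
      rw [Matrix.mulVec, dotProduct, Finset.mul_sum]
      refine Finset.sum_congr rfl fun a _ => ?_
      rw [Matrix.map_apply]
      ring
    rw [h5]
    exact T.sum_mem fun a _ => T.mul_mem (h.sigma_mem h1 h2 _) (hP a)
  have h5 : κ ∈ T := by
    have h6 := h4 3
    have h7 : zz x 3 = 1 := rfl
    rwa [h7, mul_one] at h6
  have h6 : ∀ i, zz x i ∈ T := by
    intro i
    have h7 : zz x i = κ⁻¹ * (κ * zz x i) := by
      rw [← mul_assoc, inv_mul_cancel₀ hκ, one_mul]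
    rw [h7]
    exact T.mul_mem (T.inv_mem h5) (h4 i)
  intro i
  fin_cases i
  · change x 0 ∈ T
    rw [h.x0]
    exact T.one_mem
  · exact h1
  · exact h2
  · exact h6 0
  · exact h6 1
  · exact h6 2

/-- the point is in the function field -/
theorem vP_mem (h : Model M L x σ) (A : Matrix (Fin 1 ⊕ Fin 3) (Fin 4) K0)
    {T : IntermediateField ℂ L} (hT : ∀ i, x i ∈ T) (a : Fin 1 ⊕ Fin 3) : vP x σ A a ∈ T := by
  rw [vP, Matrix.mulVec, dotProduct]
  refine T.sum_mem fun i _ => T.mul_mem (h.sigma_mem (hT 1) (hT 2) _) ?_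
  fin_cases i
  · exact hT 3
  · exact hT 4
  · exact hT 5
  · exact T.one_mem

/-- the second component is not zero -/
theorem vP_ne (hM : IsCub M) (h : Model M L x σ) (hdet : affK M.det ≠ 0)
    {t : Fin 3 → Fin 3 → Fin 3 → Fin 3 → ℂ} {γ : K0} (hγ : γ ≠ 0)
    {A : Matrix (Fin 1 ⊕ Fin 3) (Fin 4) K0}
    (hA : Aᵀ * (vN t).map affK * A = γ • M.map affK) :
    ∃ j, vP x σ A (Sum.inr j) ≠ 0 := by
  by_contra hc
  push Not at hc
  have h1 := vP_eq hM h hA
  have h2 : ∀ k l, aeval (fun i => vP x σ A (Sum.inr i)) (vB t k l) = 0 := by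
    intro k l
    rw [vB, map_sum]
    refine Finset.sum_eq_zero fun i _ => ?_
    rw [map_sum]
    refine Finset.sum_eq_zero fun j _ => ?_
    rw [map_mul, map_mul, aeval_X, hc i, mul_zero, zero_mul]
  simp only [h2, zero_mul, Finset.sum_const_zero] at h1
  have h3 : ∀ a, vP x σ A a = 0 := by
    intro a
    rcases a with a | a
    · rw [Subsingleton.elim a 0]
      exact pow_eq_zero_iff two_ne_zero |>.1 h1
    · exact hc a
  obtain ⟨A', h5⟩ := VerraD_inv (x := x) (σ := σ) hdet hγ hA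
  have h6 : zz x 3 = 0 := by
    rw [h5, show vP x σ A = 0 from funext h3, Matrix.mulVec_zero, Pi.zero_apply]
  exact one_ne_zero h6

end Pool.Agent.PLN
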