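import Pool.Agent.PLN.VerraB
import Pool.Agent.PLN.VerraC
import Pool.Agent.PLN.VerraD
import Pool.Agent.PLN.Model

/-!
# PLN: the function field of a double covering of `ℙ² × ℙ²` with a section

If the quadric surface over `ℂ(s, t)` with the matrix `M` is similar to the quadric surface
`w ^ 2 = t(s; y)`, and the double covering `w ^ 2 = t(s; y)` of `ℙ² × ℙ²` has a rational section
over the plane of `y`, then the function field is generated by four elements: the two coordinates
of `y`, and two parameters of the quadric surface over `ℂ(y)`, projected from the point of the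
section. If the point of the section is in special position, the field is generated by four
elements for other reasons.
-/

set_option autoImplicit false

noncomputable section

namespace Pool.Agent.PLN

open MvPolynomial Matrix

variable {M : Matrix (Fin 4) (Fin 4) S3} {L : Type} [Field L] [Algebra ℂ L]
  {x : Fin 6 → L} {σ : K0 →+* L}

private theorem Verra_idx : ∀ j : Fin 3, ∃ p q : Fin 3, j ≠ p ∧ j ≠ q ∧ p ≠ q ∧
    ∀ i : Fin 3, i = j ∨ i = p ∨ i = q := by decide

private theorem Verra_aeval {T : IntermediateField ℂ L} {y : Fin 3 → L} (hy : ∀ i, y i ∈ T)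
    (f : S3) : aeval y f ∈ T := by
  induction f using MvPolynomial.induction_on with
  | C a =>
    rw [aeval_C]
    exact T.algebraMap_mem a
  | add p q hp hq =>
    rw [map_add]
    exact T.add_mem hp hq
  | mul_X p i hp =>
    rw [map_mul, aeval_X]
    exact T.mul_mem hp (hy i)

/-- four generators -/
private theorem Verra_four {w : L} {y : Fin 3 → L} {p q j : Fin 3}
    (hall : ∀ i : Fin 3, i = j ∨ i = p ∨ i = q) (hj : y j = 1)
    (hrec : ∀ T : IntermediateField ℂ L, x 1 ∈ T → x 2 ∈ T → (∀ i, y i ∈ T) → w ∈ T → ∀ i, x i ∈ T)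
    (a : Fin 4 → L) (ha : ∀ i, a i ∈ IntermediateField.adjoin ℂ (Set.range x))
    (hT : ∀ T : IntermediateField ℂ L, (∀ i, a i ∈ T) → y p ∈ T ∧ y q ∈ T)
    (hT' : ∀ T : IntermediateField ℂ L, (∀ i, a i ∈ T) → (∀ i, y i ∈ T) →
      x 1 ∈ T ∧ x 2 ∈ T ∧ w ∈ T) :
    ∃ a : Fin 4 → L, (∀ j, a j ∈ IntermediateField.adjoin ℂ (Set.range x)) ∧
      ∀ i, x i ∈ IntermediateField.adjoin ℂ (Set.range a) := by
  refine ⟨a, ha, ?_⟩
  have h0 : ∀ i, a i ∈ IntermediateField.adjoin ℂ (Set.range a) := fun i =>
    IntermediateField.subset_adjoin _ _ ⟨i, rfl⟩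
  have h1 := hT _ h0
  have hy : ∀ i, y i ∈ IntermediateField.adjoin ℂ (Set.range a) := by
    intro i
    rcases hall i with rfl | rfl | rfl
    · rw [hj]
      exact IntermediateField.one_mem _
    · exact h1.1
    · exact h1.2
  have h2 := hT' _ h0 hy
  exact hrec _ h2.1 h2.2.1 hy h2.2.2

/-- a relation between the coordinates of `y` -/
private theorem Verra_rel {w : L} {y : Fin 3 → L} {p q j : Fin 3} (hjp : j ≠ p) (hjq : j ≠ q)
    (hpq : p ≠ q) (hall : ∀ i : Fin 3, i = j ∨ i = p ∨ i = q) (hj : y j = 1)
    (hrec : ∀ T : IntermediateField ℂ L, x 1 ∈ T → x 2 ∈ T → (∀ i, y i ∈ T) → w ∈ T → ∀ i, x i ∈ T)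
    (hyE : ∀ i, y i ∈ IntermediateField.adjoin ℂ (Set.range x))
    (hwE : w ∈ IntermediateField.adjoin ℂ (Set.range x))
    (hw : ∀ T : IntermediateField ℂ L, x 1 ∈ T → x 2 ∈ T → (∀ i, y i ∈ T) → w ^ 2 ∈ T)
    {f : S3} {d : ℕ} (hf : f.IsHomogeneous d) (hf0 : f ≠ 0) (h0 : aeval y f = 0) :
    ∃ a : Fin 4 → L, (∀ j, a j ∈ IntermediateField.adjoin ℂ (Set.range x)) ∧
      ∀ i, x i ∈ IntermediateField.adjoin ℂ (Set.range a) := by
  have hxE : ∀ i, x i ∈ IntermediateField.adjoin ℂ (Set.range x) := fun i =>
    IntermediateField.subset_adjoin _ _ ⟨i, rfl⟩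
  rcases alg_of_rel hf hf0 hj hjp hjq hpq h0 with h1 | h1
  · refine Verra_four hall hj hrec ![y q, x 1, x 2, w] ?_ ?_ ?_
    · intro i
      fin_cases i
      · exact hyE q
      · exact hxE 1
      · exact hxE 2
      · exact hwE
    · intro T hT
      exact ⟨mem_of_alg h1 T, hT 0⟩
    · intro T hT _
      exact ⟨hT 1, hT 2, hT 3⟩
  · let K : IntermediateField ℂ L := IntermediateField.adjoin ℂ {y p, x 1, x 2}
    have hK : IntermediateField.adjoin ℂ {y p} ≤ K := IntermediateField.adjoin.mono _ _ _ (by simp)
    have hq : IsAlgebraic K (y q) := by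
      obtain ⟨g, hg, hgy⟩ := h1
      refine ⟨g.map (IntermediateField.inclusion hK : _ →+* K), ?_, ?_⟩
      · rw [Ne, Polynomial.map_eq_zero]
        exact hg
      · rw [← hgy, Polynomial.aeval_def, Polynomial.aeval_def, Polynomial.eval₂_map]
        rfl
    have hw' : IsAlgebraic K w := by
      let K' : IntermediateField K L := IntermediateField.adjoin K {y q}
      have h2 : Algebra.IsAlgebraic K K' := by
        refine IntermediateField.isAlgebraic_adjoin fun z hz => ?_
        rw [Set.mem_singleton_iff.1 hz]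
        exact hq.isIntegral
      have h3 : w ^ 2 ∈ K' := by
        let T : IntermediateField ℂ L := K'.restrictScalars ℂ
        have h4 : ∀ z : L, z ∈ T ↔ z ∈ K' := fun z => Iff.rfl
        have hKT : ∀ z ∈ K, z ∈ T := fun z hz => K'.algebraMap_mem ⟨z, hz⟩
        refine hw T ?_ ?_ fun i => ?_
        · exact hKT _ (IntermediateField.subset_adjoin _ _ (by simp))
        · exact hKT _ (IntermediateField.subset_adjoin _ _ (by simp))
        · rcases hall i with rfl | rfl | rfl
          · rw [hj]
            exact T.one_mem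
          · exact hKT _ (IntermediateField.subset_adjoin _ _ (by simp))
          · exact IntermediateField.mem_adjoin_simple_self K _
      have h5 : IsAlgebraic K (w ^ 2) := by
        have := Algebra.IsAlgebraic.isAlgebraic (R := K) (⟨w ^ 2, h3⟩ : K')
        exact this.algebraMap
      exact h5.of_pow two_pos
    obtain ⟨θ, hθ⟩ := exists_prim hq hw'
    refine Verra_four hall hj hrec ![y p, x 1, x 2, θ] ?_ ?_ ?_
    · intro i
      fin_cases i
      · exact hyE p
      · exact hxE 1
      · exact hxE 2
      · refine (hθ _ ?_).2 ⟨hyE q, hwE⟩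
        rw [IntermediateField.adjoin_le_iff]
        rintro z hz
        rcases hz with rfl | rfl | rfl
        · exact hyE p
        · exact hxE 1
        · exact hxE 2
    · intro T hT
      have h2 : K ≤ T := by
        rw [IntermediateField.adjoin_le_iff]
        rintro z hz
        rcases hz with rfl | rfl | rfl
        · exact hT 0
        · exact hT 1
        · exact hT 2
      exact ⟨hT 0, ((hθ T h2).1 (hT 3)).1⟩
    · intro T hT _
      have h2 : K ≤ T := by
        rw [IntermediateField.adjoin_le_iff]
        rintro z hz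
        rcases hz with rfl | rfl | rfl
        · exact hT 0
        · exact hT 1
        · exact hT 2
      exact ⟨hT 1, hT 2, ((hθ T h2).1 (hT 3)).2⟩

private theorem Verra_homB (t : Fin 3 → Fin 3 → Fin 3 → Fin 3 → ℂ) (k l : Fin 3) :
    (vB t k l).IsHomogeneous 2 := by
  unfold vB
  refine IsHomogeneous.sum _ _ _ fun i _ => IsHomogeneous.sum _ _ _ fun j _ => ?_
  have h1 := ((isHomogeneous_C (Fin 3) (t k l i j)).mul (isHomogeneous_X ℂ i)).mul
    (isHomogeneous_X ℂ j)
  simpa using h1

private theorem Verra_det (t : Fin 3 → Fin 3 → Fin 3 → Fin 3 → ℂ) :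
    (vB t).det.IsHomogeneous 6 := by
  have h := Verra_homB t
  rw [Matrix.det_fin_three]
  have h3 : ∀ a b c d e f : Fin 3, (vB t a b * vB t c d * vB t e f).IsHomogeneous 6 :=
    fun a b c d e f => ((h a b).mul (h c d)).mul (h e f)
  exact (((((h3 _ _ _ _ _ _).sub (h3 _ _ _ _ _ _)).sub (h3 _ _ _ _ _ _)).add
    (h3 _ _ _ _ _ _)).add (h3 _ _ _ _ _ _)).sub (h3 _ _ _ _ _ _)

private def VQ (t : Fin 3 → Fin 3 → Fin 3 → Fin 3 → ℂ) (y : Fin 3 → L) :
    Matrix (Fin 4) (Fin 4) L :=
  Matrix.of fun i j => Fin.lastCases (motive := fun _ => L)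
    (Fin.lastCases (motive := fun _ => L) 1 (fun _ => 0) j)
    (fun i' => Fin.lastCases (motive := fun _ => L) 0 (fun j' => -aeval y (vB t i' j')) j) i

private theorem VQ_bilin (t : Fin 3 → Fin 3 → Fin 3 → Fin 3 → ℂ) (y : Fin 3 → L)
    (u v : Fin 3 → L) (a b : L) :
    Matrix.toBilin' (VQ t y) (Fin.snoc (α := fun _ => L) u a) (Fin.snoc (α := fun _ => L) v b) =
      a * b - ∑ k, ∑ l, aeval y (vB t k l) * u k * v l := by
  rw [Matrix.toBilin'_apply, Fin.sum_univ_castSucc]
  simp only [Fin.sum_univ_castSucc (n := 3), VQ, Matrix.of_apply, Fin.lastCases_castSucc,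
    Fin.lastCases_last, Fin.snoc_castSucc, Fin.snoc_last]
  rw [sub_eq_neg_add, ← Finset.sum_neg_distrib]
  congr 1
  · refine Finset.sum_congr rfl fun k _ => ?_
    rw [← Finset.sum_neg_distrib, mul_zero, zero_mul, add_zero]
    refine Finset.sum_congr rfl fun l _ => ?_
    ring
  · simp

/-- **Double coverings of `ℙ² × ℙ²`.** -/
theorem verra_gen (hM : IsCub M) (h : Model M L x σ) {t : Fin 3 → Fin 3 → Fin 3 → Fin 3 → ℂ}
    {c : ℂ} {sg : Fin 3 → S3} {w₀ : S3} (hV : VerraData M t c sg w₀) (hdet : affK M.det ≠ 0)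
    {γ : K0} (hγ : γ ≠ 0) {A : Matrix (Fin 1 ⊕ Fin 3) (Fin 4) K0}
    (hA : Aᵀ * (vN t).map affK * A = γ • M.map affK) :
    ∃ a : Fin 4 → L, (∀ j, a j ∈ IntermediateField.adjoin ℂ (Set.range x)) ∧
      ∀ i, x i ∈ IntermediateField.adjoin ℂ (Set.range a) := by
  set E := IntermediateField.adjoin ℂ (Set.range x) with hE
  have hxE : ∀ i, x i ∈ E := fun i => IntermediateField.subset_adjoin _ _ ⟨i, rfl⟩
  obtain ⟨j, hj0⟩ := vP_ne hM h hdet hγ hA
  obtain ⟨p, q, hjp, hjq, hpq, hall⟩ := Verra_idx j
  set P := vP x σ A with hP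
  let y : Fin 3 → L := fun i => (P (Sum.inr j))⁻¹ * P (Sum.inr i)
  let w : L := (P (Sum.inr j))⁻¹ * P (Sum.inl 0)
  have hyj : y j = 1 := inv_mul_cancel₀ hj0
  have hPE : ∀ a, P a ∈ E := fun a => vP_mem h A hxE a
  have hyE : ∀ i, y i ∈ E := fun i => E.mul_mem (E.inv_mem (hPE _)) (hPE _)
  have hwE : w ∈ E := E.mul_mem (E.inv_mem (hPE _)) (hPE _)
  have hB : ∀ k l, aeval y (vB t k l) =
      (P (Sum.inr j))⁻¹ ^ 2 * aeval (fun i => P (Sum.inr i)) (vB t k l) := by
    intro k l
    rw [vB, map_sum, map_sum, Finset.mul_sum]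
    refine Finset.sum_congr rfl fun i _ => ?_
    rw [map_sum, map_sum, Finset.mul_sum]
    refine Finset.sum_congr rfl fun i' _ => ?_
    rw [map_mul, map_mul, map_mul, map_mul, aeval_C, aeval_C, aeval_X, aeval_X, aeval_X, aeval_X]
    ring
  have hw : w ^ 2 = ∑ k, ∑ l, aeval y (vB t k l) * sc x k * sc x l := by
    have h1 := vP_eq hM h hA
    have h2 : w ^ 2 = (P (Sum.inr j))⁻¹ ^ 2 * P (Sum.inl 0) ^ 2 := mul_pow _ _ _
    rw [h2, h1, Finset.mul_sum]
    refine Finset.sum_congr rfl fun k _ => ?_
    rw [Finset.mul_sum]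
    refine Finset.sum_congr rfl fun l _ => ?_
    rw [hB]
    ring
  have hrec : ∀ T : IntermediateField ℂ L, x 1 ∈ T → x 2 ∈ T → (∀ i, y i ∈ T) → w ∈ T →
      ∀ i, x i ∈ T := by
    intro T h1 h2 h3 h4
    refine vP_rec h hdet hγ hA h1 h2 (inv_ne_zero hj0) fun a => ?_
    rcases a with a | a
    · rw [Subsingleton.elim a 0]
      exact h4
    · exact h3 a
  have hsc : ∀ T : IntermediateField ℂ L, x 1 ∈ T → x 2 ∈ T → ∀ i, sc x i ∈ T := by
    intro T h1 h2 i
    fin_cases i
    · exact T.one_mem
    · exact h1
    · exact h2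
  have hwT : ∀ T : IntermediateField ℂ L, x 1 ∈ T → x 2 ∈ T → (∀ i, y i ∈ T) → w ^ 2 ∈ T := by
    intro T h1 h2 h3
    rw [hw]
    exact T.sum_mem fun k _ => T.sum_mem fun l _ => T.mul_mem (T.mul_mem (Verra_aeval h3 _)
      (hsc T h1 h2 k)) (hsc T h1 h2 l)
  -- the section
  let S : Fin 3 → L := fun k => aeval y (sg k)
  have hsec : aeval y w₀ ^ 2 = ∑ k, ∑ l, aeval y (vB t k l) * S k * S l := by
    have h1 := congrArg (aeval y) hV.sec
    simp only [map_pow, map_sum, map_mul] at h1
    exact h1
  by_cases hb : aeval y w₀ * w - ∑ k, ∑ l, aeval y (vB t k l) * S k * sc x l = 0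
  · rw [sub_eq_zero] at hb
    by_cases hw0 : aeval y w₀ = 0
    · rw [hw0, zero_mul] at hb
      let g : Fin 3 → L := fun l => ∑ k, aeval y (vB t k l) * S k
      have hg : g 0 + g 1 * x 1 + g 2 * x 2 = 0 := by
        rw [Finset.sum_comm, Fin.sum_univ_three] at hb
        simp only [← Finset.sum_mul] at hb
        have e0 : sc x 0 = 1 := rfl
        have e1 : sc x 1 = x 1 := rfl
        have e2 : sc x 2 = x 2 := rfl
        rw [e0, e1, e2, mul_one] at hb
        exact hb.symm
      have hgT : ∀ T : IntermediateField ℂ L, (∀ i, y i ∈ T) → ∀ l, g l ∈ T := fun T hT l =>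
        T.sum_mem fun k _ => T.mul_mem (Verra_aeval hT _) (Verra_aeval hT _)
      by_cases hg2 : g 2 = 0
      · by_cases hg1 : g 1 = 0
        · have hg0 : g 0 = 0 := by
            rw [hg1, hg2, zero_mul, zero_mul, add_zero, add_zero] at hg
            exact hg
          by_cases hS : S = 0
          · obtain ⟨k, hk⟩ := Function.ne_iff.1 hV.sg_ne
            obtain ⟨d, hd⟩ := hV.hom
            exact Verra_rel hjp hjq hpq hall hyj hrec hyE hwE hwT (hd k) hk (congrFun hS k)
          · refine Verra_rel hjp hjq hpq hall hyj hrec hyE hwE hwT (Verra_det t) hV.det_ne ?_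
            have h1 : (((vB t).map (aeval y))ᵀ).det = 0 := by
              refine Matrix.exists_mulVec_eq_zero_iff.1 ⟨S, hS, ?_⟩
              funext l
              rw [Matrix.mulVec, dotProduct, Pi.zero_apply]
              simp only [Matrix.transpose_apply, Matrix.map_apply]
              change g l = 0
              fin_cases l
              · exact hg0
              · exact hg1
              · exact hg2
            rw [Matrix.det_transpose] at h1
            rw [← h1, AlgHom.map_det]
            rfl
        · have h1 : x 1 = -g 0 / g 1 := by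
            rw [hg2, zero_mul, add_zero] at hg
            rw [eq_div_iff hg1]
            linear_combination hg
          refine Verra_four hall hyj hrec ![y p, y q, x 2, w] ?_ ?_ ?_
          · intro i
            fin_cases i
            · exact hyE p
            · exact hyE q
            · exact hxE 2
            · exact hwE
          · intro T hT
            exact ⟨hT 0, hT 1⟩
          · intro T hT hy
            refine ⟨?_, hT 2, hT 3⟩
            rw [h1]
            exact T.div_mem (T.neg_mem (hgT T hy 0)) (hgT T hy 1)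
      · have h1 : x 2 = -(g 0 + g 1 * x 1) / g 2 := by
          rw [eq_div_iff hg2]
          linear_combination hg
        refine Verra_four hall hyj hrec ![y p, y q, x 1, w] ?_ ?_ ?_
        · intro i
          fin_cases i
          · exact hyE p
          · exact hyE q
          · exact hxE 1
          · exact hwE
        · intro T hT
          exact ⟨hT 0, hT 1⟩
        · intro T hT hy
          refine ⟨hT 2, ?_, hT 3⟩
          rw [h1]
          exact T.div_mem (T.neg_mem (T.add_mem (hgT T hy 0) (T.mul_mem (hgT T hy 1) (hT 2))))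
            (hgT T hy 2)
    · have h1 : w = (∑ k, ∑ l, aeval y (vB t k l) * S k * sc x l) / aeval y w₀ := by
        rw [eq_div_iff hw0, ← hb, mul_comm]
      refine Verra_four hall hyj hrec ![y p, y q, x 1, x 2] ?_ ?_ ?_
      · intro i
        fin_cases i
        · exact hyE p
        · exact hyE q
        · exact hxE 1
        · exact hxE 2
      · intro T hT
        exact ⟨hT 0, hT 1⟩
      · intro T hT hy
        refine ⟨hT 2, hT 3, ?_⟩
        rw [h1]
        refine T.div_mem (T.sum_mem fun k _ => T.sum_mem fun l _ => ?_) (Verra_aeval hy _)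
        exact T.mul_mem (T.mul_mem (Verra_aeval hy _) (Verra_aeval hy _)) (hsc T (hT 2) (hT 3) l)
  · -- projection from the point of the section
    let T₁ : IntermediateField ℂ L := IntermediateField.adjoin ℂ (Set.range y)
    have hyT : ∀ i, y i ∈ T₁ := fun i => IntermediateField.subset_adjoin _ _ ⟨i, rfl⟩
    have hsymm : (VQ t y).IsSymm := by
      have hs : ∀ k l, vB t k l = vB t l k := by
        intro k l
        unfold vB
        refine Finset.sum_congr rfl fun i _ => Finset.sum_congr rfl fun i' _ => ?_
        rw [hV.symm₁]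
      ext i i'
      rw [Matrix.transpose_apply]
      induction i using Fin.lastCases with
      | last =>
        induction i' using Fin.lastCases with
        | last => rfl
        | cast i' =>
          simp only [VQ, Matrix.of_apply, Fin.lastCases_last, Fin.lastCases_castSucc]
      | cast i =>
        induction i' using Fin.lastCases with
        | last =>
          simp only [VQ, Matrix.of_apply, Fin.lastCases_last, Fin.lastCases_castSucc]
        | cast i' =>
          simp only [VQ, Matrix.of_apply, Fin.lastCases_castSucc]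
          rw [hs i i']
    have hQ : ∀ i i', VQ t y i i' ∈ T₁ := by
      intro i i'
      induction i using Fin.lastCases with
      | last =>
        induction i' using Fin.lastCases with
        | last =>
          simp only [VQ, Matrix.of_apply, Fin.lastCases_last]
          exact T₁.one_mem
        | cast i' =>
          simp only [VQ, Matrix.of_apply, Fin.lastCases_last, Fin.lastCases_castSucc]
          exact T₁.zero_mem
      | cast i =>
        induction i' using Fin.lastCases with
        | last =>
          simp only [VQ, Matrix.of_apply, Fin.lastCases_last, Fin.lastCases_castSucc]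
          exact T₁.zero_mem
        | cast i' =>
          simp only [VQ, Matrix.of_apply, Fin.lastCases_castSucc]
          exact T₁.neg_mem (Verra_aeval hyT _)
    obtain ⟨a, b, hab, hT⟩ := quadric_param (k := ℂ) (T₁ := T₁) (Q := VQ t y)
      (P₀ := Fin.snoc (α := fun _ => L) S (aeval y w₀)) (P := Fin.snoc (α := fun _ => L) (sc x) w)
      hsymm hQ (by
        intro i
        induction i using Fin.lastCases with
        | last =>
          rw [Fin.snoc_last]
          exact Verra_aeval hyT _
        | cast i =>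
          rw [Fin.snoc_castSucc]
          exact Verra_aeval hyT _)
      (by
        rw [VQ_bilin, ← hsec]
        ring)
      (by
        rw [VQ_bilin, ← hw]
        ring)
      (by
        rw [VQ_bilin]
        exact hb)
      (by
        have : CharZero L := charZero_of_injective_algebraMap (algebraMap ℂ L).injective
        exact two_ne_zero)
    have hT₁E : T₁ ≤ E := by
      rw [IntermediateField.adjoin_le_iff]
      rintro _ ⟨i, rfl⟩
      exact hyE i
    have habE := hab E hT₁E (by
      intro i
      induction i using Fin.lastCases with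
      | last =>
        rw [Fin.snoc_last]
        exact hwE
      | cast i =>
        rw [Fin.snoc_castSucc]
        exact hsc E (hxE 1) (hxE 2) i)
    refine Verra_four hall hyj hrec ![y p, y q, a, b] ?_ ?_ ?_
    · intro i
      fin_cases i
      · exact hyE p
      · exact hyE q
      · exact habE.1
      · exact habE.2
    · intro T hT
      exact ⟨hT 0, hT 1⟩
    · intro T haT hy
      have h1 : T₁ ≤ T := by
        rw [IntermediateField.adjoin_le_iff]
        rintro _ ⟨i, rfl⟩
        exact hy i
      obtain ⟨κ, hκ, hκP⟩ := hT T h1 (haT 2) (haT 3)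
      have h2 : κ ∈ T := by
        have h3 := hκP (Fin.castSucc 0)
        rw [Fin.snoc_castSucc] at h3
        have e0 : sc x 0 = 1 := rfl
        rwa [e0, mul_one] at h3
      have h3 : ∀ i, (Fin.snoc (α := fun _ => L) (sc x) w : Fin 4 → L) i ∈ T := by
        intro i
        have h4 : (Fin.snoc (α := fun _ => L) (sc x) w : Fin 4 → L) i =
            κ⁻¹ * (κ * (Fin.snoc (α := fun _ => L) (sc x) w : Fin 4 → L) i) := by
          rw [← mul_assoc, inv_mul_cancel₀ hκ, one_mul]
        rw [h4]
        exact T.mul_mem (T.inv_mem h2) (hκP i)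
      refine ⟨?_, ?_, ?_⟩
      · have h4 := h3 (Fin.castSucc 1)
        rw [Fin.snoc_castSucc] at h4
        exact h4
      · have h4 := h3 (Fin.castSucc 2)
        rw [Fin.snoc_castSucc] at h4
        exact h4
      · have h4 := h3 (Fin.last 3)
        rw [Fin.snoc_last] at h4
        exact h4

/-- **Double coverings of `ℙ² × ℙ²` with a section.** -/
theorem verra_end {M : Matrix (Fin 4) (Fin 4) S3} (hM : IsCub M) (hi : Irreducible M.det)
    (hdet : affK M.det ≠ 0) {t : Fin 3 → Fin 3 → Fin 3 → Fin 3 → ℂ} {c : ℂ} {sg : Fin 3 → S3}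
    {w₀ : S3} (hV : VerraData M t c sg w₀) {γ : K0} (hγ : γ ≠ 0)
    {A : Matrix (Fin 1 ⊕ Fin 3) (Fin 4) K0}
    (hA : Aᵀ * (vN t).map affK * A = γ • M.map affK) :
    Pool.Agent.P28.Rational (cubic M) := by
  obtain ⟨L, _, _, x, σ, hmod⟩ := exists_model hM hi
  obtain ⟨a, ha, hx⟩ := verra_gen hM hmod hV hdet hγ hA
  exact rational_of_gen hM hi hmod a ha hx

end Pool.Agent.PLN
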