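import Pool.Agent.PLN.Main
import Pool.Agent.PLN.Verra

/-!
# PLN: cubic fourfolds containing a plane which come from double coverings of `ℙ² × ℙ²`
-/

set_option autoImplicit false

namespace Pool.Agent.PLN

open MvPolynomial Matrix

theorem sqMod_neg {d f : S3} (h : SqMod d f) : SqMod d (-f) := by
  obtain ⟨a, b, n, hb, hdb, hdf, q, hq⟩ := h
  refine ⟨C Complex.I * a, b, n, hb, hdb, fun h => hdf ((dvd_neg).1 h), -q, ?_⟩
  have e : (C Complex.I : S3) ^ 2 = -1 := by
    rw [← map_pow, Complex.I_sq, map_neg, map_one]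
  linear_combination (-1 : S3) * hq - a ^ 2 * e

private theorem vN_symm {t : Fin 3 → Fin 3 → Fin 3 → Fin 3 → ℂ}
    (h : ∀ k l i j, t k l i j = t k l j i) : (vN t).IsSymm := by
  have h1 : (vA t).IsSymm := by
    refine Matrix.IsSymm.ext fun i j => ?_
    unfold vA
    refine Finset.sum_congr rfl fun k _ => Finset.sum_congr rfl fun l _ => ?_
    rw [h]
  refine Matrix.IsSymm.ext fun i j => ?_
  rcases i with i | i <;> rcases j with j | j
  · rw [Subsingleton.elim i j]
  · rfl
  · rfl
  · exact h1.apply i j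

private theorem vN_det (t : Fin 3 → Fin 3 → Fin 3 → Fin 3 → ℂ) :
    (vN t).det = -(vA t).det := by
  rw [vN, det_fromBlocks_zero₂₁]
  simp

private theorem vN_adj (t : Fin 3 → Fin 3 → Fin 3 → Fin 3 → ℂ) (i : Fin 3) :
    (vN t).adjugate (Sum.inr i) (Sum.inr i) = -(vA t).adjugate i i := by
  rw [adjugate_apply, adjugate_apply]
  have h : (vN t).updateRow (Sum.inr i) (Pi.single (Sum.inr i) 1) =
      fromBlocks (-1) 0 0 ((vA t).updateRow i (Pi.single i 1)) := by
    ext a b
    rcases a with a | a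
    · rw [updateRow_ne (by simp)]
      rcases b with b | b <;> rfl
    · by_cases hai : a = i
      · subst hai
        rw [updateRow_self]
        rcases b with b | b
        · rw [Pi.single_eq_of_ne (by simp)]
          rfl
        · rw [fromBlocks_apply₂₂, updateRow_self]
          by_cases hb : b = a
          · subst hb
            rw [Pi.single_eq_same, Pi.single_eq_same]
          · rw [Pi.single_eq_of_ne hb, Pi.single_eq_of_ne (by simpa using hb)]
      · rw [updateRow_ne (by simpa using hai)]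
        rcases b with b | b
        · rfl
        · rw [fromBlocks_apply₂₂, updateRow_ne hai]
          rfl
  rw [h, det_fromBlocks_zero₂₁]
  simp

private theorem vN_hom (t : Fin 3 → Fin 3 → Fin 3 → Fin 3 → ℂ) (i : Fin 3) :
    ∃ m : ℕ, ((vN t).adjugate (Sum.inr i) (Sum.inr i)).IsHomogeneous m := by
  rw [vN_adj]
  obtain ⟨m, hm⟩ := adj_hom (P := vA t) (a := fun _ => 2) (b := fun _ => 0) (fun j k => by
    unfold vA
    refine IsHomogeneous.sum _ _ _ fun p _ => IsHomogeneous.sum _ _ _ fun q _ => ?_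
    have h1 := ((isHomogeneous_C (Fin 3) (t p q j k)).mul (isHomogeneous_X ℂ p)).mul
      (isHomogeneous_X ℂ q)
    simpa using h1) i
  exact ⟨m, hm.neg⟩

/-- **Double coverings of `ℙ² × ℙ²`.** -/
theorem verra_rational {M : Matrix (Fin 4) (Fin 4) S3} (hM : IsCub M) (hS : SmoothCurve M.det)
    {t : Fin 3 → Fin 3 → Fin 3 → Fin 3 → ℂ} {c : ℂ} {sg : Fin 3 → S3} {w₀ : S3}
    (hV : VerraData M t c sg w₀) {γ : S3} {m : ℕ} (hγ : γ.IsHomogeneous m)
    (hγi : Irreducible γ) (h1 : SqMod γ M.det) (i : Fin 3) (j : Fin 4)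
    (h2 : SqMod M.det (γ * M.adjugate j j * (vA t).adjugate i i)) :
    Pool.Agent.P28.Rational (cubic M) := by
  by_cases hani : ∀ v : Fin 4 → K0, v ⬝ᵥ (M.map affK *ᵥ v) = 0 → v = 0
  swap
  · exact rational_of_isotropic hM hS hani
  have hd : (vN t).det = C (-c) * M.det := by
    rw [vN_det, hV.det, map_neg, neg_mul]
  have hc : -c ≠ 0 := neg_ne_zero.2 hV.c_ne
  have h2' : SqMod M.det (γ * M.adjugate j j * (vN t).adjugate (Sum.inr i) (Sum.inr i)) := by
    rw [vN_adj, mul_neg]
    exact sqMod_neg h2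
  have hNs := vN_symm hV.symm₂
  obtain ⟨k, hk⟩ := vN_hom t i
  obtain ⟨W, hW, hWi⟩ := core hM hS hNs hc hd hγ hγi h1 (Sum.inr i) j hk h2' 4 (by simp)
  have hγ0 : affK γ ≠ 0 := fun h => hγi.ne_zero (affK_inj hγ h)
  have hdN : ((vN t).map affK).det ≠ 0 := by
    rw [map_det_affK, hd, map_mul]
    refine mul_ne_zero (fun h => ?_) (affK_det_ne hM hS)
    have h3 := affK_inj (isHomogeneous_C (Fin 3) (-c)) h
    rw [C_eq_zero] at h3
    exact hc h3
  have hMs : (affK γ • M.map affK).IsSymm := by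
    refine Matrix.IsSymm.ext fun a b => ?_
    rw [Matrix.smul_apply, Matrix.smul_apply, (map_symm hM.symm).apply]
  obtain ⟨A, hA⟩ := dich4 two_ne_zero (by simp) (map_symm hNs) hMs hdN W hW hWi
    (aniso_smul hγ0 hani)
  exact verra_end hM (det_irr hM hS) (affK_det_ne hM hS) hV hγ0 hA

end Pool.Agent.PLN
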