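import Mathlib
import Pool.Agent.P28.RDefs
import Pool.Agent.P28.HomFac

set_option autoImplicit false

/-!
# PLN: a hypersurface whose function field is generated by four elements is rational

`ratFF`: `F` an irreducible form in six variables, `L` a field with a generic point `x` of the
hypersurface `F = 0`, normalised by `x 0 = 1`. If the field generated by the coordinates `x i` over
the complex numbers is generated by four elements `a j`, then `F = 0` is rational
in the sense of `Pool.Agent.P28.Rational`.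
-/

namespace Pool.Agent.PLN

open MvPolynomial

/-- values of a form at proportional points. -/
theorem aeval_smul_hom {σ : Type} {n : ℕ} {L : Type} [CommRing L] [Algebra ℂ L]
    {P : MvPolynomial σ ℂ} (hP : P.IsHomogeneous n) (c : L) (z : σ → L) :
    aeval (fun i => c * z i) P = c ^ n * aeval z P := by
  rw [aeval_def, aeval_def, eval₂_eq, eval₂_eq, Finset.mul_sum]
  refine Finset.sum_congr rfl fun d hd => ?_
  have h1 : ∑ i ∈ d.support, d i = n := by
    have := hP (mem_support_iff.1 hd)
    rw [Finsupp.weight_apply] at this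
    simpa [Finsupp.sum] using this
  have h2 : ∏ i ∈ d.support, (c * z i) ^ d i = c ^ n * ∏ i ∈ d.support, z i ^ d i := by
    rw [← h1, ← Finset.prod_pow_eq_pow_sum, ← Finset.prod_mul_distrib]
    exact Finset.prod_congr rfl fun i _ => mul_pow _ _ _
  rw [h2]
  ring

theorem eval_smul_hom {σ : Type} {n : ℕ} {P : MvPolynomial σ ℂ} (hP : P.IsHomogeneous n) (c : ℂ)
    (z : σ → ℂ) : eval (fun i => c * z i) P = c ^ n * eval z P := by
  rw [← aeval_eq_eval, ← aeval_eq_eval]
  exact aeval_smul_hom hP c z

/-- homogenisation inside the same ring, with the variable `X 0` -/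
private noncomputable def hz {m : ℕ} (n : ℕ) (P : MvPolynomial (Fin (m + 1)) ℂ) :
    MvPolynomial (Fin (m + 1)) ℂ :=
  ∑ i ∈ Finset.range (n + 1), X 0 ^ (n - i) * homogeneousComponent i P

private theorem hz_hom {m : ℕ} (n : ℕ) (P : MvPolynomial (Fin (m + 1)) ℂ) :
    (hz n P).IsHomogeneous n := by
  refine IsHomogeneous.sum _ _ _ fun i hi => ?_
  have h1 : ((X 0 : MvPolynomial (Fin (m + 1)) ℂ) ^ (n - i)).IsHomogeneous (n - i) := by
    have := (isHomogeneous_X ℂ (0 : Fin (m + 1))).pow (n - i)
    rwa [one_mul] at this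
  have h2 := h1.mul (homogeneousComponent_isHomogeneous i P)
  rw [Finset.mem_range] at hi
  rwa [Nat.sub_add_cancel (by omega)] at h2

private theorem aeval_hz {m n : ℕ} {P : MvPolynomial (Fin (m + 1)) ℂ} {L : Type} [Field L]
    [Algebra ℂ L] {z : Fin (m + 1) → L} (z0 : z 0 = 1) (h : P.totalDegree ≤ n) :
    aeval z (hz n P) = aeval z P := by
  unfold hz
  rw [map_sum]
  have h1 : ∀ i ∈ Finset.range (n + 1), aeval z (X 0 ^ (n - i) * homogeneousComponent i P) =
      aeval z (homogeneousComponent i P) := by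
    intro i _
    rw [map_mul, map_pow, aeval_X, z0, one_pow, one_mul]
  rw [Finset.sum_congr rfl h1, ← map_sum]
  congr 1
  conv_rhs => rw [← sum_homogeneousComponent P]
  symm
  refine Finset.sum_subset (Finset.range_mono (by omega)) fun i _ hi => ?_
  refine homogeneousComponent_eq_zero _ _ ?_
  rw [Finset.mem_range] at hi
  omega

/-- elements of a field generated by `z`, `z 0 = 1`, are quotients of forms of the same degree with
a common denominator. -/
private theorem pres {m k : ℕ} {L : Type} [Field L] [Algebra ℂ L] {z : Fin (m + 1) → L}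
    (z0 : z 0 = 1) (w : Fin k → L)
    (hw : ∀ i, w i ∈ IntermediateField.adjoin ℂ (Set.range z)) :
    ∃ (d : ℕ) (P : Fin k → MvPolynomial (Fin (m + 1)) ℂ) (q : L), q ≠ 0 ∧
      (∀ i, (P i).IsHomogeneous (d + 1)) ∧ ∀ i, aeval z (P i) = q * w i := by
  have h1 : ∀ i, ∃ r s : MvPolynomial (Fin (m + 1)) ℂ, aeval z s ≠ 0 ∧
      aeval z r = aeval z s * w i := by
    intro i
    obtain ⟨r, s, hrs⟩ := (IntermediateField.mem_adjoin_range_iff ℂ z (w i)).1 (hw i)
    by_cases hs : aeval z s = 0
    · refine ⟨0, 1, by rw [map_one]; exact one_ne_zero, ?_⟩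
      rw [hrs, hs, div_zero, map_zero, mul_zero]
    · refine ⟨r, s, hs, ?_⟩
      rw [hrs, mul_div_cancel₀ _ hs]
  choose r s hs hrs using h1
  set P : Fin k → MvPolynomial (Fin (m + 1)) ℂ := fun i =>
    r i * ∏ j ∈ Finset.univ.erase i, s j with hP
  refine ⟨Finset.univ.sup fun i => (P i).totalDegree,
    fun i => hz ((Finset.univ.sup fun i => (P i).totalDegree) + 1) (P i), ∏ j, aeval z (s j),
    Finset.prod_ne_zero_iff.2 fun j _ => hs j, fun i => hz_hom _ _, fun i => ?_⟩
  rw [aeval_hz z0 ((Finset.le_sup (f := fun i => (P i).totalDegree)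
    (Finset.mem_univ i)).trans (Nat.le_succ _)), hP]
  simp only
  rw [map_mul, hrs, map_prod, ← Finset.mul_prod_erase Finset.univ _ (Finset.mem_univ i)]
  ring

/-- a form vanishing at `(1, a)`, `a` algebraically independent, is zero. -/
private theorem hom_zero {m n : ℕ} {L : Type} [Field L] [Algebra ℂ L] {a : Fin m → L}
    (ha : AlgebraicIndependent ℂ a) {G : MvPolynomial (Fin (m + 1)) ℂ} (hG : G.IsHomogeneous n)
    (h : aeval (Fin.cons 1 a : Fin (m + 1) → L) G = 0) : G = 0 := by
  set f : Fin (m + 1) → MvPolynomial (Fin m) ℂ := Fin.cons 1 X with hf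
  have h1 : aeval a (aeval f G) = 0 := by
    rw [← h, ← AlgHom.comp_apply]
    congr 1
    refine MvPolynomial.algHom_ext fun i => ?_
    rw [AlgHom.comp_apply, aeval_X, aeval_X]
    refine Fin.cases ?_ (fun j => ?_) i
    · rw [hf, Fin.cons_zero, Fin.cons_zero, map_one]
    · rw [hf, Fin.cons_succ, Fin.cons_succ, aeval_X]
  have h2 : aeval f G = 0 := ha (by rw [h1, map_zero])
  have h3 : X 0 * G = 0 := by
    refine MvPolynomial.funext fun v => ?_
    rw [map_mul, map_zero, eval_X]
    by_cases hv : v 0 = 0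
    · rw [hv, zero_mul]
    · have h4 : eval (fun j => v (Fin.succ j) / v 0) (aeval f G) = 0 := by
        rw [h2, map_zero]
      have h5 : eval (fun j => v (Fin.succ j) / v 0) (aeval f G) =
          eval (fun i => v i / v 0) G := by
        have h6 : ((eval fun j => v (Fin.succ j) / v 0).comp (aeval f).toRingHom :
            MvPolynomial (Fin (m + 1)) ℂ →+* ℂ) = eval fun i => v i / v 0 := by
          refine MvPolynomial.ringHom_ext (fun c => ?_) fun i => ?_
          · simp
          · simp only [RingHom.comp_apply, AlgHom.toRingHom_eq_coe, RingHom.coe_coe, aeval_X,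
              eval_X]
            refine Fin.cases ?_ (fun j => ?_) i
            · rw [hf, Fin.cons_zero, map_one, div_self hv]
            · rw [hf, Fin.cons_succ, eval_X]
        have h7 := RingHom.congr_fun h6 G
        exact h7
      rw [h5] at h4
      have h8 : eval v G = v 0 ^ n * eval (fun i => v i / v 0) G := by
        rw [← eval_smul_hom hG]
        congr 2
        funext i
        rw [mul_div_cancel₀ _ hv]
      rw [h8, h4, mul_zero, mul_zero]
  rcases mul_eq_zero.1 h3 with h4 | h4
  · exact absurd h4 (X_ne_zero 0)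
  · exact h4

/-- The homogeneous form of algebraic independence. -/
private theorem alg_indep {F : MvPolynomial (Fin 6) ℂ} {n : ℕ} (hF : F.IsHomogeneous n)
    (hirr : Irreducible F) {L : Type} [Field L] [Algebra ℂ L] (x : Fin 6 → L)
    (x0 : x 0 = 1)
    (hker : ∀ (G : MvPolynomial (Fin 6) ℂ) (m : ℕ), G.IsHomogeneous m →
      (aeval x G = 0 ↔ F ∣ G)) :
    ∃ k : Fin 6, k ≠ 0 ∧ AlgebraicIndependent ℂ fun i : {i : Fin 6 // i ≠ 0 ∧ i ≠ k} => x i := by
  classical
  have hX : ¬ F ∣ X 0 := by
    rw [← hker _ 1 (isHomogeneous_X _ _), aeval_X, x0]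
    exact one_ne_zero
  obtain ⟨k, hk0, hk⟩ : ∃ k : Fin 6, k ≠ 0 ∧ degreeOf k F ≠ 0 := by
    by_contra hcon
    push Not at hcon
    -- then `F = c X_0 ^ n`
    have h1 : F = C (coeff (Finsupp.single 0 n) F) * X 0 ^ n := by
      ext d
      rw [coeff_C_mul, X_pow_eq_monomial, coeff_monomial]
      by_cases hd : d ∈ F.support
      · have h2 : ∀ k : Fin 6, k ≠ 0 → d k = 0 := by
          intro k hk
          have h3 := monomial_le_degreeOf k hd
          rw [hcon k hk] at h3
          omega
        have h3 : d = Finsupp.single 0 (d 0) := by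
          ext k
          by_cases hk : k = 0
          · rw [hk, Finsupp.single_eq_same]
          · rw [h2 k hk, Finsupp.single_eq_of_ne hk]
        have h4 : d 0 = n := by
          have h5 := hF (mem_support_iff.1 hd)
          rw [h3, Finsupp.weight_single] at h5
          simpa using h5
        rw [h4] at h3
        rw [if_pos h3.symm, mul_one, ← h3]
      · rw [notMem_support_iff.1 hd]
        split_ifs with h3
        · rw [h3, notMem_support_iff.1 hd, zero_mul]
        · rw [mul_zero]
    have h2 : F ∣ X 0 := by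
      have h3 : Prime F := hirr.prime
      have h4 : F ∣ C (coeff (Finsupp.single 0 n) F) * X 0 ^ n := by rw [← h1]
      have h5 : coeff (Finsupp.single 0 n) F ≠ 0 := by
        intro h6
        rw [h6, C_0, zero_mul] at h1
        exact hirr.ne_zero h1
      rcases h3.dvd_or_dvd h4 with h6 | h6
      · exact absurd (isUnit_of_dvd_unit h6 ((IsUnit.mk0 _ h5).map C)) hirr.not_isUnit
      · exact h3.dvd_of_dvd_pow h6
    exact hX h2
  refine ⟨k, hk0, ?_⟩
  rw [algebraicIndependent_iff]
  intro P hP
  -- homogenise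
  set Q : MvPolynomial (Fin 6) ℂ := rename (fun i : {i : Fin 6 // i ≠ 0 ∧ i ≠ k} => (i : Fin 6)) P
    with hQ
  have hinj : Function.Injective fun i : {i : Fin 6 // i ≠ 0 ∧ i ≠ k} => (i : Fin 6) :=
    Subtype.val_injective
  have h1 : aeval x Q = 0 := by
    rw [hQ, aeval_rename]
    exact hP
  have h2 : F ∣ hz Q.totalDegree Q := by
    rw [← hker _ _ (hz_hom _ _), aeval_hz x0 le_rfl, h1]
  have hQk : ∀ d ∈ Q.support, d k = 0 := by
    intro d hd
    by_contra h3
    have h4 : k ∈ Q.vars := (mem_vars_iff_mem_support _).2 ⟨d, hd, Finsupp.mem_support_iff.2 h3⟩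
    rw [hQ] at h4
    have h5 := vars_rename (fun i : {i : Fin 6 // i ≠ 0 ∧ i ≠ k} => (i : Fin 6)) P h4
    rw [Finset.mem_image] at h5
    obtain ⟨i, -, hi⟩ := h5
    exact i.2.2 hi
  have h3 : degreeOf k (hz Q.totalDegree Q) = 0 := by
    have h4 : k ∉ (hz Q.totalDegree Q).vars := by
      intro h5
      unfold hz at h5
      have h6 := vars_sum_subset _ _ h5
      rw [Finset.mem_biUnion] at h6
      obtain ⟨i, -, hi⟩ := h6
      have h7 := vars_mul _ _ hi
      rw [Finset.mem_union] at h7
      rcases h7 with h7 | h7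
      · have h8 := vars_pow _ _ h7
        rw [vars_X, Finset.mem_singleton] at h8
        exact hk0 h8
      · rw [mem_vars_iff_mem_support] at h7
        obtain ⟨d, hd, hdk⟩ := h7
        have h8 : d ∈ Q.support := by
          rw [mem_support_iff, coeff_homogeneousComponent] at hd
          rw [mem_support_iff]
          intro h9
          apply hd
          rw [h9]
          split_ifs <;> rfl
        exact Finsupp.mem_support_iff.1 hdk (hQk d h8)
    by_contra h5
    exact h4 (mem_vars_iff_degreeOf_ne_zero.2 h5)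
  have h4 : hz Q.totalDegree Q = 0 := by
    obtain ⟨G, hG⟩ := h2
    rw [hG]
    by_contra h5
    have h6 := degreeOf_mul_eq (n := k) (left_ne_zero_of_mul h5) (right_ne_zero_of_mul h5)
    rw [← hG, h3] at h6
    omega
  -- dehomogenise
  have h5 : Q = 0 := by
    have h6 : ∀ d ∈ Q.support, d 0 = 0 := by
      intro d hd
      by_contra h3
      have h4 : (0 : Fin 6) ∈ Q.vars := (mem_vars_iff_mem_support _).2
        ⟨d, hd, Finsupp.mem_support_iff.2 h3⟩
      rw [hQ] at h4
      have h5 := vars_rename (fun i : {i : Fin 6 // i ≠ 0 ∧ i ≠ k} => (i : Fin 6)) P h4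
      rw [Finset.mem_image] at h5
      obtain ⟨i, -, hi⟩ := h5
      exact i.2.1 hi
    have h7 : ∀ v : Fin 6 → ℂ, eval v Q = 0 := by
      intro v
      have h8 : eval v Q = eval (Function.update v 0 1) Q := by
        refine eval₂Hom_congr' rfl (fun j hj _ => ?_) rfl
        rw [Function.update_of_ne]
        rintro rfl
        rw [mem_vars_iff_mem_support] at hj
        obtain ⟨d, hd, hd0⟩ := hj
        exact Finsupp.mem_support_iff.1 hd0 (h6 d hd)
      have h9 : aeval (Function.update v 0 1) (hz Q.totalDegree Q) =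
          aeval (Function.update v 0 1) Q := aeval_hz (by rw [Function.update_self]) le_rfl
      rw [h4, map_zero] at h9
      rw [h8, ← aeval_eq_eval]
      exact h9.symm
    exact MvPolynomial.funext fun v => by rw [h7, map_zero]
  rw [hQ] at h5
  exact rename_injective _ hinj (by rw [h5, map_zero])

/-- A hypersurface in `P^5` whose field of rational functions is generated by four elements is
rational. `x` is a generic point of `F = 0` in the field `L`. -/
theorem ratFF {F : MvPolynomial (Fin 6) ℂ} {n : ℕ} (hF : F.IsHomogeneous n)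
    (hirr : Irreducible F) {L : Type} [Field L] [Algebra ℂ L] (x : Fin 6 → L) (x0 : x 0 = 1)
    (hker : ∀ (G : MvPolynomial (Fin 6) ℂ) (m : ℕ), G.IsHomogeneous m →
      (aeval x G = 0 ↔ F ∣ G))
    (a : Fin 4 → L) (ha : ∀ j, a j ∈ IntermediateField.adjoin ℂ (Set.range x))
    (hx : ∀ i, x i ∈ IntermediateField.adjoin ℂ (Set.range a)) : Pool.Agent.P28.Rational F := by
  classical
  -- `a` is algebraically independent
  have hai : AlgebraicIndependent ℂ a := by
    obtain ⟨k, hk0, hk⟩ := alg_indep hF hirr x x0 hker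
    set E := IntermediateField.adjoin ℂ (Set.range a) with hE
    set x' : {i : Fin 6 // i ≠ 0 ∧ i ≠ k} → E := fun i => ⟨x i, hx i⟩ with hx'
    have h1 : AlgebraicIndependent ℂ x' := AlgebraicIndependent.of_comp E.val hk
    set a' : Fin 4 → E := fun j => ⟨a j, IntermediateField.subset_adjoin _ _ ⟨j, rfl⟩⟩ with ha'
    have h2 : Cardinal.mk (Fin 4) ≤ Algebra.trdeg ℂ E := by
      have h3 := h1.cardinalMk_le_trdeg
      refine le_trans (le_of_eq ?_) h3
      rw [Cardinal.mk_fintype, Cardinal.mk_fintype]
      congr 1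
      rw [Fintype.card_fin]
      clear h1 h3 hx' x' hk
      revert hk0
      revert k
      decide
    have h3 : Algebra.IsAlgebraic (Algebra.adjoin ℂ (Set.range a')) E := by
      refine ⟨fun e => ?_⟩
      obtain ⟨r, s, hrs⟩ := (IntermediateField.mem_adjoin_range_iff ℂ a (e : L)).1 e.2
      have hv : ∀ r : MvPolynomial (Fin 4) ℂ, ((aeval a' r : E) : L) = aeval a r := by
        intro r
        have h4 : E.val.comp (aeval a') = aeval a := by
          refine MvPolynomial.algHom_ext fun i => ?_
          rw [AlgHom.comp_apply, aeval_X, aeval_X]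
          rfl
        exact DFunLike.congr_fun h4 r
      by_cases hs : aeval a s = 0
      · have h4 : e = 0 := by
          apply Subtype.ext
          rw [hrs, hs, div_zero]
          rfl
        rw [h4]
        exact isAlgebraic_zero
      · have hmem : ∀ r : MvPolynomial (Fin 4) ℂ,
            aeval a' r ∈ Algebra.adjoin ℂ (Set.range a') := by
          intro r
          rw [Algebra.adjoin_range_eq_range_aeval]
          exact ⟨r, rfl⟩
        refine ⟨Polynomial.C ⟨aeval a' s, hmem s⟩ * Polynomial.X - Polynomial.C ⟨aeval a' r, hmem r⟩,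
          ?_, ?_⟩
        · intro h4
          have h5 := congrArg (fun p => Polynomial.coeff p 1) h4
          simp only [Polynomial.coeff_sub, Polynomial.coeff_C_mul, Polynomial.coeff_X_one,
            mul_one, Polynomial.coeff_C_succ, sub_zero, Polynomial.coeff_zero] at h5
          have h6 := congrArg (fun e => (((e : Algebra.adjoin ℂ (Set.range a')) : E) : L)) h5
          apply hs
          rw [← hv]
          exact h6
        · rw [map_sub, map_mul, Polynomial.aeval_C, Polynomial.aeval_C, Polynomial.aeval_X]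
          apply Subtype.ext
          change ((aeval a' s : E) : L) * (e : L) - ((aeval a' r : E) : L) = 0
          rw [hv, hv, hrs, mul_div_cancel₀ _ hs, sub_self]
    have h4 := Algebra.IsAlgebraic.isTranscendenceBasis_of_le_trdeg_of_finite ℂ a' h2
    exact h4.1.map' (f := E.val) Subtype.val_injective
  -- the presentations
  set b : Fin 5 → L := Fin.cons 1 a with hb
  have hadj : ∀ i, x i ∈ IntermediateField.adjoin ℂ (Set.range b) := by
    intro i
    refine IntermediateField.adjoin.mono ℂ _ _ ?_ (hx i)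
    rintro _ ⟨j, rfl⟩
    exact ⟨Fin.succ j, by rw [hb, Fin.cons_succ]⟩
  have hbdj : ∀ i, b i ∈ IntermediateField.adjoin ℂ (Set.range x) := by
    intro i
    refine Fin.cases ?_ (fun j => ?_) i
    · rw [hb, Fin.cons_zero]
      exact one_mem _
    · rw [hb, Fin.cons_succ]
      exact ha j
  obtain ⟨d', phi, q, hq, hphi, hphi'⟩ := pres (by rw [hb, Fin.cons_zero]) x hadj
  set d := d' + 1 with hd
  obtain ⟨e', psi, t, ht, hpsi, hpsi'⟩ := pres x0 b hbdj
  set e := e' + 1 with he
  -- the compositions at the generic points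
  have c1 : ∀ (G : MvPolynomial (Fin 6) ℂ) (m : ℕ), G.IsHomogeneous m →
      aeval b (bind₁ phi G) = q ^ m * aeval x G := by
    intro G m hG
    rw [← aeval_smul_hom hG]
    rw [aeval_bind₁]
    simp only [hphi']
  have c2 : ∀ (G : MvPolynomial (Fin 5) ℂ) (m : ℕ), G.IsHomogeneous m →
      aeval x (bind₁ psi G) = t ^ m * aeval b G := by
    intro G m hG
    rw [← aeval_smul_hom hG]
    rw [aeval_bind₁]
    simp only [hpsi']
  have b0 : b 0 = 1 := by rw [hb, Fin.cons_zero]
  have hom1 : ∀ (G : MvPolynomial (Fin 6) ℂ) (m : ℕ), G.IsHomogeneous m →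
      (bind₁ phi G).IsHomogeneous (d * m) := fun G m hG => hG.aeval phi hphi
  have hom2 : ∀ (G : MvPolynomial (Fin 5) ℂ) (m : ℕ), G.IsHomogeneous m →
      (bind₁ psi G).IsHomogeneous (e * m) := fun G m hG => hG.aeval psi hpsi
  have hFphi : bind₁ phi F = 0 := by
    refine hom_zero hai (hom1 F n hF) ?_
    rw [← hb, c1 F n hF, (hker F n hF).2 dvd_rfl, mul_zero]
  -- `psi (phi) = g`
  have hpp : ∀ j, bind₁ phi (psi j) * X 0 = bind₁ phi (psi 0) * X j := by
    intro j
    rw [← sub_eq_zero]
    refine hom_zero hai (((hom1 _ e (hpsi j)).mul (isHomogeneous_X _ _)).sub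
      ((hom1 _ e (hpsi 0)).mul (isHomogeneous_X _ _))) ?_
    rw [← hb, map_sub, map_mul, map_mul, c1 _ e (hpsi j), c1 _ e (hpsi 0), hpsi', hpsi', aeval_X,
      aeval_X, b0]
    ring
  have hne : bind₁ phi (psi 0) ≠ 0 := by
    intro h1
    have h2 := c1 _ e (hpsi 0)
    rw [h1, map_zero, hpsi', b0, mul_one] at h2
    exact mul_ne_zero (pow_ne_zero _ hq) ht h2.symm
  obtain ⟨g, hg⟩ : ∃ g, bind₁ phi (psi 0) = g * X 0 := by
    have h1 : (X 0 : MvPolynomial (Fin 5) ℂ) ∣ bind₁ phi (psi 0) * X 1 :=
      ⟨bind₁ phi (psi 1), by rw [← hpp 1, mul_comm]⟩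
    have hp : Prime (X 0 : MvPolynomial (Fin 5) ℂ) := X_prime
    rcases hp.dvd_or_dvd h1 with h2 | h2
    · obtain ⟨g, hg⟩ := h2
      exact ⟨g, by rw [hg, mul_comm]⟩
    · exfalso
      rw [X_dvd_X] at h2
      exact absurd h2 (by decide)
  have hg0 : g ≠ 0 := by
    rintro rfl
    rw [zero_mul] at hg
    exact hne hg
  have hgj : ∀ j, bind₁ phi (psi j) = g * X j := by
    intro j
    have h1 := hpp j
    rw [hg] at h1
    have h2 : (bind₁ phi (psi j) - g * X j) * X 0 = 0 := by linear_combination h1
    rcases mul_eq_zero.1 h2 with h3 | h3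
    · exact sub_eq_zero.1 h3
    · exact absurd h3 (X_ne_zero 0)
  -- the maps: `phi` and `X_0 psi`
  have hphi0 : phi 0 ≠ 0 := by
    intro h1
    have h2 := hphi' 0
    rw [h1, map_zero, x0, mul_one] at h2
    exact hq h2.symm
  have hX0 : ∀ k : ℕ, ((X 0 : MvPolynomial (Fin 6) ℂ) ^ k).IsHomogeneous k :=
    isHomogeneous_X_pow _
  have hh : (X 0 ^ d' * bind₁ psi (phi 0)).IsHomogeneous (d' + e * d) :=
    (hX0 d').mul (hom2 _ d (hphi 0))
  refine ⟨d, 1 + e, phi, fun j => X 0 * psi j, phi 0 * g, X 0 ^ d' * bind₁ psi (phi 0), hphi,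
    fun j => (isHomogeneous_X _ _).mul (hpsi j), mul_ne_zero hphi0 hg0, ?_, hFphi, ?_, ?_⟩
  · rw [← hker _ _ hh, map_mul, map_pow, aeval_X, x0, one_pow, one_mul, c2 _ d (hphi 0), hphi',
      x0, mul_one]
    exact mul_ne_zero (pow_ne_zero _ ht) hq
  · intro j
    rw [map_mul, bind₁_X_right, hgj j]
    ring
  · intro i
    have h1 : bind₁ (fun j => X 0 * psi j) (phi i) = X 0 ^ d * bind₁ psi (phi i) := by
      exact aeval_smul_hom (hphi i) (X 0) psi
    rw [h1, ← hker _ (d + e * d)]
    · rw [map_sub, map_mul, map_mul, map_mul, map_pow, map_pow, aeval_X, aeval_X, x0,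
        c2 _ d (hphi i), c2 _ d (hphi 0), hphi', hphi', x0]
      ring
    · refine ((hX0 d).mul (hom2 _ d (hphi i))).sub ?_
      have h2 := hh.mul (isHomogeneous_X ℂ i)
      rwa [show d' + e * d + 1 = d + e * d by omega] at h2

end Pool.Agent.PLN
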