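import Pool.Agent.PLN.ModelA
import Pool.Agent.PLN.Den

set_option autoImplicit false

/-!
# PLN: cubic relations at the generic point are divisible by the quadratic form
-/

namespace Pool.Agent.PLN

open MvPolynomial Matrix

/-- complex numbers in `ℂ(s, t)`. -/
noncomputable def cK : ℂ →+* K0 := affK.comp C

/-- polynomials in the fibre coordinates over `ℂ(s, t)`. -/
abbrev P3 : Type := MvPolynomial (Fin 3) K0

/-- base change to `ℂ(s, t)`. -/
noncomputable def kap : S6 →+* P3 :=
  eval₂Hom ((C : K0 →+* P3).comp cK)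
    ![C (affK (X 0)), C (affK (X 1)), C (affK (X 2)), X 0, X 1, X 2]

/-- the fibre coordinates. -/
noncomputable def Zp : Fin 4 → P3 := ![X 0, X 1, X 2, 1]

/-- linear forms. -/
noncomputable def Lp (l : Fin 4 → K0) : P3 := ∑ a, C (l a) * Zp a

theorem kap_C (a : ℂ) : kap (C a) = C (cK a) := by
  unfold kap
  rw [coe_eval₂Hom, eval₂_C]
  rfl

theorem kap_up (g : S3) : kap (up g) = C (affK g) := by
  have h : kap.comp (up : S3 →+* S6) = (C : K0 →+* P3).comp affK := by
    refine MvPolynomial.ringHom_ext (fun r => ?_) fun i => ?_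
    · rw [RingHom.comp_apply, RingHom.coe_coe, ← algebraMap_eq, AlgHom.commutes, algebraMap_eq,
        kap_C]
      rfl
    · rw [RingHom.comp_apply, RingHom.coe_coe]
      unfold up kap
      rw [rename_X, coe_eval₂Hom, eval₂_X]
      fin_cases i <;> rfl
  exact RingHom.congr_fun h g

theorem kap_zc (i : Fin 4) : kap (zc i) = Zp i := by
  unfold zc Zp kap
  fin_cases i
  · simp
  · simp
  · simp
  · simp

theorem eval_Zp (v : Fin 4 → K0) (hv : v 3 = 1) (i : Fin 4) :
    eval ![v 0, v 1, v 2] (Zp i) = v i := by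
  unfold Zp
  fin_cases i
  · simp
  · simp
  · simp
  · simp [hv]

theorem eval_Lp (l v : Fin 4 → K0) (hv : v 3 = 1) :
    eval ![v 0, v 1, v 2] (Lp l) = ∑ a, l a * v a := by
  unfold Lp
  rw [map_sum]
  refine Finset.sum_congr rfl fun a _ => ?_
  rw [map_mul, eval_C, eval_Zp v hv]

theorem eval_kap_cubic (M : Matrix (Fin 4) (Fin 4) S3) (v : Fin 4 → K0) (hv : v 3 = 1) :
    eval ![v 0, v 1, v 2] (kap (cubic M)) = v ⬝ᵥ (M.map affK *ᵥ v) := by
  unfold cubic
  rw [map_sum, map_sum]
  simp only [dotProduct, mulVec, Finset.mul_sum, Matrix.map_apply]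
  refine Finset.sum_congr rfl fun i _ => ?_
  rw [map_sum, map_sum]
  refine Finset.sum_congr rfl fun j _ => ?_
  rw [map_mul kap, map_mul kap, kap_up, kap_zc, kap_zc, map_mul, map_mul, eval_C, eval_Zp v hv,
    eval_Zp v hv]
  ring

theorem deg_Zp (i : Fin 4) : (Zp i).totalDegree ≤ 1 := by
  unfold Zp
  fin_cases i
  · exact (totalDegree_X (R := K0) (0 : Fin 3)).le
  · exact (totalDegree_X (R := K0) (1 : Fin 3)).le
  · exact (totalDegree_X (R := K0) (2 : Fin 3)).le
  · exact (totalDegree_one (R := K0) (σ := Fin 3)).le.trans (Nat.zero_le 1)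

theorem deg_mul {P Q : P3} {a b c : ℕ} (hP : P.totalDegree ≤ a) (hQ : Q.totalDegree ≤ b)
    (hc : a + b ≤ c) : (P * Q).totalDegree ≤ c :=
  (totalDegree_mul P Q).trans ((add_le_add hP hQ).trans hc)

theorem deg_C_mul {P : P3} {a : ℕ} (c : K0) (hP : P.totalDegree ≤ a) :
    (C c * P).totalDegree ≤ a :=
  deg_mul (totalDegree_C c).le hP (by omega)

theorem deg_sum {ι : Type} (s : Finset ι) (f : ι → P3) {a : ℕ}
    (h : ∀ i ∈ s, (f i).totalDegree ≤ a) : (∑ i ∈ s, f i).totalDegree ≤ a :=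
  totalDegree_finsetSum_le h

theorem deg_Lp (l : Fin 4 → K0) : (Lp l).totalDegree ≤ 1 :=
  deg_sum _ _ fun a _ => deg_C_mul _ (deg_Zp a)

/-- polynomials of degree at most one. -/
theorem lin_of_deg {P : P3} (h : P.totalDegree ≤ 1) : ∃ l : Fin 4 → K0, P = Lp l := by
  have h1 : P = homogeneousComponent 0 P + homogeneousComponent 1 P := by
    conv_lhs => rw [← sum_homogeneousComponent P]
    have h2 : Finset.range (P.totalDegree + 1) ⊆ Finset.range 2 :=
      Finset.range_mono (by omega)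
    rw [Finset.sum_subset h2]
    · rw [Finset.sum_range_succ, Finset.sum_range_one]
    · intro i _ hi
      refine homogeneousComponent_eq_zero _ _ ?_
      rw [Finset.mem_range] at hi
      omega
  have h2 : homogeneousComponent 1 P ∈ Submodule.span K0 (Set.range (X : Fin 3 → P3)) := by
    rw [← homogeneousSubmodule_one_eq_span_X]
    exact homogeneousComponent_isHomogeneous 1 P
  obtain ⟨c, hc⟩ := (Submodule.mem_span_range_iff_exists_fun K0).1 h2
  refine ⟨![c 0, c 1, c 2, coeff 0 P], ?_⟩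
  rw [h1, homogeneousComponent_zero, ← hc]
  unfold Lp Zp
  simp [Fin.sum_univ_succ, smul_eq_C_mul]
  ring

/-- cubic relations at the generic point are divisible by the quadratic form. -/
theorem div3 {M : Matrix (Fin 4) (Fin 4) S3} {L : Type} [Field L] [Algebra ℂ L] {x : Fin 6 → L}
    {σ : K0 →+* L} (h : Model M L x σ)
    (hani : ∀ v : Fin 4 → K0, v ⬝ᵥ (M.map affK *ᵥ v) = 0 → v = 0)
    {G : S6} {d : ℕ} (hG : G.IsHomogeneous d) (hG0 : aeval x G = 0)
    (hdeg : (kap G).totalDegree ≤ 3) : ∃ μ : Fin 4 → K0, kap G = kap (cubic M) * Lp μ := by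
  obtain ⟨H, hH⟩ := (h.ker G d hG).1 hG0
  by_cases h0 : kap G = 0
  · refine ⟨0, ?_⟩
    rw [h0]
    unfold Lp
    simp
  · rw [hH, map_mul] at h0 hdeg
    have h1 : 2 ≤ (kap (cubic M)).totalDegree := by
      by_contra hcon
      obtain ⟨l, hl⟩ := lin_of_deg (P := kap (cubic M)) (by omega)
      have hv : ∀ v : Fin 4 → K0, v 3 = 1 →
          v ⬝ᵥ (M.map affK *ᵥ v) = ∑ a, l a * v a := by
        intro v hv
        rw [← eval_kap_cubic M v hv, hl, eval_Lp l v hv]
      have e0 := hv ![0, 0, 0, 1] rfl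
      have e1 := hv ![1, 0, 0, 1] rfl
      have e2 := hv ![-1, 0, 0, 1] rfl
      have h2 := hani ![1, 0, 0, 0] (by
        simp [dotProduct, mulVec, Fin.sum_univ_four] at e0 e1 e2 ⊢
        have h3 : 2 * affK (M 0 0) = 0 := by linear_combination e1 + e2 - 2 * e0
        simpa using h3)
      exact one_ne_zero (congrFun h2 0)
    have h2 := totalDegree_mul_of_isDomain (left_ne_zero_of_mul h0) (right_ne_zero_of_mul h0)
    obtain ⟨μ, hμ⟩ := lin_of_deg (P := kap H) (by omega)
    exact ⟨μ, by rw [hH, map_mul, hμ]⟩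

end Pool.Agent.PLN
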