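import Mathlib

set_option autoImplicit false

/-!
# PLN: linear algebra for the cross product (fields of characteristic zero)
-/

namespace Pool.Agent.PLN

open Module Matrix

section forms

variable {K : Type} [Field K] [CharZero K] {V : Type} [AddCommGroup V] [Module K V]

/-- an identity between cubic forms extends from an affine hyperplane. -/
theorem ext_cubic (l1 l2 m f : V →ₗ[K] K) (B1 B2 B : V →ₗ[K] V →ₗ[K] K) {u : V} (hu : f u = 1)
    (h : ∀ v, f v = 1 → l1 v * B2 v v - l2 v * B1 v v = B v v * m v) (v : V) :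
    l1 v * B2 v v - l2 v * B1 v v = B v v * m v := by
  have h1 : ∀ v, f v ≠ 0 → l1 v * B2 v v - l2 v * B1 v v = B v v * m v := by
    intro v hv
    have h2 := h ((f v)⁻¹ • v) (by rw [map_smul, smul_eq_mul, inv_mul_cancel₀ hv])
    simp only [map_smul, LinearMap.smul_apply, smul_eq_mul] at h2
    have h3 : (f v)⁻¹ ≠ 0 := inv_ne_zero hv
    have h4 : (f v)⁻¹ ^ 3 * (l1 v * B2 v v - l2 v * B1 v v - B v v * m v) = 0 := by
      linear_combination h2
    rcases mul_eq_zero.1 h4 with h5 | h5
    · exact absurd h5 (pow_ne_zero _ h3)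
    · exact sub_eq_zero.1 h5
  by_cases hv : f v = 0
  · have hτ : ∀ τ : K, τ ≠ 0 → f (v + τ • u) ≠ 0 := by
      intro τ hτ
      rw [map_add, map_smul, hv, hu, smul_eq_mul, mul_one, zero_add]
      exact hτ
    have e1 := h1 _ (hτ 1 one_ne_zero)
    have e2 := h1 _ (hτ (-1) (neg_ne_zero.2 one_ne_zero))
    have e3 := h1 _ (hτ 2 two_ne_zero)
    have e4 := h1 _ (hτ (-2) (neg_ne_zero.2 two_ne_zero))
    simp only [map_add, map_smul, LinearMap.add_apply, LinearMap.smul_apply,
      smul_eq_mul] at e1 e2 e3 e4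
    have h6 : (6 : K) * (l1 v * B2 v v - l2 v * B1 v v - B v v * m v) = 0 := by
      linear_combination 4 * (e1 + e2) - (e3 + e4)
    rcases mul_eq_zero.1 h6 with h7 | h7
    · exact absurd h7 (by norm_num)
    · exact sub_eq_zero.1 h7
  · exact h1 v hv

/-- the main step: `λ₁ Q₂ - λ₂ Q₁ = Q m` with `Q` anisotropic. -/
theorem lin_step (l1 l2 m : V →ₗ[K] K) (B1 B2 B : V →ₗ[K] V →ₗ[K] K)
    (h1s : ∀ v w, B1 v w = B1 w v) (hs : ∀ v w, B v w = B w v)
    (hB : ∀ v, B v v = 0 → v = 0) (hl : LinearIndependent K ![l1, l2])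
    (h : ∀ v, l1 v * B2 v v - l2 v * B1 v v = B v v * m v) :
    ∃ (a b : K) (μ : V →ₗ[K] K), (∀ v, B1 v v + b * B v v = l1 v * μ v) ∧
      ∀ v, B2 v v - a * B v v = l2 v * μ v := by
  -- vectors dual to `l1`, `l2`
  have hl' : ∀ s t : K, (∀ v, s * l1 v + t * l2 v = 0) → s = 0 ∧ t = 0 := by
    intro s t hst
    refine LinearIndependent.pair_iff.1 hl s t ?_
    ext v
    exact hst v
  have hker : ∀ v, l1 v = 0 → l2 v = 0 → m v = 0 := by
    intro v h1 h2
    have h3 := h v
    rw [h1, h2, zero_mul, zero_mul, sub_zero] at h3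
    rcases mul_eq_zero.1 h3.symm with h4 | h4
    · rw [hB v h4, map_zero]
    · exact h4
  obtain ⟨a, b, hab⟩ : ∃ a b : K, ∀ v, m v = a * l1 v + b * l2 v := by
    have h3 : m ∈ Submodule.span K (Set.range ![l1, l2]) := by
      refine mem_span_of_iInf_ker_le_ker fun v hv => ?_
      rw [Submodule.mem_iInf] at hv
      exact hker v (hv 0) (hv 1)
    obtain ⟨c, hc⟩ := (Submodule.mem_span_range_iff_exists_fun K).1 h3
    refine ⟨c 0, c 1, fun v => ?_⟩
    rw [← hc, Fin.sum_univ_two]
    rfl
  -- a vector with `l1 = 1`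
  obtain ⟨u, hu⟩ : ∃ u, l1 u = 1 := by
    by_contra hcon
    push Not at hcon
    have h3 := hl' 1 0 (fun v => by
      rw [one_mul, zero_mul, add_zero]
      by_contra hv
      exact hcon ((l1 v)⁻¹ • v) (by rw [map_smul, smul_eq_mul, inv_mul_cancel₀ hv]))
    exact one_ne_zero h3.1
  -- a vector with `l1 = 0`, `l2 ≠ 0`
  obtain ⟨v0, hv0, hv0'⟩ : ∃ v, l1 v = 0 ∧ l2 v ≠ 0 := by
    by_contra hcon
    push Not at hcon
    have h3 := hl' (-(l2 u)) 1 (fun v => by
      have h4 := hcon (v - l1 v • u) (by rw [map_sub, map_smul, hu, smul_eq_mul, mul_one, sub_self])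
      rw [map_sub, map_smul, smul_eq_mul] at h4
      linear_combination h4)
    exact one_ne_zero h3.2
  have hP : ∀ v, l1 v * (B2 v v - a * B v v) = l2 v * (B1 v v + b * B v v) := by
    intro v
    have h3 := h v
    rw [hab] at h3
    linear_combination h3
  have hP1 : ∀ v, l1 v = 0 → l2 v ≠ 0 → B1 v v + b * B v v = 0 := by
    intro v h3 h4
    have h5 := hP v
    rw [h3, zero_mul] at h5
    exact (mul_eq_zero.1 h5.symm).resolve_left h4
  have hP2 : ∀ v, l1 v = 0 → B1 v v + b * B v v = 0 := by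
    intro v h3
    by_cases h4 : l2 v = 0
    · have e0 := hP1 v0 hv0 hv0'
      have e1 := hP1 (v + v0) (by rw [map_add, h3, hv0, add_zero]) (by
        rw [map_add, h4, zero_add]
        exact hv0')
      have e2 := hP1 (v - v0) (by rw [map_sub, h3, hv0, sub_zero]) (by
        rw [map_sub, h4, zero_sub]
        exact neg_ne_zero.2 hv0')
      simp only [map_add, map_sub, LinearMap.add_apply, LinearMap.sub_apply] at e1 e2
      have h5 : 2 * (B1 v v + b * B v v) = 0 := by linear_combination e1 + e2 - 2 * e0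
      simpa using h5
    · exact hP1 v h3 h4
  -- the linear form `μ`
  set μ : V →ₗ[K] K := (2 : K) • (B1 u + b • B u) - (B1 u u + b * B u u) • l1 with hμ
  have hμv : ∀ v, μ v = 2 * (B1 u v + b * B u v) - (B1 u u + b * B u u) * l1 v := by
    intro v
    rw [hμ]
    rfl
  have hQ1 : ∀ v, B1 v v + b * B v v = l1 v * μ v := by
    intro v
    have h3 := hP2 (v - l1 v • u) (by rw [map_sub, map_smul, hu, smul_eq_mul, mul_one, sub_self])
    simp only [map_sub, map_smul, LinearMap.sub_apply, LinearMap.smul_apply, smul_eq_mul] at h3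
    rw [hμv]
    have e1 := h1s v u
    have e2 := hs v u
    linear_combination h3 + l1 v * e1 + b * l1 v * e2
  refine ⟨a, b, μ, hQ1, ?_⟩
  have hE : ∀ v, l1 v ≠ 0 → B2 v v - a * B v v = l2 v * μ v := by
    intro v h3
    have h4 := hP v
    rw [hQ1] at h4
    have h5 : l1 v * (B2 v v - a * B v v - l2 v * μ v) = 0 := by linear_combination h4
    exact sub_eq_zero.1 ((mul_eq_zero.1 h5).resolve_left h3)
  intro v
  by_cases h3 : l1 v = 0
  · have e0 := hE u (by rw [hu]; exact one_ne_zero)
    have e1 := hE (v + u) (by rw [map_add, h3, hu, zero_add]; exact one_ne_zero)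
    have e2 := hE (v - u) (by rw [map_sub, h3, hu, zero_sub]; exact neg_ne_zero.2 one_ne_zero)
    simp only [map_add, map_sub, LinearMap.add_apply, LinearMap.sub_apply] at e1 e2
    have h5 : 2 * (B2 v v - a * B v v - l2 v * μ v) = 0 := by
      linear_combination e1 + e2 - 2 * e0
    exact sub_eq_zero.1 (by simpa using h5)
  · exact hE v h3

end forms

section ker

variable {K : Type} [Field K] {m n : Type} [Fintype m] [Fintype n]

/-- the kernel of the transpose of an injective matrix. -/
theorem finrank_ker_transpose (X : Matrix m n K) (hX : ∀ v, X *ᵥ v = 0 → v = 0) :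
    finrank K (LinearMap.ker Xᵀ.mulVecLin) + Fintype.card n = Fintype.card m := by
  have h1 := LinearMap.finrank_range_add_finrank_ker Xᵀ.mulVecLin
  have h2 : finrank K (LinearMap.range Xᵀ.mulVecLin) = Fintype.card n := by
    change Xᵀ.rank = _
    rw [Matrix.rank_transpose]
    have h3 := LinearMap.finrank_range_add_finrank_ker X.mulVecLin
    have h4 : LinearMap.ker X.mulVecLin = ⊥ := by
      rw [LinearMap.ker_eq_bot']
      exact hX
    rw [h4, finrank_bot, add_zero, finrank_fintype_fun_eq_card] at h3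
    exact h3
  rw [h2, finrank_fintype_fun_eq_card] at h1
  omega

/-- a symmetric form of dimension `m` with a totally isotropic subspace of dimension `n`,
`2 n ≥ m + 2`, has two independent kernel vectors. -/
theorem two_ker (B : Matrix m m K) (X : Matrix m n K) (hX : ∀ v, X *ᵥ v = 0 → v = 0)
    (h : Xᵀ * B * X = 0) (hmn : Fintype.card m + 2 ≤ 2 * Fintype.card n) :
    ∃ x y : m → K, B *ᵥ x = 0 ∧ B *ᵥ y = 0 ∧ LinearIndependent K ![x, y] := by
  have h1 := finrank_ker_transpose X hX
  have h2 : LinearMap.range (B * X).mulVecLin ≤ LinearMap.ker Xᵀ.mulVecLin := by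
    rintro _ ⟨v, rfl⟩
    rw [LinearMap.mem_ker, mulVecLin_apply, mulVecLin_apply, mulVec_mulVec, ← Matrix.mul_assoc, h,
      zero_mulVec]
  have h3 := Submodule.finrank_mono h2
  have h4 := LinearMap.finrank_range_add_finrank_ker (B * X).mulVecLin
  rw [finrank_fintype_fun_eq_card] at h4
  have h5 : 2 ≤ finrank K (LinearMap.ker (B * X).mulVecLin) := by omega
  obtain ⟨f, hf⟩ := exists_linearIndependent_of_le_finrank h5
  have hv : ∀ i, B *ᵥ (X *ᵥ (f i : n → K)) = 0 := by
    intro i
    rw [mulVec_mulVec]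
    exact LinearMap.mem_ker.1 (f i).2
  refine ⟨X *ᵥ (f 0 : n → K), X *ᵥ (f 1 : n → K), hv 0, hv 1, ?_⟩
  rw [LinearIndependent.pair_iff]
  intro s t hst
  have h6 : X *ᵥ (s • (f 0 : n → K) + t • (f 1 : n → K)) = 0 := by
    rw [mulVec_add, mulVec_smul, mulVec_smul]
    exact hst
  have h7 := hX _ h6
  have h8 : ![f 0, f 1] = f := by
    funext i
    fin_cases i <;> rfl
  rw [← h8] at hf
  refine LinearIndependent.pair_iff.1 hf s t ?_
  apply Subtype.ext
  exact h7

end ker

end Pool.Agent.PLN
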