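import Pool.Agent.PLN.Defs

set_option autoImplicit false

/-!
# PLN: singular points of the discriminant of a net of quadrics

`sing_one`: if `N(s')` has two independent vectors in its kernel, all partial derivatives of
`det (net N)` vanish at `s'`.  `sing_two`: the same if `N(s') x = 0`, `x ≠ 0` and
`x^T N_k x = 0` for all `k`.  `null_smooth`: a smooth plane curve has no singular point over
a field containing the complex numbers (Nullstellensatz).
-/

namespace Pool.Agent.PLN

open MvPolynomial Matrix

section line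

variable {K : Type} [Field K] [Algebra ℂ K]

private noncomputable def ln (a t : Fin 3 → K) : S3 →ₐ[ℂ] Polynomial K :=
  aeval fun i => Polynomial.C (a i) + Polynomial.C (t i) * Polynomial.X

private theorem ln_eval (f : S3) (a t : Fin 3 → K) : Polynomial.eval 0 (ln a t f) = aeval a f := by
  have h : (Polynomial.evalRingHom (0 : K)).comp (ln a t : S3 →+* Polynomial K) =
      ((aeval a : S3 →ₐ[ℂ] K) : S3 →+* K) := by
    refine MvPolynomial.ringHom_ext (fun r => ?_) fun i => ?_
    · rw [RingHom.comp_apply, RingHom.coe_coe, RingHom.coe_coe, ← algebraMap_eq, AlgHom.commutes,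
        AlgHom.commutes, Polynomial.algebraMap_apply, Polynomial.coe_evalRingHom,
        Polynomial.eval_C]
    · rw [RingHom.comp_apply, RingHom.coe_coe, RingHom.coe_coe]
      unfold ln
      rw [aeval_X, aeval_X]
      simp
  exact RingHom.congr_fun h f

/-- the derivative along a line. -/
private theorem line_deriv (f : S3) (a t : Fin 3 → K) :
    Polynomial.eval 0 (Polynomial.derivative (ln a t f)) = ∑ k, t k * aeval a (pderiv k f) := by
  induction f using MvPolynomial.induction_on with
  | C r =>
    rw [← algebraMap_eq, AlgHom.commutes, Polynomial.algebraMap_apply, Polynomial.derivative_C,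
      Polynomial.eval_zero]
    symm
    refine Finset.sum_eq_zero fun k _ => ?_
    rw [algebraMap_eq, pderiv_C, map_zero, mul_zero]
  | add p q hp hq =>
    rw [map_add, map_add, Polynomial.eval_add, hp, hq, ← Finset.sum_add_distrib]
    refine Finset.sum_congr rfl fun k _ => ?_
    rw [map_add, map_add, mul_add]
  | mul_X p i hp =>
    rw [map_mul, Polynomial.derivative_mul, Polynomial.eval_add, Polynomial.eval_mul,
      Polynomial.eval_mul, hp, ln_eval, ln_eval, aeval_X]
    have h1 : Polynomial.eval 0 (Polynomial.derivative (ln a t (X i))) = t i := by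
      unfold ln
      rw [aeval_X]
      simp
    rw [h1, Finset.sum_mul]
    have h2 : ∀ k, t k * aeval a (pderiv k (p * X i)) =
        t k * aeval a (pderiv k p) * a i + if k = i then t k * aeval a p else 0 := by
      intro k
      rw [pderiv_mul, map_add, map_mul, map_mul, aeval_X, pderiv_X]
      by_cases hk : k = i
      · rw [if_pos hk, hk, Pi.single_eq_same, map_one]
        ring
      · rw [if_neg hk, Pi.single_eq_of_ne (Ne.symm hk), map_zero]
        ring
    rw [Finset.sum_congr rfl fun k _ => h2 k, Finset.sum_add_distrib, Finset.sum_ite_eq',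
      if_pos (Finset.mem_univ i)]
    ring

end line

section pen

variable {K : Type} [Field K] {n : Type} [Fintype n]

private noncomputable def pen (B D : Matrix n n K) : Matrix n n (Polynomial K) :=
  fun i j => Polynomial.C (B i j) + Polynomial.C (D i j) * Polynomial.X

private theorem row_comb (B D : Matrix n n K) {x : n → K} (hx : x ᵥ* B = 0) :
    ∑ k, Polynomial.C (x k) • pen B D k = (Polynomial.X : Polynomial K) •
      (fun j => Polynomial.C ((x ᵥ* D) j)) := by
  funext j
  rw [Finset.sum_apply, Pi.smul_apply]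
  have h1 : ∑ k, x k * B k j = 0 := congrFun hx j
  have h2 : (x ᵥ* D) j = ∑ k, x k * D k j := rfl
  simp only [Pi.smul_apply, smul_eq_mul, pen, mul_add]
  rw [Finset.sum_add_distrib, h2, map_sum, Finset.mul_sum]
  have h3 : ∑ k, Polynomial.C (x k) * Polynomial.C (B k j) = (0 : Polynomial K) := by
    simp only [← Polynomial.C_mul]
    rw [← map_sum, h1, map_zero]
  rw [h3, zero_add]
  refine Finset.sum_congr rfl fun k _ => ?_
  rw [Polynomial.C_mul]
  ring

variable [DecidableEq n]

omit [Fintype n] [DecidableEq n] in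
private theorem coeff_one_of {P : Polynomial K} {c : K} (hc : c ≠ 0) {R : Polynomial K}
    (h : Polynomial.C c * P = Polynomial.X ^ 2 * R) :
    Polynomial.eval 0 (Polynomial.derivative P) = 0 := by
  have h1 := congrArg (fun q => Polynomial.eval 0 (Polynomial.derivative q)) h
  simp only [Polynomial.derivative_mul, Polynomial.derivative_C, zero_mul, zero_add,
    Polynomial.eval_mul, Polynomial.eval_C, Polynomial.eval_add, Polynomial.derivative_X_pow,
    Polynomial.eval_pow, Polynomial.eval_X] at h1
  have h2 : c * Polynomial.eval 0 (Polynomial.derivative P) = 0 := by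
    rw [h1]
    simp
  exact (mul_eq_zero.1 h2).resolve_left hc

private theorem pen_one (B D : Matrix n n K) {x y : n → K} (hx : x ᵥ* B = 0) (hy : y ᵥ* B = 0)
    {a b : n} (hxa : x a ≠ 0) (hya : y a = 0) (hyb : y b ≠ 0) :
    Polynomial.eval 0 (Polynomial.derivative (pen B D).det) = 0 := by
  have e1 := det_updateRow_sum (pen B D) a fun k => Polynomial.C (x k)
  rw [row_comb B D hx, det_updateRow_smul] at e1
  set P' := (pen B D).updateRow a fun j => Polynomial.C ((x ᵥ* D) j) with hP'
  have e2 := det_updateRow_sum P' b fun k => Polynomial.C (y k)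
  have e3 : ∑ k, Polynomial.C (y k) • P' k = ∑ k, Polynomial.C (y k) • pen B D k := by
    refine Finset.sum_congr rfl fun k _ => ?_
    by_cases hk : k = a
    · rw [hk, hya, map_zero, zero_smul, zero_smul]
    · rw [hP', updateRow_ne hk]
  rw [e3, row_comb B D hy, det_updateRow_smul] at e2
  refine coeff_one_of (mul_ne_zero hxa hyb)
    (R := (P'.updateRow b fun j => Polynomial.C ((y ᵥ* D) j)).det) ?_
  rw [smul_eq_mul] at e1 e2
  rw [Polynomial.C_mul]
  linear_combination (-Polynomial.C (y b)) * e1 - Polynomial.X * e2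

private theorem pen_two (B D : Matrix n n K) {x : n → K} (hx : x ᵥ* B = 0) (hx' : B *ᵥ x = 0)
    (hD : x ⬝ᵥ (D *ᵥ x) = 0) {a : n} (hxa : x a ≠ 0) :
    Polynomial.eval 0 (Polynomial.derivative (pen B D).det) = 0 := by
  have e1 := det_updateRow_sum (pen B D) a fun k => Polynomial.C (x k)
  rw [row_comb B D hx, det_updateRow_smul] at e1
  set P' := (pen B D).updateRow a fun j => Polynomial.C ((x ᵥ* D) j) with hP'
  have e2 := det_updateCol_sum P' a fun k => Polynomial.C (x k)
  have e3 : (fun k => ∑ i, Polynomial.C (x i) • P' k i) = (Polynomial.X : Polynomial K) •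
      (fun k => if k = a then 0 else Polynomial.C ((D *ᵥ x) k)) := by
    funext k
    rw [Pi.smul_apply, smul_eq_mul]
    by_cases hk : k = a
    · rw [if_pos hk, mul_zero, hk, hP', updateRow_self]
      simp only [smul_eq_mul, ← Polynomial.C_mul]
      rw [← map_sum]
      have h1 : ∑ i, x i * (x ᵥ* D) i = 0 := by
        have h2 : (x ᵥ* D) ⬝ᵥ x = 0 := by rw [← dotProduct_mulVec, hD]
        rw [← h2]
        exact Finset.sum_congr rfl fun i _ => mul_comm _ _
      rw [h1, map_zero]
    · rw [if_neg hk, hP', updateRow_ne hk]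
      simp only [smul_eq_mul, pen, mul_add]
      rw [Finset.sum_add_distrib]
      have h1 : ∑ i, B k i * x i = 0 := congrFun hx' k
      have h2 : (D *ᵥ x) k = ∑ i, D k i * x i := rfl
      have h3 : ∑ i, Polynomial.C (x i) * Polynomial.C (B k i) = (0 : Polynomial K) := by
        have h4 : ∑ i, x i * B k i = 0 := by
          rw [← h1]
          exact Finset.sum_congr rfl fun i _ => mul_comm _ _
        simp only [← Polynomial.C_mul]
        rw [← map_sum, h4, map_zero]
      rw [h3, zero_add, h2, map_sum, Finset.mul_sum]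
      refine Finset.sum_congr rfl fun i _ => ?_
      rw [Polynomial.C_mul]
      ring
  rw [e3, det_updateCol_smul] at e2
  refine coeff_one_of (mul_ne_zero hxa hxa)
    (R := (P'.updateCol a fun k => if k = a then 0 else Polynomial.C ((D *ᵥ x) k)).det) ?_
  rw [smul_eq_mul] at e1 e2
  rw [Polynomial.C_mul]
  linear_combination (-Polynomial.C (x a)) * e1 - Polynomial.X * e2

end pen

variable {K : Type} [Field K] [Algebra ℂ K] {n : Type} [Fintype n] [DecidableEq n]

/-- the member of the net with parameters `a` in a field. -/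
noncomputable def netAt (N : Fin 3 → Matrix n n ℂ) (a : Fin 3 → K) : Matrix n n K :=
  fun i j => ∑ k, algebraMap ℂ K (N k i j) * a k

omit [Fintype n] [DecidableEq n] in
theorem netAt_symm {N : Fin 3 → Matrix n n ℂ} (hN : ∀ k, (N k).IsSymm) (a : Fin 3 → K) :
    (netAt N a).IsSymm := by
  ext1 i j
  rw [transpose_apply]
  unfold netAt
  refine Finset.sum_congr rfl fun k _ => ?_
  rw [(hN k).apply]

private theorem ln_det (N : Fin 3 → Matrix n n ℂ) (a t : Fin 3 → K) :
    ln a t (net N).det = (pen (netAt N a) (netAt N t)).det := by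
  have h1 : ln a t (net N).det = ((net N).map (ln a t)).det := by
    rw [AlgHom.map_det]
    rfl
  rw [h1]
  congr 1
  ext1 i j
  rw [map_apply]
  unfold net pen netAt
  rw [map_sum, map_sum, map_sum, Finset.sum_mul, ← Finset.sum_add_distrib]
  refine Finset.sum_congr rfl fun k _ => ?_
  rw [map_mul]
  unfold ln
  rw [aeval_C, aeval_X, Polynomial.algebraMap_apply, Polynomial.C_mul, Polynomial.C_mul]
  ring

private theorem pderiv_of (N : Fin 3 → Matrix n n ℂ) (a : Fin 3 → K)
    (h : ∀ t : Fin 3 → K,
      Polynomial.eval 0 (Polynomial.derivative (pen (netAt N a) (netAt N t)).det) = 0) (k : Fin 3) :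
    aeval a (pderiv k (net N).det) = 0 := by
  have h1 := h (Pi.single k 1)
  rw [← ln_det, line_deriv, Finset.sum_eq_single k] at h1
  · rwa [Pi.single_eq_same, one_mul] at h1
  · intro j _ hj
    rw [Pi.single_eq_of_ne hj, zero_mul]
  · intro hk
    exact absurd (Finset.mem_univ k) hk

theorem sing_one {N : Fin 3 → Matrix n n ℂ} (hN : ∀ k, (N k).IsSymm) {a : Fin 3 → K} {x y : n → K}
    (hx : netAt N a *ᵥ x = 0) (hy : netAt N a *ᵥ y = 0) (hxy : LinearIndependent K ![x, y])
    (k : Fin 3) : aeval a (pderiv k (net N).det) = 0 := by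
  have hs : ∀ v : n → K, v ᵥ* netAt N a = netAt N a *ᵥ v := by
    intro v
    rw [← mulVec_transpose, (netAt_symm hN a).eq]
  have hx0 : x ≠ 0 := hxy.ne_zero 0
  obtain ⟨i, hi⟩ := Function.ne_iff.1 hx0
  set y' := y - (y i / x i) • x with hy'
  have hy'0 : y' ≠ 0 := by
    intro h
    have h2 := LinearIndependent.pair_iff.1 hxy (-(y i / x i)) 1 (by
      rw [one_smul, neg_smul, neg_add_eq_sub]
      exact h)
    exact one_ne_zero h2.2
  obtain ⟨j, hj⟩ := Function.ne_iff.1 hy'0
  refine pderiv_of N a (fun t => ?_) k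
  refine pen_one (netAt N a) (netAt N t) (x := x) (y := y') (a := i) (b := j) ?_ ?_ hi ?_ hj
  · rw [hs, hx]
  · rw [hs, hy', mulVec_sub, mulVec_smul, hx, hy, smul_zero, sub_zero]
  · rw [hy', Pi.sub_apply, Pi.smul_apply, smul_eq_mul, div_mul_cancel₀ _ hi, sub_self]

theorem sing_two {N : Fin 3 → Matrix n n ℂ} (hN : ∀ k, (N k).IsSymm) {a : Fin 3 → K} {x : n → K}
    (hx : netAt N a *ᵥ x = 0) (hx0 : x ≠ 0)
    (hb : ∀ k, x ⬝ᵥ ((N k).map (algebraMap ℂ K) *ᵥ x) = 0)
    (k : Fin 3) : aeval a (pderiv k (net N).det) = 0 := by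
  have hs : ∀ v : n → K, v ᵥ* netAt N a = netAt N a *ᵥ v := by
    intro v
    rw [← mulVec_transpose, (netAt_symm hN a).eq]
  obtain ⟨i, hi⟩ := Function.ne_iff.1 hx0
  refine pderiv_of N a (fun t => ?_) k
  refine pen_two (netAt N a) (netAt N t) (x := x) (a := i) ?_ hx ?_ hi
  · rw [hs, hx]
  · have h1 : netAt N t = ∑ k, t k • (N k).map (algebraMap ℂ K) := by
      ext1 i j
      rw [Matrix.sum_apply]
      unfold netAt
      refine Finset.sum_congr rfl fun k _ => ?_
      rw [Matrix.smul_apply, map_apply, smul_eq_mul, mul_comm]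
    rw [h1, sum_mulVec, dotProduct_sum]
    refine Finset.sum_eq_zero fun k _ => ?_
    rw [smul_mulVec, dotProduct_smul, hb, smul_zero]

/-- a smooth plane curve has no singular points over larger fields. -/
theorem null_smooth {d : S3} (hd : SmoothCurve d) {a : Fin 3 → K} (h0 : aeval a d = 0)
    (h1 : ∀ k, aeval a (pderiv k d) = 0) : a = 0 := by
  set I : Ideal S3 := Ideal.span ({d} ∪ Set.range fun k => pderiv k d) with hI
  have hz : zeroLocus ℂ I ⊆ {0} := by
    intro v hv
    rw [Set.mem_singleton_iff]
    by_contra hv0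
    have e0 : eval v d = 0 := by
      have := hv d (Ideal.subset_span (Or.inl rfl))
      rwa [aeval_eq_eval] at this
    obtain ⟨k, hk⟩ := hd v hv0 e0
    apply hk
    have := hv (pderiv k d) (Ideal.subset_span (Or.inr ⟨k, rfl⟩))
    rwa [aeval_eq_eval] at this
  have hker : ∀ f ∈ I, aeval a f = 0 := by
    intro f hf
    have h2 : I ≤ RingHom.ker (aeval a : S3 →ₐ[ℂ] K) := by
      rw [hI, Ideal.span_le]
      rintro f (hf | ⟨k, rfl⟩)
      · rw [Set.mem_singleton_iff.1 hf]
        exact h0
      · exact h1 k
    exact h2 hf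
  funext i
  have h2 : (X i : S3) ∈ I.radical := by
    rw [← MvPolynomial.vanishingIdeal_zeroLocus_eq_radical (k := ℂ) (K := ℂ)]
    intro v hv
    have h3 := hz hv
    rw [Set.mem_singleton_iff] at h3
    rw [h3]
    simp
  obtain ⟨m, hm⟩ := h2
  have h3 := hker _ hm
  rw [map_pow, aeval_X] at h3
  exact eq_zero_of_pow_eq_zero h3

end Pool.Agent.PLN
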