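import Pool.Agent.PLN.CrossA
import Pool.Agent.PLN.NetLin
import Pool.Agent.PLN.Sing
import Pool.Agent.PLN.DetHom

set_option autoImplicit false

/-!
# PLN: the cross product of the net at the generic point is not zero
-/

namespace Pool.Agent.PLN

open MvPolynomial Matrix Module

section forms

variable {R R' : Type} [CommRing R] [CommRing R'] {n : Type} [Fintype n]

/-- the linear form `p^T N w`. -/
def lf (φ : ℂ →+* R) (p : n → ℂ) (N : Matrix n n ℂ) (w : n → R) : R :=
  ∑ i, ∑ j, φ (p i) * φ (N i j) * w j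

/-- the quadratic form `w^T N w`. -/
def qf (φ : ℂ →+* R) (N : Matrix n n ℂ) (w : n → R) : R :=
  ∑ i, ∑ j, φ (N i j) * w i * w j

theorem lf_map (f : R →+* R') (φ : ℂ →+* R) (p : n → ℂ) (N : Matrix n n ℂ) (w : n → R) :
    f (lf φ p N w) = lf (f.comp φ) p N fun j => f (w j) := by
  unfold lf
  rw [map_sum]
  refine Finset.sum_congr rfl fun i _ => ?_
  rw [map_sum]
  refine Finset.sum_congr rfl fun j _ => ?_
  rw [map_mul, map_mul]
  rfl

theorem qf_map (f : R →+* R') (φ : ℂ →+* R) (N : Matrix n n ℂ) (w : n → R) :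
    f (qf φ N w) = qf (f.comp φ) N fun j => f (w j) := by
  unfold qf
  rw [map_sum]
  refine Finset.sum_congr rfl fun i _ => ?_
  rw [map_sum]
  refine Finset.sum_congr rfl fun j _ => ?_
  rw [map_mul, map_mul]
  rfl

theorem lf_smul (φ : ℂ →+* R) (p : n → ℂ) (N : Matrix n n ℂ) (w : n → R) (c : R) :
    lf φ p N (fun j => c * w j) = c * lf φ p N w := by
  unfold lf
  rw [Finset.mul_sum]
  refine Finset.sum_congr rfl fun i _ => ?_
  rw [Finset.mul_sum]
  refine Finset.sum_congr rfl fun j _ => ?_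
  ring

theorem qf_smul (φ : ℂ →+* R) (N : Matrix n n ℂ) (w : n → R) (c : R) :
    qf φ N (fun j => c * w j) = c ^ 2 * qf φ N w := by
  unfold qf
  rw [Finset.mul_sum]
  refine Finset.sum_congr rfl fun i _ => ?_
  rw [Finset.mul_sum]
  refine Finset.sum_congr rfl fun j _ => ?_
  ring

theorem lf_eq (φ : ℂ →+* R) (p : n → ℂ) (N : Matrix n n ℂ) (w : n → R) :
    lf φ p N w = (fun i => φ (p i)) ⬝ᵥ (N.map φ *ᵥ w) := by
  unfold lf
  simp only [dotProduct, mulVec, Finset.mul_sum, Matrix.map_apply, mul_assoc]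

theorem qf_eq (φ : ℂ →+* R) (N : Matrix n n ℂ) (w : n → R) :
    qf φ N w = w ⬝ᵥ (N.map φ *ᵥ w) := by
  unfold qf
  simp only [dotProduct, mulVec, Finset.mul_sum, Matrix.map_apply]
  refine Finset.sum_congr rfl fun i _ => Finset.sum_congr rfl fun j _ => ?_
  ring

end forms

/-- the vector `A z` in the function field. -/
noncomputable def wL {L : Type} [Field L] (σ : K0 →+* L) (x : Fin 6 → L) (A : Matrix (Fin 6) (Fin 4) K0) :
    Fin 6 → L := fun j => ∑ a, σ (A j a) * zz x a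

/-- a vanishing cross product gives an identity of cubic forms. -/
theorem cross_id {M : Matrix (Fin 4) (Fin 4) S3} {L : Type} [Field L] [Algebra ℂ L]
    {x : Fin 6 → L} {σ : K0 →+* L} (h : Model M L x σ)
    (hani : ∀ v : Fin 4 → K0, v ⬝ᵥ (M.map affK *ᵥ v) = 0 → v = 0)
    (N : Fin 3 → Matrix (Fin 6) (Fin 6) ℂ) (p : Fin 6 → ℂ) (A : Matrix (Fin 6) (Fin 4) K0)
    (h0 : lf (algebraMap ℂ L) p (N 1) (wL σ x A) * qf (algebraMap ℂ L) (N 2) (wL σ x A) -
      lf (algebraMap ℂ L) p (N 2) (wL σ x A) * qf (algebraMap ℂ L) (N 1) (wL σ x A) = 0) :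
    ∃ μ : Fin 4 → K0, ∀ v : Fin 4 → K0, v 3 = 1 →
      lf cK p (N 1) (A *ᵥ v) * qf cK (N 2) (A *ᵥ v) -
        lf cK p (N 2) (A *ᵥ v) * qf cK (N 1) (A *ᵥ v) =
      v ⬝ᵥ (M.map affK *ᵥ v) * ∑ a, μ a * v a := by
  obtain ⟨w, m, g, hw, hg, hwg⟩ := den_K0 fun ja : Fin 6 × Fin 4 => A ja.1 ja.2
  set W : Fin 6 → S6 := fun j => ∑ a, up (X 0 ^ wt a * g (j, a)) * zc a with hW
  have hX0 : affK (X 0) = 1 := by
    change algebraMap R0 K0 (aff (X 0)) = 1
    rw [aff_X0, map_one]
  have hWx : ∀ j, aeval x (W j) = σ w * wL σ x A j := by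
    intro j
    rw [hW]
    unfold wL
    rw [map_sum, Finset.mul_sum]
    refine Finset.sum_congr rfl fun a _ => ?_
    have h3 : aeval x (zc a) = zz x a := by
      unfold zc zz
      fin_cases a
      · simp
      · simp
      · simp
      · simp
    rw [map_mul, h3, ← affK_aeval h, map_mul, map_pow, hX0, one_pow, one_mul, hwg, map_mul,
      mul_assoc]
  have hWk : ∀ j, kap (W j) = C w * Lp (A j) := by
    intro j
    rw [hW]
    unfold Lp
    rw [map_sum, Finset.mul_sum]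
    refine Finset.sum_congr rfl fun a _ => ?_
    rw [map_mul, kap_up, kap_zc, map_mul, map_pow, hX0, one_pow, one_mul, hwg, map_mul,
      mul_assoc]
  have hWh : ∀ j, (W j).IsHomogeneous (m + 1) := by
    intro j
    refine IsHomogeneous.sum _ _ _ fun i _ => ?_
    have h2 : (X 0 ^ wt i * g (j, i)).IsHomogeneous (wt i + m) :=
      (isHomogeneous_X_pow _ _).mul (hg (j, i))
    have h3 : (up (X 0 ^ wt i * g (j, i))).IsHomogeneous (wt i + m) := h2.rename_isHomogeneous
    have h4 : (zc i).IsHomogeneous (1 - wt i) := by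
      fin_cases i
      · exact isHomogeneous_X _ _
      · exact isHomogeneous_X _ _
      · exact isHomogeneous_X _ _
      · exact isHomogeneous_one _ _
    have h5 : wt i + m + (1 - wt i) = m + 1 := by
      have h6 : wt i ≤ 1 := by fin_cases i <;> simp [wt]
      omega
    have h6 := h3.mul h4
    rwa [h5] at h6
  -- homogeneity
  have hlh : ∀ k, (lf C p (N k) W).IsHomogeneous (m + 1) := by
    intro k
    refine IsHomogeneous.sum _ _ _ fun i _ => IsHomogeneous.sum _ _ _ fun j _ => ?_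
    rw [← C_mul]
    exact (hWh j).C_mul _
  have hqh : ∀ k, (qf C (N k) W).IsHomogeneous (m + 1 + (m + 1)) := by
    intro k
    refine IsHomogeneous.sum _ _ _ fun i _ => IsHomogeneous.sum _ _ _ fun j _ => ?_
    rw [mul_assoc]
    exact ((hWh i).mul (hWh j)).C_mul _
  set G : S6 := lf C p (N 1) W * qf C (N 2) W - lf C p (N 2) W * qf C (N 1) W with hG
  have hGh : G.IsHomogeneous (m + 1 + (m + 1 + (m + 1))) :=
    ((hlh 1).mul (hqh 2)).sub ((hlh 2).mul (hqh 1))
  -- value at the generic point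
  have hxl : ∀ k, aeval x (lf C p (N k) W) = σ w * lf (algebraMap ℂ L) p (N k) (wL σ x A) := by
    intro k
    have h1 := lf_map (aeval x : S6 →ₐ[ℂ] L).toRingHom C p (N k) W
    rw [← lf_smul]
    refine h1.trans ?_
    have h2 : (aeval x : S6 →ₐ[ℂ] L).toRingHom.comp C = algebraMap ℂ L := by
      ext1 a
      exact (aeval x : S6 →ₐ[ℂ] L).commutes a
    rw [h2]
    congr 1
    funext j
    exact hWx j
  have hxq : ∀ k, aeval x (qf C (N k) W) = σ w ^ 2 * qf (algebraMap ℂ L) (N k) (wL σ x A) := by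
    intro k
    have h1 := qf_map (aeval x : S6 →ₐ[ℂ] L).toRingHom C (N k) W
    rw [← qf_smul]
    refine h1.trans ?_
    have h2 : (aeval x : S6 →ₐ[ℂ] L).toRingHom.comp C = algebraMap ℂ L := by
      ext1 a
      exact (aeval x : S6 →ₐ[ℂ] L).commutes a
    rw [h2]
    congr 1
    funext j
    exact hWx j
  have hG0 : aeval x G = 0 := by
    rw [hG, map_sub, map_mul, map_mul, hxl, hxl, hxq, hxq]
    linear_combination σ w ^ 3 * h0
  -- values after base change
  have hkl : ∀ k, kap (lf C p (N k) W) = C w * lf (C.comp cK) p (N k) fun j => Lp (A j) := by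
    intro k
    rw [lf_map, ← lf_smul]
    have h2 : kap.comp C = (C : K0 →+* P3).comp cK := by
      ext1 a
      exact kap_C a
    rw [h2]
    congr 1
    funext j
    exact hWk j
  have hkq : ∀ k, kap (qf C (N k) W) = C w ^ 2 * qf (C.comp cK) (N k) fun j => Lp (A j) := by
    intro k
    rw [qf_map, ← qf_smul]
    have h2 : kap.comp C = (C : K0 →+* P3).comp cK := by
      ext1 a
      exact kap_C a
    rw [h2]
    congr 1
    funext j
    exact hWk j
  have hdl : ∀ k, (kap (lf C p (N k) W)).totalDegree ≤ 1 := by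
    intro k
    rw [hkl]
    refine deg_C_mul _ (deg_sum _ _ fun i _ => deg_sum _ _ fun j _ => ?_)
    rw [RingHom.comp_apply, RingHom.comp_apply, ← C_mul]
    exact deg_C_mul _ (deg_Lp _)
  have hdq : ∀ k, (kap (qf C (N k) W)).totalDegree ≤ 2 := by
    intro k
    rw [hkq, ← C_pow]
    refine deg_C_mul _ (deg_sum _ _ fun i _ => deg_sum _ _ fun j _ => ?_)
    rw [RingHom.comp_apply, mul_assoc]
    exact deg_C_mul _ (deg_mul (deg_Lp _) (deg_Lp _) le_rfl)
  have hdeg : (kap G).totalDegree ≤ 3 := by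
    rw [hG, map_sub, map_mul, map_mul]
    refine (totalDegree_sub _ _).trans (max_le ?_ ?_)
    · exact deg_mul (hdl 1) (hdq 2) le_rfl
    · exact deg_mul (hdl 2) (hdq 1) le_rfl
  obtain ⟨μ, hμ⟩ := div3 h hani hGh hG0 hdeg
  refine ⟨fun a => (w ^ 3)⁻¹ * μ a, fun v hv => ?_⟩
  have h1 := congrArg (eval ![v 0, v 1, v 2]) hμ
  rw [map_mul, eval_kap_cubic M v hv, eval_Lp μ v hv, hG, map_sub, map_sub, map_mul, map_mul,
    map_mul, map_mul, hkl, hkl, hkq, hkq] at h1
  have h2 : (eval ![v 0, v 1, v 2]).comp ((C : K0 →+* P3).comp cK) = cK := by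
    ext1 a
    exact eval_C _
  have h3 : (fun j => eval ![v 0, v 1, v 2] (Lp (A j))) = A *ᵥ v := by
    funext j
    exact eval_Lp (A j) v hv
  simp only [map_mul, map_pow, eval_C, lf_map, qf_map, h2, h3] at h1
  have h4 : ∑ a, (w ^ 3)⁻¹ * μ a * v a = (w ^ 3)⁻¹ * ∑ a, μ a * v a := by
    rw [Finset.mul_sum]
    exact Finset.sum_congr rfl fun a _ => by ring
  rw [h4]
  have h5 : w ^ 3 ≠ 0 := pow_ne_zero _ hw
  have h6 : (w ^ 3)⁻¹ * w ^ 3 = 1 := inv_mul_cancel₀ h5
  linear_combination (w ^ 3)⁻¹ * h1 -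
    (lf cK p (N 1) (A *ᵥ v) * qf cK (N 2) (A *ᵥ v) -
        lf cK p (N 2) (A *ᵥ v) * qf cK (N 1) (A *ᵥ v)) * h6

end Pool.Agent.PLN
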