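import Pool.Agent.PLN.CrossB

set_option autoImplicit false

/-!
# PLN: the cross product of the net at the generic point is not zero
-/

namespace Pool.Agent.PLN

open MvPolynomial Matrix Module

/-- a constant vector over `ℂ(s, t)`. -/
noncomputable def pK {n : Type} (p : n → ℂ) : n → K0 := fun i => affK (C (p i))

/-- the complex numbers in `ℂ(s, t)`. -/
noncomputable local instance algCK : Algebra ℂ K0 := cK.toAlgebra

private theorem symm_zero {K : Type} [Field K] [CharZero K] {n : Type} [Fintype n] [DecidableEq n]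
    {S : Matrix n n K} (hS : S.IsSymm) (h : ∀ v, v ⬝ᵥ (S *ᵥ v) = 0) : S = 0 := by
  have hsymm : ∀ v w : n → K, v ⬝ᵥ (S *ᵥ w) = w ⬝ᵥ (S *ᵥ v) := by
    intro v w
    rw [dotProduct_mulVec, ← mulVec_transpose, hS.eq, dotProduct_comm]
  ext1 i j
  have h1 := h (Pi.single i 1 + Pi.single j 1)
  rw [mulVec_add, dotProduct_add, add_dotProduct, add_dotProduct, h, h,
    hsymm (Pi.single j 1) (Pi.single i 1)] at h1
  have h2 : 2 * ((Pi.single i 1 : n → K) ⬝ᵥ (S *ᵥ Pi.single j 1)) = 0 := by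
    linear_combination h1
  have h3 : (Pi.single i 1 : n → K) ⬝ᵥ (S *ᵥ Pi.single j 1) = S i j := by
    rw [single_one_dotProduct, mulVec_single_one]
    rfl
  rw [h3] at h2
  simpa using h2

theorem aeval_det {K : Type} [Field K] [Algebra ℂ K] {n : Type} [Fintype n] [DecidableEq n]
    (N : Fin 3 → Matrix n n ℂ) (a : Fin 3 → K) : aeval a (net N).det = (netAt N a).det := by
  rw [AlgHom.map_det]
  congr 1
  ext1 i j
  change aeval a (net N i j) = _
  unfold net netAt
  rw [map_sum]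
  refine Finset.sum_congr rfl fun k _ => ?_
  rw [map_mul, aeval_C, aeval_X]

private def dl {K : Type} [Field K] {n : Type} [Fintype n] (r : n → K) : (n → K) →ₗ[K] K :=
  ∑ a, r a • LinearMap.proj a

private theorem dl_apply {K : Type} [Field K] {n : Type} [Fintype n] (r v : n → K) :
    dl r v = r ⬝ᵥ v := by
  unfold dl
  rw [LinearMap.sum_apply]
  rfl

private theorem netAt_comb {K : Type} [Field K] [Algebra ℂ K] {n : Type}
    (N : Fin 3 → Matrix n n ℂ) (a b : Fin 3 → K) (t : K) :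
    netAt N (a + t • b) = netAt N a + t • netAt N b := by
  ext1 i j
  rw [Matrix.add_apply, Matrix.smul_apply]
  unfold netAt
  rw [smul_eq_mul, Finset.mul_sum, ← Finset.sum_add_distrib]
  refine Finset.sum_congr rfl fun k _ => ?_
  rw [Pi.add_apply, Pi.smul_apply, smul_eq_mul]
  ring

/-- no singular members of the discriminant over `ℂ(s, t)`. -/
private theorem no_sing {M : Matrix (Fin 4) (Fin 4) S3} (hS : SmoothCurve M.det)
    {N : Fin 3 → Matrix (Fin 6) (Fin 6) ℂ} {c : ℂ} {p : Fin 6 → ℂ} (hN : NetData M N c p)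
    {a : Fin 3 → K0} {x : Fin 6 → K0} (hx : netAt N a *ᵥ x = 0) (hx0 : x ≠ 0)
    (h : ∀ k, aeval a (pderiv k (net N).det) = 0) : a = 0 := by
  have hc : cK c ≠ 0 := by
    intro h1
    exact hN.c_ne (cK.injective (by rw [h1, map_zero]))
  refine null_smooth hS ?_ fun k => ?_
  · have h1 : (netAt N a).det = 0 := exists_mulVec_eq_zero_iff.1 ⟨x, hx0, hx⟩
    rw [← aeval_det, hN.det, map_mul, aeval_C] at h1
    exact (mul_eq_zero.1 h1).resolve_left hc
  · have h1 := h k
    rw [hN.det, pderiv_C_mul, ← smul_eq_C_mul, map_smul] at h1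
    exact (smul_eq_zero.1 h1).resolve_left hN.c_ne

theorem cross_ne {M : Matrix (Fin 4) (Fin 4) S3} (hM : IsCub M) (hS : SmoothCurve M.det)
    (hi : Irreducible M.det) {L : Type} [Field L] [Algebra ℂ L] {x : Fin 6 → L}
    {σ : K0 →+* L} (h : Model M L x σ) {N : Fin 3 → Matrix (Fin 6) (Fin 6) ℂ} {c : ℂ}
    {p : Fin 6 → ℂ} (hN : NetData M N c p) {γ : K0} (hγ : γ ≠ 0) (A : Matrix (Fin 6) (Fin 4) K0)
    (hA : Aᵀ * (net N).map affK * A = γ • M.map affK)
    (hp : ∀ w, pK p ⬝ᵥ ((net N).map affK *ᵥ (A *ᵥ w)) = 0)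
    (hani : ∀ v : Fin 4 → K0, v ⬝ᵥ (M.map affK *ᵥ v) = 0 → v = 0) :
    lf (algebraMap ℂ L) p (N 1) (wL σ x A) * qf (algebraMap ℂ L) (N 2) (wL σ x A) -
      lf (algebraMap ℂ L) p (N 2) (wL σ x A) * qf (algebraMap ℂ L) (N 1) (wL σ x A) ≠ 0 := by
  intro h0
  obtain ⟨μ, hμ⟩ := cross_id h hani N p A h0
  -- parameters
  set s : Fin 3 → K0 := fun k => affK (X k) with hs
  have hs0 : s 0 = 1 := by
    change algebraMap R0 K0 (aff (X 0)) = 1
    rw [aff_X0, map_one]
  have hNs : (net N).map affK = netAt N s := by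
    ext1 i j
    rw [map_apply]
    unfold net netAt
    rw [map_sum]
    refine Finset.sum_congr rfl fun k _ => ?_
    rw [map_mul]
    rfl
  rw [hNs] at hA hp
  set pp : Fin 6 → K0 := pK p with hpp
  have hNk : ∀ k, (netAt N (Pi.single k (1 : K0)) : Matrix (Fin 6) (Fin 6) K0) =
      (N k).map cK := by
    intro k
    ext1 i j
    rw [map_apply]
    unfold netAt
    rw [Finset.sum_eq_single k]
    · rw [Pi.single_eq_same, mul_one]
      rfl
    · intro l _ hl
      rw [Pi.single_eq_of_ne hl, mul_zero]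
    · intro hk
      exact absurd (Finset.mem_univ k) hk
  set e1 : Fin 3 → K0 := Pi.single 1 1 with he1
  set e2 : Fin 3 → K0 := Pi.single 2 1 with he2
  have hsym : ∀ a : Fin 3 → K0, (netAt N a).IsSymm := fun a => netAt_symm hN.symm a
  have hBs : ∀ (a : Fin 3 → K0) (v w : Fin 6 → K0),
      v ⬝ᵥ (netAt N a *ᵥ w) = w ⬝ᵥ (netAt N a *ᵥ v) := by
    intro a v w
    rw [dotProduct_mulVec, ← mulVec_transpose, (hsym a).eq, dotProduct_comm]
  have hpp0 : pp ≠ 0 := by
    intro h1
    apply hN.p_ne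
    funext i
    have h2 := congrFun h1 i
    exact cK.injective (h2.trans (map_zero cK).symm)
  have hpb : ∀ k, pp ⬝ᵥ ((N k).map cK *ᵥ pp) = 0 := by
    intro k
    have h1 := congrArg cK (hN.base k)
    rw [map_zero] at h1
    rw [← h1]
    simp only [dotProduct, mulVec, map_sum, map_mul, Matrix.map_apply]
    rfl
  have hsum : ∀ a : Fin 3 → K0, netAt N a = ∑ k, a k • (N k).map cK := by
    intro a
    ext1 i j
    rw [Matrix.sum_apply]
    unfold netAt
    refine Finset.sum_congr rfl fun k _ => ?_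
    rw [Matrix.smul_apply, map_apply, smul_eq_mul, mul_comm]
    rfl
  have hpa : ∀ a : Fin 3 → K0, pp ⬝ᵥ (netAt N a *ᵥ pp) = 0 := by
    intro a
    rw [hsum, sum_mulVec, dotProduct_sum]
    refine Finset.sum_eq_zero fun k _ => ?_
    rw [smul_mulVec, dotProduct_smul, hpb, smul_zero]
  have hAv : ∀ v, (A *ᵥ v) ⬝ᵥ (netAt N s *ᵥ (A *ᵥ v)) = γ * (v ⬝ᵥ (M.map affK *ᵥ v)) := by
    intro v
    have h1 : (A *ᵥ v) ⬝ᵥ (netAt N s *ᵥ (A *ᵥ v)) = v ⬝ᵥ ((Aᵀ * netAt N s * A) *ᵥ v) := by
      rw [← mulVec_mulVec, ← mulVec_mulVec, dotProduct_mulVec v Aᵀ, vecMul_transpose]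
    rw [h1, hA, smul_mulVec, dotProduct_smul, smul_eq_mul]
  have hpA : ∀ v, pp ⬝ᵥ (netAt N s *ᵥ (A *ᵥ v)) = 0 := hp
  -- `A v = t p` only for `v = 0`
  have hinj : ∀ (v : Fin 4 → K0) (t : K0), A *ᵥ v = t • pp → v = 0 := by
    intro v t hv
    refine hani v ?_
    have h1 := hAv v
    rw [hv, smul_dotProduct, mulVec_smul, dotProduct_smul, hpa, smul_zero, smul_zero] at h1
    exact (mul_eq_zero.1 h1.symm).resolve_left hγ
  -- the forms
  set l1 : (Fin 4 → K0) →ₗ[K0] K0 := dl ((pp ᵥ* netAt N e1) ᵥ* A) with hl1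
  set l2 : (Fin 4 → K0) →ₗ[K0] K0 := dl ((pp ᵥ* netAt N e2) ᵥ* A) with hl2
  have hl1v : ∀ v, l1 v = pp ⬝ᵥ (netAt N e1 *ᵥ (A *ᵥ v)) := by
    intro v
    rw [hl1, dl_apply, ← dotProduct_mulVec, ← dotProduct_mulVec]
  have hl2v : ∀ v, l2 v = pp ⬝ᵥ (netAt N e2 *ᵥ (A *ᵥ v)) := by
    intro v
    rw [hl2, dl_apply, ← dotProduct_mulVec, ← dotProduct_mulVec]
  have hBv : ∀ (a : Fin 3 → K0) (v w : Fin 4 → K0), Matrix.toBilin' (Aᵀ * netAt N a * A) v w =
      (A *ᵥ v) ⬝ᵥ (netAt N a *ᵥ (A *ᵥ w)) := by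
    intro a v w
    rw [Matrix.toBilin'_apply', ← mulVec_mulVec, ← mulVec_mulVec, dotProduct_mulVec v Aᵀ,
      vecMul_transpose]
  have hid : ∀ v, l1 v * Matrix.toBilin' (Aᵀ * netAt N e2 * A) v v -
      l2 v * Matrix.toBilin' (Aᵀ * netAt N e1 * A) v v =
      Matrix.toBilin' (M.map affK) v v * dl μ v := by
    refine fun v => ext_cubic l1 l2 (dl μ) (LinearMap.proj 3) _ _ _ (u := Pi.single 3 1) ?_
      (fun v hv => ?_) v
    · rw [LinearMap.proj_apply, Pi.single_eq_same]
    · have h1 := hμ v hv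
      rw [lf_eq, lf_eq, qf_eq, qf_eq, ← hNk, ← hNk] at h1
      rw [hl1v, hl2v, hBv, hBv, Matrix.toBilin'_apply', dl_apply]
      exact h1
  by_cases hl : LinearIndependent K0 ![l1, l2]
  · -- two independent linear forms: a member of the net of corank two
    obtain ⟨a, b, ν, hν, -⟩ := lin_step l1 l2 (dl μ) (Matrix.toBilin' (Aᵀ * netAt N e1 * A))
      (Matrix.toBilin' (Aᵀ * netAt N e2 * A)) (Matrix.toBilin' (M.map affK))
      (fun v w => by rw [hBv, hBv, hBs]) (fun v w => by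
        rw [Matrix.toBilin'_apply', Matrix.toBilin'_apply', dotProduct_mulVec,
          ← mulVec_transpose]
        have h1 : (M.map affK)ᵀ = M.map affK := by
          ext1 i j
          rw [transpose_apply, map_apply, map_apply, hM.symm.apply]
        rw [h1, dotProduct_comm])
      (fun v hv => hani v (by rwa [Matrix.toBilin'_apply'] at hv)) hl hid
    set a' : Fin 3 → K0 := e1 + (b * γ⁻¹) • s with ha'
    set X' : Matrix (Fin 6) (Fin 4) K0 := A - Matrix.vecMulVec pp
      (fun j => ν (Pi.single j 1) / 2) with hX'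
    have hX'v : ∀ v, X' *ᵥ v = A *ᵥ v - (ν v / 2) • pp := by
      intro v
      rw [hX', sub_mulVec, vecMulVec_mulVec]
      congr 1
      have h1 : (fun j => ν (Pi.single j 1) / 2) ⬝ᵥ v = ν v / 2 := by
        have h2 : ν v = ∑ j, v j * ν (Pi.single j 1) := by
          conv_lhs => rw [pi_eq_sum_univ' v]
          rw [map_sum]
          refine Finset.sum_congr rfl fun j _ => ?_
          rw [map_smul, smul_eq_mul]
        rw [h2, dotProduct, Finset.sum_div]
        refine Finset.sum_congr rfl fun j _ => ?_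
        ring
      rw [h1]
      funext i
      simp [div_eq_mul_inv, mul_comm]
    have hX'i : ∀ v, X' *ᵥ v = 0 → v = 0 := by
      intro v hv
      rw [hX'v, sub_eq_zero] at hv
      exact hinj v _ hv
    have hNa' : netAt N a' = netAt N e1 + (b * γ⁻¹) • netAt N s := netAt_comb N e1 s _
    have hiso : X'ᵀ * netAt N a' * X' = 0 := by
      refine symm_zero ?_ fun v => ?_
      · rw [Matrix.IsSymm, transpose_mul, transpose_mul, transpose_transpose, (hsym a').eq,
          Matrix.mul_assoc]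
      · have h1 : v ⬝ᵥ ((X'ᵀ * netAt N a' * X') *ᵥ v) =
            (X' *ᵥ v) ⬝ᵥ (netAt N a' *ᵥ (X' *ᵥ v)) := by
          rw [← mulVec_mulVec, ← mulVec_mulVec, dotProduct_mulVec v X'ᵀ, vecMul_transpose]
        have h2 := hν v
        rw [hBv, Matrix.toBilin'_apply', hl1v] at h2
        have h3 : pp ⬝ᵥ (netAt N a' *ᵥ (A *ᵥ v)) = pp ⬝ᵥ (netAt N e1 *ᵥ (A *ᵥ v)) := by
          rw [hNa', add_mulVec, smul_mulVec, dotProduct_add, dotProduct_smul, hpA, smul_zero,
            add_zero]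
        have h4 : (A *ᵥ v) ⬝ᵥ (netAt N a' *ᵥ (A *ᵥ v)) =
            (A *ᵥ v) ⬝ᵥ (netAt N e1 *ᵥ (A *ᵥ v)) + b * (v ⬝ᵥ (M.map affK *ᵥ v)) := by
          rw [hNa', add_mulVec, smul_mulVec, dotProduct_add, dotProduct_smul, hAv, smul_eq_mul]
          field_simp
        have h5 : (A *ᵥ v) ⬝ᵥ (netAt N a' *ᵥ pp) = pp ⬝ᵥ (netAt N a' *ᵥ (A *ᵥ v)) := hBs _ _ _
        rw [h1, hX'v, mulVec_sub, mulVec_smul, dotProduct_sub, sub_dotProduct, sub_dotProduct,
          smul_dotProduct, smul_dotProduct, dotProduct_smul, dotProduct_smul, hpa, h5, h3, h4,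
          h2]
        simp only [smul_eq_mul, mul_zero, sub_zero]
        ring
    obtain ⟨y, z, hy, hz, hyz⟩ := two_ker (netAt N a') X' hX'i hiso (by
      rw [Fintype.card_fin, Fintype.card_fin])
    have h1 := no_sing hS hN hy (hyz.ne_zero 0) (fun k => sing_one hN.symm hy hz hyz k)
    have h2 := congrFun h1 0
    have h3 := congrFun h1 1
    rw [ha', Pi.add_apply, Pi.smul_apply, hs0, smul_eq_mul, mul_one, he1, Pi.zero_apply,
      Pi.single_eq_of_ne (by decide), zero_add] at h2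
    rw [ha', h2, zero_smul, add_zero, he1, Pi.single_eq_same] at h3
    exact one_ne_zero h3
  · -- dependent linear forms: `p` is a vertex
    rw [LinearIndependent.pair_iff] at hl
    push Not at hl
    obtain ⟨α, β, hαβ, hne⟩ := hl
    set a1 : Fin 3 → K0 := (0 + α • e1) + β • e2 with ha1
    have hN0 : netAt N (0 : Fin 3 → K0) = 0 := by
      ext1 i j
      unfold netAt
      rw [Matrix.zero_apply]
      exact Finset.sum_eq_zero fun k _ => by rw [Pi.zero_apply, mul_zero]
    have hNa1 : netAt N a1 = α • netAt N e1 + β • netAt N e2 := by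
      rw [ha1, netAt_comb, netAt_comb, hN0, zero_add]
    have hya : ∀ v, (netAt N a1 *ᵥ pp) ⬝ᵥ (A *ᵥ v) = 0 := by
      intro v
      rw [dotProduct_comm, hBs, hNa1, add_mulVec, smul_mulVec, smul_mulVec, dotProduct_add,
        dotProduct_smul, dotProduct_smul, ← hl1v, ← hl2v]
      exact LinearMap.congr_fun hαβ v
    have hyb : ∀ v, (netAt N s *ᵥ pp) ⬝ᵥ (A *ᵥ v) = 0 := by
      intro v
      rw [dotProduct_comm, hBs, hpA]
    set A' : Matrix (Fin 6) (Fin 4 ⊕ Unit) K0 := Matrix.fromCols A (Matrix.replicateCol Unit pp)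
      with hA'
    have hA'i : ∀ v, A' *ᵥ v = 0 → v = 0 := by
      intro v hv
      rw [hA', fromCols_mulVec] at hv
      have h1 : (Matrix.replicateCol Unit pp) *ᵥ (v ∘ Sum.inr) = (v (Sum.inr ())) • pp := by
        funext i
        simp [mulVec, dotProduct, mul_comm]
      rw [h1] at hv
      have h2 : A *ᵥ (v ∘ Sum.inl) = (-(v (Sum.inr ()))) • pp := by
        rw [neg_smul]
        exact eq_neg_of_add_eq_zero_left hv
      have h3 := hinj _ _ h2
      rw [h3, mulVec_zero, zero_add] at hv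
      have h4 : v (Sum.inr ()) = 0 := (smul_eq_zero.1 hv).resolve_right hpp0
      funext i
      rcases i with i | i
      · exact congrFun h3 i
      · exact h4
    have hker := finrank_ker_transpose A' hA'i
    have hmem : ∀ z : Fin 6 → K0, (∀ v, z ⬝ᵥ (A *ᵥ v) = 0) → pp ⬝ᵥ z = 0 →
        z ∈ LinearMap.ker A'ᵀ.mulVecLin := by
      intro z h1 h2
      rw [LinearMap.mem_ker, mulVecLin_apply]
      funext i
      rcases i with i | i
      · have h3 := h1 (Pi.single i 1)
        rw [mulVec_single_one, dotProduct_comm] at h3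
        exact h3
      · exact h2
    have hy0 : netAt N s *ᵥ pp ≠ 0 := by
      intro h1
      have h2 : (netAt N s).det = 0 := exists_mulVec_eq_zero_iff.1 ⟨pp, hpp0, h1⟩
      rw [← aeval_det, hN.det, map_mul, aeval_C] at h2
      rcases mul_eq_zero.1 h2 with h3 | h3
      · exact hN.c_ne (cK.injective (h3.trans (map_zero cK).symm))
      · have h4 : ((aeval s : S3 →ₐ[ℂ] K0) : S3 →+* K0) = affK := by
          refine MvPolynomial.ringHom_ext (fun r => ?_) fun i => ?_
          · rw [RingHom.coe_coe, aeval_C]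
            rfl
          · rw [RingHom.coe_coe, aeval_X]
        have h5 : affK M.det = 0 := by
          rw [← h4]
          exact h3
        exact hi.ne_zero (affK_inj (det_cub hM) h5)
    have hm1 := hmem _ hya (hpa a1)
    have hm0 := hmem _ hyb (hpa s)
    have hf1 : finrank K0 (LinearMap.ker A'ᵀ.mulVecLin) = 1 := by
      rw [Fintype.card_sum, Fintype.card_fin, Fintype.card_fin, Fintype.card_unit] at hker
      omega
    have h0' : (⟨netAt N s *ᵥ pp, hm0⟩ : LinearMap.ker A'ᵀ.mulVecLin) ≠ 0 := by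
      intro h1
      exact hy0 (congrArg Subtype.val h1)
    obtain ⟨κ, hκ⟩ := (finrank_eq_one_iff_of_nonzero' _ h0').1 hf1 ⟨netAt N a1 *ᵥ pp, hm1⟩
    have hκ' : κ • (netAt N s *ᵥ pp) = netAt N a1 *ᵥ pp := congrArg Subtype.val hκ
    set a2 : Fin 3 → K0 := a1 + (-κ) • s with ha2
    have hx : netAt N a2 *ᵥ pp = 0 := by
      rw [ha2, netAt_comb, add_mulVec, smul_mulVec, ← hκ', neg_smul, add_neg_cancel]
    have h1 := no_sing hS hN hx hpp0 (fun k => sing_two hN.symm hx hpp0 hpb k)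
    have g0 := congrFun h1 0
    have g1 := congrFun h1 1
    have g2 := congrFun h1 2
    simp only [ha2, ha1, he1, he2, Pi.add_apply, Pi.smul_apply, Pi.zero_apply, smul_eq_mul,
      hs0] at g0 g1 g2
    simp at g0 g1 g2
    rw [g0] at g1 g2
    simp at g1 g2
    exact hne g1 g2

end Pool.Agent.PLN
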