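import Pool.Agent.PLN.Den

/-!
# PLN: the affine chart: denominators

(Injectivity of `aff` on forms is `aff_inj` in `Den.lean`.)

`clear`: for every `a : R0` there are homogeneous `A, q` with `aff A = aff q * a` and `aff q` a
unit of `R0`.
PROOF.  As `den_R0` in `Den.lean`: `q = X 0 ^ m * h` with
`aff h = (Polynomial.C b).map (algebraMap ..) = C (algebraMap b)`, `b ≠ 0`, a unit of `F0[t]`.
-/

set_option autoImplicit false

namespace Pool.Agent.PLN

open MvPolynomial

theorem clear (a : R0) : ∃ (A q : S3) (m n : ℕ), A.IsHomogeneous m ∧ q.IsHomogeneous n ∧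
    IsUnit (aff q) ∧ aff A = aff q * a := by
  obtain ⟨b, hbm, hb⟩ := IsLocalization.integerNormalization_spec
    (nonZeroDivisors (Polynomial ℂ)) (S := F0) a
  obtain ⟨m, g, hg, hg'⟩ := aff_surj
    (IsLocalization.integerNormalization (nonZeroDivisors (Polynomial ℂ)) a)
  obtain ⟨n, h, hh, hh'⟩ := aff_surj (Polynomial.C b)
  have hX : ∀ k : ℕ, ((X 0 : S3) ^ k).IsHomogeneous k := isHomogeneous_X_pow _
  refine ⟨X 0 ^ n * g, X 0 ^ m * h, n + m, m + n, (hX n).mul hg, (hX m).mul hh, ?_, ?_⟩
  · rw [map_mul, map_pow, aff_X0, one_pow, one_mul, hh', Polynomial.map_C, Polynomial.isUnit_C,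
      isUnit_iff_ne_zero]
    intro h
    have h1 : b = 0 := (IsFractionRing.injective (Polynomial ℂ) F0) (by rw [h, map_zero])
    exact nonZeroDivisors.ne_zero hbm h1
  · rw [map_mul, map_pow, aff_X0, one_pow, one_mul, map_mul, map_pow, aff_X0, one_pow, one_mul,
      hg', hh', hb, Polynomial.map_C, ← Polynomial.smul_eq_C_mul, algebraMap_smul]

end Pool.Agent.PLN
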