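import Pool.Agent.PLN.PrimCol

/-!
# PLN: enlarging a lattice at a prime

`R` is a principal ideal domain, `Φ` a symmetric matrix over `R` (the Gram matrix of the lattice `R ^ ι`),
`π` a prime, `x` a vector which is not divisible by `π`, `Φ x` is divisible by `π` and `x^T Φ x` by
`π ^ 2`.  Then the lattice `R ^ ι + R (x / π)` is integral.

`glue`: there are a matrix `W` with `det W = u π`, `u` a unit, and a symmetric `Φ'` with
`Φ = W^T Φ' W`.
PROOF.  `x = g x'` with `x'` primitive (`exists_content`), `π` does not divide `g` (otherwise it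
divides `x`); so `Φ x'` is divisible by `π` and `x'^T Φ x'` by `π ^ 2` (`π` is prime, so
`π ^ 2 ∣ g ^ 2 * a` implies `π ^ 2 ∣ a`, `Prime.pow_dvd_of_dvd_mul_left` or
`IsCoprime`).  Let `U` be invertible with column `i0` equal to `x'` (`exists_gl`; `ι` is nonempty because
`x ≠ 0`).  `U^T Φ U` has all entries in row and column `i0` divisible by `π`, and the entry `(i0, i0)`
divisible by `π ^ 2`: it is `Δ Φ' Δ` with `Δ = diagonal (π at i0, 1 elsewhere)` and `Φ'` symmetric over
`R`.  `W = Δ U⁻¹` (`det U` is a unit).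
-/

set_option autoImplicit false

namespace Pool.Agent.PLN

open Matrix

variable {R : Type} [CommRing R] [IsDomain R] [IsPrincipalIdealRing R]
  {ι : Type} [Fintype ι] [DecidableEq ι]

theorem glue {Φ : Matrix ι ι R} (hs : Φ.IsSymm) {π : R} (hπ : Prime π) {x : ι → R}
    (hx : ¬ ∀ i, π ∣ x i) (h1 : ∀ i, π ∣ (Φ *ᵥ x) i) (h2 : π ^ 2 ∣ x ⬝ᵥ (Φ *ᵥ x)) :
    ∃ (W Φ' : Matrix ι ι R) (u : R), Φ'.IsSymm ∧ IsUnit u ∧ W.det = u * π ∧
      Φ = Wᵀ * Φ' * W := by
  obtain ⟨i0, hi0⟩ := not_forall.1 hx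
  have hx0 : x ≠ 0 := by
    rintro rfl
    exact hi0 (dvd_zero _)
  obtain ⟨g, y, hxy, -, hw⟩ := exists_content hx0
  have hg : ¬ π ∣ g := by
    intro h
    apply hi0
    rw [hxy, Pi.smul_apply, smul_eq_mul]
    exact h.mul_right _
  have hy1 : ∀ i, π ∣ (Φ *ᵥ y) i := by
    intro i
    have h := h1 i
    rw [hxy, mulVec_smul, Pi.smul_apply, smul_eq_mul] at h
    exact (hπ.dvd_or_dvd h).resolve_left hg
  have hy2 : π ^ 2 ∣ y ⬝ᵥ (Φ *ᵥ y) := by
    have h := h2
    rw [hxy, mulVec_smul, smul_dotProduct, dotProduct_smul, smul_eq_mul, smul_eq_mul] at h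
    exact hπ.pow_dvd_of_dvd_mul_left 2 hg (hπ.pow_dvd_of_dvd_mul_left 2 hg h)
  obtain ⟨U, hU, hUi⟩ := exists_gl hw i0
  obtain ⟨A, hA⟩ : ∃ A, A = Uᵀ * Φ * U := ⟨_, rfl⟩
  have hAs : A.IsSymm := by
    unfold Matrix.IsSymm at hs ⊢
    rw [hA, transpose_mul, transpose_mul, transpose_transpose, hs, Matrix.mul_assoc]
  have hAi : ∀ j, A j i0 = ∑ k, U k j * (Φ *ᵥ y) k := by
    intro j
    rw [hA, Matrix.mul_assoc, Matrix.mul_apply]
    refine Finset.sum_congr rfl fun k _ => ?_
    rw [transpose_apply, Matrix.mul_apply]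
    congr 1
    unfold mulVec dotProduct
    exact Finset.sum_congr rfl fun l _ => by rw [hUi]
  have hAd : ∀ j, π ∣ A j i0 := by
    intro j
    rw [hAi]
    exact Finset.dvd_sum fun k _ => (hy1 k).mul_left _
  have hAdd : π ^ 2 ∣ A i0 i0 := by
    rw [hAi]
    have h : ∑ k, U k i0 * (Φ *ᵥ y) k = y ⬝ᵥ (Φ *ᵥ y) := by
      unfold dotProduct
      exact Finset.sum_congr rfl fun k _ => by rw [hUi]
    rw [h]
    exact hy2
  choose b hb using hAd
  obtain ⟨c, hc⟩ := hAdd
  obtain ⟨Φ', hΦ'⟩ : ∃ Φ' : Matrix ι ι R, ∀ j k, Φ' j k =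
      if j = i0 then (if k = i0 then c else b k) else (if k = i0 then b j else A j k) :=
    ⟨Matrix.of fun j k =>
      if j = i0 then (if k = i0 then c else b k) else (if k = i0 then b j else A j k),
      fun _ _ => rfl⟩
  obtain ⟨D, hD⟩ : ∃ D : ι → R, D = fun i => if i = i0 then π else 1 := ⟨_, rfl⟩
  have hD0 : D i0 = π := by rw [hD]; exact if_pos rfl
  have hD1 : ∀ i, i ≠ i0 → D i = 1 := by
    intro i hi
    rw [hD]
    exact if_neg hi
  have hDA : diagonal D * Φ' * diagonal D = A := by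
    ext j k
    rw [mul_diagonal, diagonal_mul, hΦ']
    by_cases hj : j = i0
    · by_cases hk : k = i0
      · rw [if_pos hj, if_pos hk, hj, hk, hD0, hc]
        ring
      · rw [if_pos hj, if_neg hk, hj, hD0, hD1 k hk, mul_one, ← hb k]
        exact hAs.apply i0 k
    · by_cases hk : k = i0
      · rw [if_neg hj, if_pos hk, hk, hD0, hD1 j hj, one_mul, hb j]
        ring
      · rw [if_neg hj, if_neg hk, hD1 j hj, hD1 k hk, one_mul, mul_one]
  have hΦs : Φ'.IsSymm := by
    have hsym : ∀ j k, Φ' j k = Φ' k j := by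
      intro j k
      have e1 := hΦ' j k
      have e2 := hΦ' k j
      by_cases hj : j = i0
      · by_cases hk : k = i0
        · rw [hj, hk]
        · rw [if_pos hj, if_neg hk] at e1
          rw [if_neg hk, if_pos hj] at e2
          rw [e1, e2]
      · by_cases hk : k = i0
        · rw [if_neg hj, if_pos hk] at e1
          rw [if_pos hk, if_neg hj] at e2
          rw [e1, e2]
        · rw [if_neg hj, if_neg hk] at e1
          rw [if_neg hk, if_neg hj] at e2
          rw [e1, e2]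
          exact hAs.apply k j
    exact Matrix.IsSymm.ext fun j k => hsym k j
  have hdet : (diagonal D).det = π := by
    rw [det_diagonal, ← Finset.mul_prod_erase Finset.univ D (Finset.mem_univ i0), hD0,
      Finset.prod_eq_one, mul_one]
    intro i hi
    exact hD1 i (Finset.ne_of_mem_erase hi)
  have hUU : U * U⁻¹ = 1 := mul_nonsing_inv U hU
  have hUd : IsUnit (U⁻¹).det := by
    have h : U.det * (U⁻¹).det = 1 := by rw [← det_mul, hUU, det_one]
    exact IsUnit.of_mul_eq_one_right _ h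
  refine ⟨diagonal D * U⁻¹, Φ', (U⁻¹).det, hΦs, hUd, ?_, ?_⟩
  · rw [det_mul, hdet, mul_comm]
  · have e1 : (U⁻¹)ᵀ * Uᵀ = 1 := by
      rw [← transpose_mul, hUU, transpose_one]
    calc Φ = ((U⁻¹)ᵀ * Uᵀ) * Φ * (U * U⁻¹) := by
          rw [e1, hUU, Matrix.one_mul, Matrix.mul_one]
      _ = (U⁻¹)ᵀ * (Uᵀ * Φ * U) * U⁻¹ := by
          simp only [Matrix.mul_assoc]
      _ = (U⁻¹)ᵀ * (diagonal D * Φ' * diagonal D) * U⁻¹ := by rw [hDA, hA]
      _ = (diagonal D * U⁻¹)ᵀ * Φ' * (diagonal D * U⁻¹) := by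
          rw [transpose_mul, diagonal_transpose]
          simp only [Matrix.mul_assoc]

end Pool.Agent.PLN
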