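import Pool.Agent.PLN.Ruled

/-!
# PLN: the elementary transformation of `M` along a ruled surface

`ruled_gram`: there are `W, V, M'` over `R` with `M'` symmetric, `γ M = W^T M' W`, `V W = γ`,
`det M' = u det M` with a unit `u`.
PROOF.  `exists_gl2` gives `U, a, c, d`; `x1 = U e_0`, `x2 = U e_1`.
`a² x1^T M x1 = u1^T M u1` is divisible by the prime `γ`, so `x1^T M x1` is divisible by `γ`; in the
same way `a d x1^T M x2 = u1^T M u2 - c a x1^T M x1` and
`d² x2^T M x2 = u2^T M u2 - 2 c d x1^T M x2 - c² x1^T M x1`: all divisible by `γ`.  So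
`G = U^T M U` (symmetric) has an upper left 2x2 block divisible by `γ`.  Let `e = ![0, 0, 1, 1]`,
`Δ = diagonal ![γ, γ, 1, 1]`, and let `M' i j` be `G i j / γ` for `i, j < 2`, `γ * G i j` for
`i, j ≥ 2`, `G i j` otherwise: `γ • G = Δ M' Δ` and `M'` is symmetric.
`W = Δ U⁻¹`, `V = U diagonal ![1, 1, γ, γ]`.  `det (γ M) = γ^4 det M = (det W)² det M'` and
`det W = γ² u'` with a unit `u'`, so `det M' = u det M` (cancel `γ^4 ≠ 0`).
(If `Matrix.inv` is awkward: `U` has the two sided inverse `U⁻¹` because `IsUnit U.det`.)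
-/

set_option autoImplicit false

namespace Pool.Agent.PLN

open Matrix

variable {R : Type} [CommRing R] [IsDomain R] [IsPrincipalIdealRing R]

omit [IsDomain R] [IsPrincipalIdealRing R] in
private theorem RuledGram_entry (M U : Matrix (Fin 4) (Fin 4) R) (i j : Fin 4) :
    (Uᵀ * M * U) i j = (fun k => U k i) ⬝ᵥ (M *ᵥ (fun k => U k j)) := by
  rw [Matrix.mul_assoc, Matrix.mul_apply]
  rfl

omit [IsDomain R] [IsPrincipalIdealRing R] in
private theorem RuledGram_delta {γ : R} {G : Matrix (Fin 4) (Fin 4) R} (hG : G.IsSymm)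
    {k0 k1 k2 : R} (h0 : G 0 0 = γ * k0) (h1 : G 0 1 = γ * k1) (h2 : G 1 1 = γ * k2) :
    ∃ M' : Matrix (Fin 4) (Fin 4) R, M'.IsSymm ∧
      γ • G = diagonal ![γ, γ, 1, 1] * M' * diagonal ![γ, γ, 1, 1] := by
  have g10 : G 1 0 = G 0 1 := hG.apply 0 1
  have g20 : G 2 0 = G 0 2 := hG.apply 0 2
  have g30 : G 3 0 = G 0 3 := hG.apply 0 3
  have g21 : G 2 1 = G 1 2 := hG.apply 1 2
  have g31 : G 3 1 = G 1 3 := hG.apply 1 3
  have g32 : G 3 2 = G 2 3 := hG.apply 2 3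
  refine ⟨!![k0, k1, G 0 2, G 0 3; k1, k2, G 1 2, G 1 3; G 0 2, G 1 2, γ * G 2 2, γ * G 2 3;
    G 0 3, G 1 3, γ * G 2 3, γ * G 3 3], ?_, ?_⟩
  · ext i j
    fin_cases i <;> fin_cases j <;> rfl
  · ext i j
    rw [Matrix.mul_diagonal, Matrix.diagonal_mul, Matrix.smul_apply, smul_eq_mul]
    fin_cases i <;> fin_cases j <;> simp [h0, h1, h2, g10, g20, g30, g21, g31, g32] <;> ring

theorem ruled_gram {M : Matrix (Fin 4) (Fin 4) R} (hM : M.IsSymm) {γ : R} (hγ : Prime γ)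
    (hr : Ruled M γ) :
    ∃ (W V M' : Matrix (Fin 4) (Fin 4) R) (u : R), M'.IsSymm ∧ IsUnit u ∧ M'.det = u * M.det ∧
      γ • M = Wᵀ * M' * W ∧ V * W = γ • (1 : Matrix (Fin 4) (Fin 4) R) := by
  obtain ⟨u1, u2, hi, h11, h12, h22⟩ := hr
  obtain ⟨U, a, c, d, hU, ha, hd, e1, e2⟩ := exists_gl2 hγ hi
  have hG : (Uᵀ * M * U).IsSymm := by
    unfold Matrix.IsSymm
    rw [Matrix.transpose_mul, Matrix.transpose_mul, Matrix.transpose_transpose, hM.eq,
      Matrix.mul_assoc]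
  have E1 : u1 = a • (fun k => U k 0) := by
    funext i
    exact e1 i
  have E2 : u2 = c • (fun k => U k 0) + d • (fun k => U k 1) := by
    funext i
    exact e2 i
  have g10 : (Uᵀ * M * U) 1 0 = (Uᵀ * M * U) 0 1 := hG.apply 0 1
  have f11 : u1 ⬝ᵥ (M *ᵥ u1) = a * (a * (Uᵀ * M * U) 0 0) := by
    rw [RuledGram_entry, E1, Matrix.mulVec_smul, dotProduct_smul, smul_dotProduct]
    rfl
  have f12 : u1 ⬝ᵥ (M *ᵥ u2) = a * (c * (Uᵀ * M * U) 0 0 + d * (Uᵀ * M * U) 0 1) := by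
    rw [RuledGram_entry, RuledGram_entry, E1, E2, Matrix.mulVec_add, Matrix.mulVec_smul,
      Matrix.mulVec_smul, dotProduct_add, dotProduct_smul, smul_dotProduct,
      dotProduct_smul, smul_dotProduct]
    simp only [smul_eq_mul]
    ring
  have f22 : u2 ⬝ᵥ (M *ᵥ u2) = c * (c * (Uᵀ * M * U) 0 0 + 2 * (d * (Uᵀ * M * U) 0 1)) +
      d * (d * (Uᵀ * M * U) 1 1) := by
    have g10' := g10
    rw [RuledGram_entry, RuledGram_entry] at g10'
    rw [RuledGram_entry, RuledGram_entry, RuledGram_entry, E2, Matrix.mulVec_add,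
      Matrix.mulVec_smul, Matrix.mulVec_smul, dotProduct_add, dotProduct_smul, add_dotProduct,
      dotProduct_smul, add_dotProduct, smul_dotProduct, smul_dotProduct, smul_dotProduct,
      smul_dotProduct, g10']
    simp only [smul_eq_mul]
    ring
  have q0 : γ ∣ (Uᵀ * M * U) 0 0 := by
    rw [f11] at h11
    exact ((hγ.dvd_or_dvd h11).resolve_left ha |> hγ.dvd_or_dvd).resolve_left ha
  have q1 : γ ∣ (Uᵀ * M * U) 0 1 := by
    rw [f12] at h12
    have h3 := (hγ.dvd_or_dvd h12).resolve_left ha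
    have h4 : γ ∣ d * (Uᵀ * M * U) 0 1 := (dvd_add_right (q0.mul_left c)).mp h3
    exact (hγ.dvd_or_dvd h4).resolve_left hd
  have q2 : γ ∣ (Uᵀ * M * U) 1 1 := by
    rw [f22] at h22
    have h3 : γ ∣ c * (c * (Uᵀ * M * U) 0 0 + 2 * (d * (Uᵀ * M * U) 0 1)) :=
      (dvd_add (q0.mul_left c) ((q1.mul_left d).mul_left 2)).mul_left c
    have h4 := (dvd_add_right h3).mp h22
    exact ((hγ.dvd_or_dvd h4).resolve_left hd |> hγ.dvd_or_dvd).resolve_left hd
  obtain ⟨k0, hk0⟩ := q0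
  obtain ⟨k1, hk1⟩ := q1
  obtain ⟨k2, hk2⟩ := q2
  obtain ⟨M', hM', hΔ⟩ := RuledGram_delta hG hk0 hk1 hk2
  have i1 : U * U⁻¹ = 1 := Matrix.mul_nonsing_inv U hU
  have i2 : U⁻¹ * U = 1 := Matrix.nonsing_inv_mul U hU
  have i3 : (U⁻¹)ᵀ * Uᵀ = 1 := by
    rw [← Matrix.transpose_mul, i1, Matrix.transpose_one]
  refine ⟨diagonal ![γ, γ, 1, 1] * U⁻¹, U * diagonal ![1, 1, γ, γ], M', U.det ^ 2, hM',
    hU.pow 2, ?_, ?_, ?_⟩
  · have h1 := congrArg Matrix.det hΔ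
    rw [Matrix.det_smul, Matrix.det_mul, Matrix.det_mul, Matrix.det_mul, Matrix.det_mul,
      Matrix.det_transpose, Matrix.det_diagonal, Fin.prod_univ_four] at h1
    have h2 : γ ^ 4 * M'.det = γ ^ 4 * (U.det ^ 2 * M.det) := by
      have h3 : γ ^ Fintype.card (Fin 4) * (U.det * M.det * U.det) =
          γ * γ * 1 * 1 * M'.det * (γ * γ * 1 * 1) := h1
      rw [Fintype.card_fin] at h3
      linear_combination -h3
    exact mul_left_cancel₀ (pow_ne_zero 4 hγ.ne_zero) h2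
  · have h1 : (diagonal ![γ, γ, 1, 1] * U⁻¹)ᵀ * M' * (diagonal ![γ, γ, 1, 1] * U⁻¹) =
        (U⁻¹)ᵀ * (diagonal ![γ, γ, 1, 1] * M' * diagonal ![γ, γ, 1, 1]) * U⁻¹ := by
      rw [Matrix.transpose_mul, Matrix.diagonal_transpose]
      simp only [Matrix.mul_assoc]
    rw [h1, ← hΔ, Matrix.mul_smul, Matrix.smul_mul]
    congr 1
    calc M = ((U⁻¹)ᵀ * Uᵀ) * M * (U * U⁻¹) := by rw [i3, i1, Matrix.one_mul, Matrix.mul_one]
      _ = (U⁻¹)ᵀ * (Uᵀ * M * U) * U⁻¹ := by simp only [Matrix.mul_assoc]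
  · have h1 : (diagonal ![1, 1, γ, γ] : Matrix (Fin 4) (Fin 4) R) * diagonal ![γ, γ, 1, 1] =
        γ • (1 : Matrix (Fin 4) (Fin 4) R) := by
      rw [Matrix.diagonal_mul_diagonal, Matrix.smul_one_eq_diagonal]
      congr 1
      funext i
      fin_cases i <;> simp
    calc U * diagonal ![1, 1, γ, γ] * (diagonal ![γ, γ, 1, 1] * U⁻¹)
        = U * (diagonal ![1, 1, γ, γ] * diagonal ![γ, γ, 1, 1]) * U⁻¹ := by
          simp only [Matrix.mul_assoc]
      _ = γ • 1 := by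
          rw [h1, Matrix.mul_smul, Matrix.smul_mul, Matrix.mul_one, i1]

end Pool.Agent.PLN
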