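import Pool.Agent.PLN.GlueStep
import Pool.Agent.PLN.RuledGram

/-!
# PLN: the unimodular lattice in `N ⊥ (- γ M)`

`R` is a principal ideal domain, `N` (any size) and `M` (size 4) are symmetric, `δ = det M` is prime,
`det N = ε δ` with a unit `ε`.  `γ` is a unit, or a prime which does not divide `δ`, such that `M` has
a totally isotropic plane modulo `γ` (`Ruled`).  Square condition at `δ`:
`δ ∣ a² ε γ adj(M)_jj adj(N)_ii - g²`, `δ ∤ a`, `δ ∤ γ adj(M)_jj adj(N)_ii`.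

`glue_all`: then `Φ = fromBlocks N 0 0 (- γ M) = W^T Ψ W` with `Ψ` symmetric and `det Ψ` a unit,
`det W ≠ 0`.
PROOF.  There are `W0, V0, M'` and a unit `u` with `M'` symmetric, `γ M = W0^T M' W0`,
`V0 W0 = γ`, `det M' = u δ` (`ruled_gram`; if `γ` is a unit take `W0 = 1`, `V0 = γ • 1`, `M' = γ • M`,
`u = γ^4`).  `ratio` gives `h`, `glue_step` gives `fromBlocks N 0 0 (- M') = W1^T Ψ W1`, and
`W = W1 * fromBlocks 1 0 0 W0` (`det W0 ≠ 0` because `V0 W0 = γ • 1`, `γ ≠ 0`).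
-/

set_option autoImplicit false

namespace Pool.Agent.PLN

open Matrix

variable {R : Type} [CommRing R] [IsDomain R] [IsPrincipalIdealRing R]
  {ι : Type} [Fintype ι] [DecidableEq ι]

theorem glue_all {N : Matrix ι ι R} {M : Matrix (Fin 4) (Fin 4) R} (hN : N.IsSymm)
    (hM : M.IsSymm) (hδ : Prime M.det) {ε : R} (hε : IsUnit ε) (hd : N.det = ε * M.det) {γ : R}
    (hγ : IsUnit γ ∨ (Prime γ ∧ ¬ γ ∣ M.det ∧ Ruled M γ)) (i : ι) (j : Fin 4) (a g : R)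
    (ha : ¬ M.det ∣ a) (hne : ¬ M.det ∣ γ * M.adjugate j j * N.adjugate i i)
    (hsq : M.det ∣ a ^ 2 * (ε * (γ * M.adjugate j j * N.adjugate i i)) - g ^ 2) :
    ∃ W Ψ : Matrix (ι ⊕ Fin 4) (ι ⊕ Fin 4) R, Ψ.IsSymm ∧ IsUnit Ψ.det ∧ W.det ≠ 0 ∧
      fromBlocks N 0 0 (-(γ • M)) = Wᵀ * Ψ * W := by
  obtain ⟨W0, V0, M', u, hM', hu, hd', hW0, hV0⟩ : ∃ (W V M' : Matrix (Fin 4) (Fin 4) R) (u : R),
      M'.IsSymm ∧ IsUnit u ∧ M'.det = u * M.det ∧
      γ • M = Wᵀ * M' * W ∧ V * W = γ • (1 : Matrix (Fin 4) (Fin 4) R) := by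
    rcases hγ with hγ | ⟨hγ, _, hr⟩
    · refine ⟨1, γ • 1, γ • M, γ ^ 4, ?_, hγ.pow 4, ?_, ?_, ?_⟩
      · exact hM.smul γ
      · rw [Matrix.det_smul, Fintype.card_fin]
      · rw [Matrix.transpose_one, Matrix.one_mul, Matrix.mul_one]
      · rw [Matrix.mul_one]
    · exact ruled_gram hM hγ hr
  have hγ' : ¬ M.det ∣ γ := fun h =>
    hne (Dvd.dvd.mul_right (Dvd.dvd.mul_right h _) _)
  have hγ0 : γ ≠ 0 := by
    rintro rfl
    exact hγ' (dvd_zero _)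
  have hn : ¬ M.det ∣ N.adjugate i i := fun h => hne (Dvd.dvd.mul_left h _)
  obtain ⟨h, hh⟩ := ratio hδ ha hne hsq
  obtain ⟨W1, Ψ, hΨ, hΨu, hW1, hW⟩ :=
    glue_step hN hM hM' hδ hε hu hd hd' hW0 hV0 hγ' i j hn h hh
  have hdetW0 : W0.det ≠ 0 := by
    intro h0
    have h1 := congrArg Matrix.det hV0
    rw [Matrix.det_mul, h0, mul_zero, Matrix.det_smul, Matrix.det_one, mul_one,
      Fintype.card_fin] at h1
    exact pow_ne_zero 4 hγ0 h1.symm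
  refine ⟨W1 * fromBlocks 1 0 0 W0, Ψ, hΨ, hΨu, ?_, ?_⟩
  · rw [Matrix.det_mul, Matrix.det_fromBlocks_zero₂₁, Matrix.det_one, one_mul]
    exact mul_ne_zero hW1 hdetW0
  · have h1 : (W1 * fromBlocks 1 0 0 W0)ᵀ * Ψ * (W1 * fromBlocks 1 0 0 W0) =
        (fromBlocks 1 0 0 W0)ᵀ * (W1ᵀ * Ψ * W1) *
          (fromBlocks 1 0 0 W0 : Matrix (ι ⊕ Fin 4) (ι ⊕ Fin 4) R) := by
      rw [Matrix.transpose_mul]
      simp only [Matrix.mul_assoc]
    rw [h1, ← hW, Matrix.fromBlocks_transpose, Matrix.fromBlocks_multiply,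
      Matrix.fromBlocks_multiply]
    simp only [Matrix.transpose_one, Matrix.transpose_zero, Matrix.one_mul, Matrix.mul_one,
      Matrix.zero_mul, Matrix.mul_zero, add_zero, zero_add, Matrix.mul_neg, Matrix.neg_mul]
    rw [hW0, neg_zero]

end Pool.Agent.PLN
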