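import Pool.Agent.PLN.Glue

/-!
# PLN: gluing at the discriminant

`R` is a principal ideal domain, `N` (any size) and `M` (size 4) are symmetric, `δ = det M` is prime,
`det N = ε δ`, `ε` a unit.

`exists_ratio`: `δ` prime, `δ ∤ a`: for every `g` there is `h` with `δ ∣ h a - g` (`R / δ` is a field,
or: the ideal `(δ, a)` is the unit ideal because `δ` is irreducible in a principal ideal domain,
`IsCoprime`, `(Prime.irreducible).coprime_iff_not_dvd`).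

`ratio`: if `δ ∤ a`, `δ ∤ γ m n`, `δ ∣ a² ε (γ m n) - g²`, then there is `h` with
`δ ∣ γ h² m - ε n`.
PROOF.  `δ ∤ a γ m`; `h` with `δ ∣ h (a γ m) - g`.  Multiply the claim by `a² γ m` (prime to `δ`):
`a² γ m (γ h² m) = (h a γ m)² = g²` and `a² γ m ε n = g²` modulo `δ`.

`glue_step`: `γ M = W0^T M' W0`, `V0 W0 = γ`, `M'` symmetric, `det M' = u δ` with a unit `u`, `δ ∤ γ`,
`m = adj(M)_jj`, `n = adj(N)_ii`, `δ ∤ n`, `δ ∣ γ h² m - ε n`: then
`fromBlocks N 0 0 (- M') = W^T Ψ W` with `Ψ` symmetric, `det Ψ` a unit and `det W ≠ 0`.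
PROOF.  `Φ1 = fromBlocks N 0 0 (- M')` and
`x = Sum.elim (fun k => adj(N) k i) (h • W0 *ᵥ (fun k => adj(M) k j))`.
`N adj(N) e_i = ε δ e_i` (`Matrix.mul_adjugate`); `W0^T M' W0 adj(M) e_j = γ δ e_j`, multiply by
`V0^T` (`V0^T W0^T = (W0 V0)^T = γ`; `W0 V0 = γ` follows from `V0 W0 = γ`, `γ ≠ 0`): so
`γ M' W0 adj(M) e_j` is divisible by `δ`, and `δ ∤ γ`, so `Φ1 x` is divisible by `δ`.
`x^T Φ1 x = n ε δ - h² γ m δ = δ (ε n - γ h² m)` (adjugates of symmetric matrices are symmetric: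
`(adj N)_i^T N (adj N)_i = ε δ n`, `(W0 adj(M)_j)^T M' W0 adj(M)_j = adj(M)_j^T (γ M) adj(M)_j
= γ δ m`), divisible by `δ²`.  `x` is not divisible by `δ`, because its entry at `Sum.inl i` is `n`.
`glue` gives `Φ1 = W^T Ψ W`, `det W = u1 δ`, and
`det Φ1 = det N det M' = ε δ u δ` (even size 4: `det (- M') = det M'`), so `det Ψ` is a unit (cancel
`δ² ≠ 0`).
-/

set_option autoImplicit false

namespace Pool.Agent.PLN

open Matrix

variable {R : Type} [CommRing R] [IsDomain R] [IsPrincipalIdealRing R]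
  {ι : Type} [Fintype ι] [DecidableEq ι]

theorem exists_ratio {δ a : R} (hδ : Prime δ) (ha : ¬ δ ∣ a) (g : R) : ∃ h : R, δ ∣ h * a - g := by
  obtain ⟨u, v, huv⟩ := (hδ.irreducible.coprime_iff_not_dvd).2 ha
  refine ⟨g * v, -(g * u), ?_⟩
  linear_combination g * huv

theorem ratio {δ γ ε a m n g : R} (hδ : Prime δ) (ha : ¬ δ ∣ a) (hne : ¬ δ ∣ γ * m * n)
    (hsq : δ ∣ a ^ 2 * (ε * (γ * m * n)) - g ^ 2) : ∃ h : R, δ ∣ γ * h ^ 2 * m - ε * n := by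
  have hgm : ¬ δ ∣ γ * m := fun hd => hne (Dvd.dvd.mul_right hd n)
  have hagm : ¬ δ ∣ a * (γ * m) := by
    intro hd
    rcases hδ.dvd_or_dvd hd with h1 | h1
    · exact ha h1
    · exact hgm h1
  obtain ⟨h, hh⟩ := exists_ratio hδ hagm g
  refine ⟨h, ?_⟩
  have key : δ ∣ (a * (a * (γ * m))) * (γ * h ^ 2 * m - ε * n) := by
    have e : (a * (a * (γ * m))) * (γ * h ^ 2 * m - ε * n) =
        (h * (a * (γ * m)) - g) * (h * (a * (γ * m)) + g) -
          (a ^ 2 * (ε * (γ * m * n)) - g ^ 2) := by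
      ring
    rw [e]
    exact dvd_sub (Dvd.dvd.mul_right hh _) hsq
  rcases hδ.dvd_or_dvd key with h1 | h1
  · rcases hδ.dvd_or_dvd h1 with h2 | h2
    · exact absurd h2 ha
    · exact absurd h2 hagm
  · exact h1

omit [IsPrincipalIdealRing R] in
private theorem glueStep_comm {W0 V0 : Matrix (Fin 4) (Fin 4) R} {γ : R} (hγ : γ ≠ 0)
    (hV0 : V0 * W0 = γ • (1 : Matrix (Fin 4) (Fin 4) R)) :
    W0 * V0 = γ • (1 : Matrix (Fin 4) (Fin 4) R) := by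
  have hdet : V0.det * W0.det = γ ^ 4 := by
    rw [← Matrix.det_mul, hV0, Matrix.det_smul, Matrix.det_one]
    simp
  have hW : W0.det ≠ 0 := by
    intro h0
    rw [h0, mul_zero] at hdet
    exact pow_ne_zero 4 hγ hdet.symm
  have h1 : (W0 * V0 - γ • (1 : Matrix (Fin 4) (Fin 4) R)) * W0 = 0 := by
    rw [sub_mul, Matrix.mul_assoc, hV0]
    simp
  have h2 : W0.det • (W0 * V0 - γ • (1 : Matrix (Fin 4) (Fin 4) R)) = 0 := by
    have h3 := congrArg (fun A => A * W0.adjugate) h1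
    simp only [Matrix.mul_assoc, Matrix.mul_adjugate, Matrix.zero_mul] at h3
    simpa using h3
  have h4 := (smul_eq_zero.1 h2).resolve_left hW
  exact sub_eq_zero.1 h4

theorem glue_step {N : Matrix ι ι R} {M M' W0 V0 : Matrix (Fin 4) (Fin 4) R} (hN : N.IsSymm)
    (hM : M.IsSymm) (hM' : M'.IsSymm) (hδ : Prime M.det) {ε u γ : R} (hε : IsUnit ε)
    (hu : IsUnit u) (hd : N.det = ε * M.det) (hd' : M'.det = u * M.det)
    (hW0 : γ • M = W0ᵀ * M' * W0) (hV0 : V0 * W0 = γ • (1 : Matrix (Fin 4) (Fin 4) R))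
    (hγ : ¬ M.det ∣ γ) (i : ι) (j : Fin 4) (hn : ¬ M.det ∣ N.adjugate i i) (h : R)
    (hh : M.det ∣ γ * h ^ 2 * M.adjugate j j - ε * N.adjugate i i) :
    ∃ W Ψ : Matrix (ι ⊕ Fin 4) (ι ⊕ Fin 4) R, Ψ.IsSymm ∧ IsUnit Ψ.det ∧ W.det ≠ 0 ∧
      fromBlocks N 0 0 (-M') = Wᵀ * Ψ * W := by
  have hγ0 : γ ≠ 0 := by
    intro h0
    exact hγ (h0 ▸ dvd_zero _)
  have hWV := glueStep_comm hγ0 hV0
  set a1 : ι → R := N.adjugate *ᵥ Pi.single i 1 with ha1
  set a2 : Fin 4 → R := M.adjugate *ᵥ Pi.single j 1 with ha2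
  have ha1i : a1 i = N.adjugate i i := by
    rw [ha1, Matrix.mulVec_single_one]
    rfl
  have ha2j : a2 j = M.adjugate j j := by
    rw [ha2, Matrix.mulVec_single_one]
    rfl
  have hNa1 : N *ᵥ a1 = N.det • Pi.single i (1 : R) := by
    rw [ha1, Matrix.mulVec_mulVec, Matrix.mul_adjugate, Matrix.smul_mulVec, Matrix.one_mulVec]
  have hMa2 : M *ᵥ a2 = M.det • Pi.single j (1 : R) := by
    rw [ha2, Matrix.mulVec_mulVec, Matrix.mul_adjugate, Matrix.smul_mulVec, Matrix.one_mulVec]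
  have hWMW : W0ᵀ *ᵥ (M' *ᵥ (W0 *ᵥ a2)) = (γ * M.det) • Pi.single j (1 : R) := by
    rw [Matrix.mulVec_mulVec, Matrix.mulVec_mulVec, ← hW0, Matrix.smul_mulVec, hMa2, smul_smul]
  have hMW : M' *ᵥ (W0 *ᵥ a2) = M.det • (V0ᵀ *ᵥ Pi.single j (1 : R)) := by
    have h1 : V0ᵀ *ᵥ (W0ᵀ *ᵥ (M' *ᵥ (W0 *ᵥ a2))) =
        V0ᵀ *ᵥ ((γ * M.det) • Pi.single j (1 : R)) := congrArg _ hWMW
    rw [Matrix.mulVec_mulVec, ← Matrix.transpose_mul, hWV, Matrix.transpose_smul,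
      Matrix.transpose_one, Matrix.smul_mulVec, Matrix.one_mulVec, Matrix.mulVec_smul,
      ← smul_smul] at h1
    exact smul_right_injective _ hγ0 h1
  set x : ι ⊕ Fin 4 → R := Sum.elim a1 (h • (W0 *ᵥ a2)) with hx
  have hΦx : fromBlocks N 0 0 (-M') *ᵥ x =
      Sum.elim (N.det • Pi.single i (1 : R)) (-(h • (M.det • (V0ᵀ *ᵥ Pi.single j (1 : R))))) := by
    rw [Matrix.fromBlocks_mulVec, hx]
    simp only [Sum.elim_comp_inl, Sum.elim_comp_inr, Matrix.zero_mulVec, add_zero, zero_add]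
    rw [hNa1, Matrix.neg_mulVec, Matrix.mulVec_smul, hMW]
  have hs : (fromBlocks N 0 0 (-M')).IsSymm :=
    Matrix.IsSymm.fromBlocks hN (by simp) hM'.neg
  have hxn : ¬ ∀ k, M.det ∣ x k := by
    intro hall
    have := hall (Sum.inl i)
    rw [hx, Sum.elim_inl, ha1i] at this
    exact hn this
  have h1 : ∀ k, M.det ∣ (fromBlocks N 0 0 (-M') *ᵥ x) k := by
    intro k
    rw [hΦx]
    rcases k with k | k
    · rw [Sum.elim_inl, Pi.smul_apply, smul_eq_mul, hd]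
      exact Dvd.dvd.mul_right (Dvd.intro_left _ rfl) _
    · rw [Sum.elim_inr, Pi.neg_apply, Pi.smul_apply, Pi.smul_apply, smul_eq_mul, smul_eq_mul]
      exact (dvd_neg).2 (Dvd.dvd.mul_left (Dvd.intro _ rfl) _)
  have hq : (W0 *ᵥ a2) ⬝ᵥ (M' *ᵥ (W0 *ᵥ a2)) = γ * M.det * M.adjugate j j := by
    have e : (W0 *ᵥ a2) ⬝ᵥ (M' *ᵥ (W0 *ᵥ a2)) = a2 ⬝ᵥ (W0ᵀ *ᵥ (M' *ᵥ (W0 *ᵥ a2))) := by
      rw [Matrix.dotProduct_mulVec a2, Matrix.vecMul_transpose]
    rw [e, hWMW, dotProduct_smul, dotProduct_single_one, ha2j, smul_eq_mul]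
  have h2 : M.det ^ 2 ∣ x ⬝ᵥ (fromBlocks N 0 0 (-M') *ᵥ x) := by
    have e : x ⬝ᵥ (fromBlocks N 0 0 (-M') *ᵥ x) =
        -(M.det * (γ * h ^ 2 * M.adjugate j j - ε * N.adjugate i i)) := by
      rw [hΦx, hx, sumElim_dotProduct_sumElim, dotProduct_smul, dotProduct_single_one, ha1i,
        dotProduct_neg, ← hMW, smul_dotProduct, dotProduct_smul, hq, hd]
      simp only [smul_eq_mul]
      ring
    rw [e, dvd_neg, pow_two]
    exact mul_dvd_mul_left _ hh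
  obtain ⟨W, Ψ, u1, hΨ, hu1, hWdet, hW⟩ := glue hs hδ hxn h1 h2
  have hδ0 : M.det ≠ 0 := hδ.ne_zero
  refine ⟨W, Ψ, hΨ, ?_, ?_, hW⟩
  · have e1 : (fromBlocks N 0 0 (-M')).det = (ε * M.det) * (u * M.det) := by
      rw [Matrix.det_fromBlocks_zero₂₁, Matrix.det_neg, hd, hd', Fintype.card_fin]
      ring
    have e2 : (fromBlocks N 0 0 (-M')).det = (u1 * M.det) * Ψ.det * (u1 * M.det) := by
      rw [hW, Matrix.det_mul, Matrix.det_mul, Matrix.det_transpose, hWdet]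
    have e3 : u1 * u1 * Ψ.det = ε * u := by
      have e4 : (M.det * M.det) * (u1 * u1 * Ψ.det) = (M.det * M.det) * (ε * u) := by
        linear_combination e1 - e2
      exact mul_left_cancel₀ (mul_ne_zero hδ0 hδ0) e4
    exact isUnit_of_mul_isUnit_right (e3 ▸ hε.mul hu)
  · rw [hWdet]
    exact mul_ne_zero hu1.ne_zero hδ0

end Pool.Agent.PLN
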