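import Pool.Agent.PLN.HarderC

/-!
# Quadratic spaces over `F(t)` with a self-dual lattice over `F[t]`

Let `F` be a field in which all ternary quadratic forms have a zero and `-1` is a square, for
example `F = ℂ(s)`. A quadratic space of dimension `2 r` over `F(t)` with a self-dual lattice over
`F[t]`, the discriminant of which is a square, has a totally isotropic subspace of dimension `r`.
(Theorem of Harder on unimodular forms over `F[t]`.)
-/

set_option autoImplicit false

noncomputable section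

namespace Pool.Agent.PLN

open Polynomial Module
open scoped Matrix

variable {F : Type} [Field F]
  {V : Type} [AddCommGroup V] [Module (RatFunc F) V] [Module F[X] V]
  [IsScalarTower F[X] (RatFunc F) V]

/-- the Gram matrix -/
def gram {ι : Type} (B : LinearMap.BilinForm (RatFunc F) V) (b : ι → V) :
    Matrix ι ι (RatFunc F) := Matrix.of fun i j => B (b i) (b j)

variable {B : LinearMap.BilinForm (RatFunc F) V} {U : Submodule (RatFunc F) V}
  {L : Submodule F[X] V}

omit [Module F[X] V] [IsScalarTower F[X] (RatFunc F) V] in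
theorem li_of_gram {ι : Type} [Fintype ι] [DecidableEq ι] {b : ι → V} (h : (gram B b).det ≠ 0) :
    LinearIndependent (RatFunc F) b := by
  rw [Fintype.linearIndependent_iff]
  intro c hc
  have h1 : (gram B b).mulVec c = 0 := by
    funext i
    have h2 : B (b i) (∑ j, c j • b j) = 0 := by rw [hc, map_zero]
    rw [map_sum] at h2
    simp only [map_smul, smul_eq_mul] at h2
    rw [Matrix.mulVec, dotProduct, Pi.zero_apply, ← h2]
    exact Finset.sum_congr rfl fun j _ => mul_comm _ _
  have h3 := Matrix.eq_zero_of_mulVec_eq_zero h h1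
  intro i
  rw [h3, Pi.zero_apply]

omit [Module F[X] V] [IsScalarTower F[X] (RatFunc F) V] in
theorem gram_sum {ι κ : Type} (b : ι → V) (b' : κ → V) (hB : ∀ x y, B x y = B y x)
    (h : ∀ i j, B (b i) (b' j) = 0) :
    gram B (Sum.elim b b') = Matrix.fromBlocks (gram B b) 0 0 (gram B b') := by
  ext i j
  rcases i with i | i <;> rcases j with j | j
  · rfl
  · simp [gram, h]
  · simp [gram, hB (b' i), h]
  · rfl

/-- what we find by induction -/
def Good (B : LinearMap.BilinForm (RatFunc F) V) (U : Submodule (RatFunc F) V) : Prop :=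
  ∃ (ι : Type) (_ : Fintype ι) (_ : DecidableEq ι) (b : ι → V) (W : Submodule (RatFunc F) V),
    (gram B b).det ≠ 0 ∧ Submodule.span (RatFunc F) (Set.range b) = U ∧ W ≤ U ∧
    (∀ x ∈ W, ∀ y ∈ W, B x y = 0) ∧
    (Fintype.card ι = 2 * finrank (RatFunc F) W ∨ Fintype.card ι = 2 * finrank (RatFunc F) W + 1 ∨
      (Fintype.card ι = 2 * finrank (RatFunc F) W + 2 ∧ ¬ IsSquare (gram B b).det))

omit [Module F[X] V] [IsScalarTower F[X] (RatFunc F) V] in
private theorem span_orth {v : V} (hv : v ∈ U) (hvv : B v v ≠ 0)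
    (h : orthV B U v = ⊥) : Submodule.span (RatFunc F) (Set.range fun _ : Fin 1 => v) = U := by
  apply le_antisymm
  · rw [Submodule.span_le]
    rintro _ ⟨i, rfl⟩
    exact hv
  · intro x hx
    have h1 : prjAlong B v x ∈ orthV B U v := by
      refine mem_orthV.2 ⟨?_, prjAlong_orth hvv x⟩
      rw [prjAlong_apply]
      exact U.sub_mem hx (U.smul_mem _ hv)
    rw [h, Submodule.mem_bot, prjAlong_apply, sub_eq_zero] at h1
    rw [h1]
    exact Submodule.smul_mem _ _ (Submodule.subset_span ⟨0, rfl⟩)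

/-- anisotropic spaces -/
private theorem good_aniso [FiniteDimensional (RatFunc F) V]
    (hT : ∀ a b c : F, ∃ x y z : F, (x ≠ 0 ∨ y ≠ 0 ∨ z ≠ 0) ∧ a * x ^ 2 + b * y ^ 2 + c * z ^ 2 = 0)
    (hi : IsSquare (-1 : F)) (hB : ∀ x y, B x y = B y x) (h : SelfDual B U L)
    (hani : ∀ x ∈ U, x ≠ 0 → B x x ≠ 0) : Good B U := by
  have hne : ∀ c : F, c ≠ 0 → algebraMap F[X] (RatFunc F) (C c) ≠ 0 := by
    intro c hc
    rw [Ne, map_eq_zero_iff _ (RatFunc.algebraMap_injective F)]
    exact Polynomial.C_ne_zero.2 hc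
  by_cases hU : U = ⊥
  · refine ⟨Fin 0, inferInstance, inferInstance, Fin.elim0, ⊥, ?_, ?_, bot_le, ?_, ?_⟩
    · rw [Matrix.det_fin_zero]
      exact one_ne_zero
    · rw [hU, Submodule.span_eq_bot]
      rintro _ ⟨i, -⟩
      exact i.elim0
    · intro x hx y _
      rw [(Submodule.mem_bot _).1 hx, map_zero, LinearMap.zero_apply]
    · left
      rw [finrank_bot, Fintype.card_fin]
  obtain ⟨v₁, hv₁, c₁, hc₁, h₁⟩ := h.exists_const hB hU hani
  have h₁' : B v₁ v₁ ≠ 0 := h₁ ▸ hne c₁ hc₁
  have hS1 := h.orth hB hv₁ hc₁ h₁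
  have hani1 : ∀ x ∈ orthV B U v₁, x ≠ 0 → B x x ≠ 0 := fun x hx => hani x hx.1
  by_cases hU1 : orthV B U v₁ = ⊥
  · refine ⟨Fin 1, inferInstance, inferInstance, fun _ => v₁, ⊥, ?_,
      span_orth (h.le hv₁) h₁' hU1, bot_le, ?_, ?_⟩
    · rw [Matrix.det_fin_one]
      exact h₁'
    · intro x hx y _
      rw [(Submodule.mem_bot _).1 hx, map_zero, LinearMap.zero_apply]
    · right
      left
      rw [finrank_bot, Fintype.card_fin]
  obtain ⟨v₂, hv₂, c₂, hc₂, h₂⟩ := hS1.exists_const hB hU1 hani1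
  have h₂' : B v₂ v₂ ≠ 0 := h₂ ▸ hne c₂ hc₂
  have h12 : B v₁ v₂ = 0 := (mem_orthV.1 (hS1.le hv₂)).2
  have hS2 := hS1.orth hB hv₂ hc₂ h₂
  by_cases hU2 : orthV B (orthV B U v₁) v₂ = ⊥
  · have hg : gram B (Sum.elim (fun _ : Fin 1 => v₁) fun _ : Fin 1 => v₂) =
        Matrix.fromBlocks (gram B fun _ : Fin 1 => v₁) 0 0 (gram B fun _ : Fin 1 => v₂) :=
      gram_sum _ _ hB fun _ _ => h12
    have hdet : (gram B (Sum.elim (fun _ : Fin 1 => v₁) fun _ : Fin 1 => v₂)).det =
        B v₁ v₁ * B v₂ v₂ := by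
      rw [hg, Matrix.det_fromBlocks_zero₂₁, Matrix.det_fin_one, Matrix.det_fin_one]
      rfl
    refine ⟨Fin 1 ⊕ Fin 1, inferInstance, inferInstance,
      Sum.elim (fun _ => v₁) fun _ => v₂, ⊥, ?_, ?_, bot_le, ?_, ?_⟩
    · rw [hdet]
      exact mul_ne_zero h₁' h₂'
    · rw [Set.Sum.elim_range, Submodule.span_union, span_orth (hS1.le hv₂) h₂' hU2]
      apply le_antisymm
      · refine sup_le ?_ inf_le_left
        rw [Submodule.span_le]
        rintro _ ⟨i, rfl⟩
        exact h.le hv₁
      · intro x hx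
        have h3 : x = ((B v₁ v₁)⁻¹ * B v₁ x) • v₁ + prjAlong B v₁ x := by
          rw [prjAlong_apply]
          abel
        rw [h3]
        refine Submodule.add_mem_sup (Submodule.smul_mem _ _ (Submodule.subset_span ⟨0, rfl⟩))
          (mem_orthV.2 ⟨?_, prjAlong_orth h₁' x⟩)
        rw [prjAlong_apply]
        exact U.sub_mem hx (U.smul_mem _ (h.le hv₁))
    · intro x hx y _
      rw [(Submodule.mem_bot _).1 hx, map_zero, LinearMap.zero_apply]
    · right
      right
      refine ⟨by rw [finrank_bot, Fintype.card_sum, Fintype.card_fin], ?_⟩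
      rintro ⟨s, hs⟩
      rw [hdet] at hs
      obtain ⟨i, hi⟩ := hi
      have hi' : algebraMap F[X] (RatFunc F) (C i) * algebraMap F[X] (RatFunc F) (C i) = -1 := by
        rw [← map_mul, ← C_mul, ← hi]
        simp
      have h4 : B (B v₂ v₂ • v₁ + (algebraMap F[X] (RatFunc F) (C i) * s) • v₂)
          (B v₂ v₂ • v₁ + (algebraMap F[X] (RatFunc F) (C i) * s) • v₂) = 0 := by
        simp only [map_add, map_smul, LinearMap.add_apply, LinearMap.smul_apply, smul_eq_mul,
          hB v₂ v₁, h12]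
        linear_combination (B v₂ v₂ * s * s) * hi' + B v₂ v₂ * hs
      refine hani _ ?_ ?_ h4
      · exact U.add_mem (U.smul_mem _ (h.le hv₁)) (U.smul_mem _ (hS1.le hv₂).1)
      · intro h5
        have h6 : B v₁ (B v₂ v₂ • v₁ + (algebraMap F[X] (RatFunc F) (C i) * s) • v₂) = 0 := by
          rw [h5, map_zero]
        simp only [map_add, map_smul, smul_eq_mul, h12, mul_zero, add_zero] at h6
        exact mul_ne_zero h₂' h₁' h6
  exfalso
  obtain ⟨v₃, hv₃, c₃, hc₃, h₃⟩ := hS2.exists_const hB hU2 fun x hx => hani x hx.1.1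
  have h23 : B v₂ v₃ = 0 := (mem_orthV.1 (hS2.le hv₃)).2
  have h13 : B v₁ v₃ = 0 := (mem_orthV.1 (mem_orthV.1 (hS2.le hv₃)).1).2
  have h₃' : B v₃ v₃ ≠ 0 := h₃ ▸ hne c₃ hc₃
  obtain ⟨x, y, z, hxyz, h0⟩ := hT c₁ c₂ c₃
  let φ : F → RatFunc F := fun c => algebraMap F[X] (RatFunc F) (C c)
  have h4 : B (φ x • v₁ + φ y • v₂ + φ z • v₃) (φ x • v₁ + φ y • v₂ + φ z • v₃) = 0 := by
    have h5 : φ (c₁ * x ^ 2 + c₂ * y ^ 2 + c₃ * z ^ 2) = 0 := by
      rw [h0]
      simp [φ]
    simp only [map_add, map_smul, LinearMap.add_apply, LinearMap.smul_apply, smul_eq_mul,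
      hB v₂ v₁, hB v₃ v₁, hB v₃ v₂, h12, h13, h23, h₁, h₂, h₃]
    simp only [φ, map_add, map_mul, map_pow] at h5
    linear_combination h5
  refine hani _ ?_ ?_ h4
  · exact U.add_mem (U.add_mem (U.smul_mem _ (h.le hv₁)) (U.smul_mem _ (hS1.le hv₂).1))
      (U.smul_mem _ (hS2.le hv₃).1.1)
  · intro h5
    have e1 : B v₁ (φ x • v₁ + φ y • v₂ + φ z • v₃) = 0 := by rw [h5, map_zero]
    have e2 : B v₂ (φ x • v₁ + φ y • v₂ + φ z • v₃) = 0 := by rw [h5, map_zero]
    have e3 : B v₃ (φ x • v₁ + φ y • v₂ + φ z • v₃) = 0 := by rw [h5, map_zero]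
    simp only [map_add, map_smul, smul_eq_mul, hB v₂ v₁, hB v₃ v₁, hB v₃ v₂, h12, h13, h23,
      mul_zero, add_zero, zero_add] at e1 e2 e3
    have hφ : ∀ c : F, φ c = 0 → c = 0 := fun c hc => by
      by_contra hc0
      exact hne c hc0 hc
    rcases hxyz with hx | hy | hz
    · exact hx (hφ x ((mul_eq_zero.1 e1).resolve_right h₁'))
    · exact hy (hφ y ((mul_eq_zero.1 e2).resolve_right h₂'))
    · exact hz (hφ z ((mul_eq_zero.1 e3).resolve_right h₃'))

private theorem good_all [FiniteDimensional (RatFunc F) V] (h2 : (2 : F) ≠ 0)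
    (hT : ∀ a b c : F, ∃ x y z : F, (x ≠ 0 ∨ y ≠ 0 ∨ z ≠ 0) ∧ a * x ^ 2 + b * y ^ 2 + c * z ^ 2 = 0)
    (hi : IsSquare (-1 : F)) (hB : ∀ x y, B x y = B y x) :
    ∀ (n : ℕ) (U : Submodule (RatFunc F) V) (L : Submodule F[X] V),
    finrank (RatFunc F) U = n → SelfDual B U L → Good B U := by
  intro n
  induction n using Nat.strong_induction_on with
  | _ n ih =>
  intro U L hn h
  by_cases hiso : ∃ x ∈ U, x ≠ 0 ∧ B x x = 0
  · obtain ⟨e, he, f, hf, hee, hff, hef⟩ := h.exists_pair h2 hB hiso
    have hfe : B f e = 1 := by rw [hB, hef]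
    have hS := h.pair hB he hf hee hff hef
    set U' := orthV B (orthV B U e) f with hU'
    have hmem : ∀ x, x ∈ U' ↔ x ∈ U ∧ B e x = 0 ∧ B f x = 0 := by
      intro x
      rw [hU', mem_orthV, mem_orthV]
      tauto
    have hle : U' ≤ U := fun x hx => ((hmem x).1 hx).1
    have hlt : finrank (RatFunc F) U' < n := by
      rw [← hn]
      refine Submodule.finrank_lt_finrank_of_lt (lt_of_le_of_ne hle ?_)
      intro h3
      have h4 : f ∈ U' := h3 ▸ h.le hf
      rw [hmem, hef] at h4
      exact one_ne_zero h4.2.1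
    obtain ⟨ι, iF, iD, b, W, hdet, hspan, hWU, hW, hcard⟩ := ih _ hlt U' _ rfl hS
    have hbU : ∀ i, b i ∈ U' := fun i => hspan ▸ Submodule.subset_span ⟨i, rfl⟩
    have h0 : ∀ (i : Fin 2) (j : ι), B (![e, f] i) (b j) = 0 := by
      intro i j
      have h5 := (hmem _).1 (hbU j)
      fin_cases i
      · exact h5.2.1
      · exact h5.2.2
    have hdet2 : (gram B ![e, f]).det = -1 := by
      rw [Matrix.det_fin_two]
      simp [gram, hee, hff, hef, hfe]
    have hdet' : (gram B (Sum.elim ![e, f] b)).det = -(gram B b).det := by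
      rw [gram_sum _ _ hB h0, Matrix.det_fromBlocks_zero₂₁, hdet2, neg_one_mul]
    have heW : e ∉ W := by
      intro h6
      have h7 := ((hmem e).1 (hWU h6)).2.2
      rw [hfe] at h7
      exact one_ne_zero h7
    have hfin : finrank (RatFunc F) ↥(W ⊔ Submodule.span (RatFunc F) {e}) =
        finrank (RatFunc F) W + 1 := by
      have h8 := Submodule.finrank_sup_add_finrank_inf_eq W (Submodule.span (RatFunc F) {e})
      have he0 : e ≠ 0 := by
        rintro rfl
        exact heW W.zero_mem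
      have h9 : W ⊓ Submodule.span (RatFunc F) {e} = ⊥ := by
        rw [eq_bot_iff]
        rintro x ⟨hx, hx'⟩
        obtain ⟨c, rfl⟩ := Submodule.mem_span_singleton.1 hx'
        by_cases hc : c = 0
        · rw [hc, zero_smul]
          exact Submodule.zero_mem _
        · exact absurd ((W.smul_mem_iff hc).1 hx) heW
      rw [h9, finrank_bot, finrank_span_singleton he0] at h8
      omega
    refine ⟨Fin 2 ⊕ ι, inferInstance, inferInstance, Sum.elim ![e, f] b,
      W ⊔ Submodule.span (RatFunc F) {e}, ?_, ?_, ?_, ?_, ?_⟩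
    · rw [hdet']
      exact neg_ne_zero.2 hdet
    · rw [Set.Sum.elim_range, Submodule.span_union, hspan]
      apply le_antisymm
      · refine sup_le ?_ hle
        rw [Submodule.span_le]
        rintro _ ⟨i, rfl⟩
        fin_cases i
        · exact h.le he
        · exact h.le hf
      · intro x hx
        have h3 : x = (B f x • e + B e x • f) + (x - B f x • e - B e x • f) := by abel
        rw [h3]
        refine Submodule.add_mem_sup (Submodule.add_mem _
          (Submodule.smul_mem _ _ (Submodule.subset_span ⟨0, rfl⟩))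
          (Submodule.smul_mem _ _ (Submodule.subset_span ⟨1, rfl⟩))) ((hmem _).2 ⟨?_, ?_, ?_⟩)
        · exact U.sub_mem (U.sub_mem hx (U.smul_mem _ (h.le he))) (U.smul_mem _ (h.le hf))
        · simp only [map_sub, map_smul, smul_eq_mul, hee, hef]
          ring
        · simp only [map_sub, map_smul, smul_eq_mul, hff, hfe]
          ring
    · refine sup_le (hWU.trans hle) ?_
      rw [Submodule.span_le, Set.singleton_subset_iff]
      exact h.le he
    · intro x hx y hy
      obtain ⟨x', hx', x'', hx'', rfl⟩ := Submodule.mem_sup.1 hx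
      obtain ⟨y', hy', y'', hy'', rfl⟩ := Submodule.mem_sup.1 hy
      obtain ⟨c, rfl⟩ := Submodule.mem_span_singleton.1 hx''
      obtain ⟨d, rfl⟩ := Submodule.mem_span_singleton.1 hy''
      simp only [map_add, map_smul, LinearMap.add_apply, LinearMap.smul_apply, smul_eq_mul, hee,
        hW x' hx' y' hy', hB x' e, ((hmem x').1 (hWU hx')).2.1, ((hmem y').1 (hWU hy')).2.1]
      ring
    · rw [Fintype.card_sum, Fintype.card_fin, hfin, hdet']
      rcases hcard with h3 | h3 | ⟨h3, h4⟩
      · left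
        omega
      · right
        left
        omega
      · right
        right
        refine ⟨by omega, ?_⟩
        rintro ⟨s, hs⟩
        apply h4
        obtain ⟨i, hi⟩ := hi
        have hi' : algebraMap F[X] (RatFunc F) (C i) * algebraMap F[X] (RatFunc F) (C i) = -1 := by
          rw [← map_mul, ← C_mul, ← hi]
          simp
        refine ⟨algebraMap F[X] (RatFunc F) (C i) * s, ?_⟩
        linear_combination -hs - s * s * hi'
  · push Not at hiso
    exact good_aniso hT hi hB h hiso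

/-- **Self-dual lattices over `F[t]`.** A quadratic space over `F(t)` of dimension `2 r`, with a
self-dual lattice over `F[t]` and square discriminant, is hyperbolic. -/
theorem harder [FiniteDimensional (RatFunc F) V] (h2 : (2 : F) ≠ 0)
    (hT : ∀ a b c : F, ∃ x y z : F, (x ≠ 0 ∨ y ≠ 0 ∨ z ≠ 0) ∧ a * x ^ 2 + b * y ^ 2 + c * z ^ 2 = 0)
    (hi : IsSquare (-1 : F)) (hB : ∀ x y, B x y = B y x) (h : SelfDual B ⊤ L) {r : ℕ}
    (b : Basis (Fin (2 * r)) (RatFunc F) V)
    (hd : IsSquare (Matrix.det (Matrix.of fun i j => B (b i) (b j)))) :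
    ∃ W : Submodule (RatFunc F) V, finrank (RatFunc F) W = r ∧ ∀ x ∈ W, ∀ y ∈ W, B x y = 0 := by
  obtain ⟨ι, iF, iD, b', W, hdet, hspan, -, hW, hcard⟩ := good_all h2 hT hi hB _ ⊤ L rfl h
  have hli := li_of_gram hdet
  let b'' : Basis ι (RatFunc F) V := Basis.mk hli hspan.ge
  have hc : Fintype.card ι = 2 * r := by
    rw [← finrank_eq_card_basis b'', finrank_eq_card_basis b, Fintype.card_fin]
  refine ⟨W, ?_, hW⟩
  rcases hcard with h3 | h3 | ⟨h3, h4⟩
  · omega
  · omega
  · exfalso
    apply h4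
    obtain ⟨s, hs⟩ := hd
    have e : ι ≃ Fin (2 * r) := Fintype.equivFinOfCardEq hc
    have h5 : LinearMap.BilinForm.toMatrix (b''.reindex e) B =
        ((b.toMatrix (b''.reindex e))ᵀ * LinearMap.BilinForm.toMatrix b B *
          b.toMatrix (b''.reindex e)) := by
      rw [LinearMap.BilinForm.toMatrix_mul_basis_toMatrix]
    have h6 := congrArg Matrix.det h5
    rw [Matrix.det_mul, Matrix.det_mul, Matrix.det_transpose] at h6
    have h7 : (LinearMap.BilinForm.toMatrix b B).det = s * s := by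
      rw [← hs]
      congr 1
      ext i j
      rw [LinearMap.BilinForm.toMatrix_apply, Matrix.of_apply]
    have h8 : (LinearMap.BilinForm.toMatrix (b''.reindex e) B).det = (gram B b').det := by
      have h9 : LinearMap.BilinForm.toMatrix (b''.reindex e) B =
          (gram B b').submatrix e.symm e.symm := by
        ext i j
        rw [LinearMap.BilinForm.toMatrix_apply, Matrix.submatrix_apply, Basis.reindex_apply,
          Basis.reindex_apply, Basis.mk_apply, Basis.mk_apply]
        rfl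
      rw [h9, Matrix.det_submatrix_equiv_self]
    refine ⟨(b.toMatrix (b''.reindex e)).det * s, ?_⟩
    rw [← h8, h6, h7]
    ring

end Pool.Agent.PLN
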