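import Mathlib

/-!
# Lattices over `F[t]` in quadratic spaces over `F(t)`: a dual vector

`K = F(t)`. The degree of an element of `K` is `RatFunc.intDegree`.
-/

set_option autoImplicit false

noncomputable section

namespace Pool.Agent.PLN

open Polynomial

variable {F : Type} [Field F]

/-- `x` is an element of the polynomial ring `F[t]` -/
def Intg (x : RatFunc F) : Prop := x ∈ (algebraMap F[X] (RatFunc F)).range

theorem Intg.add {x y : RatFunc F} (hx : Intg x) (hy : Intg y) : Intg (x + y) :=
  Subring.add_mem _ hx hy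

theorem Intg.sub {x y : RatFunc F} (hx : Intg x) (hy : Intg y) : Intg (x - y) :=
  Subring.sub_mem _ hx hy

theorem Intg.mul {x y : RatFunc F} (hx : Intg x) (hy : Intg y) : Intg (x * y) :=
  Subring.mul_mem _ hx hy

theorem Intg.neg {x : RatFunc F} (hx : Intg x) : Intg (-x) :=
  Subring.neg_mem _ hx

theorem Intg.zero : Intg (0 : RatFunc F) := Subring.zero_mem _

theorem Intg.one : Intg (1 : RatFunc F) := Subring.one_mem _

theorem intg_poly (p : F[X]) : Intg (algebraMap F[X] (RatFunc F) p) := ⟨p, rfl⟩

/-- the degree of a nonzero polynomial is not negative -/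
theorem Intg.deg_nonneg {x : RatFunc F} (hx : Intg x) : 0 ≤ x.intDegree := by
  obtain ⟨p, rfl⟩ := hx
  rw [RatFunc.intDegree_polynomial]
  exact Int.natCast_nonneg _

/-- a polynomial of degree zero is a constant -/
theorem Intg.const {x : RatFunc F} (hx : Intg x) (h0 : x ≠ 0) (h : x.intDegree ≤ 0) :
    ∃ c : F, c ≠ 0 ∧ x = algebraMap F[X] (RatFunc F) (C c) := by
  obtain ⟨p, rfl⟩ := hx
  rw [RatFunc.intDegree_polynomial] at h
  have h1 : p.natDegree = 0 := by omega
  rw [Polynomial.natDegree_eq_zero] at h1
  obtain ⟨c, rfl⟩ := h1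
  refine ⟨c, ?_, rfl⟩
  rintro rfl
  exact h0 (by simp)

/-- the polynomial part of a rational function -/
theorem exists_part (x : RatFunc F) : ∃ (c : F[X]) (r : RatFunc F),
    x = algebraMap F[X] (RatFunc F) c + r ∧ (r = 0 ∨ r.intDegree < 0) := by
  have hd : x.denom ≠ 0 := RatFunc.denom_ne_zero x
  have hd' : algebraMap F[X] (RatFunc F) x.denom ≠ 0 := by
    rw [Ne, map_eq_zero_iff _ (RatFunc.algebraMap_injective F)]
    exact hd
  refine ⟨x.num / x.denom, algebraMap F[X] (RatFunc F) (x.num % x.denom) /
    algebraMap F[X] (RatFunc F) x.denom, ?_, ?_⟩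
  · have h1 : x.denom * (x.num / x.denom) + x.num % x.denom = x.num :=
      EuclideanDomain.div_add_mod _ _
    conv_lhs => rw [← RatFunc.num_div_denom x, ← h1]
    rw [map_add, map_mul]
    field_simp
  · by_cases h0 : x.num % x.denom = 0
    · left
      rw [h0, map_zero, zero_div]
    · right
      have h0' : algebraMap F[X] (RatFunc F) (x.num % x.denom) ≠ 0 := by
        rw [Ne, map_eq_zero_iff _ (RatFunc.algebraMap_injective F)]
        exact h0
      rw [RatFunc.intDegree_div h0' hd', RatFunc.intDegree_polynomial,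
        RatFunc.intDegree_polynomial]
      have h2 : (x.num % x.denom).degree < x.denom.degree := EuclideanDomain.mod_lt _ hd
      have h3 := Polynomial.natDegree_lt_natDegree h0 h2
      omega

/-- adding something of smaller degree -/
theorem deg_add_small {x y : RatFunc F} (hx : x ≠ 0) (hy : y = 0 ∨ y.intDegree < x.intDegree) :
    x + y ≠ 0 ∧ (x + y).intDegree = x.intDegree := by
  rcases hy with rfl | hy
  · rw [add_zero]
    exact ⟨hx, rfl⟩
  · by_cases hy0 : y = 0
    · rw [hy0, add_zero]
      exact ⟨hx, rfl⟩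
    have h1 : x + y ≠ 0 := by
      intro h
      have h2 : x = -y := eq_neg_of_add_eq_zero_left h
      rw [h2, RatFunc.intDegree_neg] at hy
      exact lt_irrefl _ hy
    refine ⟨h1, le_antisymm ?_ ?_⟩
    · exact (RatFunc.intDegree_add_le hy0 h1).trans (max_le le_rfl hy.le)
    · have h3 : x = (x + y) + (-y) := by ring
      have h4 : (x + y) + (-y) ≠ 0 := by rwa [← h3]
      have h5 := RatFunc.intDegree_add_le (neg_ne_zero.2 hy0) h4
      rw [← h3, RatFunc.intDegree_neg] at h5
      rcases le_max_iff.1 h5 with h | h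
      · exact h
      · exact absurd (h.trans_lt hy) (lt_irrefl _)

variable {V : Type} [AddCommGroup V] [Module (RatFunc F) V] [Module F[X] V]
  [IsScalarTower F[X] (RatFunc F) V]

theorem smul_eq (a : F[X]) (x : V) : a • x = algebraMap F[X] (RatFunc F) a • x :=
  (algebraMap_smul (RatFunc F) a x).symm

/-- every vector of the span of a lattice has a multiple in the lattice -/
theorem exists_mul_mem {L : Submodule F[X] V} {x : V}
    (hx : x ∈ Submodule.span (RatFunc F) (L : Set V)) : ∃ a : F[X], a ≠ 0 ∧ a • x ∈ L := by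
  induction hx using Submodule.span_induction with
  | mem x hx => exact ⟨1, one_ne_zero, by rwa [one_smul]⟩
  | zero => exact ⟨1, one_ne_zero, by rw [smul_zero]; exact L.zero_mem⟩
  | add x y _ _ hx hy =>
    obtain ⟨a, ha, hax⟩ := hx
    obtain ⟨b, hb, hby⟩ := hy
    refine ⟨a * b, mul_ne_zero ha hb, ?_⟩
    rw [smul_add]
    refine L.add_mem ?_ ?_
    · rw [mul_comm, mul_smul]
      exact L.smul_mem _ hax
    · rw [mul_smul]
      exact L.smul_mem _ hby
  | smul c x _ hx =>
    obtain ⟨a, ha, hax⟩ := hx
    refine ⟨c.denom * a, mul_ne_zero (RatFunc.denom_ne_zero c) ha, ?_⟩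
    have h1 : algebraMap F[X] (RatFunc F) c.denom ≠ 0 := by
      rw [Ne, map_eq_zero_iff _ (RatFunc.algebraMap_injective F)]
      exact RatFunc.denom_ne_zero c
    have h2 : (c.denom * a) • c • x = c.num • a • x := by
      rw [smul_eq, smul_eq, smul_eq, smul_smul, smul_smul, map_mul]
      congr 1
      conv_lhs => rw [← RatFunc.num_div_denom c]
      conv_lhs => rw [RatFunc.num_div_denom c]
      have h3 : c * algebraMap F[X] (RatFunc F) c.denom = algebraMap F[X] (RatFunc F) c.num := by
        conv_lhs => rw [← RatFunc.num_div_denom c]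
        rw [RatFunc.num_div_denom c]
        exact (div_eq_iff h1).1 (RatFunc.num_div_denom c) |>.symm
      rw [← h3]
      ring
    rw [h2]
    exact L.smul_mem _ hax

end Pool.Agent.PLN
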