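import Pool.Agent.PLN.HarderA

/-!
# Lattices over `F[t]` in quadratic spaces over `F(t)`: a dual vector

Let `L` be a lattice in an anisotropic space, such that `deg B(x, x) ≥ e` for all nonzero `x` in `L`.
Then there is a vector `z` in the dual lattice such that `deg B(z, z) ≤ - e`. (Induction on the
dimension, projection along a vector of minimal degree.)
-/

set_option autoImplicit false

noncomputable section

namespace Pool.Agent.PLN

open Polynomial Module

variable {F : Type} [Field F]
  {V : Type} [AddCommGroup V] [Module (RatFunc F) V] [Module F[X] V]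
  [IsScalarTower F[X] (RatFunc F) V]

/-- the projection along `v` -/
def prjAlong (B : LinearMap.BilinForm (RatFunc F) V) (v : V) : V →ₗ[RatFunc F] V :=
  LinearMap.id - ((B v v)⁻¹ • B v).smulRight v

omit [Module F[X] V] [IsScalarTower F[X] (RatFunc F) V] in
theorem prjAlong_apply (B : LinearMap.BilinForm (RatFunc F) V) (v x : V) :
    prjAlong B v x = x - ((B v v)⁻¹ * B v x) • v := by
  simp [prjAlong]

omit [Module F[X] V] [IsScalarTower F[X] (RatFunc F) V] in
theorem prjAlong_orth {B : LinearMap.BilinForm (RatFunc F) V} {v : V} (hv : B v v ≠ 0) (x : V) :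
    B v (prjAlong B v x) = 0 := by
  rw [prjAlong_apply, map_sub, map_smul, smul_eq_mul]
  field_simp
  ring

omit [Module F[X] V] [IsScalarTower F[X] (RatFunc F) V] in
theorem prjAlong_self {B : LinearMap.BilinForm (RatFunc F) V} (hB : ∀ x y, B x y = B y x) {v : V}
    (hv : B v v ≠ 0) (x : V) :
    B (prjAlong B v x) (prjAlong B v x) = B x x - (B v v)⁻¹ * B v x ^ 2 := by
  rw [prjAlong_apply]
  simp only [map_sub, map_smul, LinearMap.sub_apply, LinearMap.smul_apply, smul_eq_mul]
  rw [hB x v]
  field_simp
  ring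

/-- **A vector of the dual lattice of small degree.** -/
theorem exists_dual_vector [FiniteDimensional (RatFunc F) V]
    (B : LinearMap.BilinForm (RatFunc F) V)
    (hB : ∀ x y, B x y = B y x) (e : ℤ) : ∀ (n : ℕ) (U : Submodule (RatFunc F) V)
    (L : Submodule F[X] V), finrank (RatFunc F) U = n → U ≠ ⊥ →
    Submodule.span (RatFunc F) (L : Set V) = U → (∀ x ∈ U, x ≠ 0 → B x x ≠ 0) →
    (∀ x ∈ L, x ≠ 0 → e ≤ (B x x).intDegree) →
    ∃ z ∈ U, z ≠ 0 ∧ (∀ x ∈ L, Intg (B z x)) ∧ (B z z).intDegree ≤ -e := by
  intro n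
  induction n using Nat.strong_induction_on with
  | _ n ih =>
  intro U L hn hU hL hani he
  have hLU : ∀ x ∈ L, x ∈ U := fun x hx => hL ▸ Submodule.subset_span hx
  -- a vector of minimal degree
  have hex : ∃ x ∈ L, x ≠ 0 := by
    by_contra hc
    push Not at hc
    apply hU
    rw [← hL, Submodule.span_eq_bot]
    exact hc
  obtain ⟨d, ⟨v, hv, hv0, hvd⟩, hd⟩ := Int.exists_least_of_bdd
    (P := fun d => ∃ x ∈ L, x ≠ 0 ∧ (B x x).intDegree = d)
    ⟨e, by rintro _ ⟨x, hx, hx0, rfl⟩; exact he x hx hx0⟩
    (by obtain ⟨x, hx, hx0⟩ := hex; exact ⟨_, x, hx, hx0, rfl⟩)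
  have hmin : ∀ x ∈ L, x ≠ 0 → d ≤ (B x x).intDegree := fun x hx hx0 => hd _ ⟨x, hx, hx0, rfl⟩
  have hed : e ≤ d := hvd ▸ he v hv hv0
  have hvv : B v v ≠ 0 := hani v (hLU v hv) hv0
  -- reduction of a vector
  have hred : ∀ x ∈ L, ∃ (a : F[X]) (r : RatFunc F), B v x = algebraMap F[X] (RatFunc F) a * B v v
      + r * B v v ∧ (r = 0 ∨ r.intDegree < 0) := by
    intro x _
    obtain ⟨a, r, h1, h2⟩ := exists_part ((B v v)⁻¹ * B v x)
    refine ⟨a, r, ?_, h2⟩
    rw [← add_mul, ← h1]
    field_simp
  have hvr : ∀ r : RatFunc F, r ≠ 0 → r.intDegree < 0 →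
      (r ^ 2 * B v v).intDegree < d := by
    intro r hr0 hr
    rw [RatFunc.intDegree_mul (pow_ne_zero 2 hr0) hvv, hvd, pow_two,
      RatFunc.intDegree_mul hr0 hr0]
    omega
  let U' : Submodule (RatFunc F) V := U.map (prjAlong B v)
  let L' : Submodule F[X] V := L.map ((prjAlong B v).restrictScalars F[X])
  have hvU : v ∈ U := hLU v hv
  have hU'U : U' ≤ U := by
    rintro _ ⟨x, hx, rfl⟩
    rw [prjAlong_apply]
    exact U.sub_mem hx (U.smul_mem _ hvU)
  have horth : ∀ x ∈ U', B v x = 0 := by
    rintro _ ⟨x, hx, rfl⟩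
    exact prjAlong_orth hvv x
  by_cases hU' : U' = ⊥
  · refine ⟨(B v v)⁻¹ • v, U.smul_mem _ hvU, smul_ne_zero (inv_ne_zero hvv) hv0, ?_, ?_⟩
    · intro x hx
      have h0 : prjAlong B v x = 0 := by
        have : prjAlong B v x ∈ U' := ⟨x, hLU x hx, rfl⟩
        rwa [hU', Submodule.mem_bot] at this
      obtain ⟨a, r, h1, h2⟩ := hred x hx
      have h3 : x = (algebraMap F[X] (RatFunc F) a + r) • v := by
        rw [prjAlong_apply, sub_eq_zero, h1] at h0
        rw [h0]
        congr 1
        field_simp
      have h4 : r = 0 := by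
        by_contra hr
        have h5 : x - a • v = r • v := by
          rw [smul_eq, h3, add_smul]
          abel
        have h6 : r • v ∈ L := h5 ▸ L.sub_mem hx (L.smul_mem a hv)
        have h7 := hmin _ h6 (smul_ne_zero hr hv0)
        have h8 := hvr r hr (h2.resolve_left hr)
        have h9 : B (r • v) (r • v) = r ^ 2 * B v v := by
          simp only [map_smul, LinearMap.smul_apply, smul_eq_mul]
          ring
        rw [h9] at h7
        exact absurd h7 (not_le.2 h8)
      have h10 : B ((B v v)⁻¹ • v) x = algebraMap F[X] (RatFunc F) a := by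
        rw [map_smul, LinearMap.smul_apply, smul_eq_mul, h1, h4]
        field_simp
        ring
      rw [h10]
      exact intg_poly a
    · have h1 : B ((B v v)⁻¹ • v) ((B v v)⁻¹ • v) = (B v v)⁻¹ := by
        simp only [map_smul, LinearMap.smul_apply, smul_eq_mul]
        field_simp
      rw [h1, RatFunc.intDegree_inv, hvd]
      omega
  · have hlt : finrank (RatFunc F) U' < n := by
      rw [← hn]
      refine Submodule.finrank_lt_finrank_of_lt (lt_of_le_of_ne hU'U ?_)
      intro h
      exact hvv (horth v (h ▸ hvU))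
    obtain ⟨z, hz, hz0, hzL, hzd⟩ := ih _ hlt U' L' rfl hU' (by
      change Submodule.span (RatFunc F) (prjAlong B v '' (L : Set V)) =
        Submodule.map (prjAlong B v) U
      rw [← hL, Submodule.map_span]) (fun x hx => hani x (hU'U hx)) (by
      rintro _ ⟨x, hx, rfl⟩ hx0
      change prjAlong B v x ≠ 0 at hx0
      change e ≤ (B (prjAlong B v x) (prjAlong B v x)).intDegree
      obtain ⟨a, r, h1, h2⟩ := hred x hx
      have h3 : prjAlong B v (x - a • v) = prjAlong B v x := by
        rw [prjAlong_apply, prjAlong_apply, smul_eq, map_sub, map_smul, smul_eq_mul]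
        have h4 : (B v v)⁻¹ * (B v x - algebraMap F[X] (RatFunc F) a * B v v) =
            (B v v)⁻¹ * B v x - algebraMap F[X] (RatFunc F) a := by
          field_simp
        rw [h4, sub_smul]
        abel
      have h5 : x - a • v ≠ 0 := by
        intro h
        rw [h, map_zero] at h3
        exact hx0 h3.symm
      have h6 := hmin _ (L.sub_mem hx (L.smul_mem a hv)) h5
      have h7 : B v (x - a • v) = r * B v v := by
        rw [smul_eq, map_sub, map_smul, smul_eq_mul, h1]
        ring
      have h8 : B (prjAlong B v x) (prjAlong B v x) =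
          B (x - a • v) (x - a • v) + -(r ^ 2 * B v v) := by
        rw [← h3, prjAlong_self hB hvv, h7]
        field_simp
        ring
      have h11 := deg_add_small (x := B (x - a • v) (x - a • v)) (y := -(r ^ 2 * B v v))
        (hani _ (U.sub_mem (hLU x hx) (hLU _ (L.smul_mem a hv))) h5) (by
          rcases h2 with rfl | h2
          · left
            ring
          · by_cases hr : r = 0
            · left
              rw [hr]
              ring
            · right
              rw [RatFunc.intDegree_neg]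
              exact (hvr r hr h2).trans_le h6)
      rw [h8, h11.2]
      exact hed.trans h6)
    refine ⟨z, hU'U hz, hz0, fun x hx => ?_, hzd⟩
    have h1 := hzL _ ⟨x, hx, rfl⟩
    change Intg (B z (prjAlong B v x)) at h1
    rw [prjAlong_apply, map_sub, map_smul, hB z v, horth z hz, smul_zero, sub_zero] at h1
    exact h1

end Pool.Agent.PLN
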