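import Pool.Agent.PLN.HarderB

/-!
# Self-dual lattices over `F[t]` in quadratic spaces over `F(t)`

`SelfDual B U L`: `L` is a self-dual lattice in the nondegenerate subspace `U`. Such a lattice contains
a vector `v` such that `B(v, v)` is a nonzero constant if `U` is anisotropic, and a hyperbolic pair
if `U` is isotropic. The orthogonal complements are again self-dual.
-/

set_option autoImplicit false

noncomputable section

namespace Pool.Agent.PLN

open Polynomial Module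

variable {F : Type} [Field F]
  {V : Type} [AddCommGroup V] [Module (RatFunc F) V] [Module F[X] V]
  [IsScalarTower F[X] (RatFunc F) V]

/-- `L` is a self-dual lattice over `F[t]` in the subspace `U` -/
structure SelfDual (B : LinearMap.BilinForm (RatFunc F) V) (U : Submodule (RatFunc F) V)
    (L : Submodule F[X] V) : Prop where
  span : Submodule.span (RatFunc F) (L : Set V) = U
  int : ∀ x ∈ L, ∀ y ∈ L, Intg (B x y)
  dual : ∀ x ∈ U, (∀ y ∈ L, Intg (B x y)) → x ∈ L
  nondeg : ∀ x ∈ U, (∀ y ∈ U, B x y = 0) → x = 0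

variable {B : LinearMap.BilinForm (RatFunc F) V} {U : Submodule (RatFunc F) V}
  {L : Submodule F[X] V}

omit [IsScalarTower F[X] (RatFunc F) V] in
theorem SelfDual.le (h : SelfDual B U L) {x : V} (hx : x ∈ L) : x ∈ U :=
  h.span ▸ Submodule.subset_span hx

/-- a direct summand -/
theorem SelfDual.split (h : SelfDual B U L) (U' : Submodule (RatFunc F) V) (hU' : U' ≤ U)
    (p : V →ₗ[RatFunc F] V) (hpL : ∀ x ∈ L, p x ∈ L) (hpU : ∀ x ∈ U, p x ∈ U')
    (hp : ∀ x ∈ U', ∀ y ∈ U, B x y = B x (p y)) :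
    SelfDual B U' (L ⊓ U'.restrictScalars F[X]) where
  span := by
    apply le_antisymm
    · refine Submodule.span_le.2 fun x hx => ?_
      exact hx.2
    · intro x hx
      have hx' : x ∈ Submodule.span (RatFunc F) (L : Set V) := h.span ▸ hU' hx
      obtain ⟨a, ha, hax⟩ := exists_mul_mem hx'
      have ha' : algebraMap F[X] (RatFunc F) a ≠ 0 := by
        rw [Ne, map_eq_zero_iff _ (RatFunc.algebraMap_injective F)]
        exact ha
      have h1 : x = (algebraMap F[X] (RatFunc F) a)⁻¹ • a • x := by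
        rw [smul_eq, smul_smul, inv_mul_cancel₀ ha', one_smul]
      rw [h1]
      refine Submodule.smul_mem _ _ (Submodule.subset_span ⟨hax, ?_⟩)
      rw [smul_eq]
      exact U'.smul_mem _ hx
  int := fun x hx y hy => h.int x hx.1 y hy.1
  dual := fun x hx hxy => by
    refine ⟨h.dual x (hU' hx) fun y hy => ?_, hx⟩
    rw [hp x hx y (h.le hy)]
    exact hxy _ ⟨hpL y hy, hpU y (h.le hy)⟩
  nondeg := fun x hx hxy => by
    refine h.nondeg x (hU' hx) fun y hy => ?_
    rw [hp x hx y hy]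
    exact hxy _ (hpU y hy)

/-- A self-dual lattice in an anisotropic space has a vector of constant length. -/
theorem SelfDual.exists_const [FiniteDimensional (RatFunc F) V] (h : SelfDual B U L)
    (hB : ∀ x y, B x y = B y x) (hU : U ≠ ⊥) (hani : ∀ x ∈ U, x ≠ 0 → B x x ≠ 0) :
    ∃ v ∈ L, ∃ c : F, c ≠ 0 ∧ B v v = algebraMap F[X] (RatFunc F) (C c) := by
  by_contra hc
  push Not at hc
  have h1 : ∀ x ∈ L, x ≠ 0 → 1 ≤ (B x x).intDegree := by
    intro x hx hx0
    by_contra hlt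
    obtain ⟨c, hc0, hc1⟩ := (h.int x hx x hx).const (hani x (h.le hx) hx0) (by omega)
    exact hc x hx c hc0 hc1
  obtain ⟨z, hz, hz0, hzL, hzd⟩ := exists_dual_vector B hB 1 _ U L rfl hU h.span hani h1
  have h2 : z ∈ L := h.dual z hz hzL
  have h3 := (h.int z h2 z h2).deg_nonneg
  omega

/-- the orthogonal complement of a vector of constant length -/
def orthV (B : LinearMap.BilinForm (RatFunc F) V) (U : Submodule (RatFunc F) V) (v : V) :
    Submodule (RatFunc F) V := U ⊓ LinearMap.ker (B v)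

omit [Module F[X] V] [IsScalarTower F[X] (RatFunc F) V] in
theorem mem_orthV {v x : V} : x ∈ orthV B U v ↔ x ∈ U ∧ B v x = 0 := by
  rw [orthV, Submodule.mem_inf, LinearMap.mem_ker]

theorem SelfDual.orth (h : SelfDual B U L) (hB : ∀ x y, B x y = B y x) {v : V} (hv : v ∈ L)
    {c : F} (hc : c ≠ 0) (hvc : B v v = algebraMap F[X] (RatFunc F) (C c)) :
    SelfDual B (orthV B U v) (L ⊓ (orthV B U v).restrictScalars F[X]) := by
  have hc' : algebraMap F[X] (RatFunc F) (C c) ≠ 0 := by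
    rw [Ne, map_eq_zero_iff _ (RatFunc.algebraMap_injective F)]
    exact Polynomial.C_ne_zero.2 hc
  have hvv : B v v ≠ 0 := hvc ▸ hc'
  have hinv : (B v v)⁻¹ = algebraMap F[X] (RatFunc F) (C c⁻¹) := by
    rw [hvc, inv_eq_iff_eq_inv]
    refine eq_inv_of_mul_eq_one_left ?_
    rw [← map_mul, ← C_mul, mul_inv_cancel₀ hc, C_1, map_one]
  refine h.split _ inf_le_left (prjAlong B v) ?_ ?_ ?_
  · intro x hx
    obtain ⟨a, ha⟩ := h.int v hv x hx
    rw [prjAlong_apply, hinv, ← ha, ← map_mul, ← smul_eq]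
    exact L.sub_mem hx (L.smul_mem _ hv)
  · intro x hx
    refine mem_orthV.2 ⟨?_, prjAlong_orth hvv x⟩
    rw [prjAlong_apply]
    exact U.sub_mem hx (U.smul_mem _ (h.le hv))
  · intro x hx y _
    rw [prjAlong_apply, map_sub, map_smul, hB x v, (mem_orthV.1 hx).2, smul_zero, sub_zero]

/-- **A hyperbolic pair.** -/
theorem SelfDual.exists_pair (h2 : (2 : F) ≠ 0) (h : SelfDual B U L)
    (hB : ∀ x y, B x y = B y x) (hiso : ∃ x ∈ U, x ≠ 0 ∧ B x x = 0) :
    ∃ e ∈ L, ∃ f ∈ L, B e e = 0 ∧ B f f = 0 ∧ B e f = 1 := by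
  obtain ⟨e₀, he₀, he₀0, he₀i⟩ := hiso
  obtain ⟨a₀, ha₀, ha₀L⟩ := exists_mul_mem (h.span ▸ he₀ : e₀ ∈ Submodule.span (RatFunc F) (L : Set V))
  have ha₀' : algebraMap F[X] (RatFunc F) a₀ ≠ 0 := by
    rw [Ne, map_eq_zero_iff _ (RatFunc.algebraMap_injective F)]
    exact ha₀
  obtain ⟨e₁, he₁, he₁0, he₁i⟩ : ∃ e₁ ∈ L, e₁ ≠ 0 ∧ B e₁ e₁ = 0 := by
    refine ⟨a₀ • e₀, ha₀L, ?_, ?_⟩
    · rw [smul_eq]
      exact smul_ne_zero ha₀' he₀0
    · rw [smul_eq]
      simp only [map_smul, LinearMap.smul_apply, smul_eq_mul, he₀i, mul_zero]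
  have hex : ∃ x ∈ L, B e₁ x ≠ 0 := by
    by_contra hc
    push Not at hc
    refine he₁0 (h.nondeg e₁ (h.le he₁) fun y hy => ?_)
    obtain ⟨a, ha, hay⟩ := exists_mul_mem (h.span ▸ hy : y ∈ Submodule.span (RatFunc F) (L : Set V))
    have ha' : algebraMap F[X] (RatFunc F) a ≠ 0 := by
      rw [Ne, map_eq_zero_iff _ (RatFunc.algebraMap_injective F)]
      exact ha
    have h3 := hc _ hay
    rw [smul_eq, map_smul, smul_eq_mul] at h3
    exact (mul_eq_zero.1 h3).resolve_left ha'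
  obtain ⟨d, ⟨x₀, hx₀, hx₀0, hx₀d⟩, hd⟩ := Int.exists_least_of_bdd
    (P := fun d => ∃ x ∈ L, B e₁ x ≠ 0 ∧ (B e₁ x).intDegree = d)
    ⟨0, by rintro _ ⟨x, hx, -, rfl⟩; exact (h.int e₁ he₁ x hx).deg_nonneg⟩
    (by obtain ⟨x, hx, hx0⟩ := hex; exact ⟨_, x, hx, hx0, rfl⟩)
  have hall : ∀ x ∈ L, ∃ a : F[X], B e₁ x = algebraMap F[X] (RatFunc F) a * B e₁ x₀ := by
    intro x hx
    obtain ⟨a, r, h1, h3⟩ := exists_part ((B e₁ x₀)⁻¹ * B e₁ x)
    have h4 : B e₁ x = algebraMap F[X] (RatFunc F) a * B e₁ x₀ + r * B e₁ x₀ := by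
      rw [← add_mul, ← h1]
      field_simp
    by_cases hr : r = 0
    · exact ⟨a, by rw [h4, hr, zero_mul, add_zero]⟩
    · exfalso
      have h5 : B e₁ (x - a • x₀) = r * B e₁ x₀ := by
        rw [smul_eq, map_sub, map_smul, smul_eq_mul, h4]
        ring
      have h6 := hd _ ⟨x - a • x₀, L.sub_mem hx (L.smul_mem a hx₀), by
        rw [h5]
        exact mul_ne_zero hr hx₀0, rfl⟩
      rw [h5, RatFunc.intDegree_mul hr hx₀0, hx₀d] at h6
      have h7 := h3.resolve_left hr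
      omega
  have he : (B e₁ x₀)⁻¹ • e₁ ∈ L := by
    refine h.dual _ (U.smul_mem _ (h.le he₁)) fun y hy => ?_
    obtain ⟨a, ha⟩ := hall y hy
    rw [map_smul, LinearMap.smul_apply, smul_eq_mul, ha]
    have h8 : (B e₁ x₀)⁻¹ * (algebraMap F[X] (RatFunc F) a * B e₁ x₀) =
        algebraMap F[X] (RatFunc F) a := by
      field_simp
    rw [h8]
    exact intg_poly a
  set e : V := (B e₁ x₀)⁻¹ • e₁ with he_def
  have hee : B e e = 0 := by
    rw [he_def]
    simp only [map_smul, LinearMap.smul_apply, smul_eq_mul, he₁i, mul_zero]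
  have hex₀ : B e x₀ = 1 := by
    rw [he_def, map_smul, LinearMap.smul_apply, smul_eq_mul, inv_mul_cancel₀ hx₀0]
  obtain ⟨q, hq⟩ := h.int x₀ hx₀ x₀ hx₀
  have h22 : algebraMap F[X] (RatFunc F) (C (2 : F)⁻¹) * 2 = 1 := by
    have h9 : (2 : RatFunc F) = algebraMap F[X] (RatFunc F) (C 2) := by
      rw [map_ofNat, map_ofNat]
    rw [h9, ← map_mul, ← C_mul, inv_mul_cancel₀ h2, C_1, map_one]
  refine ⟨e, he, x₀ - (C (2 : F)⁻¹ * q) • e, L.sub_mem hx₀ (L.smul_mem _ he), hee, ?_, ?_⟩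
  · rw [smul_eq]
    simp only [map_sub, map_smul, LinearMap.sub_apply, LinearMap.smul_apply, smul_eq_mul, hee,
      hB x₀ e, hex₀, ← hq, map_mul]
    linear_combination (-(algebraMap F[X] (RatFunc F) q)) * h22
  · rw [smul_eq, (B e).map_sub, (B e).map_smul, hee, hex₀, smul_zero, sub_zero]

/-- the orthogonal complement of a hyperbolic pair -/
theorem SelfDual.pair (h : SelfDual B U L) (hB : ∀ x y, B x y = B y x) {e f : V} (he : e ∈ L)
    (hf : f ∈ L) (hee : B e e = 0) (hff : B f f = 0) (hef : B e f = 1) :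
    SelfDual B (orthV B (orthV B U e) f) (L ⊓ (orthV B (orthV B U e) f).restrictScalars F[X]) := by
  have hfe : B f e = 1 := by rw [hB, hef]
  let p : V →ₗ[RatFunc F] V := LinearMap.id - (B f).smulRight e - (B e).smulRight f
  have hp : ∀ x, p x = x - B f x • e - B e x • f := fun x => by simp [p]
  refine h.split _ (inf_le_left.trans inf_le_left) p ?_ ?_ ?_
  · intro x hx
    obtain ⟨a, ha⟩ := h.int f hf x hx
    obtain ⟨b, hb⟩ := h.int e he x hx
    rw [hp, ← ha, ← hb, ← smul_eq, ← smul_eq]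
    exact L.sub_mem (L.sub_mem hx (L.smul_mem _ he)) (L.smul_mem _ hf)
  · intro x hx
    rw [mem_orthV, mem_orthV, hp]
    refine ⟨⟨U.sub_mem (U.sub_mem hx (U.smul_mem _ (h.le he))) (U.smul_mem _ (h.le hf)), ?_⟩, ?_⟩
    · simp only [map_sub, map_smul, smul_eq_mul, hee, hef]
      ring
    · simp only [map_sub, map_smul, smul_eq_mul, hff, hfe]
      ring
  · intro x hx y _
    rw [mem_orthV, mem_orthV] at hx
    rw [hp]
    simp only [map_sub, map_smul, smul_eq_mul, hB x e, hB x f, hx.1.2, hx.2]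
    ring

end Pool.Agent.PLN
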