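import Pool.Agent.PLN.Defs
import Pool.Agent.PLN.Harder
import Pool.Agent.PLN.GlueAll
import Pool.Agent.PLN.Tsen

/-!
# PLN: `N ⊥ (- γ M)` is hyperbolic over `K0 = ℂ(s, t)`

`hyp`: with the data of `glue_all` over `R0 = ℂ(s)[t]` (`ε` the constant `c`), the form
`fromBlocks N 0 0 (- γ M)` of size `card ι + 4 = 2 r` has over `K0` a totally isotropic subspace of
dimension `r`.
PROOF.  `glue_all` gives `Φ = fromBlocks N 0 0 (- γ M) = W^T Ψ W`, `Ψ` symmetric, `det Ψ` a unit of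
`R0`, `det W ≠ 0`.  Apply `harder` to `V = (ι ⊕ Fin 4) → K0`, `B x y = x^T Ψ y`
(`Matrix.toBilin'`) and the lattice `L` of the vectors with entries in the range of
`algebraMap R0 K0` (the span over `R0` of the standard basis): `SelfDual B ⊤ L`: finitely generated,
spans, integral, and self-dual because if `x^T Ψ e_i` is integral for all `i` then `Ψ x` is integral
(`Ψ` symmetric) and `x = Ψ⁻¹ (Ψ x)` with `Ψ⁻¹` over `R0`.  `hT`: `tsen` with `E = RatFunc ℂ` and the
diagonal matrix.  `h2`: characteristic zero.  `hi`: `-1 = (C I)²` in `RatFunc ℂ`.  `nondeg`: `det Ψ ≠ 0`.  `hd`: the Gram determinant in the standard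
basis is `det Ψ`; `det Φ = (det W)² det Ψ`, and
`det Φ = det N det (- γ M) = c det M (γ^4 det M) = c (γ² det M)²` (size 4 is even), where `c` is a
square in `ℂ`; so `det Ψ = (√c γ² det M / det W)²` in `K0`.  `harder` gives `W'` of dimension `r`
totally isotropic for `Ψ`; the preimage of `W'` under the invertible map `W.mulVec` over `K0` has
dimension `r` and is totally isotropic for `Φ`.
-/

set_option autoImplicit false

namespace Pool.Agent.PLN

open Matrix

section gen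

open Polynomial

variable {F : Type} [Field F]

/-- the vectors with integral entries -/
private def hypL (F : Type) [Field F] (κ : Type) : Submodule F[X] (κ → RatFunc F) where
  carrier := {x | ∀ i, Intg (x i)}
  add_mem' := fun hx hy i => (hx i).add (hy i)
  zero_mem' := fun _ => Intg.zero
  smul_mem' := fun p x hx i => by
    rw [Pi.smul_apply, Algebra.smul_def]
    exact (intg_poly p).mul (hx i)

private theorem hyp_intg_sum {κ : Type} [Fintype κ] {f : κ → RatFunc F}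
    (h : ∀ i, Intg (f i)) : Intg (∑ i, f i) := Subring.sum_mem _ fun i _ => h i

private theorem hyp_symm {κ : Type} [Fintype κ] {A : Matrix κ κ (RatFunc F)} (hA : A.IsSymm)
    (x y : κ → RatFunc F) : x ⬝ᵥ (A *ᵥ y) = y ⬝ᵥ (A *ᵥ x) := by
  rw [dotProduct_mulVec, ← mulVec_transpose, hA.eq, dotProduct_comm]

private theorem hyp_unimodular (h2 : (2 : F) ≠ 0)
    (hT : ∀ a b c : F, ∃ x y z : F, (x ≠ 0 ∨ y ≠ 0 ∨ z ≠ 0) ∧
      a * x ^ 2 + b * y ^ 2 + c * z ^ 2 = 0)
    (hi : IsSquare (-1 : F)) {κ : Type} [Fintype κ] [DecidableEq κ] {Ψ : Matrix κ κ F[X]}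
    (hs : Ψ.IsSymm) (hu : IsUnit Ψ.det)
    (hsq : IsSquare (algebraMap F[X] (RatFunc F) Ψ.det)) (r : ℕ)
    (hr : Fintype.card κ = 2 * r) :
    ∃ W : Submodule (RatFunc F) (κ → RatFunc F), Module.finrank (RatFunc F) W = r ∧
      ∀ x ∈ W, ∀ y ∈ W, x ⬝ᵥ (Ψ.map (algebraMap F[X] (RatFunc F)) *ᵥ y) = 0 := by
  obtain ⟨A, hA⟩ : ∃ A : Matrix κ κ (RatFunc F), A = Ψ.map (algebraMap F[X] (RatFunc F)) :=
    ⟨_, rfl⟩
  have hAs : A.IsSymm := by
    rw [hA]
    exact hs.map _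
  have hAi : ∀ i j, Intg (A i j) := by
    intro i j
    rw [hA]
    exact intg_poly _
  obtain ⟨C, hC⟩ : ∃ C : Matrix κ κ (RatFunc F),
    C = (Ψ⁻¹).map (algebraMap F[X] (RatFunc F)) := ⟨_, rfl⟩
  have hCi : ∀ i j, Intg (C i j) := by
    intro i j
    rw [hC]
    exact intg_poly _
  have hCA : C * A = 1 := by
    rw [hC, hA, ← Matrix.map_mul, nonsing_inv_mul Ψ hu, Matrix.map_one _ (map_zero _) (map_one _)]
  have hmul : ∀ (D : Matrix κ κ (RatFunc F)), (∀ i j, Intg (D i j)) → ∀ x : κ → RatFunc F,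
      (∀ i, Intg (x i)) → ∀ i, Intg ((D *ᵥ x) i) := by
    intro D hD x hx i
    exact hyp_intg_sum fun j => (hD i j).mul (hx j)
  have hdot : ∀ x y : κ → RatFunc F, (∀ i, Intg (x i)) → (∀ i, Intg (y i)) →
      Intg (x ⬝ᵥ y) := by
    intro x y hx hy
    exact hyp_intg_sum fun j => (hx j).mul (hy j)
  have hBx : ∀ x y : κ → RatFunc F, Matrix.toBilin' A x y = x ⬝ᵥ (A *ᵥ y) := fun x y =>
    Matrix.toBilin'_apply' A x y
  have hBe : ∀ (x : κ → RatFunc F) (i : κ),
      Matrix.toBilin' A x (Pi.single i 1) = (A *ᵥ x) i := by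
    intro x i
    rw [hBx, hyp_symm hAs, single_dotProduct, one_mul]
  have hback : ∀ x : κ → RatFunc F, C *ᵥ (A *ᵥ x) = x := by
    intro x
    rw [mulVec_mulVec, hCA, one_mulVec]
  have hSD : SelfDual (Matrix.toBilin' A) ⊤ (hypL F κ) := by
    refine ⟨?_, ?_, ?_, ?_⟩
    · rw [← top_le_iff, ← (Pi.basisFun (RatFunc F) κ).span_eq]
      apply Submodule.span_mono
      rintro _ ⟨i, rfl⟩
      change ∀ j, Intg (Pi.basisFun (RatFunc F) κ i j)
      intro j
      rw [Pi.basisFun_apply]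
      by_cases hj : j = i
      · rw [hj, Pi.single_eq_same]
        exact Intg.one
      · rw [Pi.single_eq_of_ne hj]
        exact Intg.zero
    · intro x hx y hy
      rw [hBx]
      exact hdot x _ hx (hmul A hAi y hy)
    · intro x _ hx
      have h1 : ∀ i, Intg ((A *ᵥ x) i) := by
        intro i
        rw [← hBe]
        apply hx
        change ∀ j, Intg ((Pi.single i 1 : κ → RatFunc F) j)
        intro j
        by_cases hj : j = i
        · rw [hj, Pi.single_eq_same]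
          exact Intg.one
        · rw [Pi.single_eq_of_ne hj]
          exact Intg.zero
      have h2 := hmul C hCi _ h1
      rw [hback] at h2
      exact h2
    · intro x _ hx
      have h1 : A *ᵥ x = 0 := by
        funext i
        rw [← hBe]
        exact hx _ Submodule.mem_top
      rw [← hback x, h1, mulVec_zero]
  let e : κ ≃ Fin (2 * r) := Fintype.equivFinOfCardEq hr
  have hd : IsSquare (Matrix.det (Matrix.of fun i j => Matrix.toBilin' A
      ((Pi.basisFun (RatFunc F) κ).reindex e i) ((Pi.basisFun (RatFunc F) κ).reindex e j))) := by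
    have h : (Matrix.of fun i j => Matrix.toBilin' A ((Pi.basisFun (RatFunc F) κ).reindex e i)
        ((Pi.basisFun (RatFunc F) κ).reindex e j)) = A.submatrix e.symm e.symm := by
      ext i j
      rw [of_apply, Module.Basis.reindex_apply, Module.Basis.reindex_apply, Pi.basisFun_apply,
        Pi.basisFun_apply, hBe, mulVec_single_one, submatrix_apply]
      exact hAs.apply _ _
    rw [h, det_submatrix_equiv_self]
    have h' : A.det = algebraMap F[X] (RatFunc F) Ψ.det := by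
      rw [hA, RingHom.map_det]
      rfl
    rw [h']
    exact hsq
  obtain ⟨W, hW, hW2⟩ := harder h2 hT hi
    (fun x y => by rw [hBx, hBx]; exact hyp_symm hAs x y) hSD
    ((Pi.basisFun (RatFunc F) κ).reindex e) hd
  refine ⟨W, hW, fun x hx y hy => ?_⟩
  rw [← hA, ← hBx]
  exact hW2 x hx y hy

private theorem hyp_gen (h2 : (2 : F) ≠ 0)
    (hT : ∀ a b c : F, ∃ x y z : F, (x ≠ 0 ∨ y ≠ 0 ∨ z ≠ 0) ∧
      a * x ^ 2 + b * y ^ 2 + c * z ^ 2 = 0)
    (hi : IsSquare (-1 : F)) {κ : Type} [Fintype κ] [DecidableEq κ] {Φ W Ψ : Matrix κ κ F[X]}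
    (hs : Ψ.IsSymm) (hu : IsUnit Ψ.det) (hWd : W.det ≠ 0) (hΦ : Φ = Wᵀ * Ψ * W)
    {s : F[X]} (hsq : Φ.det = s * s) (r : ℕ) (hr : Fintype.card κ = 2 * r) :
    ∃ W : Submodule (RatFunc F) (κ → RatFunc F), Module.finrank (RatFunc F) W = r ∧
      ∀ x ∈ W, ∀ y ∈ W, x ⬝ᵥ (Φ.map (algebraMap F[X] (RatFunc F)) *ᵥ y) = 0 := by
  have hinj : Function.Injective (algebraMap F[X] (RatFunc F)) := RatFunc.algebraMap_injective F
  obtain ⟨WK, hWK⟩ : ∃ WK : Matrix κ κ (RatFunc F),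
    WK = W.map (algebraMap F[X] (RatFunc F)) := ⟨_, rfl⟩
  obtain ⟨ΨK, hΨK⟩ : ∃ ΨK : Matrix κ κ (RatFunc F),
    ΨK = Ψ.map (algebraMap F[X] (RatFunc F)) := ⟨_, rfl⟩
  have hW0 : algebraMap F[X] (RatFunc F) W.det ≠ 0 := by
    rw [Ne, map_eq_zero_iff _ hinj]
    exact hWd
  have hWKd : WK.det = algebraMap F[X] (RatFunc F) W.det := by
    rw [hWK, RingHom.map_det]
    rfl
  have hWK0 : IsUnit WK.det := by
    rw [hWKd]
    exact IsUnit.mk0 _ hW0
  have hΨsq : IsSquare (algebraMap F[X] (RatFunc F) Ψ.det) := by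
    refine ⟨algebraMap F[X] (RatFunc F) s / algebraMap F[X] (RatFunc F) W.det, ?_⟩
    rw [div_mul_div_comm, eq_div_iff (mul_ne_zero hW0 hW0), ← map_mul, ← map_mul, ← map_mul,
      ← hsq, hΦ, det_mul, det_mul, det_transpose]
    congr 1
    ring
  obtain ⟨W', hW'r, hW'⟩ := hyp_unimodular h2 hT hi hs hu hΨsq r hr
  refine ⟨W'.map (Matrix.toLin'OfInv (mul_nonsing_inv WK hWK0) (nonsing_inv_mul WK hWK0) :
    (κ → RatFunc F) →ₗ[RatFunc F] (κ → RatFunc F)), ?_, ?_⟩
  · rw [LinearEquiv.finrank_map_eq]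
    exact hW'r
  · rintro _ ⟨x, hx, rfl⟩ _ ⟨y, hy, rfl⟩
    have key : ∀ v : κ → RatFunc F, WK *ᵥ ((Matrix.toLin'OfInv (mul_nonsing_inv WK hWK0)
        (nonsing_inv_mul WK hWK0) :
          (κ → RatFunc F) →ₗ[RatFunc F] (κ → RatFunc F)) v) = v := by
      intro v
      change WK *ᵥ (Matrix.toLin' WK⁻¹ v) = v
      rw [Matrix.toLin'_apply, mulVec_mulVec, mul_nonsing_inv WK hWK0, one_mulVec]
    have hΦK : Φ.map (algebraMap F[X] (RatFunc F)) = WKᵀ * ΨK * WK := by
      rw [hΦ, Matrix.map_mul, Matrix.map_mul, hWK, hΨK, transpose_map]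
    rw [hΦK, ← mulVec_mulVec, ← mulVec_mulVec, dotProduct_mulVec, vecMul_transpose, key, key,
      hΨK]
    exact hW' x hx y hy

end gen

private theorem hyp_tsen (a b c : F0) : ∃ x y z : F0, (x ≠ 0 ∨ y ≠ 0 ∨ z ≠ 0) ∧
    a * x ^ 2 + b * y ^ 2 + c * z ^ 2 = 0 := by
  obtain ⟨x, hx0, hx⟩ := tsen (E := RatFunc ℂ) (diagonal ![a, b, c])
  refine ⟨x 0, x 1, x 2, ?_, ?_⟩
  · by_contra hcon
    push Not at hcon
    apply hx0
    funext i
    fin_cases i
    · exact hcon.1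
    · exact hcon.2.1
    · exact hcon.2.2
  · rw [← hx]
    simp only [dotProduct, mulVec_diagonal, Fin.sum_univ_three]
    simp only [cons_val_zero, cons_val_one, cons_val]
    ring

theorem hyp {ι : Type} [Fintype ι] [DecidableEq ι] {N : Matrix ι ι R0}
    {M : Matrix (Fin 4) (Fin 4) R0} (hN : N.IsSymm) (hM : M.IsSymm) (hδ : Prime M.det) {c : ℂ}
    (hc : c ≠ 0) (hd : N.det = Polynomial.C (algebraMap ℂ F0 c) * M.det) {γ : R0}
    (hγ : IsUnit γ ∨ (Prime γ ∧ ¬ γ ∣ M.det ∧ Ruled M γ)) (i : ι) (j : Fin 4) (a g : R0)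
    (ha : ¬ M.det ∣ a) (hne : ¬ M.det ∣ γ * M.adjugate j j * N.adjugate i i)
    (hsq : M.det ∣ a ^ 2 * (Polynomial.C (algebraMap ℂ F0 c) *
      (γ * M.adjugate j j * N.adjugate i i)) - g ^ 2) (r : ℕ) (hr : Fintype.card ι + 4 = 2 * r) :
    ∃ W : Submodule K0 (ι ⊕ Fin 4 → K0), Module.finrank K0 W = r ∧ ∀ x ∈ W, ∀ y ∈ W,
      x ⬝ᵥ ((fromBlocks N 0 0 (-(γ • M))).map (algebraMap R0 K0) *ᵥ y) = 0 := by
  have hc' : algebraMap ℂ F0 c ≠ 0 := by
    rw [Ne, map_eq_zero_iff _ (algebraMap ℂ F0).injective]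
    exact hc
  have hε : IsUnit (Polynomial.C (algebraMap ℂ F0 c) : R0) :=
    Polynomial.isUnit_C.2 (IsUnit.mk0 _ hc')
  obtain ⟨W, Ψ, hΨs, hΨd, hWd, hΦ⟩ := glue_all hN hM hδ hε hd hγ i j a g ha hne hsq
  have h2 : (2 : F0) ≠ 0 := by
    have h : (algebraMap ℂ F0) 2 ≠ 0 := by
      rw [Ne, map_eq_zero_iff _ (algebraMap ℂ F0).injective]
      norm_num
    rwa [map_ofNat] at h
  have hi : IsSquare (-1 : F0) :=
    ⟨algebraMap ℂ F0 Complex.I, by rw [← map_mul, Complex.I_mul_I, map_neg, map_one]⟩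
  obtain ⟨z, hz⟩ := IsAlgClosed.exists_eq_mul_self c
  have hdet : (fromBlocks N 0 0 (-(γ • M))).det =
      (Polynomial.C (algebraMap ℂ F0 z) * γ ^ 2 * M.det) *
        (Polynomial.C (algebraMap ℂ F0 z) * γ ^ 2 * M.det) := by
    rw [det_fromBlocks_zero₂₁, det_neg, det_smul, Fintype.card_fin, hd, hz, map_mul,
      Polynomial.C_mul]
    ring
  exact hyp_gen h2 hyp_tsen hi hΨs hΨd hWd hΦ hdet r
    (by rw [Fintype.card_sum, Fintype.card_fin]; exact hr)

end Pool.Agent.PLN
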