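import Pool.Agent.PLN.Defs

/-!
# PLN: first properties of a model of the function field

`affK_aeval`: `σ (affK g) = aeval x (up g)` for `g` in `ℂ[x0, x1, x2]` (both sides are ring
homomorphisms `S3 → L` which agree on constants (`Model.com`) and variables (`Model.x0`, `map_s`,
`map_t`); `MvPolynomial.ringHom_ext`).

`quad`: `∑ i j, σ (affK (M i j)) z_i z_j = 0` with `z = zz x`
(`cubic M` is homogeneous of degree 3 by `IsCub` (`up (M i j) * zc i * zc j`), `Model.ker` with
`G = cubic M`, `aeval x (zc i) = zz x i`, `affK_aeval`).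

`sig_mem`: the image of `σ` is in `ℂ(x 1, x 2)`: every element of `K0` is a quotient of elements of
`R0 = F0[t]` (`IsFractionRing.div_surjective`), `Polynomial.induction_on`, and every element of
`F0 = RatFunc ℂ` is a quotient of elements of `ℂ[s]`.
-/

set_option autoImplicit false

namespace Pool.Agent.PLN

open MvPolynomial Matrix

variable {M : Matrix (Fin 4) (Fin 4) S3} {L : Type} [Field L] [Algebra ℂ L] {x : Fin 6 → L}
  {σ : K0 →+* L}

theorem affK_aeval (h : Model M L x σ) (g : S3) : σ (affK g) = aeval x (up g) := by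
  have h1 : σ.comp affK = (aeval x : S6 →ₐ[ℂ] L).toRingHom.comp (up : S3 →ₐ[ℂ] S6).toRingHom := by
    refine MvPolynomial.ringHom_ext (fun r => ?_) (fun i => ?_)
    · have e1 : (up : S3 →ₐ[ℂ] S6) (C r) = C r := by simp [up]
      have e2 : affK (C r) = algebraMap R0 K0 (Polynomial.C (algebraMap ℂ F0 r)) := by
        have e3 : aff (C r) = Polynomial.C (algebraMap ℂ F0 r) := by
          rw [aff, aeval_C]
          rfl
        change algebraMap R0 K0 (aff (C r)) = _
        rw [e3]
      change σ (affK (C r)) = aeval x (up (C r))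
      rw [e1, e2, h.com, aeval_C]
    · change σ (affK (X i)) = aeval x (up (X i))
      have e0 : affK (X i) = algebraMap R0 K0 (aff (X i)) := rfl
      rw [e0, up, rename_X, aeval_X, aff, aeval_X]
      fin_cases i
      · change σ (algebraMap R0 K0 1) = x 0
        rw [map_one, map_one, h.x0]
      · exact h.map_s
      · exact h.map_t
  exact RingHom.congr_fun h1 g

private theorem modelA_zc_hom (i : Fin 4) : (zc i).IsHomogeneous (1 - wt i) := by
  fin_cases i
  · exact isHomogeneous_X ℂ 3
  · exact isHomogeneous_X ℂ 4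
  · exact isHomogeneous_X ℂ 5
  · exact isHomogeneous_one (Fin 6) ℂ

private theorem modelA_wt_le (i : Fin 4) : wt i ≤ 1 := by
  fin_cases i <;> simp [wt]

private theorem modelA_cubic_hom (hM : IsCub M) : (cubic M).IsHomogeneous 3 := by
  unfold cubic
  refine IsHomogeneous.sum _ _ _ fun i _ => IsHomogeneous.sum _ _ _ fun j _ => ?_
  have h1 : (up (M i j)).IsHomogeneous (1 + wt i + wt j) :=
    (hM.hom i j).rename_isHomogeneous
  have h2 := (h1.mul (modelA_zc_hom i)).mul (modelA_zc_hom j)
  have h3 : 1 + wt i + wt j + (1 - wt i) + (1 - wt j) = 3 := by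
    have := modelA_wt_le i
    have := modelA_wt_le j
    omega
  rwa [h3] at h2

private theorem modelA_zz (i : Fin 4) : aeval x (zc i) = zz x i := by
  fin_cases i
  · exact aeval_X x 3
  · exact aeval_X x 4
  · exact aeval_X x 5
  · exact map_one _

theorem quad (hM : IsCub M) (h : Model M L x σ) :
    ∑ i, ∑ j, σ (affK (M i j)) * zz x i * zz x j = 0 := by
  have h1 := (h.ker (cubic M) 3 (modelA_cubic_hom hM)).2 dvd_rfl
  rw [cubic, map_sum] at h1
  rw [← h1]
  refine Finset.sum_congr rfl fun i _ => ?_
  rw [map_sum]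
  refine Finset.sum_congr rfl fun j _ => ?_
  rw [map_mul, map_mul, modelA_zz, modelA_zz, affK_aeval h]

private theorem modelA_poly (h : Model M L x σ) (f : Polynomial ℂ) :
    σ (algebraMap R0 K0 (Polynomial.C (algebraMap (Polynomial ℂ) F0 f))) ∈
      IntermediateField.adjoin ℂ ({x 1, x 2} : Set L) := by
  induction f using Polynomial.induction_on' with
  | add p q hp hq =>
    rw [map_add, map_add, map_add, map_add]
    exact add_mem hp hq
  | monomial n a =>
    rw [← Polynomial.C_mul_X_pow_eq_monomial, map_mul, map_mul, map_mul, map_mul]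
    refine mul_mem ?_ ?_
    · have h1 : algebraMap (Polynomial ℂ) F0 (Polynomial.C a) = algebraMap ℂ F0 a := by
        rw [RatFunc.algebraMap_C, RatFunc.algebraMap_eq_C]
      rw [h1, h.com]
      exact IntermediateField.algebraMap_mem _ a
    · rw [map_pow, map_pow, map_pow, map_pow, RatFunc.algebraMap_X, h.map_s]
      exact pow_mem (IntermediateField.subset_adjoin ℂ _ (by simp)) n

private theorem modelA_F0 (h : Model M L x σ) (f : F0) :
    σ (algebraMap R0 K0 (Polynomial.C f)) ∈
      IntermediateField.adjoin ℂ ({x 1, x 2} : Set L) := by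
  obtain ⟨p, q, hq, rfl⟩ := IsFractionRing.div_surjective (A := Polynomial ℂ) f
  have hq0 : q ≠ 0 := nonZeroDivisors.ne_zero hq
  have hq1 : algebraMap (Polynomial ℂ) F0 q ≠ 0 := by
    rw [Ne, IsFractionRing.to_map_eq_zero_iff]
    exact hq0
  have h1 := modelA_poly h p
  have h2 := modelA_poly h q
  have h3 : Polynomial.C (algebraMap (Polynomial ℂ) F0 p / algebraMap (Polynomial ℂ) F0 q) *
      Polynomial.C (algebraMap (Polynomial ℂ) F0 q) =
      Polynomial.C (algebraMap (Polynomial ℂ) F0 p) := by
    rw [← Polynomial.C_mul, div_mul_cancel₀ _ hq1]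
  have h4 := congrArg (fun y => σ (algebraMap R0 K0 y)) h3
  simp only [map_mul] at h4
  have h5 : σ (algebraMap R0 K0 (Polynomial.C (algebraMap (Polynomial ℂ) F0 q))) ≠ 0 := by
    intro h0
    rw [map_eq_zero, IsFractionRing.to_map_eq_zero_iff, Polynomial.C_eq_zero] at h0
    exact hq1 h0
  rw [← eq_div_iff h5] at h4
  rw [h4]
  exact div_mem h1 h2

theorem sig_mem (h : Model M L x σ) (k : K0) :
    σ k ∈ IntermediateField.adjoin ℂ ({x 1, x 2} : Set L) := by
  have h1 : ∀ f : R0, σ (algebraMap R0 K0 f) ∈
      IntermediateField.adjoin ℂ ({x 1, x 2} : Set L) := by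
    intro f
    induction f using Polynomial.induction_on' with
    | add p q hp hq =>
      rw [map_add, map_add]
      exact add_mem hp hq
    | monomial n a =>
      rw [← Polynomial.C_mul_X_pow_eq_monomial, map_mul, map_mul]
      refine mul_mem (modelA_F0 h a) ?_
      rw [map_pow, map_pow, h.map_t]
      exact pow_mem (IntermediateField.subset_adjoin ℂ _ (by simp)) n
  obtain ⟨p, q, hq, rfl⟩ := IsFractionRing.div_surjective (A := R0) k
  have h2 : σ (algebraMap R0 K0 p / algebraMap R0 K0 q) =
      σ (algebraMap R0 K0 p) / σ (algebraMap R0 K0 q) := map_div₀ σ _ _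
  rw [h2]
  exact div_mem (h1 p) (h1 q)

end Pool.Agent.PLN
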