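import Mathlib

/-!
# PLN: primitive vectors over a principal ideal domain

`exists_gl`: a primitive vector (its entries generate the unit ideal) is a column of an invertible
matrix.  PROOF.  Let `w` with `∑ w i x i = 1`; the linear functional `f v = ∑ w i v i` on
`R ^ ι` has `f x = 1`, so `R ^ ι = R x ⊕ ker f`, `ker f` is free (`Submodule.basisOfPid` or
`Module.free_of_finite_type_torsion_free'`) of rank `card ι - 1`; a basis of `R ^ ι` which consists of
`x` (at the index `i0`) and of a basis of `ker f`, indexed by `ι`; `U` is the matrix of this basis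
(`Basis.toMatrix`; the determinant is a unit: `Basis.isUnit_det`, or `Basis.toMatrix_mul_toMatrix_flip`).

`exists_content`: every vector `x ≠ 0` is `g • x'` with `x'` primitive (generator `g` of the ideal
spanned by the entries).
-/

set_option autoImplicit false

namespace Pool.Agent.PLN

open Matrix

variable {R : Type} [CommRing R] [IsDomain R] [IsPrincipalIdealRing R]
  {ι : Type} [Fintype ι] [DecidableEq ι]

private theorem PrimCol_equiv {w x : ι → R} (hw : w ⬝ᵥ x = 1) :
    ∃ (f : (ι → R) →ₗ[R] R) (e : (R × LinearMap.ker f) ≃ₗ[R] (ι → R)),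
      ∀ r, e (r, 0) = r • x := by
  let f : (ι → R) →ₗ[R] R :=
    { toFun := fun v => w ⬝ᵥ v
      map_add' := fun u v => dotProduct_add w u v
      map_smul' := fun c v => dotProduct_smul c w v }
  have hf : ∀ v, f v = w ⬝ᵥ v := fun v => rfl
  refine ⟨f, LinearEquiv.ofBijective
    ((LinearMap.toSpanSingleton R (ι → R) x).coprod (LinearMap.ker f).subtype) ⟨?_, ?_⟩, ?_⟩
  · rw [← LinearMap.ker_eq_bot, LinearMap.ker_eq_bot']
    rintro ⟨r, k, hk⟩ h
    have h1 : r • x + k = 0 := by simpa using h
    have hk0 : f k = 0 := hk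
    have h2 : r = 0 := by
      have h3 := congrArg f h1
      rw [map_add, map_smul, hk0, map_zero, add_zero, hf x, hw] at h3
      simpa using h3
    subst h2
    have h4 : k = 0 := by simpa using h1
    subst h4
    rfl
  · intro v
    refine ⟨(f v, ⟨v - f v • x, ?_⟩), ?_⟩
    · rw [LinearMap.mem_ker, map_sub, map_smul, hf x, hw]
      simp
    · simp
  · intro r
    simp

theorem exists_gl {x : ι → R} (hx : ∃ w : ι → R, w ⬝ᵥ x = 1) (i0 : ι) :
    ∃ U : Matrix ι ι R, IsUnit U.det ∧ ∀ i, U i i0 = x i := by
  classical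
  obtain ⟨w, hw⟩ := hx
  obtain ⟨f, e, he⟩ := PrimCol_equiv hw
  have hfree : Module.Free R (LinearMap.ker f) := inferInstance
  have hfin : Module.Finite R (LinearMap.ker f) := inferInstance
  have hrank : Module.finrank R (LinearMap.ker f) = Fintype.card {i // ¬ i = i0} := by
    have h1 := LinearEquiv.finrank_eq e
    rw [Module.finrank_prod, Module.finrank_self, Module.finrank_pi] at h1
    have h2 : Fintype.card {i // ¬ i = i0} = Fintype.card ι - 1 := by
      rw [Fintype.card_subtype_compl]
      simp
    omega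
  let b0 : Module.Basis {i // ¬ i = i0} R (LinearMap.ker f) :=
    (Module.finBasisOfFinrankEq R (LinearMap.ker f) hrank).reindex (Fintype.equivFin _).symm
  let b1 : Module.Basis ({i // i = i0} ⊕ {i // ¬ i = i0}) R (R × LinearMap.ker f) :=
    (Module.Basis.singleton {i // i = i0} R).prod b0
  let B : Module.Basis ι R (ι → R) :=
    (b1.reindex (Equiv.sumCompl (fun i => i = i0))).map e
  refine ⟨(Pi.basisFun R ι).toMatrix B, ?_, ?_⟩
  · rw [← Module.Basis.det_apply]
    exact Module.Basis.isUnit_det _ _
  · intro i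
    have h1 : (Equiv.sumCompl (fun i => i = i0)).symm i0 = Sum.inl ⟨i0, rfl⟩ :=
      Equiv.sumCompl_symm_apply_of_pos (p := fun i => i = i0) rfl
    have h2 : B i0 = x := by
      simp only [B, Module.Basis.map_apply, Module.Basis.reindex_apply, h1, b1]
      rw [Module.Basis.prod_apply]
      simp [he]
    rw [Module.Basis.toMatrix_apply, h2]
    simp

omit [DecidableEq ι] in
theorem exists_content {x : ι → R} (hx : x ≠ 0) :
    ∃ (g : R) (y : ι → R), x = g • y ∧ g ≠ 0 ∧ ∃ w : ι → R, w ⬝ᵥ y = 1 := by
  obtain ⟨g, hg⟩ := (IsPrincipalIdealRing.principal (Ideal.span (Set.range x))).principal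
  have h1 : ∀ i, ∃ y, x i = g * y := by
    intro i
    have h2 : x i ∈ Ideal.span (Set.range x) := Ideal.subset_span ⟨i, rfl⟩
    rw [hg] at h2
    obtain ⟨c, hc⟩ := Submodule.mem_span_singleton.mp h2
    exact ⟨c, by rw [← hc, smul_eq_mul, mul_comm]⟩
  choose y hy using h1
  have hg0 : g ≠ 0 := by
    rintro rfl
    apply hx
    funext i
    rw [hy i, zero_mul]
    rfl
  have h3 : g ∈ Ideal.span (Set.range x) := by
    rw [hg]
    exact Submodule.mem_span_singleton_self g
  obtain ⟨c, hc⟩ := (Submodule.mem_span_range_iff_exists_fun R).mp h3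
  refine ⟨g, y, ?_, hg0, c, ?_⟩
  · funext i
    rw [hy i]
    rfl
  · have h4 : g * (c ⬝ᵥ y) = g * 1 := by
      rw [mul_one, dotProduct, Finset.mul_sum]
      conv_rhs => rw [← hc]
      refine Finset.sum_congr rfl fun i _ => ?_
      rw [hy i, smul_eq_mul]
      ring
    exact mul_left_cancel₀ hg0 h4

end Pool.Agent.PLN
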