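import Pool.Agent.PLN.ModelA

/-!
# The embedding of `ℂ(s, t)` in the function field
-/

set_option autoImplicit false

noncomputable section

namespace Pool.Agent.PLN

open MvPolynomial Matrix

variable {M : Matrix (Fin 4) (Fin 4) S3} {L : Type} [Field L] [Algebra ℂ L]
  {x : Fin 6 → L} {σ : K0 →+* L}

/-- The image of `ℂ(s, t)` is the field generated by `x 1` and `x 2`. -/
theorem Model.sigma_mem (h : Model M L x σ) {T : IntermediateField ℂ L} (h1 : x 1 ∈ T)
    (h2 : x 2 ∈ T) (f : K0) : σ f ∈ T := by
  have h3 : IntermediateField.adjoin ℂ ({x 1, x 2} : Set L) ≤ T := by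
    rw [IntermediateField.adjoin_le_iff]
    rintro z hz
    rcases hz with rfl | rfl
    · exact h1
    · exact h2
  exact h3 (sig_mem h f)

/-- The value of a polynomial on the base at the generic point. -/
theorem Model.sigma_aff (h : Model M L x σ) (f : S3) :
    σ (affK f) = aeval ![1, x 1, x 2] f := by
  induction f using MvPolynomial.induction_on with
  | C a =>
    have e : affK (C a) = algebraMap R0 K0 (Polynomial.C (algebraMap ℂ F0 a)) := by
      unfold affK
      rw [RingHom.comp_apply]
      congr 1
      change aff (C a) = _
      rw [aff, aeval_C]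
      rfl
    rw [e, h.com, aeval_C]
  | add p q hp hq => rw [map_add, map_add, map_add, hp, hq]
  | mul_X p n hp =>
    rw [map_mul, map_mul, map_mul, hp, aeval_X]
    congr 1
    have e : affK (X n) = algebraMap R0 K0 (![1, Polynomial.C RatFunc.X, Polynomial.X] n) := by
      unfold affK
      rw [RingHom.comp_apply]
      congr 1
      change aff (X n) = _
      rw [aff, aeval_X]
    rw [e]
    fin_cases n
    · simp
    · exact h.map_s
    · exact h.map_t

end Pool.Agent.PLN
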