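import Mathlib

/-!
# Projection of a quadric from one of its points

A point `P` of a quadric surface with the equation `Q` is determined by two parameters if a point
`P₀` of the quadric is given.
-/

set_option autoImplicit false

noncomputable section

namespace Pool.Agent.PLN

variable {k L : Type} [Field k] [Field L] [Algebra k L]

private theorem VerraB_mem {T : IntermediateField k L} {Q : Matrix (Fin 4) (Fin 4) L}
    (hQ : ∀ i j, Q i j ∈ T) {u v : Fin 4 → L} (hu : ∀ i, u i ∈ T) (hv : ∀ i, v i ∈ T) :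
    Matrix.toBilin' Q u v ∈ T := by
  rw [Matrix.toBilin'_apply]
  exact T.sum_mem fun i _ => T.sum_mem fun j _ => T.mul_mem (T.mul_mem (hu i) (hQ i j)) (hv j)

private theorem VerraB_idx : ∀ i l : Fin 4, i ≠ l → ∃ m n : Fin 4,
    ∀ k : Fin 4, k = i ∨ k = l ∨ k = m ∨ k = n := by decide

/-- **Projection of a quadric surface.** -/
theorem quadric_param {T₁ : IntermediateField k L} {Q : Matrix (Fin 4) (Fin 4) L}
    (hs : Q.IsSymm) (hQ : ∀ i j, Q i j ∈ T₁) {P₀ P : Fin 4 → L} (h₀ : ∀ i, P₀ i ∈ T₁)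
    (hq₀ : Matrix.toBilin' Q P₀ P₀ = 0) (hq : Matrix.toBilin' Q P P = 0)
    (hb : Matrix.toBilin' Q P₀ P ≠ 0) (h2 : (2 : L) ≠ 0) :
    ∃ a b : L, (∀ T : IntermediateField k L, T₁ ≤ T → (∀ i, P i ∈ T) → a ∈ T ∧ b ∈ T) ∧
      ∀ T : IntermediateField k L, T₁ ≤ T → a ∈ T → b ∈ T →
        ∃ κ : L, κ ≠ 0 ∧ ∀ i, κ * P i ∈ T := by
  set B := Matrix.toBilin' Q with hB
  have hsym : ∀ u v, B u v = B v u := by
    intro u v
    rw [hB, Matrix.toBilin'_apply, Matrix.toBilin'_apply, Finset.sum_comm]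
    refine Finset.sum_congr rfl fun i _ => Finset.sum_congr rfl fun j _ => ?_
    rw [show Q j i = Q i j from hs.apply i j]
    ring
  have hP₀ : P₀ ≠ 0 := by
    rintro rfl
    rw [map_zero, LinearMap.zero_apply] at hb
    exact hb rfl
  obtain ⟨i, hi⟩ := Function.ne_iff.1 hP₀
  rw [Pi.zero_apply] at hi
  let c : L := P i / P₀ i
  let u : Fin 4 → L := P - c • P₀
  have hui : u i = 0 := by
    change P i - P i / P₀ i * P₀ i = 0
    rw [div_mul_cancel₀ _ hi, sub_self]
  have hbu : B P₀ u = B P₀ P := by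
    change B P₀ (P - c • P₀) = _
    rw [map_sub, map_smul, hq₀, smul_zero, sub_zero]
  have huu : B u u = -(2 * c * B P₀ P) := by
    change B (P - c • P₀) (P - c • P₀) = _
    simp only [map_sub, map_smul, LinearMap.sub_apply, LinearMap.smul_apply, smul_eq_mul, hq, hq₀,
      hsym P P₀]
    ring
  have hu0 : u ≠ 0 := by
    intro h
    rw [← hbu, h, map_zero] at hb
    exact hb rfl
  obtain ⟨l, hl⟩ := Function.ne_iff.1 hu0
  rw [Pi.zero_apply] at hl
  have hil : i ≠ l := by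
    rintro rfl
    exact hl hui
  obtain ⟨m, n, hmn⟩ := VerraB_idx i l hil
  refine ⟨u m / u l, u n / u l, ?_, ?_⟩
  · intro T hT hPT
    have hu : ∀ k, u k ∈ T := fun k => T.sub_mem (hPT k)
      (T.mul_mem (T.div_mem (hPT i) (hT (h₀ i))) (hT (h₀ k)))
    exact ⟨T.div_mem (hu m) (hu l), T.div_mem (hu n) (hu l)⟩
  · intro T hT ha hb'
    let u' : Fin 4 → L := (u l)⁻¹ • u
    have hu' : ∀ k, u' k ∈ T := by
      intro k
      have e : u' k = u k / u l := by
        change (u l)⁻¹ * u k = _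
        rw [div_eq_mul_inv, mul_comm]
      rw [e]
      rcases hmn k with rfl | rfl | rfl | rfl
      · rw [hui, zero_div]
        exact T.zero_mem
      · rw [div_self hl]
        exact T.one_mem
      · exact ha
      · exact hb'
    have e1 : B P₀ u' = (u l)⁻¹ * B P₀ P := by
      change B P₀ ((u l)⁻¹ • u) = _
      rw [map_smul, hbu, smul_eq_mul]
    have e2 : B u' u' = -((u l)⁻¹ ^ 2 * (2 * c * B P₀ P)) := by
      change B ((u l)⁻¹ • u) ((u l)⁻¹ • u) = _
      simp only [map_smul, LinearMap.smul_apply, smul_eq_mul, huu]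
      ring
    refine ⟨-(2 * B P₀ P * (u l)⁻¹ ^ 2),
      neg_ne_zero.2 (mul_ne_zero (mul_ne_zero h2 hb) (pow_ne_zero 2 (inv_ne_zero hl))),
      fun k => ?_⟩
    have e3 : -(2 * B P₀ P * (u l)⁻¹ ^ 2) * P k =
        B u' u' * P₀ k - 2 * B P₀ u' * u' k := by
      have e4 : u' k = (u l)⁻¹ * (P k - c * P₀ k) := rfl
      rw [e1, e2, e4]
      ring
    rw [e3]
    have h2T : (2 : L) ∈ T := ofNat_mem T 2
    exact T.sub_mem (T.mul_mem (VerraB_mem (fun i j => hT (hQ i j)) hu' hu') (hT (h₀ k)))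
      (T.mul_mem (T.mul_mem h2T (VerraB_mem (fun i j => hT (hQ i j)) (fun i => hT (h₀ i)) hu'))
        (hu' k))

end Pool.Agent.PLN
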